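import Mathlib

/-!
# The canonical structure of a group action

`G` acts on `W`. The canonical language has one `n`-ary relation symbol for each `G`-orbit on
`W^n`.  If there are finitely many orbits on each `W^n`, the theory of `W` is `ℵ₀`-categorical.
-/

open FirstOrder FirstOrder.Language Cardinal Set

namespace Pool.Agent.Helper97.Canon

variable (G : Type) (W : Type) [Group G] [MulAction G W]

/-- The canonical language of a group action. -/
def canLang : FirstOrder.Language.{0, 0} :=
  ⟨fun _ => Empty, fun n => MulAction.orbitRel.Quotient G (Fin n → W)⟩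

instance canRelational : (canLang G W).IsRelational :=
  fun _ => (inferInstance : IsEmpty Empty)

/-- The canonical structure: a tuple satisfies `R` iff it lies in the orbit `R`. -/
instance canStr : (canLang G W).Structure W where
  funMap := fun f => Empty.elim f
  RelMap := fun {n} (R : MulAction.orbitRel.Quotient G (Fin n → W)) x => Quotient.mk _ x = R

variable {G W}

/-- The orbit of a tuple, as a relation symbol. -/
def orb {n : ℕ} (x : Fin n → W) : (canLang G W).Relations n :=
  (Quotient.mk _ x : MulAction.orbitRel.Quotient G (Fin n → W))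

theorem relMap_iff {n : ℕ} (R : (canLang G W).Relations n) (x : Fin n → W) :
    Structure.RelMap R x ↔ orb (G := G) x = R := Iff.rfl

theorem orb_surj {n : ℕ} (R : (canLang G W).Relations n) : ∃ x : Fin n → W, orb x = R :=
  Quotient.exists_rep R

theorem orb_eq_iff {n : ℕ} (x y : Fin n → W) :
    orb (G := G) x = orb (G := G) y ↔ ∃ g : G, g • y = x := by
  unfold orb
  erw [Quotient.eq]
  exact MulAction.orbitRel_apply

/-- Every group element is an automorphism of the canonical structure. -/
def aut (g : G) : W ≃[canLang G W] W where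
  toEquiv := MulAction.toPerm g
  map_fun' := fun f => Empty.elim f
  map_rel' := by
    intro n R x
    rw [relMap_iff, relMap_iff]
    have : orb (G := G) ((MulAction.toPerm g : Equiv.Perm W) ∘ x) = orb (G := G) x := by
      rw [orb_eq_iff]
      exact ⟨g, by ext i; rfl⟩
    constructor
    · intro h; rw [← this]; exact h
    · intro h; rw [← h]; exact this

@[simp] theorem aut_apply (g : G) (x : W) : aut g x = g • x := rfl

section transfer

/-- Universally quantified bounded formulas transfer from `W` to all models of its theory. -/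
theorem transfer {n : ℕ} (φ : (canLang G W).BoundedFormula Empty n)
    (h : ∀ x : Fin n → W, φ.Realize default x)
    (N : Type) [(canLang G W).Structure N] [N ⊨ (canLang G W).completeTheory W]
    (x : Fin n → N) : φ.Realize default x := by
  have h1 : W ⊨ (φ.alls : (canLang G W).Sentence) := by
    show Formula.Realize _ _
    rw [BoundedFormula.realize_alls]
    exact h
  have h2 : N ⊨ (φ.alls : (canLang G W).Sentence) :=
    ((realize_iff_of_model_completeTheory W N _).2 h1)
  have h3 : (φ.alls).Realize (default : Empty → N) := h2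
  rw [BoundedFormula.realize_alls] at h3
  exact h3 x

end transfer

section models

variable {N : Type} [(canLang G W).Structure N] [N ⊨ (canLang G W).completeTheory W]

/-- The formula `R (x ∘ f)`. -/
def relF {m n : ℕ} (R : (canLang G W).Relations m) (f : Fin m → Fin n) :
    (canLang G W).BoundedFormula Empty n :=
  R.boundedFormula (fun i => (Term.var (Sum.inr (f i))))

theorem realize_relF {M : Type} [(canLang G W).Structure M] {m n : ℕ}
    (R : (canLang G W).Relations m) (f : Fin m → Fin n) (x : Fin n → M) (v : Empty → M) :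
    (relF R f).Realize v x ↔ Structure.RelMap R (x ∘ f) := by
  unfold relF
  rw [BoundedFormula.realize_rel]
  simp [Function.comp_def]

/-- The orbit of the tuple `x ∘ f`, for `x` in the orbit `R`. -/
noncomputable def mapOrb {m n : ℕ} (f : Fin m → Fin n) (R : (canLang G W).Relations n) :
    (canLang G W).Relations m :=
  orb (G := G) ((orb_surj R).choose ∘ f)

theorem mapOrb_orb {m n : ℕ} (f : Fin m → Fin n) (x : Fin n → W) :
    mapOrb (G := G) f (orb x) = orb (x ∘ f) := by
  unfold mapOrb
  have h := (orb_surj (orb (G := G) x)).choose_spec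
  rw [orb_eq_iff] at h ⊢
  obtain ⟨g, hg⟩ := h
  exact ⟨g, by rw [← hg]; rfl⟩

theorem exists_rel (hfin : ∀ n, Finite ((canLang G W).Relations n)) {n : ℕ} (x : Fin n → N) :
    ∃ R : (canLang G W).Relations n, Structure.RelMap R x := by
  have := hfin n
  have key := transfer (G := G) (W := W) (n := n)
    (BoundedFormula.iSup (fun R : (canLang G W).Relations n => relF R id)) (by
      intro x
      rw [BoundedFormula.realize_iSup]
      refine ⟨orb x, ?_⟩
      rw [realize_relF]
      exact rfl) N x
  rw [BoundedFormula.realize_iSup] at key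
  obtain ⟨R, hR⟩ := key
  rw [realize_relF] at hR
  exact ⟨R, hR⟩

theorem rel_unique {n : ℕ} {x : Fin n → N} {R R' : (canLang G W).Relations n}
    (h : Structure.RelMap R x) (h' : Structure.RelMap R' x) : R = R' := by
  by_contra hne
  have key := transfer (G := G) (W := W) (n := n)
    ((relF R id).imp (relF R' id).not) (by
      intro x
      rw [BoundedFormula.realize_imp, BoundedFormula.realize_not, realize_relF, realize_relF]
      intro h1 h2
      exact hne (h1.symm.trans h2)) N x
  rw [BoundedFormula.realize_imp, BoundedFormula.realize_not, realize_relF, realize_relF] at key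
  exact key h h'

theorem rel_map {m n : ℕ} {x : Fin n → N} {R : (canLang G W).Relations n}
    (h : Structure.RelMap R x) (f : Fin m → Fin n) : Structure.RelMap (mapOrb f R) (x ∘ f) := by
  have key := transfer (G := G) (W := W) (n := n)
    ((relF R id).imp (relF (mapOrb f R) f)) (by
      intro x
      rw [BoundedFormula.realize_imp, realize_relF, realize_relF]
      intro h1
      rw [relMap_iff] at h1 ⊢
      rw [← h1, mapOrb_orb]
      rfl) N x
  rw [BoundedFormula.realize_imp, realize_relF, realize_relF] at key
  exact key h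

/-- The formula `x i = x j`. -/
def eqF {n : ℕ} (i j : Fin n) : (canLang G W).BoundedFormula Empty n :=
  Term.bdEqual (Term.var (Sum.inr i)) (Term.var (Sum.inr j))

theorem realize_eqF {M : Type} [(canLang G W).Structure M] {n : ℕ}
    (i j : Fin n) (x : Fin n → M) (v : Empty → M) :
    (eqF (G := G) (W := W) i j).Realize v x ↔ x i = x j := by
  unfold eqF
  rw [BoundedFormula.realize_bdEqual]
  simp

theorem rel_eq_iff {n : ℕ} {x : Fin n → N} {w : Fin n → W}
    (h : Structure.RelMap (orb (G := G) w) x) (i j : Fin n) : x i = x j ↔ w i = w j := by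
  constructor
  · intro hx
    by_contra hw
    have key := transfer (G := G) (W := W) (n := n)
      ((relF (orb w) id).imp (eqF i j).not) (by
        intro y
        rw [BoundedFormula.realize_imp, BoundedFormula.realize_not, realize_relF, realize_eqF]
        intro h1 h2
        rw [relMap_iff] at h1
        obtain ⟨g, hg⟩ := (orb_eq_iff _ _).1 h1
        apply hw
        have e1 := congrFun hg i
        have e2 := congrFun hg j
        simp only [Pi.smul_apply, Function.comp_apply, id] at e1 e2
        apply MulAction.injective g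
        show g • w i = g • w j
        rw [e1, e2, h2]) N x
    rw [BoundedFormula.realize_imp, BoundedFormula.realize_not, realize_relF, realize_eqF] at key
    exact key h hx
  · intro hw
    have key := transfer (G := G) (W := W) (n := n)
      ((relF (orb w) id).imp (eqF i j)) (by
        intro y
        rw [BoundedFormula.realize_imp, realize_relF, realize_eqF]
        intro h1
        rw [relMap_iff] at h1
        obtain ⟨g, hg⟩ := (orb_eq_iff _ _).1 h1
        have e1 := congrFun hg i
        have e2 := congrFun hg j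
        simp only [Pi.smul_apply, Function.comp_apply, id] at e1 e2
        rw [← e1, ← e2, hw]) N x
    rw [BoundedFormula.realize_imp, realize_relF, realize_eqF] at key
    exact key h

theorem rel_extend {n : ℕ} {x : Fin n → N} {w : Fin n → W}
    (h : Structure.RelMap (orb (G := G) w) x) (a : W) :
    ∃ b : N, Structure.RelMap (orb (G := G) (Fin.snoc w a : Fin (n+1) → W))
      (Fin.snoc x b : Fin (n+1) → N) := by
  have key := transfer (G := G) (W := W) (n := n)
    ((relF (orb w) id).imp (relF (orb (Fin.snoc w a : Fin (n+1) → W)) id).ex) (by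
      intro y
      rw [BoundedFormula.realize_imp, BoundedFormula.realize_ex, realize_relF]
      intro h1
      rw [relMap_iff] at h1
      obtain ⟨g, hg⟩ := (orb_eq_iff _ _).1 h1
      refine ⟨g • a, ?_⟩
      rw [realize_relF, relMap_iff, orb_eq_iff]
      refine ⟨g, ?_⟩
      ext i
      refine Fin.lastCases ?_ (fun j => ?_) i
      · simp
      · have := congrFun hg j
        simp only [Pi.smul_apply, Function.comp_apply, id] at this
        simp [this]) N x
  rw [BoundedFormula.realize_imp, BoundedFormula.realize_ex, realize_relF] at key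
  obtain ⟨b, hb⟩ := key h
  rw [realize_relF] at hb
  exact ⟨b, hb⟩

end models

section backforth

variable {N N' : Type} [(canLang G W).Structure N] [N ⊨ (canLang G W).completeTheory W]
  [(canLang G W).Structure N'] [N' ⊨ (canLang G W).completeTheory W]

/-- Two tuples satisfy the same relation symbol. -/
def SameT (G : Type) (W : Type) [Group G] [MulAction G W] {N N' : Type}
    [(canLang G W).Structure N] [(canLang G W).Structure N'] {n : ℕ}
    (x : Fin n → N) (y : Fin n → N') : Prop :=
  ∃ w : Fin n → W, Structure.RelMap (orb (G := G) w) x ∧ Structure.RelMap (orb (G := G) w) y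

omit [N ⊨ (canLang G W).completeTheory W] [N' ⊨ (canLang G W).completeTheory W] in
theorem SameT.symm {n : ℕ} {x : Fin n → N} {y : Fin n → N'} (h : SameT G W x y) :
    SameT G W y x := by
  obtain ⟨w, h1, h2⟩ := h
  exact ⟨w, h2, h1⟩

theorem SameT.comp {m n : ℕ} {x : Fin n → N} {y : Fin n → N'} (h : SameT G W x y)
    (f : Fin m → Fin n) : SameT G W (x ∘ f) (y ∘ f) := by
  obtain ⟨w, h1, h2⟩ := h
  have h1' := rel_map h1 f
  have h2' := rel_map h2 f
  rw [mapOrb_orb] at h1' h2'
  exact ⟨w ∘ f, h1', h2'⟩

theorem SameT.eq_iff {n : ℕ} {x : Fin n → N} {y : Fin n → N'} (h : SameT G W x y)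
    (i j : Fin n) : x i = x j ↔ y i = y j := by
  obtain ⟨w, h1, h2⟩ := h
  rw [rel_eq_iff h1, rel_eq_iff h2]

theorem SameT.rel_iff {n : ℕ} {x : Fin n → N} {y : Fin n → N'} (h : SameT G W x y)
    (R : (canLang G W).Relations n) : Structure.RelMap R x ↔ Structure.RelMap R y := by
  obtain ⟨w, h1, h2⟩ := h
  constructor
  · intro hR
    rw [rel_unique hR h1]; exact h2
  · intro hR
    rw [rel_unique hR h2]; exact h1

theorem SameT.forth (hfin : ∀ n, Finite ((canLang G W).Relations n)) {n : ℕ}
    {x : Fin n → N} {y : Fin n → N'} (h : SameT G W x y) (a : N) :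
    ∃ b : N', SameT G W (Fin.snoc x a : Fin (n+1) → N) (Fin.snoc y b : Fin (n+1) → N') := by
  obtain ⟨w, h1, h2⟩ := h
  obtain ⟨R, hR⟩ := exists_rel hfin (Fin.snoc x a : Fin (n+1) → N)
  obtain ⟨u, rfl⟩ := orb_surj R
  have h3 := rel_map hR Fin.castSucc
  rw [mapOrb_orb] at h3
  have h4 : (Fin.snoc x a : Fin (n+1) → N) ∘ Fin.castSucc = x := by
    ext i; simp
  rw [h4] at h3
  have h5 := rel_unique h3 h1
  rw [← h5] at h2
  obtain ⟨b, hb⟩ := rel_extend h2 (u (Fin.last n))
  have h6 : (Fin.snoc (u ∘ Fin.castSucc) (u (Fin.last n)) : Fin (n+1) → W) = u := by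
    ext i
    refine Fin.lastCases ?_ (fun j => ?_) i <;> simp
  rw [h6] at hb
  exact ⟨b, u, hR, hb⟩

/-- A set of pairs is good if any finite tuple from it is a partial isomorphism. -/
def Good (G : Type) (W : Type) [Group G] [MulAction G W] {N N' : Type}
    [(canLang G W).Structure N] [(canLang G W).Structure N'] (s : Set (N × N')) : Prop :=
  ∀ (n : ℕ) (f : Fin n → N × N'), (∀ i, f i ∈ s) →
    SameT G W (fun i => (f i).1) (fun i => (f i).2)

theorem Good.extend (hfin : ∀ n, Finite ((canLang G W).Relations n)) {s : Set (N × N')}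
    (hs : Good G W s) (hsf : s.Finite) (a : N) : ∃ b : N', Good G W (insert (a, b) s) := by
  classical
  obtain ⟨t, rfl⟩ := hsf.exists_finset_coe
  let e := t.equivFin
  have h0 := hs t.card (fun i => (e.symm i).1) (fun i => (e.symm i).2)
  obtain ⟨b, hb⟩ := h0.forth hfin a
  refine ⟨b, ?_⟩
  intro n f hf
  let g : Fin n → Fin (t.card + 1) := fun i =>
    if h : f i ∈ t then Fin.castSucc (e ⟨f i, h⟩) else Fin.last _
  have h1 := hb.comp g
  convert h1 using 1
  · ext i
    simp only [Function.comp_apply, g]
    by_cases h : f i ∈ t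
    · simp [h]
    · have h2 : f i = (a, b) := by
        rcases hf i with h3 | h3
        · exact h3
        · exact absurd h3 h
      have h' : (a, b) ∉ t := h2 ▸ h
      simp [h2, h']
  · ext i
    simp only [Function.comp_apply, g]
    by_cases h : f i ∈ t
    · simp [h]
    · have h2 : f i = (a, b) := by
        rcases hf i with h3 | h3
        · exact h3
        · exact absurd h3 h
      have h' : (a, b) ∉ t := h2 ▸ h
      simp [h2, h']

omit [N ⊨ (canLang G W).completeTheory W] [N' ⊨ (canLang G W).completeTheory W] in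
theorem Good.swap {s : Set (N × N')} (hs : Good G W s) : Good G W (Prod.swap ⁻¹' s) := by
  intro n f hf
  have := hs n (fun i => (f i).swap) hf
  exact this.symm

theorem good_empty (hfin : ∀ n, Finite ((canLang G W).Relations n)) :
    Good G W (∅ : Set (N × N')) := by
  intro n f hf
  rcases Nat.eq_zero_or_pos n with h | h
  · subst h
    obtain ⟨R, hR⟩ := exists_rel hfin (fun i => (f i).1)
    obtain ⟨R', hR'⟩ := exists_rel hfin (fun i => (f i).2)
    obtain ⟨u, rfl⟩ := orb_surj R
    obtain ⟨u', rfl⟩ := orb_surj R'
    have : u = u' := Subsingleton.elim _ _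
    subst this
    exact ⟨u, hR, hR'⟩
  · exact absurd (hf ⟨0, h⟩) (by simp)

theorem Good.step (hfin : ∀ n, Finite ((canLang G W).Relations n)) {s : Set (N × N')}
    (hs : Good G W s) (hsf : s.Finite) (a : N) (b : N') :
    ∃ s' : Set (N × N'), Good G W s' ∧ s'.Finite ∧ s ⊆ s' ∧ (∃ y, (a, y) ∈ s') ∧
      (∃ x, (x, b) ∈ s') := by
  obtain ⟨y, hy⟩ := hs.extend hfin hsf a
  have hyf : (insert (a, y) s).Finite := hsf.insert _
  obtain ⟨x, hx⟩ := hy.swap.extend hfin (hyf.preimage (Prod.swap_injective.injOn)) b
  refine ⟨Prod.swap ⁻¹' (insert (b, x) (Prod.swap ⁻¹' (insert (a, y) s))), hx.swap,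
    ((hyf.preimage (Prod.swap_injective.injOn)).insert _).preimage
      (Prod.swap_injective.injOn), ?_, ⟨y, ?_⟩, ⟨x, ?_⟩⟩
  · intro p hp
    right
    simp [hp]
  · right
    simp
  · left
    rfl

theorem exists_iso (hfin : ∀ n, Finite ((canLang G W).Relations n))
    [Countable N] [Nonempty N] [Countable N'] [Nonempty N'] :
    Nonempty (N ≃[canLang G W] N') := by
  classical
  obtain ⟨e, he⟩ := exists_surjective_nat N
  obtain ⟨e', he'⟩ := exists_surjective_nat N'
  let St := {s : Set (N × N') // Good G W s ∧ s.Finite}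
  have hstep : ∀ (s : St) (k : ℕ), ∃ s' : St, s.1 ⊆ s'.1 ∧ (∃ y, (e k, y) ∈ s'.1) ∧
      (∃ x, (x, e' k) ∈ s'.1) := by
    intro s k
    obtain ⟨s', h1, h2, h3⟩ := s.2.1.step hfin s.2.2 (e k) (e' k)
    exact ⟨⟨s', h1, h2⟩, h3⟩
  choose step hs1 hs2 hs3 using hstep
  let F : ℕ → St := fun k => Nat.rec (⟨∅, good_empty hfin, Set.finite_empty⟩ : St)
    (fun k s => step s k) k
  have hF : ∀ k, F (k+1) = step (F k) k := fun k => rfl
  have hmono : Monotone (fun k => (F k).1) := by
    apply monotone_nat_of_le_succ
    intro k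
    show (F k).1 ⊆ (F (k+1)).1
    rw [hF]
    exact hs1 _ _
  let Γ : Set (N × N') := ⋃ k, (F k).1
  have hΓ : Good G W Γ := by
    intro n f hf
    have : ∀ i, ∃ k, f i ∈ (F k).1 := fun i => by
      simpa [Γ] using hf i
    choose k hk using this
    let K := Finset.univ.sup k
    exact (F K).2.1 n f (fun i => hmono (Finset.le_sup (Finset.mem_univ i)) (hk i))
  have hl : ∀ a : N, ∃ b, (a, b) ∈ Γ := by
    intro a
    obtain ⟨k, rfl⟩ := he a
    obtain ⟨y, hy⟩ := hs2 (F k) k
    exact ⟨y, Set.mem_iUnion.2 ⟨k+1, by rw [hF]; exact hy⟩⟩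
  have hr : ∀ b : N', ∃ a, (a, b) ∈ Γ := by
    intro b
    obtain ⟨k, rfl⟩ := he' b
    obtain ⟨x, hx⟩ := hs3 (F k) k
    exact ⟨x, Set.mem_iUnion.2 ⟨k+1, by rw [hF]; exact hx⟩⟩
  choose φ hφ using hl
  choose ψ hψ using hr
  have huniq : ∀ p ∈ Γ, ∀ q ∈ Γ, (p.1 = q.1 ↔ p.2 = q.2) := by
    intro p hp q hq
    have := hΓ 2 ![p, q] (by
      intro i
      fin_cases i
      · exact hp
      · exact hq)
    simpa using this.eq_iff 0 1
  refine ⟨⟨⟨φ, ψ, ?_, ?_⟩, ?_, ?_⟩⟩
  · intro a
    exact ((huniq _ (hφ a) _ (hψ (φ a))).2 rfl).symm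
  · intro b
    exact ((huniq _ (hφ (ψ b)) _ (hψ b)).1 rfl)
  · intro n f
    exact Empty.elim f
  · intro n R x
    have := hΓ n (fun i => (x i, φ (x i))) (fun i => hφ _)
    exact (this.rel_iff R).symm

end backforth

theorem categorical [Countable W] [Infinite W] (hfin : ∀ n, Finite ((canLang G W).Relations n)) :
    Cardinal.Categorical (ℵ₀ : Cardinal.{0}) ((canLang G W).completeTheory W) := by
  intro M N hM hN
  have : Countable M := Cardinal.mk_le_aleph0_iff.1 hM.le
  have : Countable N := Cardinal.mk_le_aleph0_iff.1 hN.le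
  have : Nonempty M := M.nonempty'
  have : Nonempty N := N.nonempty'
  exact exists_iso (G := G) (W := W) (N := M) (N' := N) hfin

end Pool.Agent.Helper97.Canon
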