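import Mathlib

/-!
# Clique graphs and split graphs with a bounded stable side
-/

namespace Pool.Agent.Helper97.CG

/-- The maximal cliques of a graph. -/
def MaxClique {W : Type} (H : SimpleGraph W) : Type :=
  {C : Set W // C.Nonempty ∧ Maximal (fun s => H.IsClique s) C}

/-- The clique graph `K(H)`: its vertices are the maximal cliques of `H`, two (distinct) ones being
adjacent when they share a vertex. -/
def cliqueGraph {W : Type} (H : SimpleGraph W) : SimpleGraph (MaxClique H) where
  Adj C D := C ≠ D ∧ (C.1 ∩ D.1).Nonempty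
  symm := ⟨fun C D h => ⟨h.1.symm, by rw [Set.inter_comm]; exact h.2⟩⟩
  loopless := ⟨fun C h => h.1 rfl⟩

/-- `G` is a clique graph: it is isomorphic to `K(H)` for some finite graph `H`. -/
def IsCliqueGraph {V : Type} (G : SimpleGraph V) : Prop :=
  ∃ (n : ℕ) (H : SimpleGraph (Fin n)), Nonempty (G ≃g cliqueGraph H)

/-- `G` is a split graph whose (normalised) partition `(K, S)` has `|S| ≤ k`: `S` is independent,
its complement `K` is a clique, and each vertex of `K` has a neighbour in `S`. -/
def IsSplitBounded {V : Type} (k : ℕ) (G : SimpleGraph V) : Prop :=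
  ∃ S : Set V, S.encard ≤ k ∧ G.IsIndepSet S ∧ G.IsClique Sᶜ ∧ ∀ x ∉ S, ∃ s ∈ S, G.Adj s x

/-- The adjacency matrix of a graph on `{0, …, n-1}`, written row by row: bit `i * n + j` says
whether `i` and `j` are adjacent. -/
noncomputable def encGraph (G : Σ n : ℕ, SimpleGraph (Fin n)) : List Bool :=
  open Classical in
  (List.range (G.1 * G.1)).map fun t =>
    decide (∃ i j : Fin G.1, t = i * G.1 + j ∧ G.2.Adj i j)

end Pool.Agent.Helper97.CG
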