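import Mathlib
import Pool.Agent.Helper97.CliqueDefs

/-!
# Blowing up vertices of the complete side preserves being a clique graph
-/

namespace Pool.Agent.Helper97.CG

theorem IsCliqueGraph.of_iso {V V' : Type} {G : SimpleGraph V} {G' : SimpleGraph V'}
    (e : G ≃g G') (h : IsCliqueGraph G) : IsCliqueGraph G' := by
  obtain ⟨n, H, ⟨f⟩⟩ := h
  exact ⟨n, H, ⟨e.symm.trans f⟩⟩

/-- The clique graph of an isomorphic graph. -/
theorem cliqueGraph_iso {W W' : Type} {H : SimpleGraph W} {H' : SimpleGraph W'} (e : H ≃g H') :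
    Nonempty (cliqueGraph H ≃g cliqueGraph H') := by
  have key : ∀ {A B : Type} {H : SimpleGraph A} {H' : SimpleGraph B} (e : H ≃g H') (C : Set A),
      C.Nonempty ∧ Maximal (fun s => H.IsClique s) C →
        (e '' C).Nonempty ∧ Maximal (fun s => H'.IsClique s) (e '' C) := by
    intro A B H H' e C hC
    have hcl : ∀ {A B : Type} {H : SimpleGraph A} {H' : SimpleGraph B} (e : H ≃g H') (C : Set A),
        H.IsClique C → H'.IsClique (e '' C) := by
      intro A B H H' e C hC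
      rintro _ ⟨a, ha, rfl⟩ _ ⟨b, hb, rfl⟩ hab
      exact e.map_adj_iff.2 (hC ha hb (fun h => hab (h ▸ rfl)))
    refine ⟨hC.1.image _, hcl e C hC.2.1, ?_⟩
    intro D hD hCD
    have h1 := hC.2.2 (hcl e.symm D hD) (by
      intro a ha
      exact ⟨e a, hCD ⟨a, ha, rfl⟩, e.symm_apply_apply a⟩)
    intro d hd
    exact ⟨e.symm d, h1 ⟨d, hd, rfl⟩, e.apply_symm_apply d⟩
  refine ⟨⟨⟨fun C => ⟨e '' C.1, key e C.1 C.2⟩, fun C => ⟨e.symm '' C.1, key e.symm C.1 C.2⟩,
    ?_, ?_⟩, ?_⟩⟩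
  · intro C
    apply Subtype.ext
    ext a
    constructor
    · rintro ⟨_, ⟨b, hb, rfl⟩, rfl⟩
      simpa using hb
    · intro ha
      exact ⟨e a, ⟨a, ha, rfl⟩, e.symm_apply_apply a⟩
  · intro C
    apply Subtype.ext
    ext a
    constructor
    · rintro ⟨_, ⟨b, hb, rfl⟩, rfl⟩
      simpa using hb
    · intro ha
      exact ⟨e.symm a, ⟨a, ha, rfl⟩, e.apply_symm_apply a⟩
  · intro C D
    show (_ ≠ _ ∧ _) ↔ (_ ≠ _ ∧ _)
    constructor
    · rintro ⟨h1, h2⟩
      refine ⟨fun h => h1 (by rw [h]), ?_⟩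
      obtain ⟨_, ⟨a, ha, rfl⟩, ⟨b, hb, hab⟩⟩ := h2
      have : b = a := e.injective hab
      exact ⟨a, ha, this ▸ hb⟩
    · rintro ⟨h1, h2⟩
      refine ⟨fun h => h1 ?_, ?_⟩
      · apply Subtype.ext
        have := congrArg Subtype.val h
        exact (Set.image_injective.2 e.injective) this
      · obtain ⟨a, ha, hb⟩ := h2
        exact ⟨e a, ⟨a, ha, rfl⟩, ⟨a, hb, rfl⟩⟩

/-- It suffices to find a finite graph of any type. -/
theorem isCliqueGraph_of {V W : Type} [Finite W] {G : SimpleGraph V} {H : SimpleGraph W}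
    (f : G ≃g cliqueGraph H) : IsCliqueGraph G := by
  obtain ⟨n, ⟨e⟩⟩ := Finite.exists_equiv_fin W
  let H' : SimpleGraph (Fin n) := H.map e.toEmbedding
  have e' : H ≃g H' := SimpleGraph.Iso.map e H
  obtain ⟨g⟩ := cliqueGraph_iso e'
  exact ⟨n, H', ⟨f.trans g⟩⟩

/-- The split graph with stable side `α` and complete side `β`, where `b : β` is adjacent to the
elements of `ty b`. -/
def SG {α β : Type} (ty : β → Set α) : SimpleGraph (α ⊕ β) where
  Adj
    | Sum.inl _, Sum.inl _ => False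
    | Sum.inl s, Sum.inr b => s ∈ ty b
    | Sum.inr b, Sum.inl s => s ∈ ty b
    | Sum.inr a, Sum.inr b => a ≠ b
  symm := ⟨by
    rintro (a | a) (b | b) h
    · exact h
    · exact h
    · exact h
    · exact Ne.symm h⟩
  loopless := ⟨by
    rintro (a | a) h
    · exact h
    · exact h rfl⟩

/-- The graph obtained by adding private simplicial vertices to cliques. -/
def addV {W β' : Type} (H : SimpleGraph W) (N : β' → Set W) : SimpleGraph (W ⊕ β') where
  Adj
    | Sum.inl a, Sum.inl b => H.Adj a b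
    | Sum.inl a, Sum.inr b => a ∈ N b
    | Sum.inr b, Sum.inl a => a ∈ N b
    | Sum.inr _, Sum.inr _ => False
  symm := ⟨by
    rintro (a | a) (b | b) h
    · exact H.symm.symm _ _ h
    · exact h
    · exact h
    · exact h⟩
  loopless := ⟨by
    rintro (a | a) h
    · exact H.loopless.irrefl _ h
    · exact h⟩

theorem blow {α β β' : Type} [Finite β'] (ty : β → Set α) (f : β' → β)
    (hf : Function.Surjective f) (h : IsCliqueGraph (SG ty)) : IsCliqueGraph (SG (ty ∘ f)) := by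
  classical
  obtain ⟨n, H, ⟨e⟩⟩ := h
  let C : α ⊕ β → Set (Fin n) := fun v => (e v).1
  have hCne : ∀ v, (C v).Nonempty := fun v => (e v).2.1
  have hCcl : ∀ v, H.IsClique (C v) := fun v => (e v).2.2.1
  have hCmax : ∀ v (D : Set (Fin n)), H.IsClique D → C v ⊆ D → D ⊆ C v :=
    fun v D hD hsub => (e v).2.2.2 hD hsub
  have hCinj : ∀ v w, C v = C w → v = w := fun v w hvw => e.injective (Subtype.ext hvw)
  have hCsub : ∀ v w, C v ⊆ C w → v = w := fun v w hvw =>
    hCinj v w (Set.Subset.antisymm hvw (hCmax v _ (hCcl w) hvw))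
  have hCsurj : ∀ D : Set (Fin n), D.Nonempty → Maximal (fun s => H.IsClique s) D →
      ∃ v, C v = D := by
    intro D h1 h2
    obtain ⟨v, hv⟩ := e.surjective ⟨D, h1, h2⟩
    exact ⟨v, congrArg Subtype.val hv⟩
  have hCadj : ∀ v w, (SG ty).Adj v w ↔ v ≠ w ∧ (C v ∩ C w).Nonempty := by
    intro v w
    rw [← e.map_adj_iff]
    show (_ ≠ _ ∧ _) ↔ _
    rw [Ne, e.injective.eq_iff]
  let H' := addV H (fun b' : β' => C (Sum.inr (f b')))
  let D : α ⊕ β' → Set (Fin n ⊕ β') := fun v => match v with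
    | Sum.inl s => Sum.inl '' C (Sum.inl s)
    | Sum.inr b' => insert (Sum.inr b') (Sum.inl '' C (Sum.inr (f b')))
  -- cliques containing a new vertex
  have hnew : ∀ (Q : Set (Fin n ⊕ β')) (b' : β'), H'.IsClique Q → Sum.inr b' ∈ Q →
      Q ⊆ D (Sum.inr b') := by
    intro Q b' hQ hb x hx
    rcases x with a | c
    · right
      refine ⟨a, ?_, rfl⟩
      exact hQ hx hb (by simp)
    · left
      by_contra hne
      exact hQ hx hb hne
  have hold : ∀ (Q : Set (Fin n ⊕ β')), H'.IsClique Q → (∀ b' : β', Sum.inr b' ∉ Q) →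
      ∃ Q₀ : Set (Fin n), Q = Sum.inl '' Q₀ ∧ H.IsClique Q₀ := by
    intro Q hQ hb
    refine ⟨{a | Sum.inl a ∈ Q}, ?_, ?_⟩
    · ext x
      rcases x with a | c
      · simp
      · simp only [Set.mem_image, reduceCtorEq, and_false, exists_false, iff_false]
        exact hb c
    · intro a ha b hb' hab
      exact hQ ha hb' (fun h => hab (Sum.inl_injective h))
  have hclin : ∀ Q₀ : Set (Fin n), H.IsClique Q₀ → H'.IsClique (Sum.inl '' Q₀) := by
    rintro Q₀ hQ₀ _ ⟨a, ha, rfl⟩ _ ⟨b, hb, rfl⟩ hab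
    exact hQ₀ ha hb (fun h => hab (h ▸ rfl))
  have hDcl : ∀ v, H'.IsClique (D v) := by
    rintro (s | b')
    · exact hclin _ (hCcl _)
    · rintro x hx y hy hxy
      rcases hx with rfl | ⟨a, ha, rfl⟩ <;> rcases hy with rfl | ⟨b, hb, rfl⟩
      · exact absurd rfl hxy
      · exact hb
      · exact ha
      · exact hCcl _ ha hb (fun h => hxy (h ▸ rfl))
  have hDne : ∀ v, (D v).Nonempty := by
    rintro (s | b')
    · exact (hCne _).image _
    · exact ⟨_, Or.inl rfl⟩
  have hDmax : ∀ v, Maximal (fun s => H'.IsClique s) (D v) := by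
    rintro (s | b')
    · refine ⟨hDcl (Sum.inl s), ?_⟩
      intro Q hQ hsub
      have h1 : ∀ b' : β', Sum.inr b' ∉ Q := by
        intro b' hb
        have h2 := hnew Q b' hQ hb
        have h3 : C (Sum.inl s) ⊆ C (Sum.inr (f b')) := by
          intro a ha
          rcases h2 (hsub ⟨a, ha, rfl⟩) with h4 | ⟨c, hc, h4⟩
          · exact absurd h4 (by simp)
          · rwa [← Sum.inl_injective h4]
        exact absurd (hCsub _ _ h3) (by simp)
      obtain ⟨Q₀, rfl, hQ₀⟩ := hold Q hQ h1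
      have h2 : C (Sum.inl s) ⊆ Q₀ := by
        intro a ha
        obtain ⟨c, hc, h4⟩ := hsub ⟨a, ha, rfl⟩
        rwa [← Sum.inl_injective h4]
      exact Set.image_mono (hCmax _ _ hQ₀ h2)
    · refine ⟨hDcl (Sum.inr b'), ?_⟩
      intro Q hQ hsub
      exact hnew Q b' hQ (hsub (Or.inl rfl))
  have hDinj : Function.Injective D := by
    rintro (s | b) (t | c) hst
    · congr 1
      have h1 : C (Sum.inl s) = C (Sum.inl t) := Set.image_injective.2 Sum.inl_injective hst
      exact Sum.inl_injective (hCinj _ _ h1)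
    · exfalso
      have : (Sum.inr c : Fin n ⊕ β') ∈ D (Sum.inl s) := by rw [hst]; exact Or.inl rfl
      obtain ⟨a, -, ha⟩ := this
      exact absurd ha (by simp)
    · exfalso
      have : (Sum.inr b : Fin n ⊕ β') ∈ D (Sum.inl t) := by rw [← hst]; exact Or.inl rfl
      obtain ⟨a, -, ha⟩ := this
      exact absurd ha (by simp)
    · have : (Sum.inr b : Fin n ⊕ β') ∈ D (Sum.inr c) := by rw [← hst]; exact Or.inl rfl
      rcases this with h | ⟨a, -, ha⟩
      · rw [Sum.inr_injective h]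
      · exact absurd ha (by simp)
  have hDsurj : ∀ Q : Set (Fin n ⊕ β'), Q.Nonempty → Maximal (fun s => H'.IsClique s) Q →
      ∃ v, D v = Q := by
    intro Q hne hQ
    by_cases hb : ∃ b', Sum.inr b' ∈ Q
    · obtain ⟨b', hb⟩ := hb
      refine ⟨Sum.inr b', ?_⟩
      have h1 := hnew Q b' hQ.1 hb
      exact Set.Subset.antisymm (hQ.2 (hDcl (Sum.inr b')) h1) h1
    · push Not at hb
      obtain ⟨Q₀, rfl, hQ₀⟩ := hold Q hQ.1 hb
      have h1 : Maximal (fun s => H.IsClique s) Q₀ := by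
        refine ⟨hQ₀, ?_⟩
        intro R hR hsub
        have h2 := hQ.2 (hclin R hR) (Set.image_mono hsub)
        intro a ha
        obtain ⟨c, hc, h4⟩ := h2 ⟨a, ha, rfl⟩
        rwa [← Sum.inl_injective h4]
      have h2 : Q₀.Nonempty := by
        obtain ⟨_, ⟨a, ha, rfl⟩⟩ := hne
        exact ⟨a, ha⟩
      obtain ⟨v, hv⟩ := hCsurj Q₀ h2 h1
      rcases v with s | b
      · exact ⟨Sum.inl s, by rw [← hv]⟩
      · exfalso
        obtain ⟨b', rfl⟩ := hf b
        have h3 : Sum.inl '' Q₀ ⊆ D (Sum.inr b') := by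
          rw [← hv]
          exact Set.subset_insert _ _
        have h4 := hQ.2 (hDcl (Sum.inr b')) h3
        exact hb b' (h4 (Or.inl rfl))
  have hint : ∀ v w, v ≠ w → ((D v ∩ D w).Nonempty ↔ (SG (ty ∘ f)).Adj v w) := by
    have h1 : ∀ s t, s ≠ t → ¬ (D (Sum.inl s) ∩ D (Sum.inl t)).Nonempty := by
      rintro s t hst ⟨_, ⟨a, ha, rfl⟩, ⟨b, hb, hab⟩⟩
      have h2 : b = a := Sum.inl_injective hab
      subst h2
      have := (hCadj (Sum.inl s) (Sum.inl t)).2
        ⟨fun h => hst (Sum.inl_injective h), ⟨b, ha, hb⟩⟩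
      exact this
    have h2 : ∀ s b', (D (Sum.inl s) ∩ D (Sum.inr b')).Nonempty ↔ s ∈ ty (f b') := by
      intro s b'
      have h3 := hCadj (Sum.inl s) (Sum.inr (f b'))
      constructor
      · rintro ⟨_, ⟨a, ha, rfl⟩, hb⟩
        rcases hb with hb | ⟨b, hb, hab⟩
        · exact absurd hb (by simp)
        · have h4 : b = a := Sum.inl_injective hab
          subst h4
          exact h3.2 ⟨by simp, ⟨b, ha, hb⟩⟩
      · intro hs
        obtain ⟨-, a, ha, hb⟩ := h3.1 hs
        exact ⟨Sum.inl a, ⟨a, ha, rfl⟩, Or.inr ⟨a, hb, rfl⟩⟩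
    rintro (s | b) (t | c) hvw
    · constructor
      · intro h
        exact absurd h (h1 s t (fun h => hvw (h ▸ rfl)))
      · intro h
        exact absurd h id
    · exact h2 s c
    · rw [Set.inter_comm]
      exact h2 t b
    · constructor
      · intro _
        exact fun h => hvw (h ▸ rfl)
      · intro _
        by_cases hbc : f b = f c
        · obtain ⟨a, ha⟩ := hCne (Sum.inr (f b))
          exact ⟨Sum.inl a, Or.inr ⟨a, ha, rfl⟩, Or.inr ⟨a, hbc ▸ ha, rfl⟩⟩
        · obtain ⟨-, a, ha, hb⟩ := (hCadj (Sum.inr (f b)) (Sum.inr (f c))).1 hbc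
          exact ⟨Sum.inl a, Or.inr ⟨a, ha, rfl⟩, Or.inr ⟨a, hb, rfl⟩⟩
  let E : α ⊕ β' → MaxClique H' := fun v => ⟨D v, hDne v, hDmax v⟩
  have hE : Function.Bijective E := by
    constructor
    · intro v w hvw
      exact hDinj (congrArg Subtype.val hvw)
    · rintro ⟨Q, h1, h2⟩
      obtain ⟨v, hv⟩ := hDsurj Q h1 h2
      exact ⟨v, Subtype.ext hv⟩
  refine isCliqueGraph_of (H := H') ⟨Equiv.ofBijective E hE, ?_⟩
  intro v w
  show (E v ≠ E w ∧ (D v ∩ D w).Nonempty) ↔ _
  constructor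
  · rintro ⟨h1, h2⟩
    exact (hint v w (fun h => h1 (by rw [h]))).1 h2
  · intro h
    have hne : v ≠ w := (SG (ty ∘ f)).ne_of_adj h
    exact ⟨fun h1 => hne (hE.1 h1), (hint v w hne).2 h⟩

end Pool.Agent.Helper97.CG
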