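import Mathlib
import Pool.Agent.Helper97.CliqueBlow

/-!
# Finitely many thresholds
-/

namespace Pool.Agent.Helper97.CG

/-- Number of vertices of the complete side with a given neighbourhood. -/
noncomputable def mult {α β : Type} (ty : β → Set α) (T : Set α) : ℕ := Nat.card {b // ty b = T}

theorem exists_surj {α β β' : Type} [Finite β] [Finite β'] (ty : β → Set α) (ty' : β' → Set α)
    (h1 : ∀ T, mult ty T ≤ mult ty' T) (h2 : ∀ T, mult ty T = 0 → mult ty' T = 0) :
    ∃ f : β' → β, Function.Surjective f ∧ ty ∘ f = ty' := by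
  classical
  have key : ∀ T, ∃ g : {b // ty' b = T} → {b // ty b = T}, Function.Surjective g := by
    intro T
    by_cases h0 : mult ty T = 0
    · have h3 := h2 T h0
      unfold mult at h0 h3
      rw [Finite.card_eq_zero_iff] at h0 h3
      exact ⟨fun x => (h3.false x).elim, fun y => (h0.false y).elim⟩
    · have h3 := h1 T
      unfold mult at h0 h3
      have hne : Nonempty {b // ty b = T} := by
        by_contra hne
        rw [not_nonempty_iff] at hne
        exact h0 (by simp)
      have := Fintype.ofFinite {b // ty b = T}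
      have := Fintype.ofFinite {b // ty' b = T}
      rw [Nat.card_eq_fintype_card, Nat.card_eq_fintype_card] at h3
      obtain ⟨g⟩ := Function.Embedding.nonempty_of_card_le h3
      exact ⟨Function.invFun g, Function.invFun_surjective g.injective⟩
  choose g hg using key
  refine ⟨fun b => (g (ty' b) ⟨b, rfl⟩).1, ?_, ?_⟩
  · intro b
    obtain ⟨⟨b', hb'⟩, h⟩ := hg (ty b) ⟨b, rfl⟩
    refine ⟨b', ?_⟩
    have h4 : ∀ T (h : ty' b' = T), (g (ty' b') ⟨b', rfl⟩).1 = (g T ⟨b', h⟩).1 := by
      rintro T rfl; rfl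
    show (g (ty' b') ⟨b', rfl⟩).1 = b
    rw [h4 _ hb', h]
  · funext b
    exact (g (ty' b) ⟨b, rfl⟩).2

theorem yes_mono {α β β' : Type} [Finite β] [Finite β'] (ty : β → Set α) (ty' : β' → Set α)
    (h1 : ∀ T, mult ty T ≤ mult ty' T) (h2 : ∀ T, mult ty T = 0 → mult ty' T = 0)
    (h : IsCliqueGraph (SG ty)) : IsCliqueGraph (SG ty') := by
  obtain ⟨f, hf, rfl⟩ := exists_surj ty ty' h1 h2
  exact blow ty f hf h

theorem mult_comp_equiv {α β β' : Type} (ty : β → Set α) (e : β' ≃ β) :
    mult (ty ∘ e) = mult ty := by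
  funext T
  unfold mult
  exact Nat.card_congr (e.subtypeEquiv (fun _ => Iff.rfl))

/-- For each `α` there is a finite set of thresholds deciding which split graphs with stable side
`α` are clique graphs. -/
theorem exists_thresholds (α : Type) [Finite α] : ∃ B : Set (Set α → ℕ), B.Finite ∧
    ∀ (β : Type) [Finite β] (ty : β → Set α), IsCliqueGraph (SG ty) ↔
      ∃ b ∈ B, (∀ T, b T ≤ mult ty T) ∧ (∀ T, b T = 0 → mult ty T = 0) := by
  classical
  let Y : Set (Set α → ℕ) :=
    {m | ∃ (r : ℕ) (ty : Fin r → Set α), mult ty = m ∧ IsCliqueGraph (SG ty)}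
  let P : Set (Set α) → (Set α → ℕ) → Prop := fun σ m => m ∈ Y ∧ {T | m T ≠ 0} = σ
  refine ⟨⋃ σ : Set (Set α), {m | Minimal (P σ) m}, ?_, ?_⟩
  · apply Set.finite_iUnion
    intro σ
    exact WellQuasiOrderedLE.finite_of_isAntichain (setOfPred_minimal_antichain _)
  · intro β _ ty
    constructor
    · intro h
      obtain ⟨r, ⟨e⟩⟩ := Finite.exists_equiv_fin β
      have hY : mult ty ∈ Y := by
        refine ⟨r, ty ∘ e.symm, mult_comp_equiv ty e.symm, ?_⟩
        exact blow ty e.symm e.symm.surjective h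
      obtain ⟨b, hb1, hb2⟩ := exists_minimal_le_of_wellFoundedLT (P {T | mult ty T ≠ 0})
        (mult ty) ⟨hY, rfl⟩
      refine ⟨b, Set.mem_iUnion.2 ⟨_, hb2⟩, hb1, ?_⟩
      intro T hT
      by_contra h3
      have h4 := hb2.1.2
      have h5 : T ∈ {T | b T ≠ 0} := by
        rw [h4]; exact h3
      exact h5 hT
    · rintro ⟨b, hb, h1, h2⟩
      obtain ⟨σ, hσ⟩ := Set.mem_iUnion.1 hb
      obtain ⟨r, ty₀, rfl, h3⟩ := hσ.1.1
      exact yes_mono ty₀ ty h1 h2 h3

/-- Every split graph with an enumeration of its stable side is of the form `SG ty`. -/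
theorem iso_SG {V α : Type} (G : SimpleGraph V) (s : α → V) (hs : Function.Injective s)
    (hind : ∀ i j, ¬ G.Adj (s i) (s j))
    (hcl : ∀ x y, x ∉ Set.range s → y ∉ Set.range s → x ≠ y → G.Adj x y) :
    Nonempty (SG (fun x : {x // x ∉ Set.range s} => {i | G.Adj (s i) x.1}) ≃g G) := by
  classical
  let F : α ⊕ {x // x ∉ Set.range s} → V := Sum.elim s Subtype.val
  have hF : Function.Bijective F := by
    constructor
    · rintro (i | x) (j | y) h
      · exact congrArg Sum.inl (hs h)
      · exact absurd ⟨i, h⟩ y.2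
      · exact absurd ⟨j, h.symm⟩ x.2
      · exact congrArg Sum.inr (Subtype.ext h)
    · intro v
      by_cases hv : v ∈ Set.range s
      · obtain ⟨i, rfl⟩ := hv
        exact ⟨Sum.inl i, rfl⟩
      · exact ⟨Sum.inr ⟨v, hv⟩, rfl⟩
  refine ⟨⟨Equiv.ofBijective F hF, ?_⟩⟩
  rintro (i | x) (j | y)
  · constructor
    · intro h; exact hind i j h
    · intro h; exact absurd h id
  · exact Iff.rfl
  · show G.Adj x.1 (s j) ↔ G.Adj (s j) x.1
    exact G.adj_comm _ _
  · show G.Adj x.1 y.1 ↔ x ≠ y
    constructor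
    · rintro h rfl
      exact G.loopless.irrefl _ h
    · intro h
      exact hcl _ _ x.2 y.2 (fun h' => h (Subtype.ext h'))

end Pool.Agent.Helper97.CG
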