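import Mathlib
import Pool.Agent.Helper97.CliqueDickson
import Pool.Agent.Helper96.Complexity

/-!
# Polynomial-time recognition
-/

set_option autoImplicit false

namespace Pool.Agent.Helper97.CG

open Pool.Agent.Helper96

/-- Bit `a * n + b` of the first input. -/
def Adjb (X : Inp) (n a b : ℕ) : Prop := (X false)[a * n + b]? = some true

theorem defP_Adjb {f g h : Inp → (ℕ → ℕ) → ℕ} (hf : Def f) (hg : Def g) (hh : Def h) :
    DefP fun X v => Adjb X (f X v) (g X v) (h X v) :=
  DefP.bit false ((hg.mul hf).add hh)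

/-- Appending a tuple to an environment. -/
def app {m : ℕ} (s : Fin m → ℕ) (v : ℕ → ℕ) : ℕ → ℕ :=
  fun j => if h : j < m then s ⟨j, h⟩ else v (j - m)

theorem app_zero (s : Fin 0 → ℕ) (v : ℕ → ℕ) : app s v = v := by
  funext j
  simp [app]

theorem app_succ {m : ℕ} (s : Fin (m + 1) → ℕ) (v : ℕ → ℕ) :
    app s v = cons (s 0) (app (fun i => s i.succ) v) := by
  funext j
  cases j with
  | zero => simp [app]
  | succ j =>
    rw [cons_succ]
    unfold app
    by_cases h : j < m
    · have h' : j + 1 < m + 1 := by omega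
      rw [dif_pos h, dif_pos h']
      rfl
    · have h' : ¬ j + 1 < m + 1 := by omega
      rw [dif_neg h, dif_neg h']
      congr 1
      omega

theorem app_add {m : ℕ} (s : Fin m → ℕ) (v : ℕ → ℕ) (j : ℕ) : app s v (j + m) = v j := by
  unfold app
  rw [dif_neg (by omega)]
  congr 1
  omega

theorem app_lt {m : ℕ} (s : Fin m → ℕ) (v : ℕ → ℕ) (i : Fin m) : app s v i = s i := by
  unfold app
  rw [dif_pos i.2]

/-- Bounded existential quantification over a tuple of fixed length. -/
theorem defP_exTuple (m : ℕ) : ∀ (f : Inp → (ℕ → ℕ) → ℕ) (P : Inp → (ℕ → ℕ) → Prop), Def f →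
    DefP P → DefP fun X v => ∃ s : Fin m → ℕ, (∀ i, s i < f X v) ∧ P X (app s v) := by
  induction m with
  | zero =>
    intro f P _ hP
    refine hP.congr fun X v => ?_
    constructor
    · intro h
      exact ⟨fun i => i.elim0, fun i => i.elim0, by rw [app_zero]; exact h⟩
    · rintro ⟨s, -, h⟩
      rwa [app_zero] at h
  | succ m ih =>
    intro f P hf hP
    have h1 : Def fun X w => f X (fun j => w (j + m)) := hf.rename (fun j => j + m)
    refine (ih f (fun X w => ∃ i < f X (fun j => w (j + m)), P X (cons i w)) hf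
      (DefP.ex h1 hP)).congr fun X v => ?_
    constructor
    · rintro ⟨s, hs, i, hi, h⟩
      have h2 : (fun j => app s v (j + m)) = v := by
        funext j; exact app_add s v j
      rw [h2] at hi
      refine ⟨Fin.cons i s, ?_, ?_⟩
      · intro j
        refine Fin.cases ?_ (fun j => ?_) j
        · simpa using hi
        · simpa using hs j
      · rw [app_succ]
        simpa using h
    · rintro ⟨s, hs, h⟩
      refine ⟨fun i => s i.succ, fun i => hs _, s 0, ?_, ?_⟩
      · have h2 : (fun j => app (fun i : Fin m => s i.succ) v (j + m)) = v := by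
          funext j; exact app_add _ v j
        rw [h2]
        exact hs 0
      · rw [← app_succ]
        exact h

open Classical in
/-- Number of vertices outside the tuple with neighbourhood `T` in it. -/
noncomputable def cnt (k : ℕ) (X : Inp) (w : ℕ → ℕ) (T : Set (Fin k)) : ℕ :=
  ∑ x ∈ Finset.range (w k), if (∀ i : Fin k, x ≠ w i) ∧
    (∀ i : Fin k, (Adjb X (w k) (w i) x ↔ i ∈ T)) then 1 else 0

theorem def_cnt (k : ℕ) (T : Set (Fin k)) : Def fun X w => cnt k X w T := by
  classical
  have h1 : DefP fun X v => (∀ i : Fin k, v 0 ≠ v (i + 1)) ∧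
    (∀ i : Fin k, (Adjb X (v (k + 1)) (v (i + 1)) (v 0) ↔ i ∈ T)) := by
    refine DefP.and ?_ ?_
    · exact DefP.forall_finite fun i => (DefP.eq (Def.var 0) (Def.var (i + 1))).not
    · exact DefP.forall_finite fun i =>
        (defP_Adjb (Def.var (k + 1)) (Def.var (i + 1)) (Def.var 0)).iff (DefP.const _)
  refine (Def.sum (Def.var k) h1).congr fun X v => ?_
  unfold cnt
  refine Finset.sum_congr rfl fun x _ => ?_
  by_cases h : (∀ i : Fin k, x ≠ v i) ∧ (∀ i : Fin k, (Adjb X (v k) (v i) x ↔ i ∈ T))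
  · rw [if_pos h]
    exact if_pos h
  · rw [if_neg h]
    exact if_neg h

/-- The recognition condition for a fixed enumeration of the stable side. -/
def Phi (k : ℕ) (B : Set (Set (Fin k) → ℕ)) (X : Inp) (w : ℕ → ℕ) : Prop :=
  (∀ i j : Fin k, i ≠ j → w i ≠ w j) ∧
  (∀ i j : Fin k, ¬ Adjb X (w k) (w i) (w j)) ∧
  (∀ x < w k, ∀ y < w k, (∀ i : Fin k, x ≠ w i) → (∀ i : Fin k, y ≠ w i) → x ≠ y →
    Adjb X (w k) x y) ∧
  (∀ x < w k, (∀ i : Fin k, x ≠ w i) → ∃ i : Fin k, Adjb X (w k) (w i) x) ∧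
  ∃ b : B, ∀ T : Set (Fin k), b.1 T ≤ cnt k X w T ∧ (b.1 T = 0 → cnt k X w T = 0)

theorem defP_Phi (k : ℕ) (B : Set (Set (Fin k) → ℕ)) (hB : B.Finite) :
    DefP fun X w => Phi k B X w := by
  have : Finite B := hB
  unfold Phi
  refine DefP.and ?_ (DefP.and ?_ (DefP.and ?_ (DefP.and ?_ ?_)))
  · exact DefP.forall_finite fun i => DefP.forall_finite fun j =>
      (DefP.const _).imp (DefP.eq (Def.var i) (Def.var j)).not
  · exact DefP.forall_finite fun i => DefP.forall_finite fun j =>
      (defP_Adjb (Def.var k) (Def.var i) (Def.var j)).not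
  · have h1 : DefP fun X v => (∀ i : Fin k, v 1 ≠ v (i + 2)) →
        (∀ i : Fin k, v 0 ≠ v (i + 2)) → v 1 ≠ v 0 → Adjb X (v (k + 2)) (v 1) (v 0) := by
      refine DefP.imp ?_ (DefP.imp ?_ (DefP.imp ?_ ?_))
      · exact DefP.forall_finite fun i => (DefP.eq (Def.var 1) (Def.var (i + 2))).not
      · exact DefP.forall_finite fun i => (DefP.eq (Def.var 0) (Def.var (i + 2))).not
      · exact (DefP.eq (Def.var 1) (Def.var 0)).not
      · exact defP_Adjb (Def.var (k + 2)) (Def.var 1) (Def.var 0)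
    exact (DefP.all (Def.var k) (DefP.all (Def.var (k + 1)) h1)).congr fun X v => Iff.rfl
  · have h1 : DefP fun X v => (∀ i : Fin k, v 0 ≠ v (i + 1)) →
        ∃ i : Fin k, Adjb X (v (k + 1)) (v (i + 1)) (v 0) := by
      refine DefP.imp ?_ ?_
      · exact DefP.forall_finite fun i => (DefP.eq (Def.var 0) (Def.var (i + 1))).not
      · exact DefP.exists_finite fun i =>
          defP_Adjb (Def.var (k + 1)) (Def.var (i + 1)) (Def.var 0)
    exact (DefP.all (Def.var k) h1).congr fun X v => Iff.rfl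
  · exact DefP.exists_finite fun b => DefP.forall_finite fun T =>
      (DefP.le (Def.const _) (def_cnt k T)).and
        ((DefP.const _).imp (DefP.eq (def_cnt k T) (Def.const 0)))

theorem length_encGraph (G : Σ n : ℕ, SimpleGraph (Fin n)) :
    (encGraph G).length = G.1 * G.1 := by
  simp [encGraph]

theorem adjb_enc (G : Σ n : ℕ, SimpleGraph (Fin n)) (i j : Fin G.1) :
    Adjb (inp1 (encGraph G)) G.1 i j ↔ G.2.Adj i j := by
  classical
  unfold Adjb encGraph
  rw [inp1_false, List.getElem?_map]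
  have hlt : i.1 * G.1 + j.1 < G.1 * G.1 := by
    have h1 := i.2
    have h2 := j.2
    calc i.1 * G.1 + j.1 < i.1 * G.1 + G.1 := by omega
      _ = (i.1 + 1) * G.1 := by ring
      _ ≤ G.1 * G.1 := Nat.mul_le_mul_right _ h1
  rw [List.getElem?_range hlt]
  simp only [Option.map_some, Option.some.injEq, decide_eq_true_eq]
  constructor
  · rintro ⟨i', j', h, hadj⟩
    have hn : 0 < G.1 := lt_of_le_of_lt (Nat.zero_le _) i.2
    have h1 : i.1 = i'.1 := by
      have e1 : (i.1 * G.1 + j.1) / G.1 = i.1 := by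
        rw [mul_comm, Nat.mul_add_div hn, Nat.div_eq_of_lt j.2, add_zero]
      have e2 : (i'.1 * G.1 + j'.1) / G.1 = i'.1 := by
        rw [mul_comm, Nat.mul_add_div hn, Nat.div_eq_of_lt j'.2, add_zero]
      rw [← e1, h, e2]
    have h2 : j.1 = j'.1 := by
      rw [h1] at h
      omega
    rw [Fin.ext h1, Fin.ext h2]
    exact hadj
  · intro h
    exact ⟨i, j, rfl, h⟩

/-- The predicate on strings. -/
def Rec (k : ℕ) (B : ∀ k' : ℕ, Set (Set (Fin k') → ℕ)) (X : Inp) : Prop :=
  ∃ n < (X false).length + 1, n * n = (X false).length ∧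
    ∃ k' : Fin (k + 1), ∃ s : Fin k' → ℕ, (∀ i, s i < n) ∧
      Phi k' (B k') X (app s (cons n (fun _ => 0)))

theorem defP_Rec (k : ℕ) (B : ∀ k' : ℕ, Set (Set (Fin k') → ℕ)) (hB : ∀ k', (B k').Finite) :
    DefP fun X _ => Rec k B X := by
  unfold Rec
  have h1 : ∀ k' : Fin (k + 1), DefP fun X v => ∃ s : Fin k' → ℕ, (∀ i, s i < v 0) ∧
      Phi k' (B k') X (app s v) := fun k' =>
    defP_exTuple k' (fun _ v => v 0) _ (Def.var 0) (defP_Phi k' (B k') (hB k'))
  have h2 : DefP fun X v => v 0 * v 0 = (X false).length ∧ ∃ k' : Fin (k + 1),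
      ∃ s : Fin k' → ℕ, (∀ i, s i < v 0) ∧ Phi k' (B k') X (app s v) :=
    (DefP.eq ((Def.var 0).mul (Def.var 0)) (Def.len false)).and (DefP.exists_finite h1)
  have h3 := DefP.ex ((Def.len false).add (Def.const 1)) h2
  refine (DefP.subst (g := fun _ _ _ => 0) h3 (fun _ => Def.const 0)).congr fun X v => ?_
  exact Iff.rfl

theorem cnt_eq (G : Σ n : ℕ, SimpleGraph (Fin n)) (k : ℕ) (s : Fin k → Fin G.1)
    (w : ℕ → ℕ) (hw : w k = G.1) (hs : ∀ i : Fin k, w i = s i) (T : Set (Fin k)) :
    cnt k (inp1 (encGraph G)) w T =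
      mult (fun x : {x // x ∉ Set.range s} => {i | G.2.Adj (s i) x.1}) T := by
  classical
  unfold cnt mult
  rw [hw, ← Fin.sum_univ_eq_sum_range (fun x => if (∀ i : Fin k, x ≠ w i) ∧
    (∀ i : Fin k, (Adjb (inp1 (encGraph G)) G.1 (w i) x ↔ i ∈ T)) then 1 else 0)]
  rw [Finset.sum_boole]
  simp only [Nat.cast_id]
  rw [← Fintype.card_subtype, ← Nat.card_eq_fintype_card]
  apply Nat.card_congr
  refine ⟨fun x => ⟨⟨x.1, ?_⟩, ?_⟩, fun x => ⟨x.1.1, ?_⟩, fun x => rfl, fun x => rfl⟩
  · rintro ⟨i, hi⟩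
    apply x.2.1 i
    rw [hs, hi]
  · ext i
    have := x.2.2 i
    rw [hs, adjb_enc] at this
    exact this
  · constructor
    · intro i hi
      apply x.1.2
      refine ⟨i, Fin.ext ?_⟩
      rw [hi, hs]
    · intro i
      rw [hs, adjb_enc]
      have := x.2
      exact Set.ext_iff.1 this i

theorem rec_iff (k : ℕ) (B : ∀ k' : ℕ, Set (Set (Fin k') → ℕ))
    (hB : ∀ (k' : ℕ) (β : Type) [Finite β] (ty : β → Set (Fin k')), IsCliqueGraph (SG ty) ↔
      ∃ b ∈ B k', (∀ T, b T ≤ mult ty T) ∧ (∀ T, b T = 0 → mult ty T = 0))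
    (G : Σ n : ℕ, SimpleGraph (Fin n)) :
    Rec k B (inp1 (encGraph G)) ↔ IsSplitBounded k G.2 ∧ IsCliqueGraph G.2 := by
  classical
  constructor
  · rintro ⟨n, -, hn, k', s, hs, h⟩
    rw [inp1_false, length_encGraph] at hn
    have hnG : n = G.1 := by
      rcases lt_trichotomy n G.1 with h1 | h1 | h1
      · exact absurd hn (Nat.mul_self_lt_mul_self h1).ne
      · exact h1
      · exact absurd hn (Nat.mul_self_lt_mul_self h1).ne'
    subst hnG
    let s' : Fin k' → Fin G.1 := fun i => ⟨s i, hs i⟩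
    set w := app s (cons G.1 (fun _ => 0)) with hw
    have hwk : w k' = G.1 := by
      have := app_add s (cons G.1 (fun _ => 0)) 0
      rw [zero_add] at this
      exact this
    have hwi : ∀ i : Fin k', w i = s' i := fun i => app_lt s _ i
    obtain ⟨h1, h2, h3, h4, ⟨b, hb⟩, h5⟩ := h
    have hinj : Function.Injective s' := by
      intro i j hij
      by_contra hne
      apply h1 i j hne
      rw [hwi, hwi, hij]
    have hind : ∀ i j, ¬ G.2.Adj (s' i) (s' j) := by
      intro i j hadj
      apply h2 i j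
      rw [hwk, hwi, hwi, adjb_enc]
      exact hadj
    have hout : ∀ x : Fin G.1, x ∉ Set.range s' → ∀ i : Fin k', x.1 ≠ w i := by
      intro x hx i hi
      apply hx
      exact ⟨i, Fin.ext (by rw [hi, hwi])⟩
    have hcl : ∀ x y, x ∉ Set.range s' → y ∉ Set.range s' → x ≠ y → G.2.Adj x y := by
      intro x y hx hy hxy
      have := h3 x.1 (by rw [hwk]; exact x.2) y.1 (by rw [hwk]; exact y.2) (hout x hx)
        (hout y hy) (fun h => hxy (Fin.ext h))
      rw [hwk, adjb_enc] at this
      exact this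
    have hnorm : ∀ x ∉ Set.range s', ∃ t ∈ Set.range s', G.2.Adj t x := by
      intro x hx
      obtain ⟨i, hi⟩ := h4 x.1 (by rw [hwk]; exact x.2) (hout x hx)
      rw [hwk, hwi, adjb_enc] at hi
      exact ⟨s' i, ⟨i, rfl⟩, hi⟩
    refine ⟨⟨Set.range s', ?_, ?_, ?_, hnorm⟩, ?_⟩
    · rw [← Set.image_univ, hinj.injOn.encard_image, Set.encard_univ]
      simp only [ENat.card_eq_coe_fintype_card, Fintype.card_fin]
      have := k'.2
      exact_mod_cast Nat.lt_succ_iff.1 this
    · rintro _ ⟨i, rfl⟩ _ ⟨j, rfl⟩ _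
      exact hind i j
    · intro x hx y hy hxy
      exact hcl x y hx hy hxy
    · obtain ⟨e⟩ := iso_SG G.2 s' hinj hind hcl
      refine IsCliqueGraph.of_iso e ((hB k' _ _).2 ⟨b, hb, ?_, ?_⟩)
      · intro T
        have := (h5 T).1
        rw [cnt_eq G k' s' w hwk hwi] at this
        exact this
      · intro T hT
        have := (h5 T).2 hT
        rw [cnt_eq G k' s' w hwk hwi] at this
        exact this
  · rintro ⟨⟨S, hSk, hSi, hSc, hSn⟩, hG⟩
    -- enumerate S
    have hSf : S.Finite := Set.finite_of_encard_le_coe hSk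
    obtain ⟨t, rfl⟩ := hSf.exists_finset_coe
    rw [Set.encard_coe_eq_coe_finsetCard] at hSk
    have hk : t.card < k + 1 := by
      have : t.card ≤ k := by exact_mod_cast hSk
      omega
    let e := t.equivFin
    let s' : Fin t.card → Fin G.1 := fun i => (e.symm i).1
    have hrange : Set.range s' = (t : Set (Fin G.1)) := by
      ext x
      constructor
      · rintro ⟨i, rfl⟩
        exact (e.symm i).2
      · intro hx
        exact ⟨e ⟨x, hx⟩, by simp [s']⟩
    have hinj : Function.Injective s' := by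
      intro i j hij
      exact e.symm.injective (Subtype.ext hij)
    refine ⟨G.1, ?_, ?_, ⟨t.card, hk⟩, fun i => (s' i).1, fun i => (s' i).2, ?_⟩
    · rw [inp1_false, length_encGraph]
      nlinarith [Nat.zero_le G.1, sq_nonneg (G.1 : ℤ), Nat.le_mul_self G.1]
    · rw [inp1_false, length_encGraph]
    · set w := app (fun i : Fin t.card => (s' i).1) (cons G.1 (fun _ => 0)) with hw
      have hwk : w t.card = G.1 := by
        have := app_add (fun i : Fin t.card => (s' i).1) (cons G.1 (fun _ => 0)) 0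
        rw [zero_add] at this
        exact this
      have hwi : ∀ i : Fin t.card, w i = s' i := fun i => app_lt _ _ i
      have hind : ∀ i j, ¬ G.2.Adj (s' i) (s' j) := by
        intro i j hadj
        have hi : s' i ∈ (t : Set (Fin G.1)) := by rw [← hrange]; exact ⟨i, rfl⟩
        have hj : s' j ∈ (t : Set (Fin G.1)) := by rw [← hrange]; exact ⟨j, rfl⟩
        exact hSi hi hj (G.2.ne_of_adj hadj) hadj
      have hcl : ∀ x y, x ∉ Set.range s' → y ∉ Set.range s' → x ≠ y → G.2.Adj x y := by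
        intro x y hx hy hxy
        rw [hrange] at hx hy
        exact hSc hx hy hxy
      have hout : ∀ x (hx : x < G.1), (∀ i : Fin t.card, x ≠ w i) →
          (⟨x, hx⟩ : Fin G.1) ∉ Set.range s' := by
        rintro x hx h ⟨i, hi⟩
        apply h i
        rw [hwi, hi]
      refine ⟨?_, ?_, ?_, ?_, ?_⟩
      · intro i j hij h
        rw [hwi, hwi] at h
        exact hij (hinj (Fin.ext h))
      · intro i j h
        rw [hwk, hwi, hwi, adjb_enc] at h
        exact hind i j h
      · intro x hx y hy h1 h2 hxy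
        rw [hwk] at hx hy ⊢
        have := hcl ⟨x, hx⟩ ⟨y, hy⟩ (hout x hx h1) (hout y hy h2)
          (fun h => hxy (congrArg Fin.val h))
        exact (adjb_enc G ⟨x, hx⟩ ⟨y, hy⟩).2 this
      · intro x hx h1
        rw [hwk] at hx ⊢
        have h2 := hout x hx h1
        rw [hrange] at h2
        obtain ⟨y, hy, hadj⟩ := hSn ⟨x, hx⟩ h2
        rw [← hrange] at hy
        obtain ⟨i, rfl⟩ := hy
        refine ⟨i, ?_⟩
        rw [hwi]
        exact (adjb_enc G (s' i) ⟨x, hx⟩).2 hadj
      · obtain ⟨f⟩ := iso_SG G.2 s' hinj hind hcl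
        obtain ⟨b, hb, h1, h2⟩ := (hB t.card _ _).1 (IsCliqueGraph.of_iso f.symm hG)
        refine ⟨⟨b, hb⟩, fun T => ?_⟩
        rw [cnt_eq G t.card s' w hwk hwi]
        exact ⟨h1 T, h2 T⟩

/-- A definable property of the encoding is decidable in polynomial time. -/
theorem polyTime_prop {α : Type} (ea : α → List Bool) (Q : α → Prop) [DecidablePred Q]
    {P : Inp → Prop} (hP : DefP fun X _ => P X) (h : ∀ a, P (inp1 (ea a)) ↔ Q a) :
    PolyTime ea encBool (fun a => decide (Q a)) := by
  classical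
  obtain ⟨B, hB⟩ := hP
  refine polyTime_gen (fun b : Bool => (false, b)) ea encBool _
    (.const 1) (.const 1) B fun z => ?_
  have : (fun i => proj (fun b : Bool => (false, b)) i (ea z)) = inp1 (ea z) := by
    funext i; exact proj_inp1 (ea z) i
  rw [this]
  simp [genOut, Exp.eval, encBool, hB, h]

end Pool.Agent.Helper97.CG
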