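import Pool.Agent.Helper97.EcfSO

/-!
# Definability in second-order arithmetic
-/

namespace Pool.Agent.Helper97.Ecf

/-- The ternary relation variables 0 and 1 denote addition and multiplication of natural
numbers. -/
def Ar (U : ℕ → ℕ → List ℕ → Prop) : Prop :=
  (∀ a b c, U 3 0 [a, b, c] ↔ a + b = c) ∧ ∀ a b c, U 3 1 [a, b, c] ↔ a * b = c

/-- Definability in second-order arithmetic: there is a second-order formula which, when the
domain is the set of natural numbers and the ternary relation variables 0 and 1 denote addition
and multiplication, is true exactly when the value of the element variable 0 belongs to `S`. -/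
def Analytical (S : ℕ → Prop) : Prop :=
  ∃ a : SO, ∀ (v : ℕ → ℕ) (U : ℕ → ℕ → List ℕ → Prop), Ar U → (S (v 0) ↔ a.eval v U)

end Pool.Agent.Helper97.Ecf
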