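import Pool.Agent.Helper97.EcfAna0

/-!
# Second-order definability in arithmetic and partial recursive functions
-/

universe u

namespace Pool.Agent.Helper97.Ecf

open SO

/-- An interpretation of the relation variables over the natural numbers. -/
def arU (k j : ℕ) (l : List ℕ) : Prop :=
  (k = 3 ∧ j = 0 ∧ ∃ a b, l = [a, b, a + b]) ∨ (k = 3 ∧ j = 1 ∧ ∃ a b, l = [a, b, a * b])

theorem ar_arU : Ar arU := by
  constructor
  · intro a b c
    simp only [arU]
    constructor
    · rintro (⟨_, _, x, y, h⟩ | ⟨_, h, _⟩)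
      · simp only [List.cons.injEq, and_true] at h
        obtain ⟨rfl, rfl, rfl⟩ := h
        rfl
      · omega
    · rintro rfl
      exact Or.inl ⟨trivial, trivial, a, b, rfl⟩
  · intro a b c
    simp only [arU]
    constructor
    · rintro (⟨_, h, _⟩ | ⟨_, _, x, y, h⟩)
      · omega
      · simp only [List.cons.injEq, and_true] at h
        obtain ⟨rfl, rfl, rfl⟩ := h
        rfl
    · rintro rfl
      exact Or.inr ⟨trivial, trivial, a, b, rfl⟩

/-- Properties of assignments definable in arithmetic. -/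
def Dfn (P : (ℕ → ℕ) → Prop) : Prop := ∃ a : SO, ∀ v U, Ar U → (eval a v U ↔ P v)

theorem Dfn.congr {P Q : (ℕ → ℕ) → Prop} (h : Dfn P) (hPQ : ∀ v, P v ↔ Q v) : Dfn Q := by
  obtain ⟨a, ha⟩ := h
  exact ⟨a, fun v U hU => (ha v U hU).trans (hPQ v)⟩

theorem dfn_eq (i j : ℕ) : Dfn fun v => v i = v j := ⟨.eq i j, fun _ _ _ => Iff.rfl⟩
theorem dfn_add (i j k : ℕ) : Dfn fun v => v i + v j = v k :=
  ⟨.app 0 [i, j, k], fun _ _ hU => hU.1 _ _ _⟩
theorem dfn_mul (i j k : ℕ) : Dfn fun v => v i * v j = v k :=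
  ⟨.app 1 [i, j, k], fun _ _ hU => hU.2 _ _ _⟩

theorem Dfn.and {P Q : (ℕ → ℕ) → Prop} (h : Dfn P) (h' : Dfn Q) : Dfn fun v => P v ∧ Q v := by
  obtain ⟨a, ha⟩ := h
  obtain ⟨b, hb⟩ := h'
  exact ⟨SO.and a b, fun v U hU => by rw [eval_and, ha v U hU, hb v U hU]⟩

theorem Dfn.or {P Q : (ℕ → ℕ) → Prop} (h : Dfn P) (h' : Dfn Q) : Dfn fun v => P v ∨ Q v := by
  obtain ⟨a, ha⟩ := h
  obtain ⟨b, hb⟩ := h'
  exact ⟨SO.or a b, fun v U hU => by rw [eval_or, ha v U hU, hb v U hU]⟩

theorem Dfn.imp {P Q : (ℕ → ℕ) → Prop} (h : Dfn P) (h' : Dfn Q) : Dfn fun v => P v → Q v := by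
  obtain ⟨a, ha⟩ := h
  obtain ⟨b, hb⟩ := h'
  exact ⟨SO.imp a b, fun v U hU => by rw [eval_imp, ha v U hU, hb v U hU]⟩

theorem Dfn.not {P : (ℕ → ℕ) → Prop} (h : Dfn P) : Dfn fun v => ¬ P v := by
  obtain ⟨a, ha⟩ := h
  exact ⟨SO.neg a, fun v U hU => by rw [eval_neg, ha v U hU]⟩

theorem Dfn.ex {P : (ℕ → ℕ) → Prop} (i : ℕ) (h : Dfn P) :
    Dfn fun v => ∃ x, P (Function.update v i x) := by
  obtain ⟨a, ha⟩ := h
  exact ⟨SO.ex i a, fun v U hU => by
    rw [eval_ex]; exact exists_congr fun x => ha _ U hU⟩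

theorem Dfn.all {P : (ℕ → ℕ) → Prop} (i : ℕ) (h : Dfn P) :
    Dfn fun v => ∀ x, P (Function.update v i x) := by
  obtain ⟨a, ha⟩ := h
  exact ⟨SO.all i a, fun v U hU => by
    rw [eval_all]; exact forall_congr' fun x => ha _ U hU⟩

/-- Substitution of variables in a binary predicate. -/
theorem Dfn.sub {Q : ℕ → ℕ → Prop} (h : Dfn fun v => Q (v 0) (v 1)) (i j : ℕ) :
    Dfn fun v => Q (v i) (v j) := by
  obtain ⟨a, ha⟩ := h
  refine ⟨SO.ex (i + j + 2) (SO.and (eq (i + j + 2) i) (SO.ex (i + j + 3)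
    (SO.and (eq (i + j + 3) j) (SO.ex 0 (SO.and (eq 0 (i + j + 2)) (SO.ex 1
      (SO.and (eq 1 (i + j + 3)) a))))))), fun v U hU => ?_⟩
  simp only [eval_ex, eval_and, eval_eq, ha _ U hU, Function.update_self,
    Function.update_of_ne (show i ≠ i + j + 2 by omega),
    Function.update_of_ne (show j ≠ i + j + 3 by omega),
    Function.update_of_ne (show j ≠ i + j + 2 by omega),
    Function.update_of_ne (show i + j + 2 ≠ 0 by omega),
    Function.update_of_ne (show i + j + 2 ≠ i + j + 3 by omega),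
    Function.update_of_ne (show i + j + 3 ≠ 1 by omega),
    Function.update_of_ne (show i + j + 3 ≠ 0 by omega),
    Function.update_of_ne (show (0 : ℕ) ≠ 1 by omega), exists_eq_left]

theorem dfn_zero (i : ℕ) : Dfn fun v => v i = 0 :=
  (dfn_add i i i).congr fun v => by omega

theorem dfn_one (i : ℕ) : Dfn fun v => v i = 1 :=
  ((dfn_zero i).not.and (dfn_mul i i i)).congr fun v => by
    constructor
    · rintro ⟨h1, h2⟩
      exact Nat.eq_of_mul_eq_mul_left (Nat.pos_of_ne_zero h1) (by omega)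
    · intro h
      rw [h]
      exact ⟨one_ne_zero, rfl⟩

theorem dfn_succ (i j : ℕ) : Dfn fun v => v i + 1 = v j := by
  have h : Dfn fun v => v 0 + 1 = v 1 :=
    (((dfn_one 2).and (dfn_add 0 2 1)).ex 2).congr fun v => by
      simp (config := {decide := true}) only [Function.update_self, Function.update_of_ne, ne_eq,
        exists_eq_left]
  exact Dfn.sub (Q := fun x y => x + 1 = y) h i j

theorem dfn_lt (i j : ℕ) : Dfn fun v => v i < v j := by
  have h : Dfn fun v => v 0 < v 1 :=
    (((dfn_zero 2).not.and (dfn_add 0 2 1)).ex 2).congr fun v => by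
      simp (config := {decide := true}) only [Function.update_self, Function.update_of_ne, ne_eq]
      constructor
      · rintro ⟨x, h1, h2⟩
        omega
      · intro h
        exact ⟨v 1 - v 0, by omega, by omega⟩
  exact Dfn.sub (Q := fun x y => x < y) h i j

/-- The graph of the pairing function. -/
theorem dfn_pair0 : Dfn fun v => Nat.pair (v 0) (v 1) = v 2 :=
  (((dfn_lt 0 1).and (((dfn_mul 1 1 3).and (dfn_add 3 0 2)).ex 3)).or
    ((dfn_lt 0 1).not.and (((dfn_mul 0 0 3).and (((dfn_add 3 0 4).and (dfn_add 4 1 2)).ex 4)).ex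
      3))).congr fun v => by
      simp (config := {decide := true}) only [Function.update_self, Function.update_of_ne, ne_eq,
        exists_eq_left']
      unfold Nat.pair
      split_ifs with h
      · simp [h]
      · simp [h]

theorem dfn_pair (i j k : ℕ) : Dfn fun v => Nat.pair (v i) (v j) = v k := by
  obtain ⟨a, ha⟩ := dfn_pair0
  refine ⟨SO.ex (i + j + k + 3) (SO.and (eq (i + j + k + 3) i) (SO.ex (i + j + k + 4)
    (SO.and (eq (i + j + k + 4) j) (SO.ex (i + j + k + 5) (SO.and (eq (i + j + k + 5) k)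
    (SO.ex 0 (SO.and (eq 0 (i + j + k + 3)) (SO.ex 1
      (SO.and (eq 1 (i + j + k + 4)) (SO.ex 2 (SO.and (eq 2 (i + j + k + 5)) a))))))))))),
    fun v U hU => ?_⟩
  simp only [eval_ex, eval_and, eval_eq, ha _ U hU, Function.update_self,
    Function.update_of_ne (show i ≠ i + j + k + 3 by omega),
    Function.update_of_ne (show j ≠ i + j + k + 4 by omega),
    Function.update_of_ne (show j ≠ i + j + k + 3 by omega),
    Function.update_of_ne (show k ≠ i + j + k + 3 by omega),
    Function.update_of_ne (show k ≠ i + j + k + 4 by omega),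
    Function.update_of_ne (show k ≠ i + j + k + 5 by omega),
    Function.update_of_ne (show i + j + k + 3 ≠ 0 by omega),
    Function.update_of_ne (show i + j + k + 3 ≠ i + j + k + 4 by omega),
    Function.update_of_ne (show i + j + k + 3 ≠ i + j + k + 5 by omega),
    Function.update_of_ne (show i + j + k + 4 ≠ 1 by omega),
    Function.update_of_ne (show i + j + k + 4 ≠ 0 by omega),
    Function.update_of_ne (show i + j + k + 4 ≠ i + j + k + 5 by omega),
    Function.update_of_ne (show i + j + k + 5 ≠ 2 by omega),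
    Function.update_of_ne (show i + j + k + 5 ≠ 1 by omega),
    Function.update_of_ne (show i + j + k + 5 ≠ 0 by omega),
    Function.update_of_ne (show (0 : ℕ) ≠ 1 by omega),
    Function.update_of_ne (show (0 : ℕ) ≠ 2 by omega),
    Function.update_of_ne (show (1 : ℕ) ≠ 2 by omega), exists_eq_left]

/-- Graphs of partial functions. -/
def DF (f : ℕ →. ℕ) : Prop := Dfn fun v => v 1 ∈ f (v 0)

theorem DF.app {f : ℕ →. ℕ} (h : DF f) (i j : ℕ) : Dfn fun v => v j ∈ f (v i) :=
  Dfn.sub (Q := fun x y => y ∈ f x) h i j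

theorem df_prec {f g : ℕ →. ℕ} (hf : DF f) (hg : DF g) :
    DF (Nat.unpaired fun a n => Nat.rec (f a) (fun y IH => do
      let i ← IH
      g (Nat.pair a (Nat.pair y i))) n) := by
  -- the inductive description of the graph
  have key : ∀ a n y, (y ∈ (Nat.rec (f a) (fun y IH => do
      let i ← IH
      g (Nat.pair a (Nat.pair y i))) n : Part ℕ)) ↔ ∀ T : List ℕ → Prop,
        (∀ z, z ∈ f a → ∀ o, o = 0 → T [o, z]) →
        (∀ i z, T [i, z] → ∀ z' p q i', Nat.pair i z = p → Nat.pair a p = q → z' ∈ g q →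
          i + 1 = i' → T [i', z']) → T [n, y] := by
    intro a n y
    constructor
    · intro hy T h0 h1
      induction n generalizing y with
      | zero => exact h0 y hy 0 rfl
      | succ n ih =>
        simp only [Part.bind_eq_bind, Part.mem_bind_iff] at hy
        obtain ⟨z, hz, hy⟩ := hy
        exact h1 n z (ih z hz) y _ _ _ rfl rfl hy rfl
    · intro hT
      have := hT (fun l => ∃ n y, l = [n, y] ∧ y ∈ (Nat.rec (f a) (fun y IH => do
        let i ← IH
        g (Nat.pair a (Nat.pair y i))) n : Part ℕ)) ?_ ?_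
      · obtain ⟨n', y', he, h⟩ := this
        simp only [List.cons.injEq, and_true] at he
        obtain ⟨rfl, rfl⟩ := he
        exact h
      · rintro z hz o rfl
        exact ⟨0, z, rfl, hz⟩
      · rintro i z ⟨n', y', he, h⟩ z' p q i' rfl rfl hz' rfl
        simp only [List.cons.injEq, and_true] at he
        obtain ⟨rfl, rfl⟩ := he
        refine ⟨i + 1, z', rfl, ?_⟩
        simp only [Part.bind_eq_bind, Part.mem_bind_iff]
        exact ⟨z, h, hz'⟩
  obtain ⟨fF, hfF⟩ := hf.app 2 4
  obtain ⟨fG, hfG⟩ := hg.app 8 6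
  obtain ⟨p1, hp1⟩ := dfn_pair 2 3 0
  obtain ⟨p2, hp2⟩ := dfn_pair 4 5 7
  obtain ⟨p3, hp3⟩ := dfn_pair 2 7 8
  obtain ⟨z1, hz1⟩ := dfn_zero 5
  obtain ⟨s1, hs1⟩ := dfn_succ 4 9
  refine ⟨SO.ex 2 (SO.ex 3 (SO.and p1 (allR 2 0 (.imp (all 4 (.imp fF (all 5 (.imp z1
    (app 0 [5, 4])))))
    (.imp (all 4 (all 5 (.imp (app 0 [4, 5]) (all 6 (all 7 (all 8 (all 9 (.imp p2 (.imp p3
      (.imp fG (.imp s1 (app 0 [9, 6])))))))))))) (app 0 [3, 1])))))), fun v U hU => ?_⟩
  have hU' : ∀ X, Ar (Function.update U 2 (Function.update (U 2) 0 X)) := by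
    intro X
    constructor
    · intro a b c
      rw [Function.update_of_ne (by decide)]
      exact hU.1 a b c
    · intro a b c
      rw [Function.update_of_ne (by decide)]
      exact hU.2 a b c
  simp (config := {decide := true}) only [eval_ex, eval_and, hp1 _ U hU, eval_allR, eval_imp,
    eval_all, hfF _ _ (hU' _), hz1 _ _ (hU' _), hp2 _ _ (hU' _), hp3 _ _ (hU' _),
    hfG _ _ (hU' _), hs1 _ _ (hU' _), eval_app, List.length_cons, List.length_nil,
    Nat.reduceAdd, List.map_cons, List.map_nil, Function.update_self, Function.update_of_ne,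
    ne_eq]
  constructor
  · rintro ⟨a, n, hp, hT⟩
    rw [← hp, Nat.unpaired, Nat.unpair_pair, key]
    exact hT
  · intro h
    refine ⟨(v 0).unpair.1, (v 0).unpair.2, Nat.pair_unpair _, ?_⟩
    rw [Nat.unpaired, key] at h
    exact h

/-- Graphs of partial recursive functions are definable. -/
theorem df_of_partrec {f : ℕ →. ℕ} (hf : Nat.Partrec f) : DF f := by
  induction hf with
  | zero =>
    refine (dfn_zero 1).congr fun v => ?_
    change _ ↔ v 1 ∈ (Part.some 0)
    rw [Part.mem_some_iff]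
  | succ =>
    refine (dfn_succ 0 1).congr fun v => ?_
    change _ ↔ v 1 ∈ (Part.some (Nat.succ (v 0)))
    rw [Part.mem_some_iff]
    omega
  | left =>
    refine ((dfn_pair 1 2 0).ex 2).congr fun v => ?_
    simp (config := {decide := true}) only [Function.update_self, Function.update_of_ne, ne_eq]
    change _ ↔ v 1 ∈ (Part.some (v 0).unpair.1)
    rw [Part.mem_some_iff]
    constructor
    · rintro ⟨x, hx⟩
      rw [← hx, Nat.unpair_pair]
    · intro h
      exact ⟨(v 0).unpair.2, by rw [h, Nat.pair_unpair]⟩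
  | right =>
    refine ((dfn_pair 2 1 0).ex 2).congr fun v => ?_
    simp (config := {decide := true}) only [Function.update_self, Function.update_of_ne, ne_eq]
    change _ ↔ v 1 ∈ (Part.some (v 0).unpair.2)
    rw [Part.mem_some_iff]
    constructor
    · rintro ⟨x, hx⟩
      rw [← hx, Nat.unpair_pair]
    · intro h
      exact ⟨(v 0).unpair.1, by rw [h, Nat.pair_unpair]⟩
  | @pair f g _ _ ihf ihg =>
    refine ((((ihf.app 0 2).and ((ihg.app 0 3).and (dfn_pair 2 3 1))).ex 3).ex 2).congr
      fun v => ?_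
    simp (config := {decide := true}) only [Function.update_self, Function.update_of_ne, ne_eq]
    simp only [Seq.seq, Functor.map, Part.mem_bind_iff, Part.mem_map_iff]
    constructor
    · rintro ⟨x, y, h1, h2, h3⟩
      exact ⟨Nat.pair x, ⟨x, h1, rfl⟩, y, h2, h3⟩
    · rintro ⟨_, ⟨x, h1, rfl⟩, y, h2, h3⟩
      exact ⟨x, y, h1, h2, h3⟩
  | @comp f g _ _ ihf ihg =>
    refine (((ihg.app 0 2).and (ihf.app 2 1)).ex 2).congr fun v => ?_
    simp (config := {decide := true}) only [Function.update_self, Function.update_of_ne, ne_eq]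
    exact Part.mem_bind_iff.symm
  | @prec f g _ _ ihf ihg => exact df_prec ihf ihg
  | @rfind f _ ihf =>
    refine (((((dfn_pair 0 1 2).and (((dfn_zero 3).and (ihf.app 2 3)).ex 3)).ex 2).and
      (((dfn_lt 4 1).imp (((dfn_pair 0 4 2).and
        (((dfn_zero 3).not.and (ihf.app 2 3)).ex 3)).ex 2)).all 4))).congr fun v => ?_
    simp (config := {decide := true}) only [Function.update_self, Function.update_of_ne, ne_eq,
      exists_eq_left', exists_eq_left]
    refine Iff.trans ?_ Nat.mem_rfind.symm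
    simp only [Functor.map, Part.mem_map_iff, decide_eq_true_eq, decide_eq_false_iff_not]
    constructor
    · rintro ⟨h1, h2⟩
      refine ⟨⟨0, h1, rfl⟩, fun {m} hm => ?_⟩
      obtain ⟨z, hz, hz'⟩ := h2 m hm
      exact ⟨z, hz', hz⟩
    · rintro ⟨⟨z, hz, rfl⟩, h2⟩
      refine ⟨hz, fun m hm => ?_⟩
      obtain ⟨z, hz, hz'⟩ := h2 hm
      exact ⟨z, hz', hz⟩

/-- Computable sets are definable in second-order arithmetic. -/
theorem analytical_of_computable {S : ℕ → Prop} (h : ComputablePred S) : Analytical S := by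
  obtain ⟨hd, hc⟩ := h
  have h1 : Computable fun n => if decide (S n) = true then (0 : ℕ) else 1 := by
    have := Computable.cond (c := fun n => decide (S n)) (f := fun _ : ℕ => (0 : ℕ))
      (g := fun _ => (1 : ℕ)) hc (Computable.const 0) (Computable.const 1)
    refine this.of_eq fun n => ?_
    by_cases hn : S n <;> simp [hn]
  have h2 : Nat.Partrec (fun n => Part.some (if decide (S n) = true then (0 : ℕ) else 1)) :=
    Partrec.nat_iff.1 h1
  obtain ⟨a, ha⟩ := (((df_of_partrec h2).and (dfn_zero 1)).ex 1)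
  refine ⟨a, fun v U hU => ?_⟩
  rw [ha v U hU]
  simp (config := {decide := true}) only [Function.update_self, Function.update_of_ne, ne_eq,
    Part.mem_some_iff]
  constructor
  · intro hS
    exact ⟨0, by simp [hS], rfl⟩
  · rintro ⟨y, h1, rfl⟩
    by_contra hn
    simp [hn] at h1

/-- The diagonal set is not definable in second-order arithmetic. -/
theorem diag_not_analytical : ¬ Analytical (fun n => ¬ ∀ (v : ℕ → ℕ)
    (U : ℕ → ℕ → List ℕ → Prop), Ar U → v 0 = n → (decS n).eval v U) := by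
  rintro ⟨a, ha⟩
  by_cases h : ∀ (v : ℕ → ℕ) (U : ℕ → ℕ → List ℕ → Prop), Ar U → v 0 = encS a → a.eval v U
  · have h1 := (ha (fun _ => encS a) arU ar_arU).2 (h _ _ ar_arU rfl)
    simp only [decS_encS] at h1
    exact h1 h
  · refine h fun v U hU hv => (ha v U hU).1 ?_
    rw [hv]
    simp only [decS_encS]
    exact h

/-- Definability in second-order arithmetic is inherited by many-one reducibility. -/
theorem Analytical.of_reducible {S T : ℕ → Prop} (hT : Analytical T) {f : ℕ → ℕ}
    (hf : Computable f) (h : ∀ n, S n ↔ T (f n)) : Analytical S := by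
  obtain ⟨a, ha⟩ := hT
  have h2 : Nat.Partrec (fun n => Part.some (f n)) := Partrec.nat_iff.1 hf
  obtain ⟨b, hb⟩ := df_of_partrec h2
  refine ⟨SO.ex 1 (SO.and b (SO.ex 0 (SO.and (eq 0 1) a))), fun v U hU => ?_⟩
  simp (config := {decide := true}) only [eval_ex, eval_and, eval_eq, hb _ U hU, ← ha _ U hU,
    Function.update_self, Function.update_of_ne, ne_eq, Part.mem_some_iff, exists_eq_left, h]

/-- Complements. -/
theorem Analytical.compl {S : ℕ → Prop} (hS : Analytical S) : Analytical fun n => ¬ S n := by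
  obtain ⟨a, ha⟩ := hS
  refine ⟨SO.neg a, fun v U hU => ?_⟩
  rw [eval_neg, ← ha v U hU]

end Pool.Agent.Helper97.Ecf
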