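import Pool.Agent.Helper97.EcfSOM

/-!
# Computability of the reduction of second-order validity to frame consequence
-/

universe u

namespace Pool.Agent.Helper97.Ecf

open Form

theorem pr_vX : Primrec vX := pr_affine Primrec.id 3 3
theorem pr_vY : Primrec₂ vY := pr_affine Primrec₂.natPair 3 4

theorem pr_Sg : Primrec Sg := by
  have c : ∀ φ : SO, Primrec fun _ : ℕ => φ := fun φ => Primrec.const φ
  have c5 : Primrec fun _ : ℕ => 5 := Primrec.const 5
  have e1 : Primrec fun i : ℕ => SO.eq i 5 := pr_sEq.comp Primrec.id c5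
  have e2 : Primrec fun i : ℕ => SO.eq 5 i := pr_sEq.comp c5 Primrec.id
  refine pr_sAnd.comp (pr_sNeg.comp (pr_sAll.comp c5 e1)) (pr_sAll.comp c5
    (pr_sImp.comp e2 ?_))
  exact pr_sImp.comp (pr_sNeg.comp e1) (c _)

theorem pr_allS : Primrec fun p : ℕ × ℕ × SO => allS p.1 p.2.1 p.2.2 :=
  pr_sAll.comp Primrec.fst (pr_sImp.comp (pr_sAnd.comp (pr_Sg.comp Primrec.fst)
    (pr_sEq.comp Primrec.fst (Primrec.fst.comp Primrec.snd))) (Primrec.snd.comp Primrec.snd))

theorem pr_exS : Primrec fun p : ℕ × ℕ × SO => exS p.1 p.2.1 p.2.2 :=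
  pr_sEx.comp Primrec.fst (pr_sAnd.comp (pr_sAnd.comp (pr_Sg.comp Primrec.fst)
    (pr_sEq.comp Primrec.fst (Primrec.fst.comp Primrec.snd))) (Primrec.snd.comp Primrec.snd))

theorem pr_sX : Primrec sX :=
  pr_sAnd.comp (pr_Sg.comp pr_vX) (pr_sEq.comp pr_vX (Primrec.const 0))

theorem pr_pairList {α : Type*} [Primcodable α] {f g : α → ℕ} (hf : Primrec f)
    (hg : Primrec g) : Primrec fun a => [f a, g a] :=
  Primrec.list_cons.comp hf (Primrec.list_cons.comp hg (Primrec.const []))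

theorem tup_eq (l : List ℕ) : tup l = l.foldr (fun i s => exS 14 1
    (SO.and (SO.ex 11 (SO.and (.eq 11 14) (SO.and (.eq 14 11) s)))
      (SO.and (SO.and (Sg 11) (.eq 11 1)) (SO.and (.app 0 [11, vX i]) (.app 1 [11, 14])))))
    (SO.and (Sg 11) (.eq 11 2)) := by
  induction l with
  | nil => rfl
  | cons i l ih => rw [tup, ih]; rfl

theorem pr_tup : Primrec tup := by
  have e : tup = fun l => l.foldr (fun i s => exS 14 1
    (SO.and (SO.ex 11 (SO.and (.eq 11 14) (SO.and (.eq 14 11) s)))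
      (SO.and (SO.and (Sg 11) (.eq 11 1)) (SO.and (.app 0 [11, vX i]) (.app 1 [11, 14])))))
    (SO.and (Sg 11) (.eq 11 2)) := funext tup_eq
  rw [e]
  have c : ∀ φ : SO, Primrec fun _ : List ℕ × (ℕ × SO) => φ := fun φ => Primrec.const φ
  have n : ∀ k : ℕ, Primrec fun _ : List ℕ × (ℕ × SO) => k := fun k => Primrec.const k
  have hi : Primrec fun p : List ℕ × (ℕ × SO) => p.2.1 := Primrec.fst.comp Primrec.snd
  have hs : Primrec fun p : List ℕ × (ℕ × SO) => p.2.2 := Primrec.snd.comp Primrec.snd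
  refine Primrec.list_foldr (f := fun l : List ℕ => l)
    (h := fun _ (p : ℕ × SO) => exS 14 1
    (SO.and (SO.ex 11 (SO.and (.eq 11 14) (SO.and (.eq 14 11) p.2)))
      (SO.and (SO.and (Sg 11) (.eq 11 1)) (SO.and (.app 0 [11, vX p.1]) (.app 1 [11, 14])))))
    Primrec.id (Primrec.const _) ?_
  refine pr_exS.comp (Primrec.pair (n 14) (Primrec.pair (n 1) ?_))
  refine pr_sAnd.comp ?_ ?_
  · exact pr_sEx.comp (n 11) (pr_sAnd.comp (c _) (pr_sAnd.comp (c _) hs))
  · refine pr_sAnd.comp (c _) (pr_sAnd.comp ?_ (c _))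
    exact pr_sApp.comp (n 0) (pr_pairList (n 11) (pr_vX.comp hi))

theorem pr_tSO : Primrec tSO := by
  refine pr_soRec (e := fun i j => .eq (vX i) (vX j))
    (p := fun j l => SO.ex 11 (SO.and (tup l) (.eq 11 (vY l.length j)))) (b := .bot)
    (i := SO.imp) (q := fun i a => allS (vX i) 0 a) (r := fun p a => .all (vY p.1 p.2) a)
    ?_ ?_ pr_sImp ?_ ?_ (fun _ _ => rfl) (fun _ _ => rfl) rfl (fun _ _ => rfl) (fun _ _ => rfl)
    (fun _ _ _ => rfl)
  · exact pr_sEq.comp (pr_vX.comp Primrec.fst) (pr_vX.comp Primrec.snd)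
  · refine pr_sEx.comp (Primrec.const 11) (pr_sAnd.comp (pr_tup.comp Primrec.snd)
      (pr_sEq.comp (Primrec.const 11) ?_))
    exact pr_vY.comp (Primrec.list_length.comp Primrec.snd) Primrec.fst
  · exact pr_allS.comp (Primrec.pair (pr_vX.comp Primrec.fst)
      (Primrec.pair (Primrec.const 0) Primrec.snd))
  · exact pr_sAll.comp (pr_vY.comp (Primrec.fst.comp Primrec.fst)
      (Primrec.snd.comp Primrec.fst)) Primrec.snd

theorem pr_fv : Primrec fv := by
  refine pr_soRec (e := fun i j => SO.and (sX i) (sX j))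
    (p := fun _ l => l.foldr (fun i s => SO.and (sX i) s) (.imp .bot .bot))
    (b := .imp .bot .bot) (i := SO.and) (q := fun _ a => a) (r := fun _ a => a)
    ?_ ?_ pr_sAnd Primrec.snd Primrec.snd (fun _ _ => rfl) (fun _ _ => rfl) rfl (fun _ _ => rfl)
    (fun _ _ => rfl) (fun _ _ _ => rfl)
  · exact pr_sAnd.comp (pr_sX.comp Primrec.fst) (pr_sX.comp Primrec.snd)
  · refine Primrec.list_foldr (f := fun p : ℕ × List ℕ => p.2)
      (h := fun _ (p : ℕ × SO) => SO.and (sX p.1) p.2) Primrec.snd (Primrec.const _) ?_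
    exact pr_sAnd.comp (pr_sX.comp (Primrec.fst.comp Primrec.snd))
      (Primrec.snd.comp Primrec.snd)

theorem pr_toM : Primrec toM :=
  pr_sImp.comp (pr_sAnd.comp (Primrec.const _) pr_fv) pr_tSO

theorem pr_mb : Primrec mb := by
  refine pr_soRec (e := fun i j => i + j + 1)
    (p := fun m l => m + l.getD 0 0 + l.getD 1 0 + 1)
    (b := 0) (i := fun a b => a + b) (q := fun i a => i + 1 + a) (r := fun _ a => a)
    ?_ ?_ Primrec.nat_add ?_ Primrec.snd (fun _ _ => rfl) (fun _ _ => rfl) rfl (fun _ _ => rfl)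
    (fun _ _ => rfl) (fun _ _ _ => rfl)
  · exact Primrec.succ.comp Primrec.nat_add
  · exact Primrec.succ.comp (Primrec.nat_add.comp (Primrec.nat_add.comp Primrec.fst
      ((Primrec.list_getD 0).comp Primrec.snd (Primrec.const 0)))
      ((Primrec.list_getD 0).comp Primrec.snd (Primrec.const 1)))
  · exact Primrec.nat_add.comp (Primrec.succ.comp Primrec.fst) Primrec.snd

theorem pr_mu {α : Type*} [Primcodable α] {f g : α → ℕ} (hf : Primrec f) (hg : Primrec g) :
    Primrec fun a => mu (f a) (g a) :=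
  pr_dia.comp (pr_idx.comp (pr_affine (Primrec₂.natPair.comp hf hg) 2 0))

theorem pr_nu {α : Type*} [Primcodable α] {f g h : α → ℕ} (hf : Primrec f) (hg : Primrec g)
    (hh : Primrec h) : Primrec fun a => nu (f a) (g a) (h a) :=
  pr_dia.comp (pr_idx.comp (pr_affine (Primrec₂.natPair.comp hf
    (Primrec₂.natPair.comp hg hh)) 2 1))

theorem pr_diaIdx : Primrec fun i => dia (idx i) := pr_dia.comp pr_idx
theorem pr_mP : Primrec mP := pr_and.comp (Primrec.const _) pr_diaIdx
theorem pr_mI : Primrec mI := pr_and.comp (Primrec.const _) pr_diaIdx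
theorem pr_mO : Primrec mO := pr_and.comp (Primrec.const _) pr_diaIdx
theorem pr_mS : Primrec mS := pr_and.comp (Primrec.const _) pr_diaIdx

theorem pr_tm : Primrec tm := by
  refine pr_soRec (e := fun i j => mu i j)
    (p := fun m l => nu m (l.getD 0 0) (l.getD 1 0))
    (b := .bot) (i := Form.imp) (q := fun i a => bX (mS i) mE a) (r := fun _ a => a)
    ?_ ?_ pr_imp ?_ Primrec.snd (fun _ _ => rfl) (fun _ _ => rfl) rfl (fun _ _ => rfl)
    (fun _ _ => rfl) (fun _ _ _ => rfl)
  · exact pr_mu Primrec.fst Primrec.snd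
  · exact pr_nu Primrec.fst ((Primrec.list_getD 0).comp Primrec.snd (Primrec.const 0))
      ((Primrec.list_getD 0).comp Primrec.snd (Primrec.const 1))
  · exact pr_bt.comp (pr_mS.comp Primrec.fst) (pr_bt.comp (Primrec.const _) Primrec.snd)

section axm
variable {α : Type*} [Primcodable α]

theorem pr_bX {f g h : α → Form} (hf : Primrec f) (hg : Primrec g) (hh : Primrec h) :
    Primrec fun a => bX (f a) (g a) (h a) := pr_bt.comp hf (pr_bt.comp hg hh)
theorem pr_dX {f g h : α → Form} (hf : Primrec f) (hg : Primrec g) (hh : Primrec h) :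
    Primrec fun a => dX (f a) (g a) (h a) := pr_dt.comp hf (pr_dt.comp hg hh)
theorem pr_imp' {f g : α → Form} (hf : Primrec f) (hg : Primrec g) :
    Primrec fun a => Form.imp (f a) (g a) := pr_imp.comp hf hg
theorem pr_bt' {f g : α → Form} (hf : Primrec f) (hg : Primrec g) :
    Primrec fun a => bt (f a) (g a) := pr_bt.comp hf hg
theorem pr_dt' {f g : α → Form} (hf : Primrec f) (hg : Primrec g) :
    Primrec fun a => dt (f a) (g a) := pr_dt.comp hf hg
theorem pr_and' {f g : α → Form} (hf : Primrec f) (hg : Primrec g) :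
    Primrec fun a => Form.and (f a) (g a) := pr_and.comp hf hg
theorem pr_or' {f g : α → Form} (hf : Primrec f) (hg : Primrec g) :
    Primrec fun a => Form.or (f a) (g a) := pr_or.comp hf hg
theorem pr_neg' {f : α → Form} (hf : Primrec f) : Primrec fun a => neg (f a) := pr_neg.comp hf
theorem pr_conjCons {f : α → Form} {g : α → List Form} (hf : Primrec f)
    (hg : Primrec fun a => conj (g a)) : Primrec fun a => conj (f a :: g a) :=
  pr_and.comp hf hg

theorem pr_axm {m i j : α → ℕ} (hm : Primrec m) (hi : Primrec i) (hj : Primrec j) :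
    Primrec fun a => axm (m a) (i a) (j a) := by
  have c : ∀ φ : Form, Primrec fun _ : α => φ := fun φ => Primrec.const φ
  have hP := pr_mP.comp hm
  have hI := pr_mI.comp hi
  have hIj := pr_mI.comp hj
  have hO := pr_mO.comp hi
  have hOj := pr_mO.comp hj
  have hS := pr_mS.comp hi
  have hmu := pr_mu hi hj
  have hnu := pr_nu hm hi hj
  unfold axm
  refine pr_conjCons ?_ (pr_conjCons ?_ (pr_conjCons ?_ (pr_conjCons ?_ (pr_conjCons ?_
    (pr_conjCons ?_ (pr_conjCons ?_ (pr_conjCons ?_ (pr_conjCons ?_ (pr_conjCons ?_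
      (pr_conjCons ?_ (pr_conjCons ?_ (c _))))))))))))
  · exact pr_imp' (pr_dt' (c _) (pr_dX hS (c _) (c _))) (c _)
  · exact pr_imp' (pr_dt' (c _) (pr_dX hI (c _) (c _))) (c _)
  · exact pr_imp' (pr_dt' (c _) (pr_dX hO (c _) (c _))) (c _)
  · exact pr_imp' (c _) (pr_bt' (c _) (pr_or' (pr_dX hI (c _) (c _)) (pr_dX hO (c _) (c _))))
  · exact pr_bt' (c _) (pr_neg' (pr_and' (pr_dX hI (c _) (c _)) (pr_dX hO (c _) (c _))))
  · exact pr_bt' (c _) (pr_dX hS (c _) (pr_and' (pr_bX hI (c _) (c _)) (pr_bX hO (c _) (c _))))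
  · exact Primrec.ite (Primrec.eq.comp hi hj) (c _) (pr_bt' (c _)
      (pr_imp' (pr_bX hIj (c _) (c _)) (pr_bX hS (c _) (pr_bX hIj (c _) (c _)))))
  · exact Primrec.ite (Primrec.eq.comp hi hj) (c _) (pr_bt' (c _)
      (pr_imp' (pr_bX hOj (c _) (c _)) (pr_bX hS (c _) (pr_bX hOj (c _) (c _)))))
  · exact pr_bt' (c _) (pr_imp' hmu (pr_imp' (pr_bX hIj (c _) (c _)) (pr_bX hI (c _) (c _))))
  · exact pr_bt' (c _) (pr_imp' (pr_neg' hmu) (pr_imp' (pr_bX hI (c _) (c _))
      (pr_dX hOj (c _) (c _))))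
  · exact pr_bt' (c _) (pr_imp' hnu (pr_imp' (pr_bX hIj (c _) (c _))
      (pr_dX hI (c _) (pr_dX hP (c _) (c _)))))
  · exact pr_bt' (c _) (pr_imp' (pr_neg' hnu) (pr_imp' (pr_bX hOj (c _) (c _))
      (pr_bX hI (c _) (pr_bX hP (c _) (c _)))))

end axm

theorem pr_axAll : Primrec axAll := by
  refine pr_natRec (s := fun n a => Form.and (axn n) a) ?_ rfl (fun n => rfl)
  have hu : Primrec fun p : ℕ × Form => p.1.unpair := Primrec.unpair.comp Primrec.fst
  have hu2 : Primrec fun p : ℕ × Form => p.1.unpair.2.unpair :=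
    Primrec.unpair.comp (Primrec.snd.comp hu)
  exact pr_and' (pr_axm (Primrec.fst.comp hu) (Primrec.fst.comp hu2) (Primrec.snd.comp hu2))
    Primrec.snd

theorem pr_bigM : Primrec bigM := by
  have h : Primrec fun N : ℕ => N * N + N + 1 :=
    Primrec.succ.comp (Primrec.nat_add.comp (Primrec.nat_mul.comp Primrec.id Primrec.id)
      Primrec.id)
  exact Primrec.nat_mul.comp h h

theorem pr_thA : Primrec thA :=
  pr_imp' (Primrec.const _) (pr_axAll.comp (pr_bigM.comp pr_mb))

theorem pr_thB : Primrec thB :=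
  pr_imp' (Primrec.const _) (pr_bt' (Primrec.const _) pr_tm)

/-- Second-order validity is many-one reducible to `ECF`. -/
theorem pr_soToForm : Primrec fun χ : SO => red (thA (toM χ)) (thB (toM χ)) :=
  pr_red.comp (pr_thA.comp pr_toM) (pr_thB.comp pr_toM)

end Pool.Agent.Helper97.Ecf
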