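import Pool.Agent.Helper97.EcfFrameS

/-!
# Non-elementarity when there is a refutation of the frame consequence
-/

universe u

namespace Pool.Agent.Helper97.Ecf

open Form FO FirstOrder Cardinal

/-- Nondegenerate points do not occur in countable frames validating the formula. -/
theorem no_countable {W : Type u} [Countable W] {R : W → W → Prop} {V : ℕ → W → Prop} {w : W}
    {a b : Form} (hS : sat R V (conj (sList a b)) w) (hv : Valid R (red a b))
    (hnd : ∃ h, R w h ∧ (sigOf R).H h ∧ ¬ JFO R (sigOf R).H h) : False := by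
  have hj : ∀ h, R w h → (sigOf R).H h → ∀ V : ℕ → W → Prop, sat R V jAx h := by
    intro h hh hH V'
    have h1 := hv V' w ((sat_closed (closed_sList a b) _ _ _).1 hS)
    rw [sat_and, sat_and] at h1
    exact sat_bt.1 h1.2.1 h hh (sat_tH.2 hH)
  obtain ⟨h, hh, hH, hnot⟩ := hnd
  simp only [JFO] at hnot
  push Not at hnot
  obtain ⟨b0, hb0, hHb0, hnot⟩ := hnot
  obtain ⟨c, hc, hinf, hlt⟩ := card_drop {b' | b' ∈ fam R h ∧ fam R b' ⊆ fam R b0} (fam R)
    ⟨b0, ⟨hb0, hHb0⟩, subset_rfl⟩ (by
      rintro b' ⟨hb', hsub⟩ hsing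
      obtain ⟨u, u', hu, hHu, hu', hHu', hne⟩ :=
        hnot b' hb'.1 hb'.2 (fun u hu hHu => (hsub ⟨hu, hHu⟩).1)
      exact hne (hsing ⟨hu, hHu⟩ ⟨hu', hHu'⟩)) (by
      rintro P Q ⟨b', ⟨hb', hsub⟩, hPQ⟩
      rcases part_of_valid (hj h hh hH) (P ∩ fam R b0) (Q ∩ fam R b0)
        ⟨b', hb', fun x hx => by
          rcases hPQ hx with h | h
          · exact Or.inl ⟨h, hsub hx⟩
          · exact Or.inr ⟨h, hsub hx⟩⟩ with ⟨c, hc, h1⟩ | ⟨c, hc, h1⟩
      · exact Or.inl ⟨c, ⟨hc, fun x hx => (h1 hx).2⟩, fun x hx => (h1 hx).1⟩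
      · exact Or.inr ⟨c, ⟨hc, fun x hx => (h1 hx).2⟩, fun x hx => (h1 hx).1⟩)
  have h1 : #({b' | b' ∈ fam R h ∧ fam R b' ⊆ fam R b0} : Set W) ≤ ℵ₀ := Cardinal.mk_le_aleph0
  exact absurd (lt_of_le_of_lt hinf hlt) (not_lt.2 h1)

instance : Countable (Σ n, FrameSymb n) := by
  have : Function.Injective (fun _ : (Σ n, FrameSymb n) => ()) := by
    rintro ⟨n, ⟨⟩⟩ ⟨m, ⟨⟩⟩ _
    rfl
  exact this.countable

theorem card_frameLang : frameLang.card ≤ ℵ₀ := by
  have : Countable frameLang.Symbols := by
    have h1 : Countable (Σ n, frameLang.Functions n) := by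
      have : IsEmpty (Σ n, frameLang.Functions n) := ⟨fun x => nomatch x.2⟩
      infer_instance
    have h2 : Countable (Σ n, frameLang.Relations n) := inferInstanceAs (Countable (Σ n, FrameSymb n))
    exact inferInstanceAs (Countable ((Σ n, frameLang.Functions n) ⊕ (Σ n, frameLang.Relations n)))
  exact Cardinal.mk_le_aleph0

/-- A frame containing a nondegenerate point shows that the formula is not elementary. -/
theorem not_elementary {W : Type u} [Infinite W] {R : W → W → Prop} {V : ℕ → W → Prop} {w : W}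
    {a b : Form} (hS : sat R V (conj (sList a b)) w) (hv : Valid R (red a b))
    (hnd : ∃ h, R w h ∧ (sigOf R).H h ∧ ¬ JFO R (sigOf R).H h) :
    ¬ Elementary.{u} (red a b) := by
  rintro ⟨α, hα⟩
  let inst := frameStructure R
  obtain ⟨S, hwS, hcard⟩ := Language.exists_elementarySubstructure_card_eq frameLang (M := W)
    ({w} : Set W) (ℵ₀ : Cardinal.{u}) le_rfl (by simp) (by
      simp only [Cardinal.lift_aleph0, Cardinal.lift_le_aleph0]
      exact card_frameLang) (by simp)
  let R' : S → S → Prop := fun x y => R x.1 y.1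
  have hstr : frameStructure R' = (inferInstance : frameLang.Structure S) := by
    refine Language.Structure.ext ?_ ?_
    · funext n f
      exact nomatch f
    · funext n s x
      cases s
      rfl
  have hev : ∀ (c : FO) (v : ℕ → S), eval R' c v ↔ eval R c (fun i => (v i : W)) := by
    intro c v
    rw [← realize_toFormula, ← realize_toFormula, hstr]
    exact (S.subtype.map_formula (toFormula c) v).symm
  have hcount : Countable S := by
    have h1 : #S = ℵ₀ := by simpa using hcard
    exact Cardinal.mk_le_aleph0_iff.1 h1.le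
  let w' : S := ⟨w, hwS rfl⟩
  have hne : Nonempty S := ⟨w'⟩
  have hneW : Nonempty W := ⟨w⟩
  have hv' : Valid R' (red a b) := by
    rw [hα S R', hstr]
    refine (S.realize_sentence α).2 ?_
    exact (hα W R).1 hv
  have hS' : sat R' (fun _ _ => False) (conj (sList a b)) w' := by
    rw [← eval_st (closed_sList a b) (fun _ _ => False) 0 (fun _ => w'), hev,
      eval_st (closed_sList a b) V]
    exact hS
  have hnd' : ∃ h, R' w' h ∧ (sigOf R').H h ∧ ¬ JFO R' (sigOf R').H h := by
    by_contra hcon
    push Not at hcon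
    have h1 := (eval_foJ (R := R') (fun _ => w')).2 hcon
    rw [hev, eval_foJ] at h1
    obtain ⟨h, hh, hH, hn⟩ := hnd
    exact hn (h1 h hh hH)
  exact no_countable hS' hv' hnd'

/-- The reduction is correct for elementarity. -/
theorem elementary_red_iff (a b : Form) : Elementary.{u} (red a b) ↔ FrameCons.{u} a b := by
  refine ⟨fun h => ?_, elementary_red⟩
  by_contra hcon
  simp only [FrameCons] at hcon
  push Not at hcon
  obtain ⟨K, r, ha, hb⟩ := hcon
  simp only [Valid] at hb
  push Not at hb
  obtain ⟨VG, x0, hb⟩ := hb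
  have : Nonempty K := ⟨x0⟩
  exact not_elementary (sList_root (V := fun _ _ => False) ha hb) (valid_red a b) nondeg_root h

/-- `red a b` belongs to `ECF` exactly if `b` is a frame consequence of `a`. -/
theorem ecf_red_iff (a b : Form) : ECF.{u} (red a b) ↔ FrameCons.{u} a b :=
  ⟨fun h => (elementary_red_iff a b).1 h.1,
    fun h => ⟨(elementary_red_iff a b).2 h, canonical_red a b⟩⟩

end Pool.Agent.Helper97.Ecf
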