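import Pool.Agent.Helper97.EcfUp4
import Pool.Agent.Helper97.EcfComp
import Pool.Agent.Helper97.EcfNonEl

/-!
# `ECF` is many-one equivalent to second-order validity
-/

universe u

namespace Pool.Agent.Helper97.Ecf

open Form SO

/-! ### The standard model for canonicity -/

inductive MC : Type u
  | n : ℕ → MC
  | f : Form → MC
  | s : Set Form → MC

def UC (k j : ℕ) (l : List MC.{u}) : Prop :=
  (k = 1 ∧ j = 0 ∧ ∃ n, l = [.n n]) ∨
  (k = 1 ∧ j = 1 ∧ ∃ a, l = [.f a]) ∨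
  (k = 1 ∧ j = 2 ∧ ∃ s, l = [.s s]) ∨
  (k = 1 ∧ j = 3 ∧ l = [.n 0]) ∨
  (k = 1 ∧ j = 4 ∧ l = [.f .bot]) ∨
  (k = 2 ∧ j = 0 ∧ ∃ n, l = [.n n, .n (n + 1)]) ∨
  (k = 2 ∧ j = 1 ∧ ∃ n, l = [.n n, .f (.var n)]) ∨
  (k = 2 ∧ j = 2 ∧ ∃ a, l = [.f a, .f (.box a)]) ∨
  (k = 2 ∧ j = 3 ∧ ∃ a s, l = [.f a, .s s] ∧ a ∈ s) ∨
  (k = 3 ∧ j = 0 ∧ ∃ a b, l = [.f a, .f b, .f (.imp a b)])

theorem std_UC : Std MC.n.{u} MC.f (UC 1 0) (UC 1 1) (UC 1 3) (UC 1 4) (UC 2 0) (UC 2 1)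
    (UC 2 2) (UC 3 0) := by
  constructor
  · intro a b h; exact MC.n.inj h
  · intro a b h; exact MC.f.inj h
  · intro x; simp [UC]
  · intro x; simp [UC]
  · intro x; simp [UC]
  · intro x; simp [UC]
  · intro x y; simp [UC]
  · intro x y; simp [UC]
  · intro x y; simp [UC]
  · intro x y z; simp [UC]

theorem setC_UC : SetC (UC.{u} 1 1) (UC 1 2) (UC 2 3) := by
  have h11 : ∀ x : MC.{u}, UC 1 1 [x] ↔ ∃ a, x = .f a := fun x => by simp [UC]
  have h12 : ∀ x : MC.{u}, UC 1 2 [x] ↔ ∃ a, x = .s a := fun x => by simp [UC]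
  have h23 : ∀ a s, UC 2 3 [MC.f.{u} a, MC.s s] ↔ a ∈ s := fun a s => by simp [UC]
  constructor
  · intro X
    refine ⟨.s {a | X [.f a]}, (h12 _).2 ⟨_, rfl⟩, ?_⟩
    intro x hx
    obtain ⟨a, rfl⟩ := (h11 x).1 hx
    rw [h23]
    rfl
  · intro s t hs ht h
    obtain ⟨s, rfl⟩ := (h12 s).1 hs
    obtain ⟨t, rfl⟩ := (h12 t).1 ht
    have : s = t := by
      ext a
      rw [← h23 a s, ← h23 a t]
      exact h _ ((h11 _).2 ⟨a, rfl⟩)
    rw [this]

/-! ### The standard model for elementarity -/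

inductive ME (W : Form → Type u) : Type u
  | n : ℕ → ME W
  | f : Form → ME W
  | w : (a : Form) → W a → ME W
  | g : (a : Form) → (ℕ → W a) → ME W

variable {W : Form → Type u}

def UE (R : (a : Form) → W a → W a → Prop) (k j : ℕ) (l : List (ME W)) : Prop :=
  (k = 1 ∧ j = 0 ∧ ∃ n, l = [.n n]) ∨
  (k = 1 ∧ j = 1 ∧ ∃ a, l = [.f a]) ∨
  (k = 1 ∧ j = 3 ∧ l = [.n 0]) ∨
  (k = 1 ∧ j = 4 ∧ l = [.f .bot]) ∨
  (k = 1 ∧ j = 20 ∧ ∃ n, n % 2 = 0 ∧ l = [.n n]) ∨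
  (k = 2 ∧ j = 0 ∧ ∃ n, l = [.n n, .n (n + 1)]) ∨
  (k = 2 ∧ j = 1 ∧ ∃ n, l = [.n n, .f (.var n)]) ∨
  (k = 2 ∧ j = 2 ∧ ∃ a, l = [.f a, .f (.box a)]) ∨
  (k = 2 ∧ j = 20 ∧ ∃ a x, l = [.f a, .w a x]) ∨
  (k = 2 ∧ j = 21 ∧ ∃ a v, l = [.f a, .g a v]) ∨
  (k = 2 ∧ j = 22 ∧ ∃ n : ℕ, l = [.n n, .n (n / 2).unpair.1]) ∨
  (k = 2 ∧ j = 23 ∧ ∃ n : ℕ, l = [.n n, .n (n / 2).unpair.2]) ∨
  (k = 3 ∧ j = 0 ∧ ∃ a b, l = [.f a, .f b, .f (.imp a b)]) ∨
  (k = 3 ∧ j = 20 ∧ ∃ a x y, l = [.f a, .w a x, .w a y] ∧ R a x y) ∨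
  (k = 3 ∧ j = 21 ∧ ∃ a v n, l = [.g a v, .n n, .w a (v n)])

variable {R : (a : Form) → W a → W a → Prop}

theorem std_UE : Std ME.n (ME.f (W := W)) (UE R 1 0) (UE R 1 1) (UE R 1 3) (UE R 1 4)
    (UE R 2 0) (UE R 2 1) (UE R 2 2) (UE R 3 0) := by
  constructor
  · intro a b h; exact ME.n.inj h
  · intro a b h; exact ME.f.inj h
  · intro x; simp [UE]
  · intro x; simp [UE]
  · intro x; simp [UE]
  · intro x; simp [UE]
  · intro x y; simp [UE]
  · intro x y; simp [UE]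
  · intro x y; simp [UE]
  · intro x y z; simp [UE]

theorem ue_20 {x y : ME W} : UE R 2 20 [x, y] ↔ ∃ a z, x = .f a ∧ y = .w a z := by simp [UE]
theorem ue_21 {x y : ME W} : UE R 2 21 [x, y] ↔ ∃ a v, x = .f a ∧ y = .g a v := by simp [UE]
theorem ue_22 {x y : ME W} :
    UE R 2 22 [x, y] ↔ ∃ n : ℕ, x = .n n ∧ y = .n (n / 2).unpair.1 := by simp [UE]
theorem ue_23 {x y : ME W} :
    UE R 2 23 [x, y] ↔ ∃ n : ℕ, x = .n n ∧ y = .n (n / 2).unpair.2 := by simp [UE]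
theorem ue_320 {x y z : ME W} :
    UE R 3 20 [x, y, z] ↔ ∃ a u v, (x = .f a ∧ y = .w a u ∧ z = .w a v) ∧ R a u v := by
  simp [UE]
theorem ue_321 {x y z : ME W} :
    UE R 3 21 [x, y, z] ↔ ∃ a v n, x = .g a v ∧ y = .n n ∧ z = .w a (v n) := by simp [UE]
theorem ue_eq {x : ME W} : UE R 1 20 [x] ↔ ∃ n, n % 2 = 0 ∧ x = .n n := by simp [UE]

theorem famC_UE (hne : ∀ a, Nonempty (W a)) : FamC (UE R 1 0) (UE R 1 1) (UE R 1 3) (UE R 1 20)
    (UE R 2 0) (UE R 2 20) (UE R 2 21) (UE R 2 22) (UE R 2 23) (UE R 3 21) := by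
  have h := std_UE (R := R)
  constructor
  · intro x hx
    obtain ⟨n, rfl⟩ := (h.N _).1 hx
    exact ⟨_, (h.N _).2 ⟨_, rfl⟩, ue_22.2 ⟨n, rfl, rfl⟩⟩
  · intro x y z h1 h2
    obtain ⟨n, rfl, rfl⟩ := ue_22.1 h1
    obtain ⟨m, he, rfl⟩ := ue_22.1 h2
    rw [ME.n.inj he]
  · intro x hx
    obtain ⟨n, rfl⟩ := (h.N _).1 hx
    exact ⟨_, (h.N _).2 ⟨_, rfl⟩, ue_23.2 ⟨n, rfl, rfl⟩⟩
  · intro x y z h1 h2
    obtain ⟨n, rfl, rfl⟩ := ue_23.1 h1
    obtain ⟨m, he, rfl⟩ := ue_23.1 h2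
    rw [ME.n.inj he]
  · intro x y hx hy
    obtain ⟨i, rfl⟩ := (h.N _).1 hx
    obtain ⟨j, rfl⟩ := (h.N _).1 hy
    have e : (2 * Nat.pair i j) / 2 = Nat.pair i j := by omega
    refine ⟨.n (2 * Nat.pair i j), (h.N _).2 ⟨_, rfl⟩, ue_eq.2 ⟨_, by omega, rfl⟩,
      ue_22.2 ⟨_, rfl, ?_⟩, ue_23.2 ⟨_, rfl, ?_⟩⟩
    · rw [e, Nat.unpair_pair]
    · rw [e, Nat.unpair_pair]
  · intro x y hx hy
    obtain ⟨i, rfl⟩ := (h.N _).1 hx
    obtain ⟨j, rfl⟩ := (h.N _).1 hy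
    have e : (2 * Nat.pair i j + 1) / 2 = Nat.pair i j := by omega
    refine ⟨.n (2 * Nat.pair i j + 1), (h.N _).2 ⟨_, rfl⟩, ?_,
      ue_22.2 ⟨_, rfl, ?_⟩, ue_23.2 ⟨_, rfl, ?_⟩⟩
    · rw [ue_eq]
      rintro ⟨n, hn, he⟩
      have := ME.n.inj he
      omega
    · rw [e, Nat.unpair_pair]
    · rw [e, Nat.unpair_pair]
  · intro c hc
    obtain ⟨a, rfl⟩ := (h.F _).1 hc
    obtain ⟨x⟩ := hne a
    exact ⟨.w a x, ue_20.2 ⟨a, x, rfl, rfl⟩⟩
  · intro c hc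
    obtain ⟨a, rfl⟩ := (h.F _).1 hc
    obtain ⟨x⟩ := hne a
    exact ⟨.g a fun _ => x, ue_21.2 ⟨a, _, rfl, rfl⟩⟩
  · intro c g n hg hn
    obtain ⟨a, v, rfl, rfl⟩ := ue_21.1 hg
    obtain ⟨i, rfl⟩ := (h.N _).1 hn
    exact ⟨.w a (v i), ue_20.2 ⟨a, _, rfl, rfl⟩, ue_321.2 ⟨a, v, i, rfl, rfl, rfl⟩⟩
  · intro g n x y h1 h2
    obtain ⟨a, v, i, rfl, rfl, rfl⟩ := ue_321.1 h1
    obtain ⟨a', v', i', he, he', rfl⟩ := ue_321.1 h2
    cases he
    rw [ME.n.inj he']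
  · intro c g x hg hx
    obtain ⟨a, v, rfl, rfl⟩ := ue_21.1 hg
    obtain ⟨a', z, he, rfl⟩ := ue_20.1 hx
    obtain rfl := ME.f.inj he
    refine ⟨.g a (scons z v), ue_21.2 ⟨a, _, rfl, rfl⟩, ?_, ?_⟩
    · intro n hn
      rw [(h.Z _).1 hn]
      exact ue_321.2 ⟨a, _, 0, rfl, rfl, rfl⟩
    · intro n n' y hs hy
      obtain ⟨i, rfl, rfl⟩ := (h.Sc _ _).1 hs
      obtain ⟨b, v', j, he, he', rfl⟩ := ue_321.1 hy
      cases he
      rw [← ME.n.inj he']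
      exact ue_321.2 ⟨a, _, i + 1, rfl, rfl, rfl⟩

theorem fev_iso {W1 W2 : Type u} {R1 : W1 → W1 → Prop} {R2 : W2 → W2 → Prop} (e : W1 → W2)
    (he : Function.Bijective e) (hR : ∀ x y, R1 x y ↔ R2 (e x) (e y)) (eq : ℕ → Prop)
    (fa fb : ℕ → ℕ) (a : Form) (g : ℕ → W1) :
    fev (atm R1 eq fa fb) a g ↔ fev (atm R2 eq fa fb) a (fun n => e (g n)) := by
  induction a generalizing g with
  | var n => rw [fev, fev, atm, atm, hR, he.1.eq_iff]
  | bot => rfl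
  | imp a b iha ihb => exact imp_congr (iha g) (ihb g)
  | box a ih =>
    rw [fev, fev]
    have h1 : ∀ x, (fun n => e (scons x g n)) = scons (e x) (fun n => e (g n)) := by
      intro x
      funext n
      cases n <;> rfl
    constructor
    · intro h y
      obtain ⟨x, rfl⟩ := he.2 y
      rw [← h1]
      exact (ih _).1 (h x)
    · intro h x
      rw [ih, h1]
      exact h _

theorem elementary_of_valid {φ : Form}
    (h : SOValid.{u} (imp fSyn (imp fFam (all 0 (imp (cdF φ) fEl))))) : Elementary.{u} φ := by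
  classical
  by_contra hcon
  have hfam := not_elementary_family.{u} (fun n => n % 2 = 0) (fun n => (n / 2).unpair.1)
    (fun n => (n / 2).unpair.2) hcon
  choose W hne R hbad using hfam
  have hst := std_UE (R := R)
  have hF := famC_UE (R := R) hne
  have hn : Nonempty (ME W) := ⟨.n 0⟩
  have h1 := h (ME W) (fun _ => .n 0) (UE R)
  rw [eval_imp, eval_imp, eval_fSyn, eval_fFam, eval_all] at h1
  have h2 := h1 hst.synC hF (.f φ)
  rw [eval_imp, eval_cdF hst, Function.update_self, eval_fEl] at h2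
  obtain ⟨c, hc, h3⟩ := h2 rfl
  obtain ⟨b, rfl⟩ := (hst.F _).1 hc
  rw [Function.update_self, modC_iff hst] at h3
  have hval : ∀ g, UE R 2 21 [ME.f b, g] → ∃ v, g = ME.g b v := by
    intro g hg
    obtain ⟨a, v, he, rfl⟩ := ue_21.1 hg
    obtain rfl := ME.f.inj he
    exact ⟨v, rfl⟩
  choose vl hvl using hval
  have hD : ∀ x : W b, UE R 2 20 [ME.f b, ME.w b x] := fun x => ue_20.2 ⟨b, x, rfl, rfl⟩
  rw [foC_iff hst hF b (fun n => (n / 2).unpair.1) (fun n => (n / 2).unpair.2)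
    (fun n => ue_22.2 ⟨n, rfl, rfl⟩) (fun n => ue_23.2 ⟨n, rfl, rfl⟩)
    (fun g hg n => ⟨ME.w b (vl g hg n), hD _⟩) (fun g hg n => ue_321.2
      ⟨b, vl g hg, n, hvl g hg, rfl, rfl⟩)] at h3
  apply hbad b
  let e : W b → {s : ME W // UE R 2 20 [ME.f b, s]} := fun x => ⟨ME.w b x, hD x⟩
  have hbij : Function.Bijective e := by
    constructor
    · intro x y hxy
      have := congrArg Subtype.val hxy
      simp only [e, ME.w.injEq, heq_eq_eq, true_and] at this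
      exact this
    · rintro ⟨s, hs⟩
      obtain ⟨a, x, he, rfl⟩ := ue_20.1 hs
      obtain rfl := ME.f.inj he
      exact ⟨x, rfl⟩
  have hR : ∀ x y, R b x y ↔ (fun x y : {s : ME W // UE R 2 20 [ME.f b, s]} =>
      UE R 3 20 [ME.f b, x.1, y.1]) (e x) (e y) := by
    intro x y
    refine Iff.trans ?_ ue_320.symm
    constructor
    · intro hxy
      exact ⟨b, x, y, ⟨rfl, rfl, rfl⟩, hxy⟩
    · rintro ⟨a, x', y', ⟨h5, h6, h7⟩, h8⟩
      obtain rfl := ME.f.inj h5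
      cases h6
      cases h7
      exact h8
  rw [valid_iso (R' := fun x y : {s : ME W // UE R 2 20 [ME.f b, s]} =>
    UE R 3 20 [ME.f b, x.1, y.1]) e hbij hR φ, h3]
  have heq : (fun n => UE R 1 20 [ME.n n]) = fun n : ℕ => n % 2 = 0 := by
    funext n
    refine propext (ue_eq.trans ⟨?_, fun h => ⟨n, h, rfl⟩⟩)
    rintro ⟨m, hm, he⟩
    rw [ME.n.inj he]; exact hm
  rw [heq]
  constructor
  · intro hall v
    rw [fev_iso (R2 := fun x y : {s : ME W // UE R 2 20 [ME.f b, s]} =>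
      UE R 3 20 [ME.f b, x.1, y.1]) e hbij hR]
    have hg : UE R 2 21 [ME.f b, ME.g b v] := ue_21.2 ⟨b, v, rfl, rfl⟩
    have h9 : vl _ hg = v := by
      have := hvl _ hg
      simp only [ME.g.injEq, heq_eq_eq, true_and] at this
      exact this.symm
    have h10 := hall _ hg
    rw [h9] at h10
    exact h10
  · intro hall g hg
    exact (fev_iso (R2 := fun x y : {s : ME W // UE R 2 20 [ME.f b, s]} =>
      UE R 3 20 [ME.f b, x.1, y.1]) e hbij hR _ _ _ _ _).1 (hall (vl g hg))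

theorem canonical_of_valid {φ : Form}
    (h : SOValid.{u} (imp fSyn (imp fSet (all 0 (imp (cdF φ) fCan))))) : Canonical φ := by
  have hst := std_UC.{u}
  have hn : Nonempty MC.{u} := ⟨.n 0⟩
  have h1 := h MC.{u} (fun _ => .n 0) UC
  rw [eval_imp, eval_imp, eval_fSyn, eval_fSet, eval_all] at h1
  have h2 := h1 hst.synC setC_UC (.f φ)
  rw [eval_imp, eval_cdF hst, Function.update_self, eval_fCan, Function.update_self] at h2
  exact (canC_iff hst setC_UC φ).1 (h2 rfl)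

/-- Membership in `ECF` is expressed by a second-order validity. -/
theorem theta_iff (φ : Form) : SOValid.{u} (theta φ) ↔ ECF.{u} φ := by
  constructor
  · intro h
    refine ⟨elementary_of_valid fun M _ v U => ?_, canonical_of_valid.{u} fun M _ v U => ?_⟩
    · exact (eval_and.1 (h M v U)).2
    · exact (eval_and.1 (h M v U)).1
  · rintro ⟨hE, hC⟩ M _ v U
    rw [theta, eval_and]
    constructor
    · rw [eval_imp, eval_imp, eval_fSyn, eval_fSet, eval_all]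
      intro hS hSet x
      obtain ⟨num, cd, hst⟩ := hS.std
      rw [eval_imp, eval_cdF hst, Function.update_self, eval_fCan, Function.update_self]
      rintro rfl
      exact (canC_iff hst hSet φ).2 hC
    · rw [eval_imp, eval_imp, eval_fSyn, eval_fFam, eval_all]
      intro hS hFam x
      obtain ⟨num, cd, hst⟩ := hS.std
      rw [eval_imp, eval_cdF hst, Function.update_self, eval_fEl, Function.update_self]
      rintro rfl
      exact el_of_elementary hst hFam hE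

/-! ### Computability -/

theorem pr_u1 {α : Type*} [Primcodable α] (j x : ℕ) : Primrec fun _ : α => u1 j x :=
  Primrec.const _

theorem pr_nmF : Primrec nmF := by
  refine pr_natRec (s := fun _ a => ex 1 (SO.and (b2 0 1 0) (ex 0 (SO.and (eq 0 1) a)))) ?_ rfl
    (fun n => rfl)
  exact pr_sEx.comp (Primrec.const 1) (pr_sAnd.comp (Primrec.const _) (pr_sEx.comp
    (Primrec.const 0) (pr_sAnd.comp (Primrec.const _) Primrec.snd)))

theorem pr_cdF : Primrec cdF := by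
  refine pr_formRec (v := fun n => ex 1 (SO.and (b2 1 1 0) (ex 0 (SO.and (eq 0 1) (nmF n)))))
    (b := u1 4 0)
    (i := fun a b => ex 1 (ex 2 (SO.and (t3 0 1 2 0) (SO.and (ex 0 (SO.and (eq 0 1) a))
      (ex 0 (SO.and (eq 0 2) b))))))
    (x := fun a => ex 1 (SO.and (b2 2 1 0) (ex 0 (SO.and (eq 0 1) a))))
    ?_ ?_ ?_ (fun n => rfl) rfl (fun a c => rfl) (fun a => rfl)
  · exact pr_sEx.comp (Primrec.const 1) (pr_sAnd.comp (Primrec.const _) (pr_sEx.comp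
      (Primrec.const 0) (pr_sAnd.comp (Primrec.const _) pr_nmF)))
  · exact pr_sEx.comp (Primrec.const 1) (pr_sEx.comp (Primrec.const 2) (pr_sAnd.comp
      (Primrec.const _) (pr_sAnd.comp
        (pr_sEx.comp (Primrec.const 0) (pr_sAnd.comp (Primrec.const _) Primrec.fst))
        (pr_sEx.comp (Primrec.const 0) (pr_sAnd.comp (Primrec.const _) Primrec.snd)))))
  · exact pr_sEx.comp (Primrec.const 1) (pr_sAnd.comp (Primrec.const _) (pr_sEx.comp
      (Primrec.const 0) (pr_sAnd.comp (Primrec.const _) Primrec.id)))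

theorem pr_theta : Primrec theta := by
  refine pr_sAnd.comp ?_ ?_
  · exact pr_sImp.comp (Primrec.const _) (pr_sImp.comp (Primrec.const _)
      (pr_sAll.comp (Primrec.const 0) (pr_sImp.comp pr_cdF (Primrec.const _))))
  · exact pr_sImp.comp (Primrec.const _) (pr_sImp.comp (Primrec.const _)
      (pr_sAll.comp (Primrec.const 0) (pr_sImp.comp pr_cdF (Primrec.const _))))

/-- `ECF` is many-one equivalent to second-order validity. -/
theorem ecf_equiv : ManyOneEquiv ECF.{u} SOValid.{u} := by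
  refine ⟨⟨theta, pr_theta.to_comp, fun φ => (theta_iff φ).symm⟩,
    ⟨fun χ => red (thA (toM χ)) (thB (toM χ)), pr_soToForm.to_comp, fun χ => ?_⟩⟩
  rw [ecf_red_iff, sovalid_iff_frameCons]

end Pool.Agent.Helper97.Ecf
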