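import Pool.Agent.Helper97.EcfAna1
import Pool.Agent.Helper97.EcfUp5

/-!
# Second-order arithmetic reduces to second-order validity, hence to `ECF`
-/

universe u w

namespace Pool.Agent.Helper97.Ecf

open SO

/-- Truth is invariant under isomorphism. -/
theorem eval_iso {W : Type u} {W' : Type w} (f : W ≃ W') (a : SO) (v : ℕ → W)
    (U : ℕ → ℕ → List W → Prop) :
    a.eval v U ↔ a.eval (fun i => f (v i)) (fun k j l => U k j (l.map f.symm)) := by
  induction a generalizing v U with
  | eq i j => simp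
  | app j l =>
    simp only [eval_app, List.map_map, Function.comp_def,
      Equiv.symm_apply_apply]
  | bot => rfl
  | imp a b iha ihb => rw [eval_imp, eval_imp, iha, ihb]
  | all i a ih =>
    have key : ∀ x : W, (fun j => f (Function.update v i x j)) =
        Function.update (fun j => f (v j)) i (f x) := by
      intro x
      funext j
      by_cases hj : j = i
      · subst hj
        rw [Function.update_self, Function.update_self]
      · rw [Function.update_of_ne hj, Function.update_of_ne hj]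
    rw [eval_all, eval_all]
    constructor
    · intro h y
      have h1 := (ih _ _).1 (h (f.symm y))
      rw [key, Equiv.apply_symm_apply] at h1
      exact h1
    · intro h x
      rw [ih, key]
      exact h (f x)
  | allR k j a ih =>
    have key : ∀ X : List W → Prop, (fun k' j' (l : List W') =>
        (Function.update U k (Function.update (U k) j X)) k' j' (l.map f.symm)) =
        Function.update (fun k' j' (l : List W') => U k' j' (l.map f.symm)) k
          (Function.update (fun j' (l : List W') => U k j' (l.map f.symm)) j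
            (fun l => X (l.map f.symm))) := by
      intro X
      funext k' j'
      by_cases hk : k' = k
      · subst hk
        simp only [Function.update_self]
        by_cases hj : j' = j
        · subst hj
          simp only [Function.update_self]
        · simp only [Function.update_of_ne hj]
      · simp only [Function.update_of_ne hk]
    rw [eval_allR, eval_allR]
    constructor
    · intro h X
      have h1 := (ih _ _).1 (h (fun l => X (l.map f)))
      rw [key] at h1
      simp only [List.map_map] at h1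
      have h2 : (fun l : List W' => X (List.map (f ∘ f.symm) l)) = X := by
        funext l
        rw [Equiv.self_comp_symm, List.map_id]
      rw [h2] at h1
      exact h1
    · intro h X
      rw [ih, key]
      exact h _

/-- The second-order axioms of arithmetic for the ternary relation variables 0 and 1. -/
def pax : SO :=
  SO.and (all 0 (all 1 (ex 2 (app 0 [0, 1, 2]))))
  (SO.and (all 0 (all 1 (all 2 (all 3 (imp (app 0 [0, 1, 2]) (imp (app 0 [0, 1, 3]) (eq 2 3)))))))
  (SO.and (all 0 (all 1 (ex 2 (app 1 [0, 1, 2]))))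
  (SO.and (all 0 (all 1 (all 2 (all 3 (imp (app 1 [0, 1, 2]) (imp (app 1 [0, 1, 3]) (eq 2 3)))))))
  (ex 4 (ex 5 (SO.and (all 0 (app 0 [0, 4, 0])) (SO.and (all 0 (app 1 [0, 4, 4]))
  (SO.and (all 0 (all 1 (all 2 (all 3 (all 6 (imp (app 0 [1, 5, 2]) (imp (app 0 [0, 1, 3])
    (imp (app 0 [3, 5, 6]) (app 0 [0, 2, 6])))))))))
  (SO.and (all 0 (all 1 (all 2 (all 3 (all 6 (imp (app 0 [1, 5, 2]) (imp (app 1 [0, 1, 3])
    (imp (app 0 [3, 0, 6]) (app 1 [0, 2, 6])))))))))
  (SO.and (all 0 (neg (app 0 [0, 5, 4])))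
  (SO.and (all 0 (all 1 (all 2 (imp (app 0 [0, 5, 2]) (imp (app 0 [1, 5, 2]) (eq 0 1))))))
  (allR 1 0 (imp (app 0 [4]) (imp (all 0 (all 1 (imp (app 0 [0]) (imp (app 0 [0, 5, 1])
    (app 0 [1]))))) (all 0 (app 0 [0]))))))))))))))))

/-- The meaning of the axioms of arithmetic. -/
theorem eval_pax {W : Type u} (v : ℕ → W) (U : ℕ → ℕ → List W → Prop) : pax.eval v U ↔
    (∀ x y, ∃ z, U 3 0 [x, y, z]) ∧ (∀ x y z z', U 3 0 [x, y, z] → U 3 0 [x, y, z'] → z = z') ∧
    (∀ x y, ∃ z, U 3 1 [x, y, z]) ∧ (∀ x y z z', U 3 1 [x, y, z] → U 3 1 [x, y, z'] → z = z') ∧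
    ∃ o e, (∀ x, U 3 0 [x, o, x]) ∧ (∀ x, U 3 1 [x, o, o]) ∧
    (∀ x y y' z z', U 3 0 [y, e, y'] → U 3 0 [x, y, z] → U 3 0 [z, e, z'] → U 3 0 [x, y', z']) ∧
    (∀ x y y' z z', U 3 0 [y, e, y'] → U 3 1 [x, y, z] → U 3 0 [z, x, z'] → U 3 1 [x, y', z']) ∧
    (∀ x, ¬ U 3 0 [x, e, o]) ∧ (∀ x y z, U 3 0 [x, e, z] → U 3 0 [y, e, z] → x = y) ∧
    (∀ X : List W → Prop, X [o] → (∀ x y, X [x] → U 3 0 [x, e, y] → X [y]) → ∀ x, X [x]) := by
  simp (config := {decide := true}) only [pax, eval_and, eval_all, eval_ex, eval_imp, eval_neg,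
    eval_allR, eval_app, eval_eq, List.length_cons, List.length_nil, Nat.reduceAdd,
    List.map_cons, List.map_nil, Function.update_self, Function.update_of_ne, ne_eq]

/-- Second-order arithmetic is categorical. -/
theorem pax_equiv {W : Type u} {v : ℕ → W} {U : ℕ → ℕ → List W → Prop} (h : pax.eval v U) :
    ∃ f : W ≃ ℕ, Ar (fun k j l => U k j (l.map f.symm)) := by
  rw [eval_pax] at h
  obtain ⟨aT, aF, mT, mF, o, e, h1, h2, h3, h4, h5, h6, h7⟩ := h
  choose add hadd using aT
  choose mul hmul using mT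
  have aU : ∀ x y z, U 3 0 [x, y, z] ↔ add x y = z := fun x y z =>
    ⟨fun h => aF _ _ _ _ (hadd x y) h, fun h => h ▸ hadd x y⟩
  have mU : ∀ x y z, U 3 1 [x, y, z] ↔ mul x y = z := fun x y z =>
    ⟨fun h => mF _ _ _ _ (hmul x y) h, fun h => h ▸ hmul x y⟩
  simp only [aU, mU] at h1 h2 h3 h4 h5 h6 h7
  have h3' : ∀ x y, add x (add y e) = add (add x y) e := fun x y => h3 x y _ _ _ rfl rfl rfl
  have h4' : ∀ x y, mul x (add y e) = add (mul x y) x := fun x y => h4 x y _ _ _ rfl rfl rfl
  let num : ℕ → W := fun n => Nat.rec o (fun _ x => add x e) n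
  have n0 : num 0 = o := rfl
  have n1 : ∀ n, num (n + 1) = add (num n) e := fun _ => rfl
  have hsurj : Function.Surjective num := by
    intro x
    obtain ⟨n, hn⟩ := h7 (fun l => ∃ n, l = [num n]) ⟨0, rfl⟩ (by
      rintro x y ⟨n, hn⟩ rfl
      refine ⟨n + 1, ?_⟩
      rw [List.cons.injEq] at hn
      rw [n1, hn.1]) x
    rw [List.cons.injEq] at hn
    exact ⟨n, hn.1.symm⟩
  have hinj : Function.Injective num := by
    intro a
    induction a with
    | zero =>
      intro b hb
      cases b with
      | zero => rfl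
      | succ b => exact absurd hb.symm (h5 _)
    | succ a ih =>
      intro b hb
      cases b with
      | zero => exact absurd hb (h5 _)
      | succ b => rw [ih (h6 _ _ _ hb rfl)]
  have nadd : ∀ a b, add (num a) (num b) = num (a + b) := by
    intro a b
    induction b with
    | zero => exact h1 _
    | succ b ih => rw [n1, h3', ih, ← n1, Nat.add_assoc]
  have nmul : ∀ a b, mul (num a) (num b) = num (a * b) := by
    intro a b
    induction b with
    | zero => exact h2 _
    | succ b ih => rw [n1, h4', ih, nadd, Nat.mul_succ]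
  refine ⟨(Equiv.ofBijective num ⟨hinj, hsurj⟩).symm, ?_, ?_⟩
  · intro a b c
    change U 3 0 [num a, num b, num c] ↔ _
    rw [aU, nadd]
    exact hinj.eq_iff
  · intro a b c
    change U 3 1 [num a, num b, num c] ↔ _
    rw [mU, nmul]
    exact hinj.eq_iff

/-- The natural numbers satisfy the axioms. -/
theorem eval_pax_nat {v : ℕ → ℕ} {U : ℕ → ℕ → List ℕ → Prop} (hU : Ar U) : pax.eval v U := by
  rw [eval_pax]
  simp only [hU.1, hU.2]
  refine ⟨fun x y => ⟨_, rfl⟩, fun x y z z' h h' => h ▸ h', fun x y => ⟨_, rfl⟩,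
    fun x y z z' h h' => h ▸ h', 0, 1, fun x => rfl, fun x => rfl, fun x y y' z z' h h' h'' => ?_,
    fun x y y' z z' h h' h'' => ?_, fun x => Nat.succ_ne_zero x, fun x y z h h' => by omega,
    fun X h0 h1 x => ?_⟩
  · omega
  · rw [← h, ← h'', ← h', Nat.mul_succ]
  · induction x with
    | zero => exact h0
    | succ x ih => exact h1 x _ ih rfl

/-- The formula stating that the element variable 0 has value `n`. -/
def nmA : ℕ → SO
  | 0 => app 0 [0, 0, 0]
  | n + 1 => ex 1 (SO.and (ex 2 (SO.and (SO.and (app 1 [2, 2, 2]) (neg (app 0 [2, 2, 2])))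
      (app 0 [1, 2, 0]))) (ex 0 (SO.and (eq 0 1) (nmA n))))

theorem eval_nmA {U : ℕ → ℕ → List ℕ → Prop} (hU : Ar U) (n : ℕ) (v : ℕ → ℕ) :
    (nmA n).eval v U ↔ v 0 = n := by
  induction n generalizing v with
  | zero =>
    rw [nmA, eval_app]
    change U 3 0 [v 0, v 0, v 0] ↔ _
    rw [hU.1]
    omega
  | succ n ih =>
    simp (config := {decide := true}) only [nmA, eval_ex, eval_and, eval_neg, eval_app, eval_eq,
      List.length_cons, List.length_nil, Nat.reduceAdd, List.map_cons, List.map_nil, ih, hU.1,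
      hU.2, Function.update_self, Function.update_of_ne, ne_eq, exists_eq_left]
    constructor
    · rintro ⟨x, ⟨y, ⟨h1, h2⟩, h3⟩, rfl⟩
      have h4 : y = 1 :=
        Nat.eq_of_mul_eq_mul_left (k := 1) (Nat.pos_of_ne_zero (n := y) (by omega)) (by omega)
      omega
    · intro h
      exact ⟨n, ⟨1, ⟨rfl, by omega⟩, by omega⟩, rfl⟩

/-- The reduction of second-order arithmetic to second-order validity. -/
def rho (a : SO) (n : ℕ) : SO := imp pax (imp (nmA n) a)

theorem rho_iff (a : SO) (n : ℕ) : SOValid.{u} (rho a n) ↔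
    ∀ (v : ℕ → ℕ) (U : ℕ → ℕ → List ℕ → Prop), Ar U → v 0 = n → a.eval v U := by
  constructor
  · intro h v U hU hv
    have h1 := h (ULift.{u} ℕ) (fun i => ULift.up (v i)) (fun k j l => U k j (l.map ULift.down))
    have h2 := (eval_iso (Equiv.ulift.{u, 0} (α := ℕ)).symm (rho a n) v U).2 h1
    rw [rho, eval_imp, eval_imp] at h2
    exact h2 (eval_pax_nat hU) ((eval_nmA hU n v).2 hv)
  · intro h W _ v U
    rw [rho, eval_imp, eval_imp]
    intro hp hn
    obtain ⟨f, hf⟩ := pax_equiv hp
    rw [eval_iso f] at hn ⊢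
    exact h _ _ hf ((eval_nmA hf n _).1 hn)

theorem pr_nmA : Primrec nmA := by
  refine pr_natRec (s := fun _ a => ex 1 (SO.and (ex 2 (SO.and (SO.and (app 1 [2, 2, 2])
      (neg (app 0 [2, 2, 2]))) (app 0 [1, 2, 0]))) (ex 0 (SO.and (eq 0 1) a)))) ?_ rfl
      (fun n => rfl)
  exact pr_sEx.comp (Primrec.const 1) (pr_sAnd.comp (Primrec.const _) (pr_sEx.comp
    (Primrec.const 0) (pr_sAnd.comp (Primrec.const _) Primrec.snd)))

theorem pr_rho : Primrec₂ rho :=
  pr_sImp.comp (Primrec.const _) (pr_sImp.comp (pr_nmA.comp Primrec.snd) Primrec.fst)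

/-- Every set definable in second-order arithmetic reduces to second-order validity. -/
theorem sovalid_hard {S : ℕ → Prop} (hS : Analytical S) : S ≤₀ SOValid.{u} := by
  obtain ⟨a, ha⟩ := hS
  refine ⟨fun n => rho a n, (pr_rho.comp (Primrec.const a) Primrec.id).to_comp, fun n => ?_⟩
  rw [rho_iff]
  constructor
  · intro hn v U hU hv
    exact (ha v U hU).1 (hv ▸ hn)
  · intro h
    exact (ha (fun _ => n) arU ar_arU).2 (h _ _ ar_arU rfl)

/-- Second-order validity is not definable in second-order arithmetic. -/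
theorem ecf_not_analytical : ¬ Analytical fun n => ECF.{u} (decF n) := by
  intro h
  obtain ⟨g, hg, hg'⟩ := ecf_equiv.{u}.2
  refine diag_not_analytical ?_
  have hr : Computable fun n : ℕ => rho (decS n) n := by
    have h0 : Primrec fun n : ℕ => decS n := by
      have := Primrec.ofNat SO
      refine this.of_eq fun n => ofNat_so n
    exact (pr_rho.comp h0 Primrec.id).to_comp
  have hf : Computable fun n : ℕ => encF (g (rho (decS n) n)) :=
    Computable.encode.comp (hg.comp hr)
  refine (Analytical.of_reducible h hf (S := fun n => ∀ (v : ℕ → ℕ)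
    (U : ℕ → ℕ → List ℕ → Prop), Ar U → v 0 = n → (decS n).eval v U) fun n => ?_).compl
  rw [← rho_iff.{u}, decF_encF]
  exact hg' _

/-- `ECF` is undecidable. -/
theorem ecf_not_computable : ¬ ComputablePred ECF.{u} := by
  intro h
  refine ecf_not_analytical.{u} (analytical_of_computable ?_)
  refine ComputablePred.computable_of_manyOneReducible
    (⟨decF, ?_, fun n => Iff.rfl⟩ : (fun n => ECF.{u} (decF n)) ≤₀ ECF.{u}) h
  have := Primrec.ofNat Form
  exact (this.of_eq fun n => ofNat_form n).to_comp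

/-- The location of `ECF`. -/
theorem ecf_location : ManyOneEquiv ECF.{u} SOValid.{u} ∧
    (∀ S : ℕ → Prop, Analytical S → S ≤₀ ECF.{u}) ∧
    (¬ Analytical fun n => ECF.{u} (decF n)) ∧ ¬ ComputablePred ECF.{u} :=
  ⟨ecf_equiv, fun _ hS => (sovalid_hard.{u} hS).trans ecf_equiv.2, ecf_not_analytical,
    ecf_not_computable⟩

end Pool.Agent.Helper97.Ecf
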