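import Pool.Agent.Helper97.EcfUltra

/-!
# First-order meaning of the structural axioms
-/

universe u

namespace Pool.Agent.Helper97.Ecf

open Form

/-- The point predicates used by the axioms. -/
structure Sig (W : Type u) where
  K : W → Prop
  T : W → Prop
  Y : W → Prop
  E : W → Prop
  H : W → Prop
  L : W → Prop
  P : W → Prop
  Q : W → Prop
  D : W → Prop
  G : W → Prop
  I : W → Prop
  B : W → Prop
  f1 : W → Prop
  f2 : W → Prop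

/-- The predicates defined by the variable-free formulas. -/
def sigOf {W : Type u} (R : W → W → Prop) : Sig W where
  K := sat R (fun _ _ => False) tK
  T := sat R (fun _ _ => False) tT
  Y := sat R (fun _ _ => False) tY
  E := sat R (fun _ _ => False) tE
  H := sat R (fun _ _ => False) tH
  L := sat R (fun _ _ => False) tL
  P := sat R (fun _ _ => False) tP
  Q := sat R (fun _ _ => False) tQ
  D := sat R (fun _ _ => False) tD
  G := sat R (fun _ _ => False) tG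
  I := sat R (fun _ _ => False) tI
  B := sat R (fun _ _ => False) tB
  f1 := sat R (fun _ _ => False) Ecf.f1
  f2 := sat R (fun _ _ => False) Ecf.f2

section
variable {W : Type u} {R : W → W → Prop} {V : ℕ → W → Prop} {x : W}
theorem sat_tK : sat R V tK x ↔ (sigOf R).K x := sat_closed (by simp) _ _ _
theorem sat_tT : sat R V tT x ↔ (sigOf R).T x := sat_closed (by simp) _ _ _
theorem sat_tY : sat R V tY x ↔ (sigOf R).Y x := sat_closed (by simp) _ _ _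
theorem sat_tE : sat R V tE x ↔ (sigOf R).E x := sat_closed (by simp) _ _ _
theorem sat_tH : sat R V tH x ↔ (sigOf R).H x := sat_closed (by simp) _ _ _
theorem sat_tL : sat R V tL x ↔ (sigOf R).L x := sat_closed (by simp) _ _ _
theorem sat_tP : sat R V tP x ↔ (sigOf R).P x := sat_closed (by simp) _ _ _
theorem sat_tQ : sat R V tQ x ↔ (sigOf R).Q x := sat_closed (by simp) _ _ _
theorem sat_tD : sat R V tD x ↔ (sigOf R).D x := sat_closed (by simp) _ _ _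
theorem sat_tG : sat R V tG x ↔ (sigOf R).G x := sat_closed (by simp) _ _ _
theorem sat_tI : sat R V tI x ↔ (sigOf R).I x := sat_closed (by simp) _ _ _
theorem sat_tB : sat R V tB x ↔ (sigOf R).B x := sat_closed (by simp) _ _ _
theorem sat_f1 : sat R V f1 x ↔ (sigOf R).f1 x := sat_closed (by simp) _ _ _
theorem sat_f2 : sat R V f2 x ↔ (sigOf R).f2 x := sat_closed (by simp) _ _ _
end

/-- The first-order conditions corresponding to the structural axioms. -/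
structure AxC {W : Type u} (R : W → W → Prop) (S : Sig W) (w : W) : Prop where
  a1 : ∀ x, R w x → S.K x → ∀ x', R x x' → S.K x' → R w x'
  a2 : ∀ x, R w x → S.K x → ∀ a, R w a → S.I a → ∀ z, R a z → S.H z →
    ∃ t, R z t ∧ S.T t ∧ R t x
  a3 : ∀ a, R w a → S.I a → ∀ z, R a z → S.H z → ∀ t, R z t → S.T t → ∀ t', R t t' → S.T t' →
    R z t'
  a4 : ∀ a, R w a → S.I a → ∀ z, R a z → S.H z → ∀ t, R z t → S.T t → ∀ x, R t x → S.K x →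
    ∀ t', R t t' → S.T t' → ∃ x', R t' x' ∧ S.K x' ∧ R x x'
  a5 : ∀ a, R w a → S.I a → ∀ z, R a z → S.H z → ∀ t, R z t → S.T t → ∀ x, R t x → S.K x →
    ∀ x', R x x' → S.K x' → ∃ t', R t t' ∧ S.T t' ∧ R t' x'
  a6 : ∀ c, R w c → S.B c → ∀ a, R w a → S.I a → ∀ z, R a z → S.H z → ∀ t, R z t → S.T t →
    ∃ y, R t y ∧ S.Y y ∧ R y c
  a7 : ∀ a, R w a → S.I a → ∀ z, R a z → S.H z → ∀ t, R z t → S.T t → ∀ x, R t x → S.K x →
    ∀ y, R t y → S.Y y → S.f1 y → ∀ c, R y c → S.B c →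
    ∃ s, R z s ∧ S.H s ∧ ∃ e, R s e ∧ S.E e ∧ S.f1 e ∧ R e x ∧ R e c
  a8 : ∀ a, R w a → S.I a → ∀ z, R a z → S.H z → ∀ t, R z t → S.T t → ∀ x, R t x → S.K x →
    ∀ y, R t y → S.Y y → ¬ S.f1 y → ∀ c, R y c → S.B c →
    ∃ s, R z s ∧ S.H s ∧ ∃ e, R s e ∧ S.E e ∧ ¬ S.f1 e ∧ R e x ∧ R e c
  a9 : ∀ l, R w l → S.L l → ∀ a, R w a → S.H a → ∀ b, R a b → S.H b →
    ∃ r, R w r ∧ S.P r ∧ (∀ l', R r l' → S.L l' → l' = l) ∧ (∀ a', R r a' → S.H a' → a' = a) ∧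
      (∀ q, R r q → S.Q q → ∀ b', R q b' → S.H b' → b' = b)
  a10 : ∀ r, R w r → S.P r → ∀ d, R r d → S.D d → ∀ d', R d d' → S.D d' → R r d'
  a11 : ∀ r, R w r → S.P r → ∀ d, R r d → S.D d → ∀ x, R d x → S.K x → ∀ x', R d x' → S.K x' →
    x' = x
  a12 : ∀ r, R w r → S.P r → ∀ d, R r d → S.D d → ∀ x, R d x → S.B x → ∀ x', R d x' → S.B x' →
    x' = x
  a13 : ∀ r, R w r → S.P r → ∀ d, R r d → S.D d → ∀ d', R d d' → S.D d' → S.f1 d' →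
    ∀ e, R d' e → S.E e → ¬ S.f1 e → R d e
  a14 : ∀ r, R w r → S.P r → ∀ d, R r d → S.D d → ∀ d', R d d' → S.D d' → ¬ S.f1 d' →
    ∀ e, R d' e → S.E e → S.f1 e → R d e
  a15 : ∀ r, R w r → S.P r → ∀ d, R r d → S.D d → ∀ d', R d d' → S.D d' →
    ∀ e, R d' e → S.E e → ∀ x, R e x → S.K x → R d e ∨ R d x
  a16 : ∀ r, R w r → S.P r → ∀ d, R r d → S.D d → ∀ d', R d d' → S.D d' →
    ∀ e, R d' e → S.E e → ∀ x, R e x → S.B x → R d e ∨ R d x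
  a17 : ∀ r, R w r → S.P r → ∀ d, R r d → S.D d → S.f2 d →
    ∃ l, R r l ∧ S.L l ∧ ∃ s, R l s ∧ S.H s ∧ ∀ e, R s e → S.E e → R d e
  a18 : ∀ r, R w r → S.P r → ∀ d, R r d → S.D d → ∀ h, R d h → S.H h → ∀ h', R h h' → S.H h' →
    ∀ d', R d d' → S.D d' → R d' h'
  a19 : ∀ r, R w r → S.P r → ∀ d, R r d → S.D d → ∀ h, R d h → S.H h → R w h
  a20 : ∀ r, R w r → S.P r → ∀ q, R r q → S.Q q → ∀ b, R q b → S.H b → ∀ d, R r d → S.D d →
    ∀ h, R d h → S.H h → ∃ a, R r a ∧ S.H a ∧ ∃ b', R a b' ∧ S.H b' ∧ ∀ u, R b' u → S.H u →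
      R b u ∧ ∃ h', R h h' ∧ S.H h' ∧ ∃ g, R h' g ∧ S.G g ∧ R g u
  a21 : ∀ r, R w r → S.P r → ∀ d, R r d → S.D d → ∀ h, R d h → S.H h → ∀ h', R h h' → S.H h' →
    ∀ g, R h' g → S.G g → ∀ u, R g u → S.H u → ∀ g', R h' g' → S.G g' → ∀ u', R g' u' →
    S.H u' → u' = u

/-- The valuation making the first three variables equal to `p`, `q`, `r`. -/
def val {W : Type u} (p q r : W → Prop) : ℕ → W → Prop
  | 0 => p
  | 1 => q
  | _ => r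

theorem AxC.sat {W : Type u} {R : W → W → Prop} {w : W} (h : AxC R (sigOf R) w)
    (V : ℕ → W → Prop) : sat R V (conj ax) w := by
  rw [sat_conj]
  simp only [ax, List.mem_cons, List.not_mem_nil, or_false, forall_eq_or_imp, forall_eq,
    sat_imp, sat_dt, sat_bt, sat_and, sat_or, sat_neg, sat_var, sat_tK, sat_tT, sat_tY, sat_tE,
    sat_tH, sat_tL, sat_tP, sat_tQ, sat_tD, sat_tG, sat_tI, sat_tB, sat_f1, sat_f2]
  refine ⟨?_, ?_, ?_, ?_, ?_, ?_, ?_, ?_, ?_, ?_, ?_, ?_, ?_, ?_, ?_, ?_, ?_, ?_, ?_, ?_, ?_⟩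
  · rintro ⟨x, hx, hK, x', hx', hK', hp⟩
    exact ⟨x', h.a1 x hx hK x' hx' hK', hK', hp⟩
  · rintro ⟨x, hx, hK, hp⟩ a ha hI z hz hH
    obtain ⟨t, ht, hT, htx⟩ := h.a2 x hx hK a ha hI z hz hH
    exact ⟨t, ht, hT, x, htx, hK, hp⟩
  · rintro a ha hI z hz hH ⟨t, ht, hT, t', ht', hT', hp⟩
    exact ⟨t', h.a3 a ha hI z hz hH t ht hT t' ht' hT', hT', hp⟩
  · rintro a ha hI z hz hH t ht hT ⟨x, hx, hK, hp⟩ t' ht' hT'
    obtain ⟨x', hx', hK', hxx⟩ := h.a4 a ha hI z hz hH t ht hT x hx hK t' ht' hT'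
    exact ⟨x', hx', hK', hp x' hxx hK'⟩
  · rintro a ha hI z hz hH t ht hT ⟨x, hx, hK, x', hx', hK', hp⟩
    obtain ⟨t', ht', hT', htx⟩ := h.a5 a ha hI z hz hH t ht hT x hx hK x' hx' hK'
    exact ⟨t', ht', hT', x', htx, hK', hp⟩
  · rintro ⟨c, hc, hB, hp⟩ a ha hI z hz hH t ht hT
    obtain ⟨y, hy, hY, hyc⟩ := h.a6 c hc hB a ha hI z hz hH t ht hT
    exact ⟨y, hy, hY, c, hyc, hB, hp⟩
  · rintro a ha hI z hz hH ⟨t, ht, hT, ⟨x, hx, hK, hp⟩, y, hy, hY, hf, c, hc, hB, hq⟩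
    obtain ⟨s, hs, hHs, e, he, hE, hfe, hex, hec⟩ :=
      h.a7 a ha hI z hz hH t ht hT x hx hK y hy hY hf c hc hB
    exact ⟨s, hs, hHs, e, he, hE, hfe, ⟨x, hex, hK, hp⟩, c, hec, hB, hq⟩
  · rintro a ha hI z hz hH ⟨t, ht, hT, ⟨x, hx, hK, hp⟩, y, hy, hY, hf, c, hc, hB, hq⟩
    obtain ⟨s, hs, hHs, e, he, hE, hfe, hex, hec⟩ :=
      h.a8 a ha hI z hz hH t ht hT x hx hK y hy hY hf c hc hB
    exact ⟨s, hs, hHs, e, he, hE, hfe, ⟨x, hex, hK, hp⟩, c, hec, hB, hq⟩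
  · rintro ⟨⟨l, hl, hL, hp⟩, a, ha, hH, hq, b, hb, hHb, hr⟩
    obtain ⟨r, hr', hP, h1, h2, h3⟩ := h.a9 l hl hL a ha hH b hb hHb
    exact ⟨r, hr', hP, fun l' hl' hL' => by rw [h1 l' hl' hL']; exact hp,
      fun a' ha' hH' => by rw [h2 a' ha' hH']; exact hq,
      fun q hq' hQ b' hb' hHb' => by rw [h3 q hq' hQ b' hb' hHb']; exact hr⟩
  · rintro r hr hP ⟨d, hd, hD, d', hd', hD', hp⟩
    exact ⟨d', h.a10 r hr hP d hd hD d' hd' hD', hD', hp⟩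
  · rintro r hr hP d hd hD ⟨x, hx, hK, hp⟩ x' hx' hK'
    rw [h.a11 r hr hP d hd hD x hx hK x' hx' hK']; exact hp
  · rintro r hr hP d hd hD ⟨x, hx, hK, hp⟩ x' hx' hK'
    rw [h.a12 r hr hP d hd hD x hx hK x' hx' hK']; exact hp
  · rintro r hr hP d hd hD ⟨d', hd', hD', hf, e, he, hE, hfe, hp⟩
    exact ⟨e, h.a13 r hr hP d hd hD d' hd' hD' hf e he hE hfe, hE, hp⟩
  · rintro r hr hP d hd hD ⟨d', hd', hD', hf, e, he, hE, hfe, hp⟩
    exact ⟨e, h.a14 r hr hP d hd hD d' hd' hD' hf e he hE hfe, hE, hp⟩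
  · rintro r hr hP d hd hD ⟨d', hd', hD', e, he, hE, hp, x, hx, hK, hq⟩
    rcases h.a15 r hr hP d hd hD d' hd' hD' e he hE x hx hK with h1 | h1
    · exact Or.inl ⟨e, h1, hE, hp⟩
    · exact Or.inr ⟨x, h1, hK, hq⟩
  · rintro r hr hP d hd hD ⟨d', hd', hD', e, he, hE, hp, x, hx, hK, hq⟩
    rcases h.a16 r hr hP d hd hD d' hd' hD' e he hE x hx hK with h1 | h1
    · exact Or.inl ⟨e, h1, hE, hp⟩
    · exact Or.inr ⟨x, h1, hK, hq⟩
  · rintro r hr hP ⟨d, hd, hD, hf, hp⟩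
    obtain ⟨l, hl, hL, s, hs, hH, hall⟩ := h.a17 r hr hP d hd hD hf
    exact ⟨l, hl, hL, s, hs, hH, fun e he hE => hp e (hall e he hE) hE⟩
  · rintro r hr hP d hd hD ⟨x, hx, hH, x', hx', hH', hp⟩ d' hd' hD'
    exact ⟨x', h.a18 r hr hP d hd hD x hx hH x' hx' hH' d' hd' hD', hH', hp⟩
  · rintro ⟨r, hr, hP, d, hd, hD, x, hx, hH, hp⟩
    exact ⟨x, h.a19 r hr hP d hd hD x hx hH, hH, hp⟩
  · rintro r hr hP ⟨⟨q, hq, hQ, b, hb, hH, hp⟩, d, hd, hD, x, hx, hHx, hqq⟩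
    obtain ⟨a, ha, hHa, b', hb', hHb', hall⟩ := h.a20 r hr hP q hq hQ b hb hH d hd hD x hx hHx
    refine ⟨a, ha, hHa, b', hb', hHb', fun u hu hHu => ?_⟩
    obtain ⟨h1, x', hx', hHx', g, hg, hG, hgu⟩ := hall u hu hHu
    exact ⟨hp u h1 hHu, hqq x' hx' hHx' g hg hG u hgu hHu⟩
  · rintro r hr hP d hd hD x hx hHx x' hx' hHx' ⟨g, hg, hG, u, hu, hHu, hp⟩ g' hg' hG' u' hu' hHu'
    rw [h.a21 r hr hP d hd hD x hx hHx x' hx' hHx' g hg hG u hu hHu g' hg' hG' u' hu' hHu']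
    exact hp

theorem axC_of_sat {W : Type u} {R : W → W → Prop} {w : W}
    (h : ∀ V : ℕ → W → Prop, sat R V (conj ax) w) : AxC R (sigOf R) w := by
  have key : ∀ p q r : W → Prop, _ := fun p q r => (sat_conj ax w).1 (h (val p q r))
  simp only [ax, List.mem_cons, List.not_mem_nil, or_false, forall_eq_or_imp, forall_eq,
    sat_imp, sat_dt, sat_bt, sat_and, sat_or, sat_neg, sat_var, sat_tK, sat_tT, sat_tY, sat_tE,
    sat_tH, sat_tL, sat_tP, sat_tQ, sat_tD, sat_tG, sat_tI, sat_tB, sat_f1, sat_f2, val] at key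
  constructor
  · intro x hx hK x' hx' hK'
    obtain ⟨v, h1, h2, h3⟩ := (key (· = x') (fun _ => True) (fun _ => True)).1
      ⟨x, hx, hK, x', hx', hK', rfl⟩
    rwa [h3] at h1
  · intro x hx hK a ha hI z hz hH
    obtain ⟨t, h1, h2, v, h3, h4, h5⟩ :=
      (key (· = x) (fun _ => True) (fun _ => True)).2.1 ⟨x, hx, hK, rfl⟩ a ha hI z hz hH
    exact ⟨t, h1, h2, h5 ▸ h3⟩
  · intro a ha hI z hz hH t ht hT t' ht' hT'
    obtain ⟨v, h1, h2, h3⟩ := (key (· = t') (fun _ => True) (fun _ => True)).2.2.1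
      a ha hI z hz hH ⟨t, ht, hT, t', ht', hT', rfl⟩
    rwa [h3] at h1
  · intro a ha hI z hz hH t ht hT x hx hK t' ht' hT'
    obtain ⟨v, h1, h2, h3⟩ := (key (R x) (fun _ => True) (fun _ => True)).2.2.2.1
      a ha hI z hz hH t ht hT ⟨x, hx, hK, fun v hv _ => hv⟩ t' ht' hT'
    exact ⟨v, h1, h2, h3⟩
  · intro a ha hI z hz hH t ht hT x hx hK x' hx' hK'
    obtain ⟨v, h1, h2, y, h3, h4, h5⟩ := (key (· = x') (fun _ => True) (fun _ => True)).2.2.2.2.1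
      a ha hI z hz hH t ht hT ⟨x, hx, hK, x', hx', hK', rfl⟩
    exact ⟨v, h1, h2, h5 ▸ h3⟩
  · intro c hc hB a ha hI z hz hH t ht hT
    obtain ⟨v, h1, h2, y, h3, h4, h5⟩ :=
      (key (· = c) (fun _ => True) (fun _ => True)).2.2.2.2.2.1
        ⟨c, hc, hB, rfl⟩ a ha hI z hz hH t ht hT
    exact ⟨v, h1, h2, h5 ▸ h3⟩
  · intro a ha hI z hz hH t ht hT x hx hK y hy hY hf c hc hB
    obtain ⟨s, hs, hHs, e, he, hE, hfe, ⟨x', h1, h2, h3⟩, c', h4, h5, h6⟩ :=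
      (key (· = x) (· = c) (fun _ => True)).2.2.2.2.2.2.1
        a ha hI z hz hH ⟨t, ht, hT, ⟨x, hx, hK, rfl⟩, y, hy, hY, hf, c, hc, hB, rfl⟩
    exact ⟨s, hs, hHs, e, he, hE, hfe, h3 ▸ h1, h6 ▸ h4⟩
  · intro a ha hI z hz hH t ht hT x hx hK y hy hY hf c hc hB
    obtain ⟨s, hs, hHs, e, he, hE, hfe, ⟨x', h1, h2, h3⟩, c', h4, h5, h6⟩ :=
      (key (· = x) (· = c) (fun _ => True)).2.2.2.2.2.2.2.1
        a ha hI z hz hH ⟨t, ht, hT, ⟨x, hx, hK, rfl⟩, y, hy, hY, hf, c, hc, hB, rfl⟩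
    exact ⟨s, hs, hHs, e, he, hE, hfe, h3 ▸ h1, h6 ▸ h4⟩
  · intro l hl hL a ha hH b hb hHb
    obtain ⟨r, h1, h2, h3, h4, h5⟩ := (key (· = l) (· = a) (· = b)).2.2.2.2.2.2.2.2.1
      ⟨⟨l, hl, hL, rfl⟩, a, ha, hH, rfl, b, hb, hHb, rfl⟩
    exact ⟨r, h1, h2, h3, h4, h5⟩
  · intro r hr hP d hd hD d' hd' hD'
    obtain ⟨v, h1, h2, h3⟩ := (key (· = d') (fun _ => True) (fun _ => True)).2.2.2.2.2.2.2.2.2.1
      r hr hP ⟨d, hd, hD, d', hd', hD', rfl⟩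
    rwa [h3] at h1
  · intro r hr hP d hd hD x hx hK x' hx' hK'
    exact (key (· = x) (fun _ => True) (fun _ => True)).2.2.2.2.2.2.2.2.2.2.1
      r hr hP d hd hD ⟨x, hx, hK, rfl⟩ x' hx' hK'
  · intro r hr hP d hd hD x hx hK x' hx' hK'
    exact (key (· = x) (fun _ => True) (fun _ => True)).2.2.2.2.2.2.2.2.2.2.2.1
      r hr hP d hd hD ⟨x, hx, hK, rfl⟩ x' hx' hK'
  · intro r hr hP d hd hD d' hd' hD' hf e he hE hfe
    obtain ⟨v, h1, h2, h3⟩ :=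
      (key (· = e) (fun _ => True) (fun _ => True)).2.2.2.2.2.2.2.2.2.2.2.2.1
        r hr hP d hd hD ⟨d', hd', hD', hf, e, he, hE, hfe, rfl⟩
    rwa [h3] at h1
  · intro r hr hP d hd hD d' hd' hD' hf e he hE hfe
    obtain ⟨v, h1, h2, h3⟩ :=
      (key (· = e) (fun _ => True) (fun _ => True)).2.2.2.2.2.2.2.2.2.2.2.2.2.1
        r hr hP d hd hD ⟨d', hd', hD', hf, e, he, hE, hfe, rfl⟩
    rwa [h3] at h1
  · intro r hr hP d hd hD d' hd' hD' e he hE x hx hK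
    rcases (key (· = e) (· = x) (fun _ => True)).2.2.2.2.2.2.2.2.2.2.2.2.2.2.1
        r hr hP d hd hD ⟨d', hd', hD', e, he, hE, rfl, x, hx, hK, rfl⟩ with
      ⟨v, h1, h2, h3⟩ | ⟨v, h1, h2, h3⟩
    · rw [h3] at h1; exact Or.inl h1
    · rw [h3] at h1; exact Or.inr h1
  · intro r hr hP d hd hD d' hd' hD' e he hE x hx hK
    rcases (key (· = e) (· = x) (fun _ => True)).2.2.2.2.2.2.2.2.2.2.2.2.2.2.2.1
        r hr hP d hd hD ⟨d', hd', hD', e, he, hE, rfl, x, hx, hK, rfl⟩ with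
      ⟨v, h1, h2, h3⟩ | ⟨v, h1, h2, h3⟩
    · rw [h3] at h1; exact Or.inl h1
    · rw [h3] at h1; exact Or.inr h1
  · intro r hr hP d hd hD hf
    obtain ⟨l, h1, h2, s, h3, h4, h5⟩ :=
      (key (R d) (fun _ => True) (fun _ => True)).2.2.2.2.2.2.2.2.2.2.2.2.2.2.2.2.1
        r hr hP ⟨d, hd, hD, hf, fun v hv _ => hv⟩
    exact ⟨l, h1, h2, s, h3, h4, h5⟩
  · intro r hr hP d hd hD x hx hH x' hx' hH' d' hd' hD'
    obtain ⟨v, h1, h2, h3⟩ :=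
      (key (· = x') (fun _ => True) (fun _ => True)).2.2.2.2.2.2.2.2.2.2.2.2.2.2.2.2.2.1
        r hr hP d hd hD ⟨x, hx, hH, x', hx', hH', rfl⟩ d' hd' hD'
    rwa [h3] at h1
  · intro r hr hP d hd hD x hx hH
    obtain ⟨v, h1, h2, h3⟩ :=
      (key (· = x) (fun _ => True) (fun _ => True)).2.2.2.2.2.2.2.2.2.2.2.2.2.2.2.2.2.2.1
        ⟨r, hr, hP, d, hd, hD, x, hx, hH, rfl⟩
    rwa [h3] at h1
  · intro r hr hP q hq hQ b hb hH d hd hD x hx hHx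
    obtain ⟨a, h1, h2, b', h3, h4, h5⟩ :=
      (key (R b) (fun u => ∃ h', R x h' ∧ (sigOf R).H h' ∧ ∃ g, R h' g ∧ (sigOf R).G g ∧ R g u)
        (fun _ => True)).2.2.2.2.2.2.2.2.2.2.2.2.2.2.2.2.2.2.2.1
        r hr hP ⟨⟨q, hq, hQ, b, hb, hH, fun v hv _ => hv⟩, d, hd, hD, x, hx, hHx,
          fun h' hh' hHh' g hg hG u hu _ => ⟨h', hh', hHh', g, hg, hG, hu⟩⟩
    exact ⟨a, h1, h2, b', h3, h4, h5⟩
  · intro r hr hP d hd hD x hx hHx x' hx' hHx' g hg hG u hu hHu g' hg' hG' u' hu' hHu'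
    exact (key (· = u) (fun _ => True)
      (fun _ => True)).2.2.2.2.2.2.2.2.2.2.2.2.2.2.2.2.2.2.2.2
        r hr hP d hd hD x hx hHx x' hx' hHx' ⟨g, hg, hG, u, hu, hHu, rfl⟩ g' hg' hG' u' hu' hHu'

end Pool.Agent.Helper97.Ecf
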