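import Pool.Agent.Helper97.EcfSyntax

/-!
# Maximal consistent sets and the truth lemma
-/

universe u

namespace Pool.Agent.Helper97.Ecf

open Form

/-! ### Propositional reasoning -/

section pval
variable (v : Form → Prop)
@[simp] theorem pval_bot : pval v .bot ↔ False := Iff.rfl
@[simp] theorem pval_imp (a b : Form) : pval v (.imp a b) ↔ (pval v a → pval v b) := Iff.rfl
@[simp] theorem pval_neg (a : Form) : pval v (neg a) ↔ ¬ pval v a := Iff.rfl
@[simp] theorem pval_top : pval v top ↔ True := by simp [top]
@[simp] theorem pval_and (a b : Form) : pval v (Form.and a b) ↔ pval v a ∧ pval v b := by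
  simp only [Form.and, pval_neg, pval_imp]; tauto
@[simp] theorem pval_or (a b : Form) : pval v (Form.or a b) ↔ pval v a ∨ pval v b := by
  simp only [Form.or, pval_neg, pval_imp]; tauto
@[simp] theorem pval_conseq (l : List Form) (b : Form) :
    pval v (conseq l b) ↔ ((∀ a ∈ l, pval v a) → pval v b) := by
  induction l with
  | nil => simp [conseq]
  | cons a l ih =>
    rw [show conseq (a :: l) b = .imp a (conseq l b) from rfl, pval_imp, ih]
    simp only [List.mem_cons, forall_eq_or_imp]
    tauto
end pval

variable {Λ : Set Form}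

theorem NormalLogic.mp_list (N : NormalLogic Λ) :
    ∀ (l : List Form) (b : Form), conseq l b ∈ Λ → (∀ a ∈ l, a ∈ Λ) → b ∈ Λ
  | [], _, h, _ => h
  | a :: l, b, h, hl =>
    N.mp_list l b (N.mp a _ h (hl a (by simp))) (fun c hc => hl c (by simp [hc]))

/-- `Λ` is closed under propositional consequence. -/
theorem NormalLogic.prop (N : NormalLogic Λ) (l : List Form) (b : Form)
    (hl : ∀ a ∈ l, a ∈ Λ) (h : ∀ v : Form → Prop, (∀ a ∈ l, pval v a) → pval v b) : b ∈ Λ :=
  N.mp_list l b (N.taut _ fun v => (pval_conseq v l b).2 (h v)) hl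

theorem NormalLogic.K (N : NormalLogic Λ) (a b : Form) :
    Form.imp (.box (.imp a b)) (.imp (.box a) (.box b)) ∈ Λ := by
  have := N.subst _ (fun n => if n = 0 then a else b) N.axK
  simpa [Form.subst] using this

/-- If `a₁ → … → aₙ → b` is in `Λ`, so is `□a₁ → … → □aₙ → □b`. -/
theorem NormalLogic.box_conseq (N : NormalLogic Λ) :
    ∀ (l : List Form) (b : Form), conseq l b ∈ Λ → conseq (l.map .box) (.box b) ∈ Λ := by
  intro l
  induction l with
  | nil => intro b h; exact N.nec _ h
  | cons a l ih =>
    intro b h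
    -- `h : a → conseq l b ∈ Λ`; move `a` to the end
    have h1 : conseq l (.imp a b) ∈ Λ := by
      refine N.prop [conseq (a :: l) b] _ (by simpa using h) ?_
      intro v hv
      have := hv (conseq (a :: l) b) (by simp)
      rw [pval_conseq] at this ⊢
      intro hl
      rw [pval_imp]
      intro ha
      exact this (by simpa using ⟨ha, hl⟩)
    have h2 := ih _ h1
    refine N.prop [conseq (l.map .box) (.box (.imp a b)),
      .imp (.box (.imp a b)) (.imp (.box a) (.box b))] _ ?_ ?_
    · intro c hc
      simp only [List.mem_cons, List.not_mem_nil, or_false] at hc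
      rcases hc with rfl | rfl
      · exact h2
      · exact N.K a b
    · intro v hv
      have e1 := hv _ (List.mem_cons_self ..)
      have e2 := hv (.imp (.box (.imp a b)) (.imp (.box a) (.box b))) (by simp)
      rw [pval_conseq] at e1 ⊢
      intro hl
      simp only [List.map_cons, List.mem_cons, forall_eq_or_imp] at hl
      exact e2 (e1 hl.2) hl.1

/-! ### Maximal consistent sets -/

theorem consistent_mono {Γ Δ : Set Form} (h : Γ ⊆ Δ) (hc : Consistent Λ Δ) :
    Consistent Λ Γ := fun l hl => hc l fun a ha => h (hl a ha)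

theorem MCS.mem_of_conseq (N : NormalLogic Λ) {Γ : Set Form} (hΓ : MCS Λ Γ) (l : List Form)
    (hl : ∀ a ∈ l, a ∈ Γ) {b : Form} (h : conseq l b ∈ Λ) : b ∈ Γ := by
  have : insert b Γ = Γ := by
    refine hΓ.2 _ (Set.subset_insert _ _) ?_
    intro l' hl' hbad
    classical
    refine hΓ.1 (l ++ l'.filter (· ≠ b)) ?_ ?_
    · intro a ha
      rcases List.mem_append.1 ha with ha | ha
      · exact hl a ha
      · simp only [ne_eq, decide_not, List.mem_filter, Bool.not_eq_eq_eq_not, Bool.not_true,
          decide_eq_false_iff_not] at ha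
        rcases hl' a ha.1 with h1 | h1
        · exact absurd h1 ha.2
        · exact h1
    · refine N.prop [conseq l b, conseq l' .bot] _ ?_ ?_
      · intro c hc
        simp only [List.mem_cons, List.not_mem_nil, or_false] at hc
        rcases hc with rfl | rfl <;> assumption
      · intro v hv
        have e1 := hv _ (List.mem_cons_self ..)
        have e2 := hv (conseq l' .bot) (by simp)
        rw [pval_conseq] at e1 e2 ⊢
        intro hall
        have hb : pval v b := e1 fun a ha => hall a (List.mem_append_left _ ha)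
        refine e2 fun a ha => ?_
        by_cases hab : a = b
        · rw [hab]; exact hb
        · exact hall a (List.mem_append_right _ (by simp [ha, hab]))
  rw [← this]
  exact Set.mem_insert _ _

/-- Propositional closure of maximal consistent sets. -/
theorem MCS.prop (N : NormalLogic Λ) {Γ : Set Form} (hΓ : MCS Λ Γ) (l : List Form)
    (hl : ∀ a ∈ l, a ∈ Γ) {b : Form}
    (h : ∀ v : Form → Prop, (∀ a ∈ l, pval v a) → pval v b) : b ∈ Γ :=
  hΓ.mem_of_conseq N l hl (N.taut _ fun v => (pval_conseq v l b).2 (h v))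

theorem MCS.mem_of_logic (N : NormalLogic Λ) {Γ : Set Form} (hΓ : MCS Λ Γ) {b : Form}
    (h : b ∈ Λ) : b ∈ Γ :=
  hΓ.mem_of_conseq N [] (by simp) h

theorem MCS.bot_notMem (N : NormalLogic Λ) {Γ : Set Form} (hΓ : MCS Λ Γ) : Form.bot ∉ Γ :=
  fun h => hΓ.1 [.bot] (by simpa using h) (N.taut _ fun v => by simp)

theorem MCS.neg_mem_or (N : NormalLogic Λ) {Γ : Set Form} (hΓ : MCS Λ Γ) (a : Form) :
    a ∈ Γ ∨ neg a ∈ Γ := by
  by_contra hcon
  push Not at hcon
  obtain ⟨h1, h2⟩ := hcon
  have hinc : ¬ Consistent Λ (insert a Γ) := by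
    intro hc
    exact h1 (by rw [← hΓ.2 _ (Set.subset_insert _ _) hc]; exact Set.mem_insert _ _)
  simp only [Consistent, not_forall, not_not] at hinc
  obtain ⟨l, hl, hbad⟩ := hinc
  classical
  refine h2 (hΓ.mem_of_conseq N (l.filter (· ≠ a)) ?_ ?_)
  · intro c hc
    simp only [ne_eq, decide_not, List.mem_filter, Bool.not_eq_eq_eq_not, Bool.not_true,
      decide_eq_false_iff_not] at hc
    rcases hl c hc.1 with h | h
    · exact absurd h hc.2
    · exact h
  · refine N.prop [conseq l .bot] _ (by simpa using hbad) ?_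
    intro v hv
    have e := hv _ (List.mem_cons_self ..)
    rw [pval_conseq] at e ⊢
    intro hall
    rw [pval_neg]
    intro ha
    refine e fun c hc => ?_
    by_cases hca : c = a
    · rw [hca]; exact ha
    · exact hall c (by simp [hc, hca])

theorem MCS.neg_mem_iff (N : NormalLogic Λ) {Γ : Set Form} (hΓ : MCS Λ Γ) (a : Form) :
    neg a ∈ Γ ↔ a ∉ Γ := by
  constructor
  · intro h1 h2
    exact hΓ.bot_notMem N (hΓ.prop N [a, neg a] (by simp [h1, h2]) (fun v hv => by
      have := hv a (by simp)
      have := hv (neg a) (by simp)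
      simp_all))
  · intro h
    rcases hΓ.neg_mem_or N a with h1 | h1
    · exact absurd h1 h
    · exact h1

theorem MCS.imp_mem_iff (N : NormalLogic Λ) {Γ : Set Form} (hΓ : MCS Λ Γ) (a b : Form) :
    Form.imp a b ∈ Γ ↔ (a ∈ Γ → b ∈ Γ) := by
  constructor
  · intro h1 h2
    exact hΓ.prop N [a, .imp a b] (by simp [h1, h2]) (fun v hv => by
      have := hv a (by simp)
      have := hv (.imp a b) (by simp)
      simp_all)
  · intro h
    by_cases ha : a ∈ Γ
    · exact hΓ.prop N [b] (by simpa using h ha) (fun v hv => by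
        have := hv b (by simp)
        simp_all)
    · exact hΓ.prop N [neg a] (by simpa using (hΓ.neg_mem_iff N a).2 ha) (fun v hv => by
        have := hv (neg a) (by simp)
        simp_all)

theorem MCS.and_mem_iff (N : NormalLogic Λ) {Γ : Set Form} (hΓ : MCS Λ Γ) (a b : Form) :
    Form.and a b ∈ Γ ↔ a ∈ Γ ∧ b ∈ Γ := by
  simp only [Form.and, hΓ.neg_mem_iff N, hΓ.imp_mem_iff N]; tauto

theorem MCS.or_mem_iff (N : NormalLogic Λ) {Γ : Set Form} (hΓ : MCS Λ Γ) (a b : Form) :
    Form.or a b ∈ Γ ↔ a ∈ Γ ∨ b ∈ Γ := by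
  simp only [Form.or, hΓ.neg_mem_iff N, hΓ.imp_mem_iff N]; tauto

/-- Lindenbaum's lemma. -/
theorem exists_mcs {Γ : Set Form} (hΓ : Consistent Λ Γ) : ∃ Δ : CanonPt Λ, Γ ⊆ Δ.1 := by
  obtain ⟨M, hM, hmax⟩ := zorn_subset_nonempty {Δ | Consistent Λ Δ} (by
    intro c hc hchain hne
    refine ⟨⋃₀ c, ?_, fun s hs => Set.subset_sUnion_of_mem hs⟩
    intro l hl
    -- a finite list in the union of a chain lies in one member
    have : ∃ s ∈ c, ∀ a ∈ l, a ∈ s := by
      clear hΓ
      induction l with
      | nil => exact ⟨hne.some, hne.some_mem, by simp⟩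
      | cons b l ih =>
        obtain ⟨s, hs, hsl⟩ := ih (fun a ha => hl a (by simp [ha]))
        obtain ⟨t, ht, hbt⟩ := hl b (by simp)
        rcases hchain.total hs ht with h | h
        · exact ⟨t, ht, fun a ha => by
            rcases List.mem_cons.1 ha with rfl | ha
            · exact hbt
            · exact h (hsl a ha)⟩
        · exact ⟨s, hs, fun a ha => by
            rcases List.mem_cons.1 ha with rfl | ha
            · exact h hbt
            · exact hsl a ha⟩
    obtain ⟨s, hs, hsl⟩ := this
    exact hc hs l hsl) Γ hΓ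
  exact ⟨⟨M, hmax.prop, fun Δ h hc => (hmax.eq_of_subset hc h).symm⟩, hM⟩

/-- Finite conjunctions. -/
def conj (l : List Form) : Form := l.foldr Form.and top

@[simp] theorem pval_conj (v : Form → Prop) (l : List Form) :
    pval v (conj l) ↔ ∀ a ∈ l, pval v a := by
  induction l with
  | nil => simp [conj]
  | cons a l ih =>
    rw [show conj (a :: l) = Form.and a (conj l) from rfl, pval_and, ih]
    simp

@[simp] theorem sat_conj {W : Type u} {R : W → W → Prop} {V : ℕ → W → Prop} (l : List Form)
    (w : W) : sat R V (conj l) w ↔ ∀ a ∈ l, sat R V a w := by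
  induction l with
  | nil => simp [conj]
  | cons a l ih =>
    rw [show conj (a :: l) = Form.and a (conj l) from rfl, sat_and, ih]
    simp

theorem MCS.conj_mem_iff (N : NormalLogic Λ) {Γ : Set Form} (hΓ : MCS Λ Γ) (l : List Form) :
    conj l ∈ Γ ↔ ∀ a ∈ l, a ∈ Γ := by
  induction l with
  | nil =>
    simp only [List.not_mem_nil, false_implies, implies_true, iff_true]
    exact hΓ.mem_of_logic N (N.taut _ fun v => by simp [conj])
  | cons a l ih =>
    rw [show conj (a :: l) = Form.and a (conj l) from rfl, hΓ.and_mem_iff N, ih]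
    simp

/-- Existence lemma: if every finite conjunction of members of `D` is possible at `w`, then some
successor of `w` contains `D`. -/
theorem exists_succ (N : NormalLogic Λ) (w : CanonPt Λ) (D : Set Form)
    (h : ∀ l : List Form, (∀ a ∈ l, a ∈ D) → dia (conj l) ∈ w.1) :
    ∃ v : CanonPt Λ, canonRel Λ w v ∧ D ⊆ v.1 := by
  have hcons : Consistent Λ ({a | Form.box a ∈ w.1} ∪ D) := by
    intro l hl hbad
    classical
    -- split the list
    let l1 := l.filter (fun a => decide (Form.box a ∈ w.1))
    let l2 := l.filter (fun a => decide (Form.box a ∉ w.1))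
    have h1 : conseq l1 (neg (conj l2)) ∈ Λ := by
      refine N.prop [conseq l .bot] _ (by simpa using hbad) ?_
      intro v hv
      have e := hv _ (List.mem_cons_self ..)
      rw [pval_conseq] at e ⊢
      intro hall
      rw [pval_neg, pval_conj]
      intro hall2
      refine e fun a ha => ?_
      by_cases hb : Form.box a ∈ w.1
      · exact hall a (by simp [l1, ha, hb])
      · exact hall2 a (by simp [l2, ha, hb])
    have h2 := N.box_conseq _ _ h1
    have h3 : Form.box (neg (conj l2)) ∈ w.1 := by
      refine w.2.mem_of_conseq N (l1.map .box) ?_ h2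
      intro a ha
      obtain ⟨b, hb, rfl⟩ := List.mem_map.1 ha
      simpa [l1] using (List.mem_filter.1 hb).2
    have h4 : dia (conj l2) ∈ w.1 := by
      refine h l2 fun a ha => ?_
      have ha' := List.mem_filter.1 ha
      rcases hl a ha'.1 with h5 | h5
      · exact absurd h5 (by simpa using ha'.2)
      · exact h5
    exact (w.2.neg_mem_iff N _).1 h4 h3
  obtain ⟨v, hv⟩ := exists_mcs hcons
  exact ⟨v, fun a ha => hv (Or.inl ha), fun a ha => hv (Or.inr ha)⟩

theorem dia_mem_iff (N : NormalLogic Λ) (w : CanonPt Λ) (a : Form) :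
    dia a ∈ w.1 ↔ ∃ v : CanonPt Λ, canonRel Λ w v ∧ a ∈ v.1 := by
  constructor
  · intro h
    obtain ⟨v, hv, ha⟩ := exists_succ N w {a} (by
      intro l hl
      -- `◇a` implies `◇ conj l`
      have hbox : Form.imp (.box (neg (conj l))) (.box (neg a)) ∈ Λ := by
        have h1 : conseq [neg (conj l)] (neg a) ∈ Λ := by
          refine N.taut _ fun v => ?_
          rw [pval_conseq]
          intro hv
          have := hv _ (List.mem_cons_self ..)
          rw [pval_neg, pval_conj] at this
          rw [pval_neg]
          intro ha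
          exact this fun c hc => by
            have : c = a := hl c hc
            rw [this]; exact ha
        exact N.box_conseq _ _ h1
      rw [dia, w.2.neg_mem_iff N] at h ⊢
      intro hcon
      exact h ((w.2.imp_mem_iff N _ _).1 (w.2.mem_of_logic N hbox) hcon))
    exact ⟨v, hv, ha rfl⟩
  · rintro ⟨v, hv, ha⟩
    rw [dia, w.2.neg_mem_iff N]
    intro hcon
    exact (v.2.neg_mem_iff N _).1 (hv _ hcon) ha

theorem box_mem_iff (N : NormalLogic Λ) (w : CanonPt Λ) (a : Form) :
    Form.box a ∈ w.1 ↔ ∀ v : CanonPt Λ, canonRel Λ w v → a ∈ v.1 := by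
  constructor
  · intro h v hv
    exact hv a h
  · intro h
    by_contra hcon
    have : dia (neg a) ∈ w.1 := by
      rw [dia, w.2.neg_mem_iff N]
      intro hc
      apply hcon
      have hbox : Form.imp (.box (neg (neg a))) (.box a) ∈ Λ := by
        have h1 : conseq [neg (neg a)] a ∈ Λ := by
          refine N.taut _ fun v => ?_
          rw [pval_conseq]
          intro hv
          have := hv _ (List.mem_cons_self ..)
          simpa using this
        exact N.box_conseq _ _ h1
      exact (w.2.imp_mem_iff N _ _).1 (w.2.mem_of_logic N hbox) hc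
    obtain ⟨v, hv, ha⟩ := (dia_mem_iff N w _).1 this
    exact (v.2.neg_mem_iff N _).1 ha (h v hv)

/-- The truth lemma, for the valuation given by a substitution. -/
theorem truth (N : NormalLogic Λ) (s : ℕ → Form) (a : Form) (w : CanonPt Λ) :
    sat (canonRel Λ) (fun n x => s n ∈ x.1) a w ↔ a.subst s ∈ w.1 := by
  induction a generalizing w with
  | var n => rfl
  | bot => exact iff_of_false id (w.2.bot_notMem N)
  | imp a b iha ihb =>
    rw [sat_imp, iha, ihb, Form.subst, w.2.imp_mem_iff N]
  | box a iha =>
    rw [Form.subst, box_mem_iff N, sat_box]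
    exact forall_congr' fun v => imp_congr_right fun _ => iha v

theorem truth_closed (N : NormalLogic Λ) {a : Form} (ha : a.Closed) (V : ℕ → CanonPt Λ → Prop)
    (w : CanonPt Λ) : sat (canonRel Λ) V a w ↔ a ∈ w.1 := by
  rw [sat_closed ha V (fun n x => Form.var n ∈ x.1), truth N Form.var, Form.subst_var]

end Pool.Agent.Helper97.Ecf
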