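import Mathlib

/-!
# A family with the partition property has more members than its smallest member has elements
-/

universe u

namespace Pool.Agent.Helper97.Ecf

open Cardinal

/-- Distinct representatives for at most `κ` sets of size at least `κ`. -/
theorem exists_distinct_rep {J W : Type u} (X : J → Set W) (κ : Cardinal.{u})
    (hJ : #J ≤ κ) (hX : ∀ j, κ ≤ #(X j)) :
    ∃ f : J → W, Function.Injective f ∧ ∀ j, f j ∈ X j := by
  classical
  obtain ⟨r, wo, hr⟩ := Cardinal.exists_ord_eq J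
  have hseg : ∀ j, #{i // r i j} < κ := by
    intro j
    have h1 := Cardinal.card_typein_lt j hr
    rw [Ordinal.card_typein] at h1
    exact lt_of_lt_of_le h1 hJ
  have wf : WellFounded r := wo.wf
  have hne : ∀ (j : J) (g : ∀ i, r i j → W),
      (X j \ {y | ∃ i, ∃ h : r i j, g i h = y}).Nonempty := by
    intro j g
    by_contra hcon
    rw [Set.not_nonempty_iff_eq_empty, Set.sdiff_eq_empty] at hcon
    have h1 : #(X j) ≤ #{i // r i j} := by
      refine (Cardinal.mk_le_mk_of_subset hcon).trans ?_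
      refine Cardinal.mk_le_of_surjective
        (f := fun i : {i // r i j} => (⟨g i.1 i.2, i.1, i.2, rfl⟩ :
          {y | ∃ i, ∃ h : r i j, g i h = y})) ?_
      rintro ⟨y, i, h, rfl⟩
      exact ⟨⟨i, h⟩, rfl⟩
    exact absurd (lt_of_le_of_lt h1 (hseg j)) (not_lt.2 (hX j))
  let f : J → W := wf.fix (fun j g => (hne j g).some)
  have hf : ∀ j, f j = (hne j (fun i _ => f i)).some := fun j => wf.fix_eq _ j
  have hf2 : ∀ j, f j ∈ X j ∧ ∀ i, r i j → f i ≠ f j := by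
    intro j
    have := (hne j (fun i _ => f i)).some_mem
    rw [← hf j] at this
    exact ⟨this.1, fun i hi he => this.2 ⟨i, hi, he⟩⟩
  refine ⟨f, ?_, fun j => (hf2 j).1⟩
  intro i j hij
  rcases trichotomous_of r i j with h | h | h
  · exact absurd hij ((hf2 j).2 i h)
  · exact h
  · exact absurd hij.symm ((hf2 i).2 j h)

/-- At most `κ` sets of size at least `κ` can be split simultaneously. -/
theorem exists_split {J W : Type u} (X : J → Set W) (κ : Cardinal.{u}) (hκ : ℵ₀ ≤ κ)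
    (hJ : #J ≤ κ) (hX : ∀ j, κ ≤ #(X j)) :
    ∃ P : Set W, ∀ j, (∃ x ∈ X j, x ∈ P) ∧ ∃ x ∈ X j, x ∉ P := by
  obtain ⟨f, hinj, hf⟩ := exists_distinct_rep (J := J × ULift.{u} Bool) (fun p => X p.1) κ (by
    rw [Cardinal.mk_prod]
    simp only [Cardinal.lift_id]
    refine Cardinal.mul_le_of_le hκ hJ ?_
    exact le_trans (Cardinal.mk_le_aleph0) hκ) (fun p => hX p.1)
  refine ⟨{x | ∃ j, f (j, ⟨true⟩) = x}, fun j => ⟨⟨f (j, ⟨true⟩), hf (j, ⟨true⟩), j, rfl⟩,
    f (j, ⟨false⟩), hf (j, ⟨false⟩), ?_⟩⟩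
  rintro ⟨i, hi⟩
  have := hinj hi
  simp at this

/-- The cardinal descent lemma. -/
theorem card_drop {W : Type u} (A : Set W) (F : W → Set W) (hA : A.Nonempty)
    (hnt : ∀ b ∈ A, ¬ (F b).Subsingleton)
    (hJ : ∀ P Q : Set W, (∃ b ∈ A, F b ⊆ P ∪ Q) → (∃ b ∈ A, F b ⊆ P) ∨ ∃ b ∈ A, F b ⊆ Q) :
    ∃ b ∈ A, ℵ₀ ≤ #(F b) ∧ #(F b) < #A := by
  classical
  -- no member is finite
  have hfin : ∀ s : Set W, s.Finite → ¬ ∃ b ∈ A, F b ⊆ s := by
    intro s hs
    induction s, hs using Set.Finite.induction_on with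
    | empty =>
      rintro ⟨b, hb, h⟩
      exact hnt b hb (Set.subsingleton_empty.anti h)
    | @insert x s _ _ ih =>
      rintro ⟨b, hb, h⟩
      rw [Set.insert_eq] at h
      rcases hJ _ _ ⟨b, hb, h⟩ with ⟨c, hc, h1⟩ | h1
      · exact hnt c hc (Set.subsingleton_singleton.anti h1)
      · exact ih h1
  obtain ⟨b0, hb0, hmin⟩ : ∃ b ∈ A, ∀ c ∈ A, #(F b) ≤ #(F c) := by
    obtain ⟨b, hb, h⟩ :=
      WellFounded.has_min (InvImage.wf (fun b : W => #(F b)) Cardinal.lt_wf) A hA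
    exact ⟨b, hb, fun c hc => not_lt.1 (h c hc)⟩
  have hinf : ℵ₀ ≤ #(F b0) := by
    rw [Cardinal.aleph0_le_mk_iff, Set.infinite_coe_iff]
    exact fun h => hfin _ h ⟨b0, hb0, subset_rfl⟩
  refine ⟨b0, hb0, hinf, ?_⟩
  by_contra hcon
  rw [not_lt] at hcon
  let J := {b : W // b ∈ A ∧ F b ⊆ F b0}
  have hJc : #J ≤ #(F b0) := by
    refine le_trans ?_ hcon
    exact Cardinal.mk_le_mk_of_subset (s := {b | b ∈ A ∧ F b ⊆ F b0}) (t := A) fun b hb => hb.1
  obtain ⟨P, hP⟩ := exists_split (fun j : J => F j.1) (#(F b0)) hinf hJc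
    (fun j => hmin _ j.2.1)
  rcases hJ (F b0 ∩ P) (F b0 \ P) ⟨b0, hb0, by rw [Set.inter_union_sdiff]⟩ with
    ⟨c, hc, h1⟩ | ⟨c, hc, h1⟩
  · obtain ⟨x, hx, hxP⟩ := (hP ⟨c, hc, fun y hy => (h1 hy).1⟩).2
    exact hxP (h1 hx).2
  · obtain ⟨x, hx, hxP⟩ := (hP ⟨c, hc, fun y hy => (h1 hy).1⟩).1
    exact (h1 hx).2 hxP

end Pool.Agent.Helper97.Ecf
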