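import Pool.Agent.Helper97.EcfForms

/-!
# Goedel numbering of modal formulas and computability of the reduction
-/

universe u

namespace Pool.Agent.Helper97.Ecf

open Form

/-- Strong recursion over finitely many smaller codes is primitive recursive. -/
theorem primrec_strong {σ : Type*} [Primcodable σ] (d : σ) (f : ℕ → σ) (ch : ℕ → List ℕ)
    (g : ℕ → List σ → σ) (hch : Primrec ch) (hg : Primrec₂ g)
    (hlt : ∀ n, ∀ m ∈ ch n, m < n) (hf : ∀ n, f n = g n ((ch n).map f)) : Primrec f := by
  have h1 : Primrec₂ (fun (_ : Unit) (n : ℕ) => f n) := by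
    refine Primrec.nat_strong_rec (fun (_ : Unit) n => f n)
      (g := fun _ l => some (g l.length ((ch l.length).map (fun m => l.getD m d)))) ?_ ?_
    · refine Primrec.option_some.comp ?_
      refine hg.comp (Primrec.list_length.comp Primrec.snd) ?_
      refine Primrec.list_map (hch.comp (Primrec.list_length.comp Primrec.snd)) ?_
      exact (Primrec.list_getD d).comp (Primrec.snd.comp Primrec.fst) Primrec.snd
    · intro _ n
      rw [List.length_map, List.length_range, hf n]
      congr 2
      refine List.map_congr_left fun m hm => ?_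
      have := hlt n m hm
      rw [List.getD_eq_getElem _ _ (by simpa using this)]
      simp
  exact h1.comp (Primrec.const ()) Primrec.id

/-- The Goedel number of a formula. -/
def encF : Form → ℕ
  | .bot => 0
  | .var n => 3 * n + 1
  | .box a => 3 * encF a + 2
  | .imp a b => 3 * Nat.pair (encF a) (encF b) + 3

/-- The formula with a given Goedel number. -/
def decF : ℕ → Form
  | 0 => .bot
  | m + 1 =>
    if m % 3 = 0 then .var (m / 3)
    else if m % 3 = 1 then .box (decF (m / 3))
    else .imp (decF (m / 3).unpair.1) (decF (m / 3).unpair.2)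
  decreasing_by
    · exact Nat.lt_succ_of_le (Nat.div_le_self _ _)
    · exact Nat.lt_succ_of_le ((Nat.unpair_left_le _).trans (Nat.div_le_self _ _))
    · exact Nat.lt_succ_of_le ((Nat.unpair_right_le _).trans (Nat.div_le_self _ _))

theorem decF_encF (a : Form) : decF (encF a) = a := by
  induction a with
  | bot => rw [encF, decF]
  | var n =>
    rw [encF, decF, if_pos (by omega)]
    congr 1; omega
  | box a ih =>
    rw [encF, decF, if_neg (by omega), if_pos (by omega)]
    rw [show (3 * encF a + 1) / 3 = encF a by omega, ih]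
  | imp a b iha ihb =>
    rw [encF, decF, if_neg (by omega), if_neg (by omega)]
    rw [show (3 * Nat.pair (encF a) (encF b) + 2) / 3 = Nat.pair (encF a) (encF b) by omega,
      Nat.unpair_pair, iha, ihb]

theorem encF_decF (n : ℕ) : encF (decF n) = n := by
  induction n using Nat.strong_induction_on with
  | _ n ih =>
    cases n with
    | zero => rw [decF, encF]
    | succ m =>
      rw [decF]
      split_ifs with h1 h2
      · rw [encF]; omega
      · rw [encF, ih _ (Nat.lt_succ_of_le (Nat.div_le_self _ _))]; omega
      · rw [encF, ih _ (Nat.lt_succ_of_le ((Nat.unpair_left_le _).trans (Nat.div_le_self _ _))),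
          ih _ (Nat.lt_succ_of_le ((Nat.unpair_right_le _).trans (Nat.div_le_self _ _))),
          Nat.pair_unpair]
        omega

/-- The Goedel numbering is a bijection. -/
def formEquiv : Form ≃ ℕ := ⟨encF, decF, decF_encF, encF_decF⟩

instance : Denumerable Form := Denumerable.mk' formEquiv

instance : Primcodable Form := Primcodable.ofDenumerable Form

theorem encode_form (a : Form) : Encodable.encode a = encF a := rfl

theorem ofNat_form (n : ℕ) : Denumerable.ofNat Form n = decF n := by
  have h : Encodable.encode (Denumerable.ofNat Form n) = n := Denumerable.encode_ofNat n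
  rw [encode_form] at h
  rw [← decF_encF (Denumerable.ofNat Form n), h]

theorem pr_affine {α : Type*} [Primcodable α] {f : α → ℕ} (hf : Primrec f) (a b : ℕ) :
    Primrec fun x => a * f x + b :=
  Primrec.nat_add.comp (Primrec.nat_mul.comp (Primrec.const a) hf) (Primrec.const b)

theorem pr_var : Primrec Form.var := by
  refine Primrec.encode_iff.1 ?_
  exact pr_affine Primrec.id 3 1

theorem pr_box : Primrec Form.box := by
  refine Primrec.encode_iff.1 ?_
  exact pr_affine Primrec.encode 3 2

theorem pr_imp : Primrec₂ Form.imp := by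
  refine Primrec.encode_iff.1 ?_
  exact pr_affine (Primrec₂.natPair.comp (Primrec.encode.comp Primrec.fst)
    (Primrec.encode.comp Primrec.snd)) 3 3

theorem pr_neg : Primrec Form.neg := pr_imp.comp Primrec.id (Primrec.const _)
theorem pr_and : Primrec₂ Form.and :=
  pr_neg.comp (pr_imp.comp Primrec.fst (pr_neg.comp Primrec.snd))
theorem pr_or : Primrec₂ Form.or := pr_imp.comp (pr_neg.comp Primrec.fst) Primrec.snd
theorem pr_dia : Primrec Form.dia := pr_neg.comp (pr_box.comp pr_neg)
theorem pr_dt : Primrec₂ dt := pr_dia.comp pr_and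
theorem pr_bt : Primrec₂ bt := pr_box.comp pr_imp

/-- Structural recursion on formulas is primitive recursive. -/
theorem pr_formRec {σ : Type*} [Primcodable σ] {F : Form → σ} {v : ℕ → σ} {b : σ}
    {i : σ → σ → σ} {x : σ → σ} (hv : Primrec v) (hi : Primrec₂ i) (hx : Primrec x)
    (F_var : ∀ n, F (.var n) = v n) (F_bot : F .bot = b)
    (F_imp : ∀ a c, F (.imp a c) = i (F a) (F c)) (F_box : ∀ a, F (.box a) = x (F a)) :
    Primrec F := by
  refine Primrec.ofNat_iff.2 ?_
  have e : (fun n => F (Denumerable.ofNat Form n)) = fun n => F (decF n) := by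
    funext n; rw [ofNat_form]
  rw [e]
  refine primrec_strong b (fun n => F (decF n))
    (fun n => if n = 0 then [] else if (n - 1) % 3 = 0 then [] else
      if (n - 1) % 3 = 1 then [(n - 1) / 3] else
        [((n - 1) / 3).unpair.1, ((n - 1) / 3).unpair.2])
    (fun n l => if n = 0 then b else if (n - 1) % 3 = 0 then v ((n - 1) / 3) else
      if (n - 1) % 3 = 1 then x (l.getD 0 b) else i (l.getD 0 b) (l.getD 1 b)) ?_ ?_ ?_ ?_
  · have h1 : Primrec fun n : ℕ => n - 1 := Primrec.nat_sub.comp Primrec.id (Primrec.const 1)
    have h2 : Primrec fun n : ℕ => (n - 1) % 3 := Primrec.nat_mod.comp h1 (Primrec.const 3)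
    have h3 : Primrec fun n : ℕ => (n - 1) / 3 := Primrec.nat_div.comp h1 (Primrec.const 3)
    have h4 := Primrec.unpair.comp h3
    refine Primrec.ite (Primrec.eq.comp Primrec.id (Primrec.const 0)) (Primrec.const _) ?_
    refine Primrec.ite (Primrec.eq.comp h2 (Primrec.const 0)) (Primrec.const _) ?_
    refine Primrec.ite (Primrec.eq.comp h2 (Primrec.const 1)) ?_ ?_
    · exact Primrec.list_cons.comp h3 (Primrec.const _)
    · exact Primrec.list_cons.comp (Primrec.fst.comp h4)
        (Primrec.list_cons.comp (Primrec.snd.comp h4) (Primrec.const _))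
  · have h0 : Primrec fun p : ℕ × List σ => p.1 := Primrec.fst
    have h1 : Primrec fun p : ℕ × List σ => p.1 - 1 :=
      Primrec.nat_sub.comp h0 (Primrec.const 1)
    have h2 : Primrec fun p : ℕ × List σ => (p.1 - 1) % 3 :=
      Primrec.nat_mod.comp h1 (Primrec.const 3)
    have h3 : Primrec fun p : ℕ × List σ => (p.1 - 1) / 3 :=
      Primrec.nat_div.comp h1 (Primrec.const 3)
    have g0 : Primrec fun p : ℕ × List σ => p.2.getD 0 b :=
      (Primrec.list_getD b).comp Primrec.snd (Primrec.const 0)
    have g1 : Primrec fun p : ℕ × List σ => p.2.getD 1 b :=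
      (Primrec.list_getD b).comp Primrec.snd (Primrec.const 1)
    refine Primrec.ite (Primrec.eq.comp h0 (Primrec.const 0)) (Primrec.const _) ?_
    refine Primrec.ite (Primrec.eq.comp h2 (Primrec.const 0)) (hv.comp h3) ?_
    exact Primrec.ite (Primrec.eq.comp h2 (Primrec.const 1)) (hx.comp g0) (hi.comp g0 g1)
  · intro n m hm
    cases n with
    | zero => simp at hm
    | succ n =>
      have e1 : n + 1 - 1 = n := rfl
      rw [if_neg (by omega), e1] at hm
      split_ifs at hm with h1 h2
      · simp at hm
      · simp only [List.mem_singleton] at hm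
        have := Nat.div_le_self n 3
        omega
      · simp only [List.mem_cons, List.not_mem_nil, or_false] at hm
        have h3 := Nat.div_le_self n 3
        have h4 := Nat.unpair_left_le (n / 3)
        have h5 := Nat.unpair_right_le (n / 3)
        omega
  · intro n
    cases n with
    | zero => simp [decF, F_bot]
    | succ n =>
      have e1 : n + 1 - 1 = n := rfl
      have e2 : ¬ n + 1 = 0 := Nat.succ_ne_zero n
      simp only [if_neg e2, e1]
      rw [decF]
      split_ifs with h1 h2
      · rw [F_var]
      · rw [F_box]; simp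
      · rw [F_imp]; simp

/-- Primitive recursive functions on the natural numbers. -/
theorem pr_natRec {σ : Type*} [Primcodable σ] {F : ℕ → σ} {b : σ} {s : ℕ → σ → σ}
    (hs : Primrec₂ s) (F0 : F 0 = b) (F1 : ∀ n, F (n + 1) = s n (F n)) : Primrec F := by
  have h : Primrec₂ (fun (_ : Unit) (n : ℕ) => (Nat.rec b (fun n ih => s n ih) n : σ)) := by
    refine Primrec.nat_rec (f := fun _ : Unit => b) (g := fun _ p => s p.1 p.2)
      (Primrec.const b) ?_
    exact hs.comp (Primrec.fst.comp Primrec.snd) (Primrec.snd.comp Primrec.snd)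
  have e : F = fun n => (Nat.rec b (fun n ih => s n ih) n : σ) := by
    funext n
    induction n with
    | zero => exact F0
    | succ n ih => rw [F1, ih]
  rw [e]
  exact h.comp (Primrec.const ()) Primrec.id

theorem pr_ch : Primrec ch := by
  refine pr_natRec (s := fun _ a => Form.and (dia a) (Form.box a)) ?_ rfl (fun n => rfl)
  exact pr_and.comp (pr_dia.comp Primrec.snd) (pr_box.comp Primrec.snd)

theorem pr_idx : Primrec idx :=
  pr_ch.comp (Primrec.nat_add.comp Primrec.id (Primrec.const 15))

theorem pr_tr (t : Form) : Primrec (tr t) := by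
  refine pr_formRec (v := fun i => dt tY (Form.and f1 (dia (idx i)))) (b := .bot)
    (i := Form.imp) (x := bt t) ?_ pr_imp ?_ (fun n => rfl) rfl (fun a c => rfl) (fun a => rfl)
  · exact pr_dt.comp (Primrec.const _) (pr_and.comp (Primrec.const _) (pr_dia.comp pr_idx))
  · exact pr_bt.comp (Primrec.const _) Primrec.id

theorem pr_idxs : Primrec idxs := by
  refine pr_formRec (v := fun i => dia (idx i)) (b := top)
    (i := Form.and) (x := id) (pr_dia.comp pr_idx) pr_and Primrec.id (fun n => rfl) rfl
    (fun a c => rfl) (fun a => rfl)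

/-- The reduction is primitive recursive. -/
theorem pr_red : Primrec₂ red := by
  have c : ∀ φ : Form, Primrec fun _ : Form × Form => φ := fun φ => Primrec.const φ
  have ha : Primrec fun p : Form × Form => p.1 := Primrec.fst
  have hb : Primrec fun p : Form × Form => p.2 := Primrec.snd
  refine pr_imp.comp ?_ (Primrec.const _)
  simp only [sList, conj, List.foldr]
  refine pr_and.comp (c _) (pr_and.comp (c _) (pr_and.comp (c _) (pr_and.comp (c _)
    (pr_and.comp (c _) (pr_and.comp (c _) (pr_and.comp ?_ (pr_and.comp ?_
      (pr_and.comp ?_ (pr_and.comp ?_ (c _))))))))))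
  · exact pr_bt.comp (c _) (pr_bt.comp (c _) (pr_bt.comp (c _) ((pr_tr tT).comp ha)))
  · exact pr_dt.comp (c _) (pr_neg.comp ((pr_tr tK).comp hb))
  · exact pr_idxs.comp ha
  · exact pr_idxs.comp hb

theorem computable_red : Computable fun p : Form × Form => red p.1 p.2 :=
  pr_red.to_comp

end Pool.Agent.Helper97.Ecf
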