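import Pool.Agent.Helper97.EcfHard

/-!
# First-order definability of the frame class when there is no refuting frame
-/

universe u

namespace Pool.Agent.Helper97.Ecf

open Form FirstOrder

/-- A simple syntax for first-order formulas over frames with named variables. -/
inductive FO : Type
  | rel : ℕ → ℕ → FO
  | eq : ℕ → ℕ → FO
  | bot : FO
  | imp : FO → FO → FO
  | all : ℕ → FO → FO

namespace FO

def eval {W : Type u} (R : W → W → Prop) : FO → (ℕ → W) → Prop
  | rel i j, v => R (v i) (v j)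
  | eq i j, v => v i = v j
  | bot, _ => False
  | imp a b, v => eval R a v → eval R b v
  | all i a, v => ∀ x, eval R a (Function.update v i x)

def neg (a : FO) : FO := imp a bot
def and (a b : FO) : FO := neg (imp a (neg b))
def or (a b : FO) : FO := imp (neg a) b

/-- Standard translation of variable-free modal formulas. -/
def st : Form → ℕ → FO
  | .var _, _ => bot
  | .bot, _ => bot
  | .imp a b, k => imp (st a k) (st b k)
  | .box a, k => all (k + 1) (imp (rel k (k + 1)) (st a (k + 1)))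

/-- Bounded quantifiers. -/
def bA (t : Form) (i j : ℕ) (a : FO) : FO := all j (imp (rel i j) (imp (st t j) a))
def bE (t : Form) (i j : ℕ) (a : FO) : FO := neg (bA t i j (neg a))

section
variable {W : Type u} {R : W → W → Prop} {v : ℕ → W}

@[simp] theorem eval_rel {i j : ℕ} : eval R (rel i j) v ↔ R (v i) (v j) := Iff.rfl
@[simp] theorem eval_eq {i j : ℕ} : eval R (eq i j) v ↔ v i = v j := Iff.rfl
@[simp] theorem eval_bot : eval R bot v ↔ False := Iff.rfl
@[simp] theorem eval_imp {a b : FO} : eval R (imp a b) v ↔ (eval R a v → eval R b v) := Iff.rfl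
@[simp] theorem eval_all {i : ℕ} {a : FO} :
    eval R (all i a) v ↔ ∀ x, eval R a (Function.update v i x) := Iff.rfl
@[simp] theorem eval_neg {a : FO} : eval R (neg a) v ↔ ¬ eval R a v := Iff.rfl
@[simp] theorem eval_and {a b : FO} : eval R (and a b) v ↔ eval R a v ∧ eval R b v := by
  simp only [and, eval_neg, eval_imp]; tauto
@[simp] theorem eval_or {a b : FO} : eval R (or a b) v ↔ eval R a v ∨ eval R b v := by
  simp only [or, eval_neg, eval_imp]; tauto

theorem eval_st {a : Form} (ha : a.Closed) (V : ℕ → W → Prop) (k : ℕ) (v : ℕ → W) :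
    eval R (st a k) v ↔ sat R V a (v k) := by
  induction a generalizing k v with
  | var n => exact ha.elim
  | bot => rfl
  | imp a b iha ihb => rw [st, eval_imp, iha ha.1, ihb ha.2, sat_imp]
  | box a iha =>
    rw [st, eval_all, sat_box]
    refine forall_congr' fun x => ?_
    rw [eval_imp, eval_rel, iha ha]
    simp

theorem eval_bA {t : Form} (ht : t.Closed) {i j : ℕ} (hij : i ≠ j) {a : FO} (v : ℕ → W) :
    eval R (bA t i j a) v ↔
      ∀ x, R (v i) x → sat R (fun _ _ => False) t x → eval R a (Function.update v j x) := by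
  rw [bA, eval_all]
  refine forall_congr' fun x => ?_
  rw [eval_imp, eval_imp, eval_rel, eval_st ht (fun _ _ => False)]
  simp [Function.update_of_ne hij]

theorem eval_bE {t : Form} (ht : t.Closed) {i j : ℕ} (hij : i ≠ j) {a : FO} (v : ℕ → W) :
    eval R (bE t i j a) v ↔
      ∃ x, R (v i) x ∧ sat R (fun _ _ => False) t x ∧ eval R a (Function.update v j x) := by
  rw [bE, eval_neg, eval_bA ht hij]
  simp only [eval_neg]
  push Not
  rfl

end

/-- The relation symbol. -/
def relSymb : frameLang.Relations 2 := FrameSymb.rel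

/-- Translation to Mathlib formulas. -/
noncomputable def toFormula : FO → frameLang.Formula ℕ
  | rel i j => Language.Relations.formula₂ relSymb (Language.Term.var i) (Language.Term.var j)
  | eq i j => Language.Term.equal (Language.Term.var i) (Language.Term.var j)
  | bot => ⊥
  | imp a b => (toFormula a).imp (toFormula b)
  | all i a => Language.Formula.iAlls Unit
      ((toFormula a).relabel (fun j => if j = i then Sum.inr () else Sum.inl j))

theorem realize_toFormula {W : Type u} (R : W → W → Prop) (a : FO) (v : ℕ → W) :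
    @Language.Formula.Realize frameLang W (frameStructure R) ℕ (toFormula a) v ↔
      eval R a v := by
  let _ := frameStructure R
  induction a generalizing v with
  | rel i j =>
    rw [toFormula]
    refine Language.Formula.realize_rel₂.trans ?_
    exact Iff.rfl
  | eq i j =>
    rw [toFormula]
    refine Language.Formula.realize_equal.trans ?_
    exact Iff.rfl
  | bot => exact Iff.rfl
  | imp a b iha ihb =>
    rw [toFormula]
    exact Language.Formula.realize_imp.trans (imp_congr (iha v) (ihb v))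
  | all i a ih =>
    rw [toFormula]
    refine Language.Formula.realize_iAlls.trans ?_
    constructor
    · intro h x
      have := h (fun _ => x)
      rw [Language.Formula.realize_relabel] at this
      refine (ih _).1 ?_
      convert this using 1
      funext j
      by_cases hj : j = i
      · simp [hj]
      · simp [hj]
    · intro h x
      rw [Language.Formula.realize_relabel]
      refine (ih _).2 ?_
      convert h (x ()) using 1
      funext j
      by_cases hj : j = i
      · simp [hj]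
      · simp [hj]

end FO

open FO

theorem elementary_of_fo {φ : Form} (c : FO)
    (h : ∀ (W : Type u) (R : W → W → Prop) (x : W), Valid R φ ↔ eval R c (fun _ => x)) :
    Elementary.{u} φ := by
  refine ⟨Language.Formula.iAlls Unit ((toFormula c).relabel (fun _ => Sum.inr ())), ?_⟩
  intro W hW R
  let _ := frameStructure R
  obtain ⟨x0⟩ := hW
  refine Iff.trans ?_ (Language.Formula.realize_iAlls (v := (default : Empty → W))).symm
  constructor
  · intro hv y
    rw [Language.Formula.realize_relabel]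
    exact (realize_toFormula R c _).2 ((h W R (y ())).1 hv)
  · intro hr
    have := hr (fun _ => x0)
    rw [Language.Formula.realize_relabel] at this
    exact (h W R x0).2 ((realize_toFormula R c _).1 this)

/-! ### The first-order forms of the axioms -/

def foList : List FO :=
  [ bA tK 0 1 (bA tK 1 2 (.rel 0 2)),
    bA tK 0 1 (bA tI 0 2 (bA tH 2 3 (bE tT 3 4 (.rel 4 1)))),
    bA tI 0 1 (bA tH 1 2 (bA tT 2 3 (bA tT 3 4 (.rel 2 4)))),
    bA tI 0 1 (bA tH 1 2 (bA tT 2 3 (bA tK 3 4 (bA tT 3 5 (bE tK 5 6 (.rel 4 6)))))),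
    bA tI 0 1 (bA tH 1 2 (bA tT 2 3 (bA tK 3 4 (bA tK 4 5 (bE tT 3 6 (.rel 6 5)))))),
    bA tB 0 1 (bA tI 0 2 (bA tH 2 3 (bA tT 3 4 (bE tY 4 5 (.rel 5 1))))),
    bA tI 0 1 (bA tH 1 2 (bA tT 2 3 (bA tK 3 4 (bA tY 3 5 (.imp (st f1 5) (bA tB 5 6
      (bE tH 2 7 (bE tE 7 8 (FO.and (st f1 8) (FO.and (.rel 8 4) (.rel 8 6))))))))))),
    bA tI 0 1 (bA tH 1 2 (bA tT 2 3 (bA tK 3 4 (bA tY 3 5 (.imp (FO.neg (st f1 5)) (bA tB 5 6
      (bE tH 2 7 (bE tE 7 8 (FO.and (FO.neg (st f1 8)) (FO.and (.rel 8 4) (.rel 8 6))))))))))),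
    bA tL 0 1 (bA tH 0 2 (bA tH 2 3 (bE tP 0 4 (FO.and (bA tL 4 5 (.eq 5 1))
      (FO.and (bA tH 4 5 (.eq 5 2)) (bA tQ 4 5 (bA tH 5 6 (.eq 6 3)))))))),
    bA tP 0 1 (bA tD 1 2 (bA tD 2 3 (.rel 1 3))),
    bA tP 0 1 (bA tD 1 2 (bA tK 2 3 (bA tK 2 4 (.eq 4 3)))),
    bA tP 0 1 (bA tD 1 2 (bA tB 2 3 (bA tB 2 4 (.eq 4 3)))),
    bA tP 0 1 (bA tD 1 2 (bA tD 2 3 (.imp (st f1 3) (bA tE 3 4
      (.imp (FO.neg (st f1 4)) (.rel 2 4)))))),
    bA tP 0 1 (bA tD 1 2 (bA tD 2 3 (.imp (FO.neg (st f1 3)) (bA tE 3 4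
      (.imp (st f1 4) (.rel 2 4)))))),
    bA tP 0 1 (bA tD 1 2 (bA tD 2 3 (bA tE 3 4 (bA tK 4 5 (FO.or (.rel 2 4) (.rel 2 5)))))),
    bA tP 0 1 (bA tD 1 2 (bA tD 2 3 (bA tE 3 4 (bA tB 4 5 (FO.or (.rel 2 4) (.rel 2 5)))))),
    bA tP 0 1 (bA tD 1 2 (.imp (st f2 2) (bE tL 1 3 (bE tH 3 4 (bA tE 4 5 (.rel 2 5)))))),
    bA tP 0 1 (bA tD 1 2 (bA tH 2 3 (bA tH 3 4 (bA tD 2 5 (.rel 5 4))))),
    bA tP 0 1 (bA tD 1 2 (bA tH 2 3 (.rel 0 3))),
    bA tP 0 1 (bA tQ 1 2 (bA tH 2 3 (bA tD 1 4 (bA tH 4 5 (bE tH 1 6 (bE tH 6 7 (bA tH 7 8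
      (FO.and (.rel 3 8) (bE tH 5 9 (bE tG 9 10 (.rel 10 8))))))))))),
    bA tP 0 1 (bA tD 1 2 (bA tH 2 3 (bA tH 3 4 (bA tG 4 5 (bA tH 5 6 (bA tG 4 7 (bA tH 7 8
      (.eq 8 6)))))))) ]

def foJ : FO := bA tH 0 1 (bA tH 1 2 (bE tH 1 3 (FO.and (bA tH 3 4 (.rel 2 4))
  (bA tH 3 4 (bA tH 3 5 (.eq 4 5))))))

def foD : FO := bE tL 0 1 (bA tH 1 2 (bE tI 0 3 (bE tH 3 4 (bA tH 4 5 (.eq 5 2)))))

def foConj (l : List FO) : FO := l.foldr FO.and (.imp .bot .bot)

theorem eval_foConj {W : Type u} {R : W → W → Prop} (l : List FO) (v : ℕ → W) :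
    eval R (foConj l) v ↔ ∀ a ∈ l, eval R a v := by
  induction l with
  | nil => simp [foConj]
  | cons a l ih =>
    rw [show foConj (a :: l) = FO.and a (foConj l) from rfl, eval_and, ih]
    simp

theorem eval_foList {W : Type u} {R : W → W → Prop} (v : ℕ → W) :
    eval R (foConj foList) v ↔ AxC R (sigOf R) (v 0) := by
  rw [eval_foConj]
  simp (config := {decide := true}) only [foList, List.mem_cons, List.not_mem_nil, or_false,
      forall_eq_or_imp, forall_eq, eval_bA, eval_bE, closed_tK, closed_tT, closed_tY,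
      closed_tE, closed_tH,
      closed_tL, closed_tP, closed_tQ, closed_tD, closed_tG, closed_tI, closed_tB, closed_f1,
      closed_f2, eval_st _ (fun _ _ => False), ne_eq, eval_rel, eval_eq, eval_imp, eval_and,
      eval_or, eval_neg,
      Function.update_self, Function.update_of_ne,
      sat_tK, sat_tT, sat_tY, sat_tE,
    sat_tH, sat_tL, sat_tP, sat_tQ, sat_tD, sat_tG, sat_tI, sat_tB, sat_f1, sat_f2]
  constructor
  · rintro ⟨h1, h2, h3, h4, h5, h6, h7, h8, h9, h10, h11, h12, h13, h14, h15, h16, h17, h18,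
      h19, h20, h21⟩
    exact ⟨h1, h2, h3, h4, h5, h6, h7, h8, h9, h10, h11, h12, h13, h14, h15, h16, h17, h18,
      h19, h20, h21⟩
  · rintro ⟨h1, h2, h3, h4, h5, h6, h7, h8, h9, h10, h11, h12, h13, h14, h15, h16, h17, h18,
      h19, h20, h21⟩
    exact ⟨h1, h2, h3, h4, h5, h6, h7, h8, h9, h10, h11, h12, h13, h14, h15, h16, h17, h18,
      h19, h20, h21⟩

theorem eval_foJ {W : Type u} {R : W → W → Prop} (v : ℕ → W) :
    eval R foJ v ↔ ∀ h, R (v 0) h → (sigOf R).H h → JFO R (sigOf R).H h := by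
  simp (config := {decide := true}) only [foJ, eval_bA, eval_bE, closed_tH,
      ne_eq, eval_rel, eval_eq, eval_and,
      Function.update_self, Function.update_of_ne, sat_tH, JFO]
  constructor
  · intro h x hx hH b hb hHb
    obtain ⟨b', h1, h2, h3, h4⟩ := h x hx hH b hb hHb
    exact ⟨b', h1, h2, h3, fun u u' hu hHu hu' hHu' => h4 u hu hHu u' hu' hHu'⟩
  · intro h x hx hH b hb hHb
    obtain ⟨b', h1, h2, h3, h4⟩ := h x hx hH b hb hHb
    exact ⟨b', h1, h2, h3, fun u hu hHu u' hu' hHu' => h4 u u' hu hHu hu' hHu'⟩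

theorem eval_foD {W : Type u} {R : W → W → Prop} (v : ℕ → W) :
    eval R foD v ↔ DFO R (sigOf R).H (sigOf R).I (sigOf R).L (v 0) := by
  simp (config := {decide := true}) only [foD, eval_bA, eval_bE, closed_tH, closed_tI, closed_tL,
      ne_eq, eval_eq,
      Function.update_self, Function.update_of_ne, sat_tH, sat_tI, sat_tL, DFO]

/-- The first-order condition for validity of `red a b` when `b` is a consequence of `a`. -/
def foRed (a b : Form) : FO :=
  .all 0 (.imp (st (conj (sList a b)) 0) (FO.and (foConj foList) (FO.and foJ foD)))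

theorem valid_red_iff {a b : Form} (hfc : FrameCons.{u} a b) {W : Type u} (R : W → W → Prop) :
    Valid R (red a b) ↔ ∀ w, sat R (fun _ _ => False) (conj (sList a b)) w →
      AxC R (sigOf R) w ∧ (∀ h, R w h → (sigOf R).H h → JFO R (sigOf R).H h) ∧
        DFO R (sigOf R).H (sigOf R).I (sigOf R).L w := by
  constructor
  · intro hv w hS
    have hall : ∀ V : ℕ → W → Prop, sat R V (conj ax) w ∧ sat R V (bt tH jAx) w ∧
        sat R V psiAx w := by
      intro V'
      have h1 := hv V' w ((sat_closed (closed_sList a b) _ _ _).1 hS)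
      rw [sat_and, sat_and] at h1
      exact h1
    have hax := axC_of_sat fun V => (hall V).1
    have hR := rootC_of_sat hS
    have hJ : ∀ h, R w h → (sigOf R).H h → JFO R (sigOf R).H h := by
      by_contra hcon
      push Not at hcon
      exact not_frameCons_of_nondeg hS hv hcon hfc
    refine ⟨hax, hJ, ?_⟩
    -- the dichotomy
    have hps := (hall (val (fun u => ¬ ∃ a, R w a ∧ (sigOf R).I a ∧ ∃ y, R a y ∧ (sigOf R).H y ∧
      ∀ u', R y u' → (sigOf R).H u' → u' = u) (fun _ => True) (fun _ => True))).2.2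
    simp only [psiAx, sat_or, sat_dt, sat_bt, sat_neg, sat_var, sat_tI, sat_tH, sat_tL, val,
      not_not] at hps
    rcases hps with ⟨i, hi, hI, y, hy, hHy, hno⟩ | h
    · have hHi : (sigOf R).H i := by
        have : sat R (fun _ _ => False) tI i := hI
        rw [tI, sat_and] at this
        exact this.1
      obtain ⟨y', hy', hHy', hsub, huniq⟩ := hJ i hi hHi y hy hHy
      by_cases hne : ∃ u, R y' u ∧ (sigOf R).H u
      · obtain ⟨u, hu, hHu⟩ := hne
        exact absurd ⟨i, hi, hI, y', hy', hHy',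
          fun u' hu' hHu' => huniq u' u hu' hHu' hu hHu⟩ (hno u (hsub u hu hHu) hHu)
      · push Not at hne
        obtain ⟨l, hl, hLl⟩ := hR.hL
        exact ⟨l, hl, hLl, fun v _ _ => ⟨i, hi, hI, y', hy', hHy',
          fun u hu hHu => absurd hHu (hne u hu)⟩⟩
    · exact h
  · intro h V w hS
    have hS' := (sat_closed (closed_sList a b) V (fun _ _ => False) w).1 hS
    obtain ⟨h1, h2, h3⟩ := h w hS'
    rw [sat_and, sat_and]
    refine ⟨h1.sat V, ?_, DFO.sat (V0 := fun _ _ => False) h3⟩
    rw [sat_bt]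
    intro x hx hH
    exact JFO.sat (V0 := fun _ _ => False) (h2 x hx (sat_tH.1 hH))

/-- If `b` is a frame consequence of `a`, then `red a b` is elementary. -/
theorem elementary_red {a b : Form} (hfc : FrameCons.{u} a b) : Elementary.{u} (red a b) := by
  refine elementary_of_fo (foRed a b) fun W R x => ?_
  rw [valid_red_iff hfc, foRed, eval_all]
  refine forall_congr' fun w => ?_
  rw [eval_imp, eval_st (closed_sList a b) (fun _ _ => False), eval_and, eval_and, eval_foList,
    eval_foJ, eval_foD]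
  simp only [Function.update_self]

end Pool.Agent.Helper97.Ecf
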