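import Mathlib

/-!
# Iterated families of sets with the partition property
-/

universe u

namespace Pool.Agent.Helper97.Ecf

/-- Conditions: finite partial two-valued functions given by lists. -/
abbrev Cond (K : Type u) : Type u := List ((K × ℕ) × Bool)

/-- Iterated power sets over the set of conditions. -/
def Iter (K : Type u) : ℕ → Type u
  | 0 => Cond K
  | n + 1 => Set (Iter K n)

/-- Objects of all finite levels. -/
def Ob (K : Type u) : Type u := Σ n, Iter K n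

variable {K : Type u}

def lev (o : Ob K) : ℕ := o.1

/-- Membership between objects. -/
def Mem (x y : Ob K) : Prop :=
  ∃ (n : ℕ) (a : Iter K n) (s : Set (Iter K n)), x = ⟨n, a⟩ ∧ y = ⟨n + 1, s⟩ ∧ a ∈ s

def base (s : Cond K) : Ob K := ⟨0, s⟩

def mkOb (n : ℕ) (A : Set (Ob K)) : Ob K := ⟨n + 1, {a : Iter K n | (⟨n, a⟩ : Ob K) ∈ A}⟩

/-- The set of members of an object. -/
def fm (o : Ob K) : Set (Ob K) := {x | Mem x o}

@[simp] theorem mem_fm {x o : Ob K} : x ∈ fm o ↔ Mem x o := Iff.rfl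

@[simp] theorem lev_base (s : Cond K) : lev (base s) = 0 := rfl
@[simp] theorem lev_mkOb (n : ℕ) (A : Set (Ob K)) : lev (mkOb n A) = n + 1 := rfl

theorem lev_of_mem {x y : Ob K} (h : Mem x y) : lev y = lev x + 1 := by
  obtain ⟨n, a, s, rfl, rfl, _⟩ := h
  rfl

theorem base_inj {s t : Cond K} (h : base s = base t) : s = t := by
  unfold base at h
  have := (Sigma.mk.inj_iff.1 h).2
  exact eq_of_heq this

theorem fm_mkOb {n : ℕ} {A : Set (Ob K)} (hA : ∀ x ∈ A, lev x = n) : fm (mkOb n A) = A := by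
  ext x
  rw [mem_fm]
  constructor
  · rintro ⟨m, a, s, rfl, h, ha⟩
    unfold mkOb at h
    obtain ⟨h1, h2⟩ := Sigma.mk.inj_iff.1 h
    obtain rfl : n = m := by omega
    have h3 := eq_of_heq h2
    have : a ∈ {a : Iter K n | (⟨n, a⟩ : Ob K) ∈ A} := by
      rw [h3]; exact ha
    exact this
  · intro hx
    obtain ⟨m, a⟩ := x
    obtain rfl : m = n := hA _ hx
    exact ⟨m, a, _, rfl, rfl, hx⟩

/-- Families with the partition property. -/
def Good (A : Set (Ob K)) : Prop :=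
  A.Nonempty ∧ ∀ b ∈ A, ∀ Q : Set (Ob K), ∃ b' ∈ A, fm b' ⊆ fm b ∧
    (fm b' ⊆ Q ∨ ∀ x ∈ fm b', x ∉ Q)

/-- The hierarchy of hyper-families over a family. -/
def BL (B : Set (Ob K)) : ℕ → Set (Ob K)
  | 0 => B
  | l + 1 => {o | fm o ⊆ BL B l ∧ Good (fm o)}

theorem lev_BL {B : Set (Ob K)} {n : ℕ} (hB : ∀ o ∈ B, lev o = n) {l : ℕ} :
    ∀ {o : Ob K}, o ∈ BL B l → lev o = n + l := by
  induction l with
  | zero => exact fun h => hB _ h
  | succ l ih =>
    intro o h
    obtain ⟨x, hx⟩ := h.2.1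
    rw [lev_of_mem hx, ih (h.1 hx)]
    rfl

theorem BL_mono {B C : Set (Ob K)} {k : ℕ} (h : B ⊆ BL C k) {l : ℕ} :
    BL B l ⊆ BL C (k + l) := by
  induction l with
  | zero => exact h
  | succ l ih => exact fun o ho => ⟨fun x hx => ih (ho.1 hx), ho.2⟩

/-- The good subfamilies of a good family form a good family. -/
theorem good_sub {B : Set (Ob K)} {n : ℕ} (hB : ∀ o ∈ B, lev o = n) (hg : Good B) :
    Good {o : Ob K | fm o ⊆ B ∧ Good (fm o)} := by
  have mk : ∀ A : Set (Ob K), A ⊆ B → fm (mkOb n A) = A := fun A hA =>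
    fm_mkOb fun x hx => hB x (hA hx)
  refine ⟨⟨mkOb n B, ?_, ?_⟩, ?_⟩
  · rw [mk B subset_rfl]
  · rw [mk B subset_rfl]; exact hg
  · rintro h ⟨hh, hgh⟩ Q
    by_cases hc : ∃ b ∈ fm h, ∀ b' ∈ fm h, fm b' ⊆ fm b → b' ∈ Q
    · obtain ⟨b, hb, hbQ⟩ := hc
      have hsub : {b' ∈ fm h | fm b' ⊆ fm b} ⊆ B := fun x hx => hh hx.1
      refine ⟨mkOb n {b' ∈ fm h | fm b' ⊆ fm b}, ⟨?_, ?_⟩, ?_, Or.inl ?_⟩
      · rw [mk _ hsub]; exact hsub
      · rw [mk _ hsub]
        refine ⟨⟨b, hb, subset_rfl⟩, ?_⟩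
        rintro c ⟨hc, hcb⟩ P
        obtain ⟨c', hc', h1, h2⟩ := hgh.2 c hc P
        exact ⟨c', ⟨hc', h1.trans hcb⟩, h1, h2⟩
      · rw [mk _ hsub]; exact fun x hx => hx.1
      · rw [mk _ hsub]; exact fun x hx => hbQ x hx.1 hx.2
    · push Not at hc
      have hsub : {b' ∈ fm h | b' ∉ Q} ⊆ B := fun x hx => hh hx.1
      refine ⟨mkOb n {b' ∈ fm h | b' ∉ Q}, ⟨?_, ?_⟩, ?_, Or.inr ?_⟩
      · rw [mk _ hsub]; exact hsub
      · rw [mk _ hsub]
        refine ⟨?_, ?_⟩
        · obtain ⟨b, hb⟩ := hgh.1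
          obtain ⟨b', hb', _, hQ⟩ := hc b hb
          exact ⟨b', hb', hQ⟩
        · rintro c ⟨hcm, _⟩ P
          obtain ⟨c', hc', h1, h2⟩ := hgh.2 c hcm P
          obtain ⟨c'', hc'', h3, hQ⟩ := hc c' hc'
          refine ⟨c'', ⟨hc'', hQ⟩, h3.trans h1, ?_⟩
          rcases h2 with h2 | h2
          · exact Or.inl (h3.trans h2)
          · exact Or.inr fun x hx => h2 x (h3 hx)
      · rw [mk _ hsub]; exact fun x hx => hx.1
      · rw [mk _ hsub]; exact fun x hx => hx.2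

theorem good_BL {B : Set (Ob K)} {n : ℕ} (hB : ∀ o ∈ B, lev o = n) (hg : Good B) (l : ℕ) :
    Good (BL B l) := by
  induction l with
  | zero => exact hg
  | succ l ih => exact good_sub (fun o ho => lev_BL hB ho) ih

/-- The members of a good family below a given member. -/
def below (oa ob : Ob K) : Set (Ob K) := {o | Mem o oa ∧ fm o ⊆ fm ob}

theorem good_below {oa ob : Ob K} (h : Good (fm oa)) (hb : Mem ob oa) : Good (below oa ob) := by
  refine ⟨⟨ob, hb, subset_rfl⟩, ?_⟩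
  rintro c ⟨hc, hcb⟩ P
  obtain ⟨c', hc', h1, h2⟩ := h.2 c hc P
  exact ⟨c', ⟨hc', h1.trans hcb⟩, h1, h2⟩

open Classical in
/-- A chosen member. -/
noncomputable def pick (o : Ob K) : Ob K := if h : ∃ x, Mem x o then h.choose else o

theorem pick_mem {o x : Ob K} (h : Mem x o) : Mem (pick o) o := by
  have h' : ∃ x, Mem x o := ⟨x, h⟩
  rw [pick, dif_pos h']
  exact h'.choose_spec

/-- The grounding lemma: the ground image of a hyper-family over a good family `B` contains a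
member of `B`. -/
theorem ground {B : Set (Ob K)} {l : ℕ} {h : Ob K} (hh : h ∈ BL B (l + 1)) :
    ∃ b ∈ B, ∀ u, Mem u b → ∃ o', Mem o' h ∧ u = pick^[l + 1] o' := by
  by_contra hcon
  push Not at hcon
  set Y : Set (Ob K) := {u | ∃ o', Mem o' h ∧ u = pick^[l + 1] o'} with hY
  let Dl : ℕ → Set (Ob K) := fun k => Nat.rec {b | b ∈ B ∧ ∀ u, Mem u b → u ∉ Y}
    (fun k s => {o | o ∈ BL B (k + 1) ∧ fm o ⊆ s}) k
  have hD0 : Dl 0 = {b | b ∈ B ∧ ∀ u, Mem u b → u ∉ Y} := rfl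
  have hDs : ∀ k, Dl (k + 1) = {o | o ∈ BL B (k + 1) ∧ fm o ⊆ Dl k} := fun k => rfl
  -- every hyper-family of level `k + 1` meets `Dl k`
  have meet : ∀ k, ∀ o ∈ BL B (k + 1), ∃ x, Mem x o ∧ x ∈ Dl k := by
    intro k
    induction k with
    | zero =>
      intro o ho
      obtain ⟨b, hb⟩ := ho.2.1
      obtain ⟨b', hb', _, h2⟩ := ho.2.2 b hb Y
      refine ⟨b', hb', ?_⟩
      rw [hD0]
      refine ⟨ho.1 hb', ?_⟩
      rcases h2 with h2 | h2
      · obtain ⟨u, hu, hu'⟩ := hcon b' (ho.1 hb')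
        obtain ⟨o', ho', he⟩ := h2 hu
        exact absurd he (hu' o' ho')
      · exact h2
    | succ k ih =>
      intro o ho
      obtain ⟨c, hc⟩ := ho.2.1
      obtain ⟨c', hc', _, h2⟩ := ho.2.2 c hc (Dl k)
      refine ⟨c', hc', ?_⟩
      rw [hDs]
      refine ⟨ho.1 hc', ?_⟩
      rcases h2 with h2 | h2
      · exact h2
      · obtain ⟨x, hx, hxD⟩ := ih c' (ho.1 hc')
        exact absurd hxD (h2 x hx)
  have hne : ∀ b ∈ B, ∃ u, Mem u b := by
    intro b hb
    obtain ⟨u, hu, _⟩ := hcon b hb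
    exact ⟨u, hu⟩
  have out : ∀ k, ∀ o ∈ Dl k, pick^[k + 1] o ∉ Y := by
    intro k
    induction k with
    | zero =>
      intro o ho
      rw [hD0] at ho
      obtain ⟨u, hu⟩ := hne o ho.1
      exact ho.2 _ (pick_mem hu)
    | succ k ih =>
      intro o ho
      rw [hDs] at ho
      obtain ⟨x, hx⟩ := ho.1.2.1
      rw [Function.iterate_succ_apply]
      exact ih _ (ho.2 (pick_mem hx))
  obtain ⟨x, hx, hxD⟩ := meet l h hh
  exact out l x hxD ⟨x, hx, rfl⟩

/-! ### Families of conditions -/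

/-- A condition agrees with a total function. -/
def Agrees (s : Cond K) (X : K → ℕ → Bool) : Prop := ∀ p ∈ s, X p.1.1 p.1.2 = p.2

/-- Cofinal sets of conditions that agree with a total function. -/
def ISet (X : K → ℕ → Bool) (o : Ob K) : Prop :=
  (∀ x, Mem x o → ∃ s, x = base s ∧ Agrees s X) ∧
    ∀ s0, Agrees s0 X → ∃ s, Mem (base s) o ∧ s0 ⊆ s

def IS (K : Type u) : Set (Ob K) := {o | ∃ X, ISet X o}

theorem ISet.lev_eq {X : K → ℕ → Bool} {o : Ob K} (h : ISet X o) : lev o = 1 := by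
  obtain ⟨s, hs, _⟩ := h.2 [] (by simp [Agrees])
  rw [lev_of_mem hs]; rfl

theorem lev_IS : ∀ o ∈ IS K, lev o = 1 := fun _ ⟨_, h⟩ => h.lev_eq

theorem exists_iset (X : K → ℕ → Bool) : ∃ o : Ob K, ISet X o := by
  have hA : ∀ x ∈ {x : Ob K | ∃ s, x = base s ∧ Agrees s X}, lev x = 0 := by
    rintro x ⟨s, rfl, _⟩
    rfl
  refine ⟨mkOb 0 {x | ∃ s, x = base s ∧ Agrees s X}, ?_, ?_⟩
  · intro x hx
    rw [← mem_fm, fm_mkOb hA] at hx
    exact hx
  · intro s0 hs0
    refine ⟨s0, ?_, List.Subset.refl _⟩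
    rw [← mem_fm, fm_mkOb hA]
    exact ⟨s0, rfl, hs0⟩

theorem good_IS : Good (IS K) := by
  refine ⟨?_, ?_⟩
  · obtain ⟨o, ho⟩ := exists_iset (K := K) (fun _ _ => false)
    exact ⟨o, _, ho⟩
  · rintro b ⟨X, hX⟩ Q
    have hl : ∀ x ∈ fm b, lev x = 0 := by
      intro x hx
      obtain ⟨s, rfl, _⟩ := hX.1 x hx
      rfl
    by_cases hc : ∀ s0, Agrees s0 X → ∃ s, Mem (base s) b ∧ base s ∈ Q ∧ s0 ⊆ s
    · have e : fm (mkOb 0 (fm b ∩ Q)) = fm b ∩ Q := fm_mkOb fun x hx => hl x hx.1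
      refine ⟨mkOb 0 (fm b ∩ Q), ⟨X, ?_, ?_⟩, ?_, Or.inl ?_⟩
      · intro x hx
        rw [← mem_fm, e] at hx
        exact hX.1 x hx.1
      · intro s0 hs0
        obtain ⟨s, h1, h2, h3⟩ := hc s0 hs0
        refine ⟨s, ?_, h3⟩
        rw [← mem_fm, e]
        exact ⟨h1, h2⟩
      · rw [e]; exact fun x hx => hx.1
      · rw [e]; exact fun x hx => hx.2
    · push Not at hc
      obtain ⟨s1, hs1, hno⟩ := hc
      have e : fm (mkOb 0 (fm b \ Q)) = fm b \ Q := fm_mkOb fun x hx => hl x hx.1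
      refine ⟨mkOb 0 (fm b \ Q), ⟨X, ?_, ?_⟩, ?_, Or.inr ?_⟩
      · intro x hx
        rw [← mem_fm, e] at hx
        exact hX.1 x hx.1
      · intro s0 hs0
        obtain ⟨s, h1, h2⟩ := hX.2 (s0 ++ s1) (by
          intro p hp
          rcases List.mem_append.1 hp with hp | hp
          · exact hs0 p hp
          · exact hs1 p hp)
        refine ⟨s, ?_, fun p hp => h2 (List.mem_append.2 (Or.inl hp))⟩
        rw [← mem_fm, e]
        exact ⟨h1, fun hQ => hno s h1 hQ fun p hp => h2 (List.mem_append.2 (Or.inr hp))⟩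
      · rw [e]; exact fun x hx => hx.1
      · rw [e]; exact fun x hx => hx.2

/-- The object whose members are all cofinal sets of conditions. -/
def top1 (K : Type u) : Ob K := mkOb 1 (IS K)

theorem fm_top1 : fm (top1 K) = IS K := fm_mkOb lev_IS

theorem top1_mem : top1 K ∈ BL (IS K) 1 := by
  refine ⟨?_, ?_⟩
  · rw [fm_top1]; exact subset_rfl
  · rw [fm_top1]; exact good_IS

/-- Cofinal sets of conditions have at least two members. -/
theorem ISet.nontrivial [Nonempty K] {X : K → ℕ → Bool} {o : Ob K} (h : ISet X o) :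
    ∃ x y, Mem x o ∧ Mem y o ∧ x ≠ y := by
  classical
  obtain ⟨s, hs, _⟩ := h.2 [] (by simp [Agrees])
  obtain ⟨k⟩ := ‹Nonempty K›
  obtain ⟨n, hn⟩ : ∃ n : ℕ, n ∉ (s.map (fun p => p.1.2)).toFinset :=
    Infinite.exists_notMem_finset _
  obtain ⟨t, ht, hst⟩ := h.2 [((k, n), X k n)] (by
    intro p hp
    rw [List.mem_singleton] at hp
    rw [hp])
  refine ⟨base s, base t, hs, ht, fun he => hn ?_⟩
  rw [base_inj he, List.mem_toFinset, List.mem_map]
  exact ⟨((k, n), X k n), hst (by simp), rfl⟩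

/-- Finite covers of the space of total functions. -/
def Cover (U : List (K × ℕ)) (B : Set (Cond K)) : Prop :=
  ∀ f : List Bool, f.length = U.length →
    ∃ s ∈ B, ∀ p ∈ s, ∃ j : ℕ, U[j]? = some p.1 ∧ f[j]? = some p.2

/-- The compactness dichotomy. -/
theorem dichotomy (Q : Set (Cond K)) :
    (∃ (X : K → ℕ → Bool) (o : Ob K), ISet X o ∧ ∀ s, Mem (base s) o → s ∈ Q) ∨
      ∃ U : List (K × ℕ), Cover U Qᶜ := by
  classical
  by_cases hc : ∃ X : K → ℕ → Bool, ∀ s0, Agrees s0 X → ∃ s, Agrees s X ∧ s ∈ Q ∧ s0 ⊆ s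
  · obtain ⟨X, hX⟩ := hc
    left
    have hA : ∀ x ∈ {x : Ob K | ∃ s, x = base s ∧ Agrees s X ∧ s ∈ Q}, lev x = 0 := by
      rintro x ⟨s, rfl, _⟩
      rfl
    refine ⟨X, mkOb 0 {x | ∃ s, x = base s ∧ Agrees s X ∧ s ∈ Q}, ⟨?_, ?_⟩, ?_⟩
    · intro x hx
      rw [← mem_fm, fm_mkOb hA] at hx
      obtain ⟨s, h1, h2, _⟩ := hx
      exact ⟨s, h1, h2⟩
    · intro s0 hs0
      obtain ⟨s, h1, h2, h3⟩ := hX s0 hs0
      refine ⟨s, ?_, h3⟩
      rw [← mem_fm, fm_mkOb hA]
      exact ⟨s, rfl, h1, h2⟩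
    · intro s hs
      rw [← mem_fm, fm_mkOb hA] at hs
      obtain ⟨t, h1, _, h3⟩ := hs
      rw [base_inj h1]; exact h3
  · push Not at hc
    right
    choose g hg1 hg2 using hc
    -- the topological space of total functions
    let Z := K × ℕ → Bool
    let cur : Z → (K → ℕ → Bool) := fun z k n => z (k, n)
    have hopen : ∀ z : Z, {z' : Z | Agrees (g (cur z)) (cur z')} ∈ nhds z := by
      intro z
      have ho : IsOpen {z' : Z | Agrees (g (cur z)) (cur z')} := by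
        have : {z' : Z | Agrees (g (cur z)) (cur z')} =
            ⋂ p ∈ {p | p ∈ g (cur z)}, {z' : Z | z' p.1 = p.2} := by
          ext z'
          simp only [Agrees, Set.mem_iInter]
          rfl
        rw [this]
        refine Set.Finite.isOpen_biInter (List.finite_toSet _) fun p _ => ?_
        have hcont : Continuous (fun z' : Z => z' p.1) := continuous_apply p.1
        exact (isOpen_discrete ({p.2} : Set Bool)).preimage hcont
      exact ho.mem_nhds (hg1 (cur z))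
    obtain ⟨t, _, ht⟩ := (isCompact_univ (X := Z)).elim_nhds_subcover
      (fun z => {z' : Z | Agrees (g (cur z)) (cur z')}) (fun z _ => hopen z)
    refine ⟨(t.toList.flatMap (fun z => (g (cur z)).map Prod.fst)), ?_⟩
    intro f hf
    set U := t.toList.flatMap (fun z => (g (cur z)).map Prod.fst) with hU
    have hj : ∀ c ∈ U, ∃ j : ℕ, U[j]? = some c ∧ ∃ b, f[j]? = some b := by
      intro c hc
      obtain ⟨j, hj, he⟩ := List.mem_iff_getElem.1 hc
      refine ⟨j, ?_, f[j]'(by omega), ?_⟩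
      · rw [List.getElem?_eq_getElem hj, he]
      · rw [List.getElem?_eq_getElem]
    let z : Z := fun c => if h : ∃ j : ℕ, U[j]? = some c ∧ ∃ b, f[j]? = some b then
      h.choose_spec.2.choose else false
    have hz : ∀ c ∈ U, ∃ j : ℕ, U[j]? = some c ∧ f[j]? = some (z c) := by
      intro c hc
      have h := hj c hc
      refine ⟨h.choose, h.choose_spec.1, ?_⟩
      have : z c = h.choose_spec.2.choose := dif_pos h
      rw [this]
      exact h.choose_spec.2.choose_spec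
    have hzt := ht (Set.mem_univ z)
    simp only [Set.mem_iUnion] at hzt
    obtain ⟨y, hy, hag⟩ := hzt
    refine ⟨g (cur y), fun hQ => hg2 (cur y) (g (cur y)) (hg1 _) hQ
      (List.Subset.refl _), ?_⟩
    intro p hp
    have hpU : p.1 ∈ U := by
      rw [hU, List.mem_flatMap]
      exact ⟨y, Finset.mem_toList.2 hy, List.mem_map.2 ⟨p, hp, rfl⟩⟩
    obtain ⟨j, h1, h2⟩ := hz p.1 hpU
    refine ⟨j, h1, ?_⟩
    rw [h2]
    exact congrArg some (hag p hp)

end Pool.Agent.Helper97.Ecf
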