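import Pool.Agent.Helper97.EcfSahl

/-!
# The formulas of the reduction
-/

universe u

namespace Pool.Agent.Helper97.Ecf

open Form

/-- `ch n` is true exactly at the points from which only chains of length `n` start. -/
def ch : ℕ → Form
  | 0 => Form.box .bot
  | n + 1 => Form.and (dia (ch n)) (Form.box (ch n))

/-- Iterated diamonds. -/
def dpow : ℕ → Form
  | 0 => top
  | n + 1 => dia (dpow n)

/-- Real points see a dead end and a point that is not a dead end. -/
def real : Form := Form.and (dia (Form.box .bot)) (dia (dia top))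

/-- The mark number `k`. -/
def mk (k : ℕ) : Form := dia (ch (k + 1))

/-- The real points with mark `k`. -/
def tp (k : ℕ) : Form := Form.and real (mk k)

def tR : Form := tp 0
def tK : Form := tp 1
def tT : Form := tp 2
def tY : Form := tp 3
def tE : Form := tp 4
def tH : Form := tp 5
def tL : Form := tp 6
def tP : Form := tp 7
def tQ : Form := tp 8
def tD : Form := tp 9
def tG : Form := tp 10
def f1 : Form := mk 11
def f2 : Form := mk 12
def tI : Form := Form.and tH f2
def tB : Form := Form.and (neg real) (dpow 15)

/-- The chain point that represents the propositional variable number `i`. -/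
def idx (i : ℕ) : Form := ch (i + 15)

/-- Restricted diamond and box. -/
def dt (t a : Form) : Form := dia (Form.and t a)
def bt (t a : Form) : Form := Form.box (.imp t a)

@[simp] theorem closed_bot : Closed .bot := trivial
@[simp] theorem closed_imp {a b : Form} : Closed (.imp a b) ↔ a.Closed ∧ b.Closed := Iff.rfl
@[simp] theorem closed_box {a : Form} : Closed (.box a) ↔ a.Closed := Iff.rfl
@[simp] theorem closed_neg {a : Form} : Closed (neg a) ↔ a.Closed := by simp [neg]
@[simp] theorem closed_top : Closed top := by simp [top]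
@[simp] theorem closed_and {a b : Form} : Closed (Form.and a b) ↔ a.Closed ∧ b.Closed := by
  simp [Form.and]
@[simp] theorem closed_or {a b : Form} : Closed (Form.or a b) ↔ a.Closed ∧ b.Closed := by
  simp [Form.or]
@[simp] theorem closed_dia {a : Form} : Closed (dia a) ↔ a.Closed := by simp [dia]
@[simp] theorem closed_ch (n : ℕ) : Closed (ch n) := by
  induction n with
  | zero => simp [ch]
  | succ n ih => simp [ch, ih]
@[simp] theorem closed_dpow (n : ℕ) : Closed (dpow n) := by
  induction n with
  | zero => simp [dpow]
  | succ n ih => simp [dpow, ih]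
@[simp] theorem closed_real : Closed real := by simp [real]
@[simp] theorem closed_mk (k : ℕ) : Closed (mk k) := by simp [mk]
@[simp] theorem closed_tp (k : ℕ) : Closed (tp k) := by simp [tp]
@[simp] theorem closed_tR : Closed tR := closed_tp _
@[simp] theorem closed_tK : Closed tK := closed_tp _
@[simp] theorem closed_tT : Closed tT := closed_tp _
@[simp] theorem closed_tY : Closed tY := closed_tp _
@[simp] theorem closed_tE : Closed tE := closed_tp _
@[simp] theorem closed_tH : Closed tH := closed_tp _
@[simp] theorem closed_tL : Closed tL := closed_tp _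
@[simp] theorem closed_tP : Closed tP := closed_tp _
@[simp] theorem closed_tQ : Closed tQ := closed_tp _
@[simp] theorem closed_tD : Closed tD := closed_tp _
@[simp] theorem closed_tG : Closed tG := closed_tp _
@[simp] theorem closed_f1 : Closed f1 := closed_mk _
@[simp] theorem closed_f2 : Closed f2 := closed_mk _
@[simp] theorem closed_tI : Closed tI := by simp [tI]
@[simp] theorem closed_tB : Closed tB := by simp [tB]
@[simp] theorem closed_idx (i : ℕ) : Closed (idx i) := closed_ch _
@[simp] theorem closed_dt {t a : Form} : Closed (dt t a) ↔ t.Closed ∧ a.Closed := by simp [dt]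
@[simp] theorem closed_bt {t a : Form} : Closed (bt t a) ↔ t.Closed ∧ a.Closed := by simp [bt]

section
variable {W : Type u} {R : W → W → Prop} {V : ℕ → W → Prop} {w : W} {t a : Form}
@[simp] theorem sat_dt : sat R V (dt t a) w ↔ ∃ v, R w v ∧ sat R V t v ∧ sat R V a v := by
  simp [dt]
@[simp] theorem sat_bt : sat R V (bt t a) w ↔ ∀ v, R w v → sat R V t v → sat R V a v := by
  simp [bt]
end

/-- The structural axioms. -/
def ax : List Form :=
  let p := Form.var 0
  let q := Form.var 1
  let r := Form.var 2
  [ .imp (dt tK (dt tK p)) (dt tK p),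
    .imp (dt tK p) (bt tI (bt tH (dt tT (dt tK p)))),
    bt tI (bt tH (.imp (dt tT (dt tT p)) (dt tT p))),
    bt tI (bt tH (bt tT (.imp (dt tK (bt tK p)) (bt tT (dt tK p))))),
    bt tI (bt tH (bt tT (.imp (dt tK (dt tK p)) (dt tT (dt tK p))))),
    .imp (dt tB p) (bt tI (bt tH (bt tT (dt tY (dt tB p))))),
    bt tI (bt tH (.imp (dt tT (Form.and (dt tK p) (dt tY (Form.and f1 (dt tB q)))))
      (dt tH (dt tE (Form.and f1 (Form.and (dt tK p) (dt tB q))))))),
    bt tI (bt tH (.imp (dt tT (Form.and (dt tK p) (dt tY (Form.and (neg f1) (dt tB q)))))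
      (dt tH (dt tE (Form.and (neg f1) (Form.and (dt tK p) (dt tB q))))))),
    .imp (Form.and (dt tL p) (dt tH (Form.and q (dt tH r))))
      (dt tP (Form.and (bt tL p) (Form.and (bt tH q) (bt tQ (bt tH r))))),
    bt tP (.imp (dt tD (dt tD p)) (dt tD p)),
    bt tP (bt tD (.imp (dt tK p) (bt tK p))),
    bt tP (bt tD (.imp (dt tB p) (bt tB p))),
    bt tP (bt tD (.imp (dt tD (Form.and f1 (dt tE (Form.and (neg f1) p)))) (dt tE p))),
    bt tP (bt tD (.imp (dt tD (Form.and (neg f1) (dt tE (Form.and f1 p)))) (dt tE p))),
    bt tP (bt tD (.imp (dt tD (dt tE (Form.and p (dt tK q)))) (Form.or (dt tE p) (dt tK q)))),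
    bt tP (bt tD (.imp (dt tD (dt tE (Form.and p (dt tB q)))) (Form.or (dt tE p) (dt tB q)))),
    bt tP (.imp (dt tD (Form.and f2 (bt tE p))) (dt tL (dt tH (bt tE p)))),
    bt tP (bt tD (.imp (dt tH (dt tH p)) (bt tD (dt tH p)))),
    .imp (dt tP (dt tD (dt tH p))) (dt tH p),
    bt tP (.imp (Form.and (dt tQ (dt tH (bt tH p))) (dt tD (dt tH (bt tH (bt tG (bt tH q))))))
      (dt tH (dt tH (bt tH (Form.and p q))))),
    bt tP (bt tD (bt tH (bt tH (.imp (dt tG (dt tH p)) (bt tG (bt tH p)))))) ]

/-- The partition axiom for the family of the successors of a point. -/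
def jAx : Form :=
  .imp (dt tH (bt tH (Form.or (.var 0) (.var 1))))
    (Form.or (dt tH (bt tH (.var 0))) (dt tH (bt tH (.var 1))))

/-- The dichotomy axiom. -/
def psiAx : Form :=
  Form.or (dt tI (dt tH (bt tH (.var 0)))) (dt tL (bt tH (neg (.var 0))))

/-- The relativised translation of a formula: variables become marks. -/
def tr (t : Form) : Form → Form
  | .var i => dt tY (Form.and f1 (dia (idx i)))
  | .bot => .bot
  | .imp a b => .imp (tr t a) (tr t b)
  | .box a => bt t (tr t a)

/-- `idxs a` says that the chain points for the variables of `a` are visible. -/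
def idxs : Form → Form
  | .var i => dia (idx i)
  | .bot => top
  | .imp a b => Form.and (idxs a) (idxs b)
  | .box a => idxs a

/-- The variable-free conditions on the root. -/
def sList (a b : Form) : List Form :=
  [ tR, dt tL top, bt tH (dt tH top),
    bt tP (dt tD (Form.and (bt tE .bot) (dt tH top))),
    bt tP (bt tD (Form.or f2 (Form.and (dt tD f1) (dt tD (neg f1))))),
    bt tP (dt tQ (dt tH top)),
    bt tI (bt tH (bt tT (tr tT a))),
    dt tK (neg (tr tK b)),
    idxs a, idxs b ]

/-- The formula produced by the reduction from the pair `(a, b)`. -/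
def red (a b : Form) : Form :=
  .imp (conj (sList a b)) (Form.and (conj ax) (Form.and (bt tH jAx) psiAx))

@[simp] theorem closed_tr {t : Form} (ht : t.Closed) (a : Form) : (tr t a).Closed := by
  induction a with
  | var i => simp [tr]
  | bot => simp [tr]
  | imp a b iha ihb => simp [tr, iha, ihb]
  | box a iha => simp [tr, iha, ht]

@[simp] theorem closed_idxs (a : Form) : (idxs a).Closed := by
  induction a with
  | var i => simp [idxs]
  | bot => simp [idxs]
  | imp a b iha ihb => simp [idxs, iha, ihb]
  | box a iha => simp [idxs, iha]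

theorem closed_conj {l : List Form} (h : ∀ a ∈ l, a.Closed) : (conj l).Closed := by
  induction l with
  | nil => exact closed_top
  | cons a l ih =>
    exact closed_and.2 ⟨h a (by simp), ih fun b hb => h b (by simp [hb])⟩

theorem closed_sList (a b : Form) : (conj (sList a b)).Closed := by
  refine closed_conj ?_
  simp [sList]

/-! ### Canonicity -/

theorem can_conj {l : List Form} (h : ∀ a ∈ l, Can a) : Can (conj l) := by
  induction l with
  | nil =>
    intro Λ N w _ V
    exact sat_top.2 trivial
  | cons a l ih =>
    exact Can.and (h a (by simp)) (ih fun b hb => h b (by simp [hb]))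

theorem Can.bt {t a : Form} (ht : t.Closed) (h : Can a) : Can (bt t a) :=
  (h.guard ht).box

theorem SP.dt {t a : Form} (ht : t.Closed) (h : SP a) : SP (dt t a) :=
  SP.dia (SP.and (SP.closed ht) h)

theorem Pos.dt {t a : Form} (ht : t.Closed) (h : Pos a) : Pos (dt t a) :=
  Pos.dia (Pos.and (Pos.closed ht) h)

theorem Pos.bt {t a : Form} (ht : t.Closed) (h : Pos a) : Pos (bt t a) :=
  Pos.box (Pos.guard ht h)

theorem BA.bt {n : ℕ} {t a : Form} (ht : t.Closed) (h : BA n a) : BA n (bt t a) :=
  BA.box ht h

theorem SP.var (n : ℕ) : SP (.var n) := SP.atom BA.var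

theorem can_ax : Can (conj ax) := by
  refine can_conj ?_
  simp only [ax, List.mem_cons, List.not_mem_nil, or_false, forall_eq_or_imp, forall_eq]
  refine ⟨?_, ?_, ?_, ?_, ?_, ?_, ?_, ?_, ?_, ?_, ?_, ?_, ?_, ?_, ?_, ?_, ?_, ?_, ?_, ?_, ?_⟩
  all_goals
    (repeat refine Can.bt (by simp) ?_)
  all_goals
    (apply can_sahlqvist)
  all_goals
    (repeat' first
      | exact SP.var _
      | exact Pos.var _
      | refine SP.and ?_ ?_
      | refine SP.dt (by simp) ?_
      | exact SP.atom (BA.bt (by simp) BA.var)
      | exact SP.atom (BA.bt (by simp) (BA.bt (by simp) (BA.bt (by simp) BA.var)))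
      | refine Pos.and ?_ ?_
      | refine Pos.or ?_ ?_
      | refine Pos.dt (by simp) ?_
      | refine Pos.bt (by simp) ?_
      | (refine SP.closed ?_; simp)
      | (refine Pos.closed ?_; simp))

end Pool.Agent.Helper97.Ecf
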