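import Pool.Agent.Helper97.EcfFO
import Pool.Agent.Helper97.EcfFam

/-!
# The frame built from a refutation of a frame consequence
-/

universe u

namespace Pool.Agent.Helper97.Ecf

open Form

/-- The real points of the frame. -/
inductive Pt (K : Type u) : Type u
  | root : Pt K
  | K : K → Pt K
  | T : K → (K → ℕ → Bool) → Pt K
  | Y : ℕ → Bool → Pt K
  | E : K → ℕ → Bool → Pt K
  | H : List ℕ → Ob K → Pt K
  | L : List (K × ℕ) → Set (Cond K) → Pt K
  | P : List (K × ℕ) → Set (Cond K) → List ℕ → Ob K → Ob K → Pt K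
  | Q : List ℕ → Ob K → Pt K
  | D : List (K × ℕ) → Set (Cond K) → List ℕ → Ob K → Ob K → List Bool → Pt K
  | G : List ℕ → Ob K → Pt K

/-- The change of the tag on moving to an object of level `j`. -/
def dn : List ℕ → ℕ → List ℕ
  | [], _ => []
  | m :: σ, j => if m + 1 ≤ j then m :: σ else σ

variable {K : Type u} (r : K → K → Prop) (VG : ℕ → K → Prop)

/-- The edges between real points. -/
def Edge : Pt K → Pt K → Prop
  | .root, q => match q with
    | .K _ => True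
    | .H _ o => ∃ n, o ∈ BL (IS K) (n + 1)
    | .L U B => Cover U B
    | .P U B _ oa ob => Cover U B ∧ (∃ n, oa ∈ BL (IS K) (n + 1)) ∧ Mem ob oa
    | _ => False
  | .K x, q => match q with
    | .K x' => r x x'
    | .Y i b => (b = true ↔ VG i x)
    | _ => False
  | .T x X, q => match q with
    | .K x' => x' = x
    | .T x' X' => r x x' ∧ X' = X
    | .Y i b => b = X x i
    | _ => False
  | .Y _ _, _ => False
  | .E x _ _, q => match q with
    | .K x' => x' = x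
    | _ => False
  | .H τ o, q => match q with
    | .H τ' o' => Mem o' o ∧ τ' = dn τ (lev o')
    | .E x i b => ∃ s, o = base s ∧ ((x, i), b) ∈ s
    | .T _ X => ISet X o
    | .G τ' o' => ∃ m, τ = m :: τ' ∧ m + 1 ≤ lev o ∧ o' = pick^[lev o - m] o
    | _ => False
  | .L _ B, q => match q with
    | .H τ o => τ = [] ∧ ∃ s ∈ B, o = base s
    | _ => False
  | .P U B τ oa ob, q => match q with
    | .L U' B' => U' = U ∧ B' = B
    | .H τ' o => τ' = τ ∧ o = oa
    | .Q τ' o => τ' = dn τ (lev ob) ∧ o = ob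
    | .D U' B' τ' oa' ob' f =>
      U' = U ∧ B' = B ∧ τ' = τ ∧ oa' = oa ∧ ob' = ob ∧ f.length ≤ U.length
    | _ => False
  | .Q τ o, q => match q with
    | .H τ' o' => τ' = τ ∧ o' = o
    | _ => False
  | .D U B τ oa ob f, q => match q with
    | .E x i b => ∃ j : ℕ, U[j]? = some (x, i) ∧ f[j]? = some b
    | .K x => ∃ i, U[f.length]? = some (x, i)
    | .D U' B' τ' oa' ob' f' =>
      U' = U ∧ B' = B ∧ τ' = τ ∧ oa' = oa ∧ ob' = ob ∧ f.length < U.length ∧
        ∃ c, f' = f ++ [c]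
    | .H τ' o => ∃ m, lev ob = m + 1 ∧ τ' = m :: dn (dn τ (m + 1)) m ∧
        o ∈ BL (below oa ob) (U.length - f.length + 1)
    | _ => False
  | .G τ o, q => match q with
    | .H τ' o' => τ' = τ ∧ o' = o
    | _ => False

/-- The marks of the real points. -/
def Mark : Pt K → ℕ → Prop
  | .root, k => k = 0 ∨ ∃ i, k = i + 14
  | .K _, k => k = 1
  | .T _ _, k => k = 2
  | .Y i b, k => k = 3 ∨ (k = 11 ∧ b = true) ∨ k = i + 14
  | .E _ i b, k => k = 4 ∨ (k = 11 ∧ b = true) ∨ k = i + 14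
  | .H τ o, k => k = 5 ∨ (k = 12 ∧ τ = [] ∧ o = top1 K)
  | .L _ _, k => k = 6
  | .P _ _ _ _ _, k => k = 7
  | .Q _ _, k => k = 8
  | .D U _ _ _ _ f, k => k = 9 ∨ (k = 11 ∧ f.getLast? = some true) ∨
      (k = 12 ∧ f.length = U.length) ∨ ∃ x i, U[f.length]? = some (x, i) ∧ k = i + 14
  | .G _ _, k => k = 10

/-- The accessibility relation of the frame. -/
def Rel : ℕ ⊕ Pt K → ℕ ⊕ Pt K → Prop
  | .inl n, .inl m => n = m + 1
  | .inl _, .inr _ => False
  | .inr p, .inl n => n = 0 ∨ ∃ k, n = k + 1 ∧ Mark p k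
  | .inr p, .inr q => Edge r VG p q

variable {r VG} {V : ℕ → ℕ ⊕ Pt K → Prop}

theorem exists_mark (p : Pt K) : ∃ k, Mark p k := by
  cases p with
  | root => exact ⟨0, Or.inl rfl⟩
  | K x => exact ⟨1, rfl⟩
  | T x X => exact ⟨2, rfl⟩
  | Y i b => exact ⟨3, Or.inl rfl⟩
  | E x i b => exact ⟨4, Or.inl rfl⟩
  | H τ o => exact ⟨5, Or.inl rfl⟩
  | L U B => exact ⟨6, rfl⟩
  | P U B τ oa ob => exact ⟨7, rfl⟩
  | Q τ o => exact ⟨8, rfl⟩
  | D U B τ oa ob f => exact ⟨9, Or.inl rfl⟩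
  | G τ o => exact ⟨10, rfl⟩

theorem sat_ch_inl (n m : ℕ) : sat (Rel r VG) V (ch n) (.inl m) ↔ n = m := by
  induction n generalizing m with
  | zero =>
    rw [ch, sat_box]
    constructor
    · intro h
      cases m with
      | zero => rfl
      | succ m => exact (h (.inl m) rfl).elim
    · rintro rfl v hv
      cases v with
      | inl k => exact absurd hv (by simp [Rel])
      | inr p => exact hv
  | succ n ih =>
    rw [ch, sat_and, sat_dia, sat_box]
    constructor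
    · rintro ⟨⟨v, hv, h⟩, _⟩
      cases v with
      | inl k => rw [ih] at h; have : m = k + 1 := hv; omega
      | inr p => exact hv.elim
    · rintro rfl
      refine ⟨⟨.inl n, rfl, (ih n).2 rfl⟩, ?_⟩
      intro v hv
      cases v with
      | inl k => rw [ih]; have : n + 1 = k + 1 := hv; omega
      | inr p => exact hv.elim

theorem not_sat_ch_inr (n : ℕ) (p : Pt K) : ¬ sat (Rel r VG) V (ch n) (.inr p) := by
  intro h
  cases n with
  | zero => exact (sat_box.1 h) (.inl 0) (Or.inl rfl)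
  | succ n =>
    rw [ch, sat_and, sat_box] at h
    have h1 := (sat_ch_inl n 0).1 (h.2 (.inl 0) (Or.inl rfl))
    obtain ⟨k, hk⟩ := exists_mark p
    have h2 := (sat_ch_inl n (k + 1)).1 (h.2 (.inl (k + 1)) (Or.inr ⟨k, rfl, hk⟩))
    omega

theorem sat_real_inr (p : Pt K) : sat (Rel r VG) V real (.inr p) := by
  rw [real, sat_and, sat_dia, sat_dia]
  refine ⟨⟨.inl 0, Or.inl rfl, (sat_ch_inl 0 0).2 rfl⟩, ?_⟩
  obtain ⟨k, hk⟩ := exists_mark p
  exact ⟨.inl (k + 1), Or.inr ⟨k, rfl, hk⟩, sat_dia.2 ⟨.inl k, rfl, sat_top.2 trivial⟩⟩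

theorem not_sat_real_inl (n : ℕ) : ¬ sat (Rel r VG) V real (.inl n) :=
  not_sat_real_of_ch ((sat_ch_inl n n).2 rfl)

theorem sat_mk_inr (k : ℕ) (p : Pt K) : sat (Rel r VG) V (mk k) (.inr p) ↔ Mark p k := by
  rw [mk, sat_dia]
  constructor
  · rintro ⟨v, hv, h⟩
    cases v with
    | inl n =>
      rw [sat_ch_inl] at h
      rcases hv with hv | ⟨k', hk', hm⟩
      · omega
      · obtain rfl : k = k' := by omega
        exact hm
    | inr q => exact absurd h (not_sat_ch_inr _ q)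
  · intro h
    exact ⟨.inl (k + 1), Or.inr ⟨k, rfl, h⟩, (sat_ch_inl _ _).2 rfl⟩

theorem sat_tp_iff (k : ℕ) (x : ℕ ⊕ Pt K) :
    sat (Rel r VG) V (tp k) x ↔ ∃ p, x = .inr p ∧ Mark p k := by
  rw [tp, sat_and]
  constructor
  · rintro ⟨h1, h2⟩
    cases x with
    | inl n => exact absurd h1 (not_sat_real_inl n)
    | inr p => exact ⟨p, rfl, (sat_mk_inr k p).1 h2⟩
  · rintro ⟨p, rfl, h⟩
    exact ⟨sat_real_inr p, (sat_mk_inr k p).2 h⟩

theorem sat_idx_dia (i : ℕ) (p : Pt K) :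
    sat (Rel r VG) V (dia (idx i)) (.inr p) ↔ Mark p (i + 14) :=
  sat_mk_inr (i + 14) p

theorem sat_dpow_inl (k n : ℕ) : sat (Rel r VG) V (dpow k) (.inl n) ↔ k ≤ n := by
  induction k generalizing n with
  | zero => simp [dpow]
  | succ k ih =>
    rw [dpow, sat_dia]
    constructor
    · rintro ⟨v, hv, h⟩
      cases v with
      | inl m => rw [ih] at h; have : n = m + 1 := hv; omega
      | inr p => exact hv.elim
    · intro h
      exact ⟨.inl (n - 1), (by change n = n - 1 + 1; omega), (ih _).2 (by omega)⟩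

/-! ### Decoding the point predicates -/

section decode
variable {x : ℕ ⊕ Pt K}

theorem dec_tR : sat (Rel r VG) V tR x ↔ x = .inr .root := by
  rw [tR, sat_tp_iff]
  constructor
  · rintro ⟨p, rfl, h⟩
    cases p <;> simp [Mark] at h ⊢
  · rintro rfl
    exact ⟨_, rfl, Or.inl rfl⟩

theorem dec_K : (sigOf (Rel r VG)).K x ↔ ∃ k, x = .inr (.K k) := by
  rw [← sat_tK (V := fun _ _ => False), tK, sat_tp_iff]
  constructor
  · rintro ⟨p, rfl, h⟩
    cases p <;> simp [Mark] at h ⊢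
  · rintro ⟨k, rfl⟩
    exact ⟨_, rfl, rfl⟩

theorem dec_T : (sigOf (Rel r VG)).T x ↔ ∃ k X, x = .inr (.T k X) := by
  rw [← sat_tT (V := fun _ _ => False), tT, sat_tp_iff]
  constructor
  · rintro ⟨p, rfl, h⟩
    cases p <;> simp [Mark] at h ⊢
  · rintro ⟨k, X, rfl⟩
    exact ⟨_, rfl, rfl⟩

theorem dec_Y : (sigOf (Rel r VG)).Y x ↔ ∃ i b, x = .inr (.Y i b) := by
  rw [← sat_tY (V := fun _ _ => False), tY, sat_tp_iff]
  constructor
  · rintro ⟨p, rfl, h⟩
    cases p <;> simp [Mark] at h ⊢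
  · rintro ⟨k, X, rfl⟩
    exact ⟨_, rfl, Or.inl rfl⟩

theorem dec_E : (sigOf (Rel r VG)).E x ↔ ∃ k i b, x = .inr (.E k i b) := by
  rw [← sat_tE (V := fun _ _ => False), tE, sat_tp_iff]
  constructor
  · rintro ⟨p, rfl, h⟩
    cases p <;> simp [Mark] at h ⊢
  · rintro ⟨k, i, b, rfl⟩
    exact ⟨_, rfl, Or.inl rfl⟩

theorem dec_H : (sigOf (Rel r VG)).H x ↔ ∃ τ o, x = .inr (.H τ o) := by
  rw [← sat_tH (V := fun _ _ => False), tH, sat_tp_iff]
  constructor
  · rintro ⟨p, rfl, h⟩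
    cases p <;> simp [Mark] at h ⊢
  · rintro ⟨k, i, rfl⟩
    exact ⟨_, rfl, Or.inl rfl⟩

theorem dec_L : (sigOf (Rel r VG)).L x ↔ ∃ U B, x = .inr (.L U B) := by
  rw [← sat_tL (V := fun _ _ => False), tL, sat_tp_iff]
  constructor
  · rintro ⟨p, rfl, h⟩
    cases p <;> simp [Mark] at h ⊢
  · rintro ⟨k, i, rfl⟩
    exact ⟨_, rfl, rfl⟩

theorem dec_P : (sigOf (Rel r VG)).P x ↔ ∃ U B τ oa ob, x = .inr (.P U B τ oa ob) := by
  rw [← sat_tP (V := fun _ _ => False), tP, sat_tp_iff]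
  constructor
  · rintro ⟨p, rfl, h⟩
    cases p <;> simp [Mark] at h ⊢
  · rintro ⟨U, B, τ, oa, ob, rfl⟩
    exact ⟨_, rfl, rfl⟩

theorem dec_Q : (sigOf (Rel r VG)).Q x ↔ ∃ τ o, x = .inr (.Q τ o) := by
  rw [← sat_tQ (V := fun _ _ => False), tQ, sat_tp_iff]
  constructor
  · rintro ⟨p, rfl, h⟩
    cases p <;> simp [Mark] at h ⊢
  · rintro ⟨k, i, rfl⟩
    exact ⟨_, rfl, rfl⟩

theorem dec_D : (sigOf (Rel r VG)).D x ↔ ∃ U B τ oa ob f, x = .inr (.D U B τ oa ob f) := by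
  rw [← sat_tD (V := fun _ _ => False), tD, sat_tp_iff]
  constructor
  · rintro ⟨p, rfl, h⟩
    cases p <;> simp [Mark] at h ⊢
  · rintro ⟨U, B, τ, oa, ob, f, rfl⟩
    exact ⟨_, rfl, Or.inl rfl⟩

theorem dec_G : (sigOf (Rel r VG)).G x ↔ ∃ τ o, x = .inr (.G τ o) := by
  rw [← sat_tG (V := fun _ _ => False), tG, sat_tp_iff]
  constructor
  · rintro ⟨p, rfl, h⟩
    cases p <;> simp [Mark] at h ⊢
  · rintro ⟨k, i, rfl⟩
    exact ⟨_, rfl, rfl⟩

theorem dec_f1 {p : Pt K} : (sigOf (Rel r VG)).f1 (.inr p) ↔ Mark p 11 := by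
  rw [← sat_f1 (V := fun _ _ => False), f1, sat_mk_inr]

theorem dec_f2 {p : Pt K} : (sigOf (Rel r VG)).f2 (.inr p) ↔ Mark p 12 := by
  rw [← sat_f2 (V := fun _ _ => False), f2, sat_mk_inr]

theorem dec_I : (sigOf (Rel r VG)).I x ↔ x = .inr (.H [] (top1 K)) := by
  rw [← sat_tI (V := fun _ _ => False), tI, sat_and, sat_tH, dec_H]
  constructor
  · rintro ⟨⟨τ, o, rfl⟩, h⟩
    rw [sat_f2, dec_f2] at h
    rcases h with h | ⟨_, rfl, rfl⟩
    · omega
    · rfl
  · rintro rfl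
    refine ⟨⟨_, _, rfl⟩, ?_⟩
    rw [sat_f2, dec_f2]
    exact Or.inr ⟨rfl, rfl, rfl⟩

theorem dec_B : (sigOf (Rel r VG)).B x ↔ ∃ i, x = .inl (i + 15) := by
  rw [← sat_tB (V := fun _ _ => False), tB, sat_and, sat_neg]
  constructor
  · rintro ⟨h1, h2⟩
    cases x with
    | inl n =>
      rw [sat_dpow_inl] at h2
      exact ⟨n - 15, by rw [Nat.sub_add_cancel h2]⟩
    | inr p => exact absurd (sat_real_inr p) h1
  · rintro ⟨i, rfl⟩
    exact ⟨not_sat_real_inl _, (sat_dpow_inl _ _).2 (by omega)⟩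

end decode

end Pool.Agent.Helper97.Ecf
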