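import Pool.Agent.Helper97.EcfFrame

/-!
# The structural axioms hold at the root of the constructed frame
-/

universe u

namespace Pool.Agent.Helper97.Ecf

open Form

variable {K : Type u} {r : K → K → Prop} {VG : ℕ → K → Prop} {V : ℕ → ℕ ⊕ Pt K → Prop}

/-- The root. -/
abbrev rt (K : Type u) : ℕ ⊕ Pt K := .inr .root

theorem lev_of_root {τ : List ℕ} {o : Ob K} (h : Edge r VG .root (.H τ o)) :
    ∃ n, o ∈ BL (IS K) (n + 1) ∧ lev o = n + 2 := by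
  obtain ⟨n, hn⟩ := h
  exact ⟨n, hn, by rw [lev_BL lev_IS hn]; omega⟩

theorem axC_root : AxC (Rel r VG) (sigOf (Rel r VG)) (rt K) := by
  constructor
  · -- a1
    rintro x hx hK x' hx' hK'
    obtain ⟨k', rfl⟩ := dec_K.1 hK'
    exact trivial
  · -- a2
    rintro x hx hK a ha hI z hz hH
    obtain ⟨k, rfl⟩ := dec_K.1 hK
    obtain rfl := dec_I.1 hI
    obtain ⟨τ, o, rfl⟩ := dec_H.1 hH
    have h1 : Mem o (top1 K) := hz.1
    rw [← mem_fm, fm_top1] at h1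
    obtain ⟨X, hX⟩ := h1
    exact ⟨.inr (.T k X), hX, dec_T.2 ⟨k, X, rfl⟩, rfl⟩
  · -- a3
    rintro a ha hI z hz hH t ht hT t' ht' hT'
    obtain ⟨τ, o, rfl⟩ := dec_H.1 hH
    obtain ⟨k, X, rfl⟩ := dec_T.1 hT
    obtain ⟨k', X', rfl⟩ := dec_T.1 hT'
    obtain ⟨_, rfl⟩ : r k k' ∧ X' = X := ht'
    exact ht
  · -- a4
    rintro a ha hI z hz hH t ht hT x hx hK t' ht' hT'
    obtain ⟨k, X, rfl⟩ := dec_T.1 hT
    obtain ⟨k', X', rfl⟩ := dec_T.1 hT'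
    obtain ⟨kx, rfl⟩ := dec_K.1 hK
    obtain ⟨h1, _⟩ : r k k' ∧ X' = X := ht'
    obtain rfl : kx = k := hx
    exact ⟨.inr (.K k'), rfl, dec_K.2 ⟨k', rfl⟩, h1⟩
  · -- a5
    rintro a ha hI z hz hH t ht hT x hx hK x' hx' hK'
    obtain ⟨k, X, rfl⟩ := dec_T.1 hT
    obtain ⟨kx, rfl⟩ := dec_K.1 hK
    obtain ⟨kx', rfl⟩ := dec_K.1 hK'
    obtain rfl : kx = k := hx
    exact ⟨.inr (.T kx' X), ⟨hx', rfl⟩, dec_T.2 ⟨_, _, rfl⟩, rfl⟩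
  · -- a6
    rintro c hc hB a ha hI z hz hH t ht hT
    obtain ⟨i, rfl⟩ := dec_B.1 hB
    obtain ⟨k, X, rfl⟩ := dec_T.1 hT
    exact ⟨.inr (.Y i (X k i)), rfl, dec_Y.2 ⟨_, _, rfl⟩,
      Or.inr ⟨i + 14, by omega, Or.inr (Or.inr rfl)⟩⟩
  · -- a7
    rintro a ha hI z hz hH t ht hT x hx hK y hy hY hf c hc hB
    obtain rfl := dec_I.1 hI
    obtain ⟨τ, o, rfl⟩ := dec_H.1 hH
    obtain ⟨k, X, rfl⟩ := dec_T.1 hT
    obtain ⟨kx, rfl⟩ := dec_K.1 hK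
    obtain ⟨i, b, rfl⟩ := dec_Y.1 hY
    obtain ⟨j, rfl⟩ := dec_B.1 hB
    obtain rfl : kx = k := hx
    obtain rfl : b = X kx i := hy
    have hb : X kx i = true := by
      rw [dec_f1] at hf
      rcases hf with h | h | h
      · omega
      · exact h.2
      · omega
    obtain rfl : j = i := by
      rcases hc with h | ⟨k', hk', h | h | h⟩
      · omega
      · omega
      · omega
      · omega
    have hX : ISet X o := ht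
    obtain ⟨s, hs, hsub⟩ := hX.2 [((kx, j), X kx j)] (by
      intro p hp
      rw [List.mem_singleton] at hp
      rw [hp])
    refine ⟨.inr (.H (dn τ 0) (base s)), ⟨hs, rfl⟩, dec_H.2 ⟨_, _, rfl⟩,
      .inr (.E kx j (X kx j)), ⟨s, rfl, hsub (by simp)⟩, dec_E.2 ⟨_, _, _, rfl⟩, ?_, rfl, ?_⟩
    · rw [dec_f1]; exact Or.inr (Or.inl ⟨rfl, hb⟩)
    · exact Or.inr ⟨j + 14, by omega, Or.inr (Or.inr rfl)⟩
  · -- a8
    rintro a ha hI z hz hH t ht hT x hx hK y hy hY hf c hc hB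
    obtain rfl := dec_I.1 hI
    obtain ⟨τ, o, rfl⟩ := dec_H.1 hH
    obtain ⟨k, X, rfl⟩ := dec_T.1 hT
    obtain ⟨kx, rfl⟩ := dec_K.1 hK
    obtain ⟨i, b, rfl⟩ := dec_Y.1 hY
    obtain ⟨j, rfl⟩ := dec_B.1 hB
    obtain rfl : kx = k := hx
    obtain rfl : b = X kx i := hy
    have hb : ¬ X kx i = true := by
      rw [dec_f1] at hf
      exact fun h => hf (Or.inr (Or.inl ⟨rfl, h⟩))
    obtain rfl : j = i := by
      rcases hc with h | ⟨k', hk', h | h | h⟩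
      · omega
      · omega
      · omega
      · omega
    have hX : ISet X o := ht
    obtain ⟨s, hs, hsub⟩ := hX.2 [((kx, j), X kx j)] (by
      intro p hp
      rw [List.mem_singleton] at hp
      rw [hp])
    refine ⟨.inr (.H (dn τ 0) (base s)), ⟨hs, rfl⟩, dec_H.2 ⟨_, _, rfl⟩,
      .inr (.E kx j (X kx j)), ⟨s, rfl, hsub (by simp)⟩, dec_E.2 ⟨_, _, _, rfl⟩, ?_, rfl, ?_⟩
    · rw [dec_f1]
      rintro (h | h | h)
      · omega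
      · exact hb h.2
      · omega
    · exact Or.inr ⟨j + 14, by omega, Or.inr (Or.inr rfl)⟩
  · -- a9
    rintro l hl hL a ha hH b hb hHb
    obtain ⟨U, B, rfl⟩ := dec_L.1 hL
    obtain ⟨τ, oa, rfl⟩ := dec_H.1 hH
    obtain ⟨τ', ob, rfl⟩ := dec_H.1 hHb
    obtain ⟨hm, rfl⟩ : Mem ob oa ∧ τ' = dn τ (lev ob) := hb
    refine ⟨.inr (.P U B τ oa ob), ⟨hl, ha, hm⟩, dec_P.2 ⟨_, _, _, _, _, rfl⟩, ?_, ?_, ?_⟩
    · rintro l' hl' hL'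
      obtain ⟨U', B', rfl⟩ := dec_L.1 hL'
      obtain ⟨rfl, rfl⟩ : U' = U ∧ B' = B := hl'
      rfl
    · rintro a' ha' hH'
      obtain ⟨τ', o, rfl⟩ := dec_H.1 hH'
      obtain ⟨rfl, rfl⟩ : τ' = τ ∧ o = oa := ha'
      rfl
    · rintro q hq hQ b' hb' hHb'
      obtain ⟨τ1, o1, rfl⟩ := dec_Q.1 hQ
      obtain ⟨rfl, rfl⟩ : τ1 = dn τ (lev ob) ∧ o1 = ob := hq
      obtain ⟨τ2, o2, rfl⟩ := dec_H.1 hHb'
      obtain ⟨rfl, rfl⟩ : τ2 = dn τ (lev o1) ∧ o2 = o1 := hb'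
      rfl
  · -- a10
    rintro p hr hP d hd hD d' hd' hD'
    obtain ⟨U, B, τ, oa, ob, rfl⟩ := dec_P.1 hP
    obtain ⟨U1, B1, τ1, oa1, ob1, f, rfl⟩ := dec_D.1 hD
    obtain ⟨U2, B2, τ2, oa2, ob2, f', rfl⟩ := dec_D.1 hD'
    obtain ⟨rfl, rfl, rfl, rfl, rfl, h1⟩ : U1 = U ∧ B1 = B ∧ τ1 = τ ∧ oa1 = oa ∧ ob1 = ob ∧
      f.length ≤ U.length := hd
    obtain ⟨rfl, rfl, rfl, rfl, rfl, h2, c, rfl⟩ : U2 = U1 ∧ B2 = B1 ∧ τ2 = τ1 ∧ oa2 = oa1 ∧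
      ob2 = ob1 ∧ f.length < U1.length ∧ ∃ c, f' = f ++ [c] := hd'
    refine ⟨rfl, rfl, rfl, rfl, rfl, ?_⟩
    rw [List.length_append, List.length_singleton]
    omega
  · -- a11
    rintro p hr hP d hd hD x hx hK x' hx' hK'
    obtain ⟨U1, B1, τ1, oa1, ob1, f, rfl⟩ := dec_D.1 hD
    obtain ⟨k, rfl⟩ := dec_K.1 hK
    obtain ⟨k', rfl⟩ := dec_K.1 hK'
    obtain ⟨i, hi⟩ : ∃ i, U1[f.length]? = some (k, i) := hx
    obtain ⟨i', hi'⟩ : ∃ i, U1[f.length]? = some (k', i) := hx'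
    rw [hi] at hi'
    simp only [Option.some.injEq, Prod.mk.injEq] at hi'
    rw [hi'.1]
  · -- a12
    rintro p hr hP d hd hD x hx hB x' hx' hB'
    obtain ⟨U1, B1, τ1, oa1, ob1, f, rfl⟩ := dec_D.1 hD
    obtain ⟨i, rfl⟩ := dec_B.1 hB
    obtain ⟨i', rfl⟩ := dec_B.1 hB'
    have key : ∀ i, Rel r VG (.inr (.D U1 B1 τ1 oa1 ob1 f)) (.inl (i + 15)) →
        ∃ x, U1[f.length]? = some (x, i) := by
      intro i hi
      rcases hi with h | ⟨k', hk', h | h | h | ⟨x, j, h, h'⟩⟩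
      · omega
      · omega
      · omega
      · omega
      · obtain rfl : i = j := by omega
        exact ⟨x, h⟩
    obtain ⟨x, hx⟩ := key i hx
    obtain ⟨x', hx'⟩ := key i' hx'
    rw [hx] at hx'
    simp only [Option.some.injEq, Prod.mk.injEq] at hx'
    rw [hx'.2]
  · -- a13
    rintro p hr hP d hd hD d' hd' hD' hf e he hE hfe
    obtain ⟨U1, B1, τ1, oa1, ob1, f, rfl⟩ := dec_D.1 hD
    obtain ⟨U2, B2, τ2, oa2, ob2, f', rfl⟩ := dec_D.1 hD'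
    obtain ⟨rfl, rfl, rfl, rfl, rfl, h2, c, rfl⟩ : U2 = U1 ∧ B2 = B1 ∧ τ2 = τ1 ∧ oa2 = oa1 ∧
      ob2 = ob1 ∧ f.length < U1.length ∧ ∃ c, f' = f ++ [c] := hd'
    obtain ⟨x, i, b, rfl⟩ := dec_E.1 hE
    obtain ⟨j, h3, h4⟩ : ∃ j : ℕ, U2[j]? = some (x, i) ∧ (f ++ [c])[j]? = some b := he
    rw [dec_f1] at hf hfe
    have hc : c = true := by
      rcases hf with h | ⟨_, h⟩ | ⟨h, _⟩ | ⟨_, _, _, h⟩
      · omega
      · simpa using h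
      · omega
      · omega
    have hb : b ≠ true := fun h => hfe (Or.inr (Or.inl ⟨rfl, h⟩))
    refine ⟨j, h3, ?_⟩
    by_cases hj : j < f.length
    · rwa [List.getElem?_append_left hj] at h4
    · rw [List.getElem?_append_right (by omega)] at h4
      obtain ⟨h5, h6⟩ := List.getElem?_eq_some_iff.1 h4
      simp only [List.getElem_singleton] at h6
      exact absurd (h6.symm.trans hc) hb
  · -- a14
    rintro p hr hP d hd hD d' hd' hD' hf e he hE hfe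
    obtain ⟨U1, B1, τ1, oa1, ob1, f, rfl⟩ := dec_D.1 hD
    obtain ⟨U2, B2, τ2, oa2, ob2, f', rfl⟩ := dec_D.1 hD'
    obtain ⟨rfl, rfl, rfl, rfl, rfl, h2, c, rfl⟩ : U2 = U1 ∧ B2 = B1 ∧ τ2 = τ1 ∧ oa2 = oa1 ∧
      ob2 = ob1 ∧ f.length < U1.length ∧ ∃ c, f' = f ++ [c] := hd'
    obtain ⟨x, i, b, rfl⟩ := dec_E.1 hE
    obtain ⟨j, h3, h4⟩ : ∃ j : ℕ, U2[j]? = some (x, i) ∧ (f ++ [c])[j]? = some b := he
    rw [dec_f1] at hf hfe
    have hc : c ≠ true := by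
      intro hc
      refine hf (Or.inr (Or.inl ⟨rfl, ?_⟩))
      simp [hc]
    have hb : b = true := by
      rcases hfe with h | h | h
      · omega
      · exact h.2
      · omega
    refine ⟨j, h3, ?_⟩
    by_cases hj : j < f.length
    · rwa [List.getElem?_append_left hj] at h4
    · rw [List.getElem?_append_right (by omega)] at h4
      obtain ⟨h5, h6⟩ := List.getElem?_eq_some_iff.1 h4
      simp only [List.getElem_singleton] at h6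
      exact absurd (h6.trans hb) hc
  · -- a15
    rintro p hr hP d hd hD d' hd' hD' e he hE x hx hK
    obtain ⟨U1, B1, τ1, oa1, ob1, f, rfl⟩ := dec_D.1 hD
    obtain ⟨U2, B2, τ2, oa2, ob2, f', rfl⟩ := dec_D.1 hD'
    obtain ⟨rfl, rfl, rfl, rfl, rfl, h2, c, rfl⟩ : U2 = U1 ∧ B2 = B1 ∧ τ2 = τ1 ∧ oa2 = oa1 ∧
      ob2 = ob1 ∧ f.length < U1.length ∧ ∃ c, f' = f ++ [c] := hd'
    obtain ⟨k, i, b, rfl⟩ := dec_E.1 hE
    obtain ⟨kx, rfl⟩ := dec_K.1 hK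
    obtain rfl : kx = k := hx
    obtain ⟨j, h3, h4⟩ : ∃ j : ℕ, U2[j]? = some (kx, i) ∧ (f ++ [c])[j]? = some b := he
    by_cases hj : j < f.length
    · rw [List.getElem?_append_left hj] at h4
      exact Or.inl ⟨j, h3, h4⟩
    · rw [List.getElem?_append_right (by omega)] at h4
      obtain ⟨h5, h6⟩ := List.getElem?_eq_some_iff.1 h4
      simp only [List.length_singleton] at h5
      obtain rfl : j = f.length := by omega
      exact Or.inr ⟨i, h3⟩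
  · -- a16
    rintro p hr hP d hd hD d' hd' hD' e he hE x hx hB
    obtain ⟨U1, B1, τ1, oa1, ob1, f, rfl⟩ := dec_D.1 hD
    obtain ⟨U2, B2, τ2, oa2, ob2, f', rfl⟩ := dec_D.1 hD'
    obtain ⟨rfl, rfl, rfl, rfl, rfl, h2, c, rfl⟩ : U2 = U1 ∧ B2 = B1 ∧ τ2 = τ1 ∧ oa2 = oa1 ∧
      ob2 = ob1 ∧ f.length < U1.length ∧ ∃ c, f' = f ++ [c] := hd'
    obtain ⟨k, i, b, rfl⟩ := dec_E.1 hE
    obtain ⟨ix, rfl⟩ := dec_B.1 hB
    obtain rfl : ix = i := by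
      rcases hx with h | ⟨k', hk', h | h | h⟩
      · omega
      · omega
      · omega
      · omega
    obtain ⟨j, h3, h4⟩ : ∃ j : ℕ, U2[j]? = some (k, ix) ∧ (f ++ [c])[j]? = some b := he
    by_cases hj : j < f.length
    · rw [List.getElem?_append_left hj] at h4
      exact Or.inl ⟨j, h3, h4⟩
    · rw [List.getElem?_append_right (by omega)] at h4
      obtain ⟨h5, h6⟩ := List.getElem?_eq_some_iff.1 h4
      simp only [List.length_singleton] at h5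
      obtain rfl : j = f.length := by omega
      exact Or.inr (Or.inr ⟨ix + 14, by omega, Or.inr (Or.inr (Or.inr ⟨k, ix, h3, rfl⟩))⟩)
  · -- a17
    rintro p hr hP d hd hD hf
    obtain ⟨U, B, τ, oa, ob, rfl⟩ := dec_P.1 hP
    obtain ⟨U1, B1, τ1, oa1, ob1, f, rfl⟩ := dec_D.1 hD
    obtain ⟨rfl, rfl, rfl, rfl, rfl, h1⟩ : U1 = U ∧ B1 = B ∧ τ1 = τ ∧ oa1 = oa ∧ ob1 = ob ∧
      f.length ≤ U.length := hd
    obtain ⟨hcov, _, _⟩ : Cover U1 B1 ∧ (∃ n, oa1 ∈ BL (IS K) (n + 1)) ∧ Mem ob1 oa1 := hr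
    rw [dec_f2] at hf
    have hlen : f.length = U1.length := by
      rcases hf with h | ⟨h, _⟩ | ⟨_, h⟩ | ⟨_, _, _, h⟩
      · omega
      · omega
      · exact h
      · omega
    obtain ⟨s, hs, hall⟩ := hcov f hlen
    refine ⟨.inr (.L U1 B1), ⟨rfl, rfl⟩, dec_L.2 ⟨_, _, rfl⟩, .inr (.H [] (base s)),
      ⟨rfl, s, hs, rfl⟩, dec_H.2 ⟨_, _, rfl⟩, ?_⟩
    intro e he hE
    obtain ⟨x, i, b, rfl⟩ := dec_E.1 hE
    obtain ⟨s', he', hmem⟩ : ∃ s', base s = base s' ∧ ((x, i), b) ∈ s' := he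
    obtain rfl := base_inj he'
    exact hall _ hmem
  · -- a18
    rintro p hr hP d hd hD h hh hH h' hh' hH' d' hd' hD'
    obtain ⟨U, B, τ, oa, ob, rfl⟩ := dec_P.1 hP
    obtain ⟨U1, B1, τ1, oa1, ob1, f, rfl⟩ := dec_D.1 hD
    obtain ⟨rfl, rfl, rfl, rfl, rfl, h1⟩ : U1 = U ∧ B1 = B ∧ τ1 = τ ∧ oa1 = oa ∧ ob1 = ob ∧
      f.length ≤ U.length := hd
    obtain ⟨hcov, ⟨n, hn⟩, hmem⟩ : Cover U1 B1 ∧ (∃ n, oa1 ∈ BL (IS K) (n + 1)) ∧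
      Mem ob1 oa1 := hr
    obtain ⟨U2, B2, τ2, oa2, ob2, f', rfl⟩ := dec_D.1 hD'
    obtain ⟨rfl, rfl, rfl, rfl, rfl, h2, c, rfl⟩ : U2 = U1 ∧ B2 = B1 ∧ τ2 = τ1 ∧ oa2 = oa1 ∧
      ob2 = ob1 ∧ f.length < U1.length ∧ ∃ c, f' = f ++ [c] := hd'
    obtain ⟨τh, oh, rfl⟩ := dec_H.1 hH
    obtain ⟨τh', oh', rfl⟩ := dec_H.1 hH'
    obtain ⟨m, hm, rfl, ho⟩ : ∃ m, lev ob2 = m + 1 ∧ τh = m :: dn (dn τ2 (m + 1)) m ∧
      oh ∈ BL (below oa2 ob2) (U2.length - f.length + 1) := hh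
    obtain ⟨hmm, rfl⟩ : Mem oh' oh ∧ τh' = dn (m :: dn (dn τ2 (m + 1)) m) (lev oh') := hh'
    have hlevB : ∀ o ∈ below oa2 ob2, lev o = m + 1 := by
      intro o ho
      have h3 := lev_of_mem ho.1
      have h4 := lev_of_mem hmem
      omega
    have ho' : oh' ∈ BL (below oa2 ob2) (U2.length - f.length) := ho.1 hmm
    refine ⟨m, hm, ?_, ?_⟩
    · rw [dn, if_pos]
      rw [lev_BL hlevB ho']
      omega
    · rw [List.length_append, List.length_singleton,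
        show U2.length - (f.length + 1) + 1 = U2.length - f.length by omega]
      exact ho'
  · -- a19
    rintro p hr hP d hd hD h hh hH
    obtain ⟨U, B, τ, oa, ob, rfl⟩ := dec_P.1 hP
    obtain ⟨U1, B1, τ1, oa1, ob1, f, rfl⟩ := dec_D.1 hD
    obtain ⟨rfl, rfl, rfl, rfl, rfl, h1⟩ : U1 = U ∧ B1 = B ∧ τ1 = τ ∧ oa1 = oa ∧ ob1 = ob ∧
      f.length ≤ U.length := hd
    obtain ⟨hcov, ⟨n, hn⟩, hmem⟩ : Cover U1 B1 ∧ (∃ n, oa1 ∈ BL (IS K) (n + 1)) ∧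
      Mem ob1 oa1 := hr
    obtain ⟨τh, oh, rfl⟩ := dec_H.1 hH
    obtain ⟨m, hm, rfl, ho⟩ : ∃ m, lev ob1 = m + 1 ∧ τh = m :: dn (dn τ1 (m + 1)) m ∧
      oh ∈ BL (below oa1 ob1) (U1.length - f.length + 1) := hh
    have hsub : below oa1 ob1 ⊆ BL (IS K) n := fun o ho => hn.1 ho.1
    exact ⟨n + (U1.length - f.length), BL_mono hsub ho⟩
  · -- a20
    rintro p hr hP q hq hQ b hb hH d hd hD h hh hHh
    obtain ⟨U, B, τ, oa, ob, rfl⟩ := dec_P.1 hP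
    obtain ⟨U1, B1, τ1, oa1, ob1, f, rfl⟩ := dec_D.1 hD
    obtain ⟨rfl, rfl, rfl, rfl, rfl, h1⟩ : U1 = U ∧ B1 = B ∧ τ1 = τ ∧ oa1 = oa ∧ ob1 = ob ∧
      f.length ≤ U.length := hd
    obtain ⟨hcov, ⟨n, hn⟩, hmem⟩ : Cover U1 B1 ∧ (∃ n, oa1 ∈ BL (IS K) (n + 1)) ∧
      Mem ob1 oa1 := hr
    obtain ⟨τq, oq, rfl⟩ := dec_Q.1 hQ
    obtain ⟨rfl, rfl⟩ : τq = dn τ1 (lev ob1) ∧ oq = ob1 := hq
    obtain ⟨τb, ob', rfl⟩ := dec_H.1 hH
    obtain ⟨rfl, rfl⟩ : τb = dn τ1 (lev oq) ∧ ob' = oq := hb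
    obtain ⟨τh, oh, rfl⟩ := dec_H.1 hHh
    obtain ⟨m, hm, rfl, ho⟩ : ∃ m, lev ob' = m + 1 ∧ τh = m :: dn (dn τ1 (m + 1)) m ∧
      oh ∈ BL (below oa1 ob') (U1.length - f.length + 1) := hh
    obtain ⟨b1, hb1, hall⟩ := ground ho
    have hlevB : ∀ o ∈ below oa1 ob', lev o = m + 1 := by
      intro o ho
      have h3 := lev_of_mem ho.1
      have h4 := lev_of_mem hmem
      omega
    have hlb1 : lev b1 = m + 1 := hlevB b1 hb1
    refine ⟨.inr (.H τ1 oa1), ⟨rfl, rfl⟩, dec_H.2 ⟨_, _, rfl⟩,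
      .inr (.H (dn τ1 (m + 1)) b1), ⟨hb1.1, by rw [hlb1]⟩, dec_H.2 ⟨_, _, rfl⟩, ?_⟩
    intro u hu hHu
    obtain ⟨τu, ou, rfl⟩ := dec_H.1 hHu
    obtain ⟨hmu, rfl⟩ : Mem ou b1 ∧ τu = dn (dn τ1 (m + 1)) (lev ou) := hu
    have hlu : lev ou = m := by
      have := lev_of_mem hmu
      omega
    rw [hlu, hm]
    refine ⟨⟨hb1.2 hmu, by rw [hlu]⟩, ?_⟩
    obtain ⟨o', ho', hpick⟩ := hall ou hmu
    have hlo' : lev o' = m + 1 + (U1.length - f.length) := lev_BL hlevB (ho.1 ho')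
    refine ⟨.inr (.H (m :: dn (dn τ1 (m + 1)) m) o'), ⟨ho', ?_⟩, dec_H.2 ⟨_, _, rfl⟩,
      .inr (.G (dn (dn τ1 (m + 1)) m) ou), ⟨m, rfl, by omega, ?_⟩, dec_G.2 ⟨_, _, rfl⟩,
      ⟨rfl, rfl⟩⟩
    · rw [dn, if_pos (by omega)]
    · rw [hpick, hlo', show m + 1 + (U1.length - f.length) - m = U1.length - f.length + 1 by omega]
  · -- a21
    rintro p hr hP d hd hD h hh hHh h' hh' hHh' g hg hG u hu hHu g' hg' hG' u' hu' hHu'
    obtain ⟨τh', oh', rfl⟩ := dec_H.1 hHh'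
    obtain ⟨τg, og, rfl⟩ := dec_G.1 hG
    obtain ⟨τg', og', rfl⟩ := dec_G.1 hG'
    obtain ⟨τu, ou, rfl⟩ := dec_H.1 hHu
    obtain ⟨τu', ou', rfl⟩ := dec_H.1 hHu'
    obtain ⟨m, h1, h2, rfl⟩ : ∃ m, τh' = m :: τg ∧ m + 1 ≤ lev oh' ∧
      og = pick^[lev oh' - m] oh' := hg
    obtain ⟨m', h1', h2', rfl⟩ : ∃ m, τh' = m :: τg' ∧ m + 1 ≤ lev oh' ∧
      og' = pick^[lev oh' - m] oh' := hg'
    obtain ⟨rfl, rfl⟩ : τu = τg ∧ ou = pick^[lev oh' - m] oh' := hu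
    obtain ⟨rfl, rfl⟩ : τu' = τg' ∧ ou' = pick^[lev oh' - m'] oh' := hu'
    rw [h1] at h1'
    simp only [List.cons.injEq] at h1'
    obtain ⟨rfl, rfl⟩ := h1'
    rfl

end Pool.Agent.Helper97.Ecf
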