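import Pool.Agent.Helper97.EcfFrameAx

/-!
# The constructed frame validates the formula and is nondegenerate
-/

universe u

namespace Pool.Agent.Helper97.Ecf

open Form

variable {K : Type u} {r : K → K → Prop} {VG : ℕ → K → Prop} {V : ℕ → ℕ ⊕ Pt K → Prop}

theorem tr_T (φ : Form) (k : K) (X : K → ℕ → Bool) :
    sat (Rel r VG) V (tr tT φ) (.inr (.T k X)) ↔ sat r (fun i x => X x i = true) φ k := by
  induction φ generalizing k with
  | var i =>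
    rw [tr]
    simp only [sat_dt, sat_and, sat_tY, sat_f1, sat_var]
    constructor
    · rintro ⟨v, hv, hY, hf, hi⟩
      obtain ⟨j, b, rfl⟩ := dec_Y.1 hY
      obtain rfl : b = X k j := hv
      rw [dec_f1] at hf
      rw [sat_idx_dia] at hi
      obtain rfl : i = j := by
        rcases hi with h | h | h
        · omega
        · omega
        · omega
      rcases hf with h | h | h
      · omega
      · exact h.2
      · omega
    · intro h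
      refine ⟨.inr (.Y i (X k i)), rfl, dec_Y.2 ⟨_, _, rfl⟩, ?_, ?_⟩
      · rw [dec_f1]; exact Or.inr (Or.inl ⟨rfl, h⟩)
      · rw [sat_idx_dia]; exact Or.inr (Or.inr rfl)
  | bot => rfl
  | imp φ ψ ih1 ih2 =>
    rw [tr, sat_imp, ih1, ih2, sat_imp]
  | box φ ih =>
    rw [tr, sat_bt, sat_box]
    constructor
    · intro h k' hk'
      exact (ih k').1 (h (.inr (.T k' X)) ⟨hk', rfl⟩ (sat_tT.2 (dec_T.2 ⟨_, _, rfl⟩)))
    · intro h v hv hT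
      rw [sat_tT] at hT
      obtain ⟨k', X', rfl⟩ := dec_T.1 hT
      obtain ⟨h1, rfl⟩ : r k k' ∧ X' = X := hv
      exact (ih k').2 (h k' h1)

theorem tr_K (φ : Form) (k : K) :
    sat (Rel r VG) V (tr tK φ) (.inr (.K k)) ↔ sat r VG φ k := by
  induction φ generalizing k with
  | var i =>
    rw [tr]
    simp only [sat_dt, sat_and, sat_tY, sat_f1, sat_var]
    constructor
    · rintro ⟨v, hv, hY, hf, hi⟩
      obtain ⟨j, b, rfl⟩ := dec_Y.1 hY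
      have hv : b = true ↔ VG j k := hv
      rw [dec_f1] at hf
      rw [sat_idx_dia] at hi
      obtain rfl : i = j := by
        rcases hi with h | h | h
        · omega
        · omega
        · omega
      rcases hf with h | h | h
      · omega
      · exact hv.1 h.2
      · omega
    · intro h
      refine ⟨.inr (.Y i true), iff_of_true rfl h, dec_Y.2 ⟨_, _, rfl⟩, ?_, ?_⟩
      · rw [dec_f1]; exact Or.inr (Or.inl ⟨rfl, rfl⟩)
      · rw [sat_idx_dia]; exact Or.inr (Or.inr rfl)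
  | bot => rfl
  | imp φ ψ ih1 ih2 =>
    rw [tr, sat_imp, ih1, ih2, sat_imp]
  | box φ ih =>
    rw [tr, sat_bt, sat_box]
    constructor
    · intro h k' hk'
      exact (ih k').1 (h (.inr (.K k')) hk' (sat_tK.2 (dec_K.2 ⟨_, rfl⟩)))
    · intro h v hv hT
      rw [sat_tK] at hT
      obtain ⟨k', rfl⟩ := dec_K.1 hT
      exact (ih k').2 (h k' hv)

theorem idxs_root (φ : Form) : sat (Rel r VG) V (idxs φ) (rt K) := by
  induction φ with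
  | var i =>
    rw [idxs, sat_idx_dia]
    exact Or.inr ⟨i, rfl⟩
  | bot => exact sat_top.2 trivial
  | imp φ ψ ih1 ih2 => exact sat_and.2 ⟨ih1, ih2⟩
  | box φ ih => exact ih

theorem sList_root {a b : Form} (ha : Valid r a) {x0 : K} (hb : ¬ sat r VG b x0) :
    sat (Rel r VG) V (conj (sList a b)) (rt K) := by
  rw [sat_conj]
  simp only [sList, List.mem_cons, List.not_mem_nil, or_false, forall_eq_or_imp, forall_eq,
    sat_dt, sat_bt, sat_and, sat_or, sat_neg, sat_tK, sat_tT, sat_tE,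
    sat_tH, sat_tL, sat_tP, sat_tQ, sat_tD, sat_tI, sat_f1, sat_f2,
    sat_top, and_true, sat_bot, imp_false]
  refine ⟨dec_tR.2 rfl, ?_, ?_, ?_, ?_, ?_, ?_, ?_, idxs_root a, idxs_root b⟩
  · refine ⟨.inr (.L [] Set.univ), ?_, dec_L.2 ⟨_, _, rfl⟩⟩
    intro f _
    exact ⟨[], trivial, by simp⟩
  · intro h hh hH
    obtain ⟨τ, o, rfl⟩ := dec_H.1 hH
    obtain ⟨n, hn⟩ : ∃ n, o ∈ BL (IS K) (n + 1) := hh
    obtain ⟨o', ho'⟩ := hn.2.1
    exact ⟨.inr (.H (dn τ (lev o')) o'), ⟨ho', rfl⟩, dec_H.2 ⟨_, _, rfl⟩⟩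
  · intro p hp hP
    obtain ⟨U, B, τ, oa, ob, rfl⟩ := dec_P.1 hP
    obtain ⟨hcov, ⟨n, hn⟩, hmem⟩ : Cover U B ∧ (∃ n, oa ∈ BL (IS K) (n + 1)) ∧
      Mem ob oa := hp
    refine ⟨.inr (.D U B τ oa ob []), ⟨rfl, rfl, rfl, rfl, rfl, Nat.zero_le _⟩,
      dec_D.2 ⟨_, _, _, _, _, _, rfl⟩, ?_, ?_⟩
    · intro e he hE
      obtain ⟨x, i, c, rfl⟩ := dec_E.1 hE
      obtain ⟨j, _, h⟩ : ∃ j : ℕ, U[j]? = some (x, i) ∧ ([] : List Bool)[j]? = some c := he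
      simp at h
    · have hlb : lev ob = n + 1 := by
        rw [lev_BL lev_IS (hn.1 hmem)]; omega
      have hlevB : ∀ o ∈ below oa ob, lev o = n + 1 := by
        intro o ho
        rw [lev_BL lev_IS (hn.1 ho.1)]; omega
      have hg := good_BL hlevB (good_below hn.2 hmem) (U.length + 1)
      obtain ⟨o, ho⟩ := hg.1
      exact ⟨.inr (.H (n :: dn (dn τ (n + 1)) n) o), ⟨n, hlb, rfl, ho⟩, dec_H.2 ⟨_, _, rfl⟩⟩
  · intro p hp hP d hd hD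
    obtain ⟨U, B, τ, oa, ob, rfl⟩ := dec_P.1 hP
    obtain ⟨U1, B1, τ1, oa1, ob1, f, rfl⟩ := dec_D.1 hD
    obtain ⟨rfl, rfl, rfl, rfl, rfl, h1⟩ : U1 = U ∧ B1 = B ∧ τ1 = τ ∧ oa1 = oa ∧ ob1 = ob ∧
      f.length ≤ U.length := hd
    by_cases hl : f.length = U1.length
    · left
      rw [dec_f2]
      exact Or.inr (Or.inr (Or.inl ⟨rfl, hl⟩))
    · right
      refine ⟨⟨.inr (.D U1 B1 τ1 oa1 ob1 (f ++ [true])), ?_, dec_D.2 ⟨_, _, _, _, _, _, rfl⟩,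
        ?_⟩, .inr (.D U1 B1 τ1 oa1 ob1 (f ++ [false])), ?_, dec_D.2 ⟨_, _, _, _, _, _, rfl⟩, ?_⟩
      · exact ⟨rfl, rfl, rfl, rfl, rfl, by omega, true, rfl⟩
      · rw [dec_f1]
        exact Or.inr (Or.inl ⟨rfl, by simp⟩)
      · exact ⟨rfl, rfl, rfl, rfl, rfl, by omega, false, rfl⟩
      · rw [dec_f1]
        rintro (h | ⟨_, h⟩ | ⟨h, _⟩ | ⟨_, _, _, h⟩)
        · omega
        · simp at h
        · omega
        · omega
  · intro p hp hP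
    obtain ⟨U, B, τ, oa, ob, rfl⟩ := dec_P.1 hP
    exact ⟨.inr (.Q (dn τ (lev ob)) ob), ⟨rfl, rfl⟩, dec_Q.2 ⟨_, _, rfl⟩,
      .inr (.H (dn τ (lev ob)) ob), ⟨rfl, rfl⟩, dec_H.2 ⟨_, _, rfl⟩⟩
  · intro i hi hI z hz hH t ht hT
    obtain ⟨k, X, rfl⟩ := dec_T.1 hT
    exact (tr_T a k X).2 (ha _ _)
  · exact ⟨.inr (.K x0), trivial, dec_K.2 ⟨_, rfl⟩, fun h => hb ((tr_K b x0).1 h)⟩

theorem jAx_root {h : ℕ ⊕ Pt K} (hh : Rel r VG (rt K) h) (hH : (sigOf (Rel r VG)).H h) :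
    sat (Rel r VG) V jAx h := by
  obtain ⟨τ, o, rfl⟩ := dec_H.1 hH
  obtain ⟨n, hn⟩ : ∃ n, o ∈ BL (IS K) (n + 1) := hh
  simp only [jAx, sat_imp, sat_dt, sat_bt, sat_or, sat_var, sat_tH]
  rintro ⟨b, hb, hHb, hall⟩
  obtain ⟨τb, ob, rfl⟩ := dec_H.1 hHb
  obtain ⟨hmem, rfl⟩ : Mem ob o ∧ τb = dn τ (lev ob) := hb
  obtain ⟨b', hb', hsub, hdec⟩ := hn.2.2 ob hmem
    {u | V 0 (.inr (.H (dn (dn τ (lev ob)) (lev u)) u))}
  have hlev : lev b' = lev ob := by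
    have h1 := lev_of_mem hb'
    have h2 := lev_of_mem hmem
    omega
  rcases hdec with hdec | hdec
  · left
    refine ⟨.inr (.H (dn τ (lev ob)) b'), ⟨hb', by rw [hlev]⟩, dec_H.2 ⟨_, _, rfl⟩, ?_⟩
    intro u hu hHu
    obtain ⟨τu, ou, rfl⟩ := dec_H.1 hHu
    obtain ⟨hmu, rfl⟩ : Mem ou b' ∧ τu = dn (dn τ (lev ob)) (lev ou) := hu
    exact hdec hmu
  · right
    refine ⟨.inr (.H (dn τ (lev ob)) b'), ⟨hb', by rw [hlev]⟩, dec_H.2 ⟨_, _, rfl⟩, ?_⟩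
    intro u hu hHu
    obtain ⟨τu, ou, rfl⟩ := dec_H.1 hHu
    obtain ⟨hmu, rfl⟩ : Mem ou b' ∧ τu = dn (dn τ (lev ob)) (lev ou) := hu
    exact (hall (.inr (.H _ ou)) ⟨hsub hmu, rfl⟩ hHu).resolve_left (hdec ou hmu)

theorem psiAx_root : sat (Rel r VG) V psiAx (rt K) := by
  simp only [psiAx, sat_or, sat_dt, sat_bt, sat_neg, sat_var, sat_tI, sat_tH, sat_tL]
  rcases dichotomy {s : Cond K | V 0 (.inr (.H [] (base s)))} with ⟨X, o, hX, hall⟩ | ⟨U, hU⟩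
  · left
    refine ⟨.inr (.H [] (top1 K)), ⟨0, top1_mem⟩, dec_I.2 rfl, .inr (.H [] o), ⟨?_, rfl⟩,
      dec_H.2 ⟨_, _, rfl⟩, ?_⟩
    · rw [← mem_fm, fm_top1]; exact ⟨X, hX⟩
    · intro u hu hHu
      obtain ⟨τu, ou, rfl⟩ := dec_H.1 hHu
      obtain ⟨hmu, rfl⟩ : Mem ou o ∧ τu = dn [] (lev ou) := hu
      obtain ⟨s, rfl, _⟩ := hX.1 ou hmu
      exact hall s hmu
  · right
    refine ⟨.inr (.L U {s : Cond K | V 0 (.inr (.H [] (base s)))}ᶜ), hU, dec_L.2 ⟨_, _, rfl⟩, ?_⟩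
    intro u hu hHu
    obtain ⟨τu, ou, rfl⟩ := dec_H.1 hHu
    obtain ⟨rfl, s, hs, rfl⟩ : τu = [] ∧ ∃ s ∈ {s : Cond K | V 0 (.inr (.H [] (base s)))}ᶜ,
      ou = base s := hu
    exact hs

theorem valid_red (a b : Form) : Valid (Rel r VG) (red a b) := by
  intro V w hS
  have hroot : w = rt K := by
    rw [sat_conj] at hS
    exact dec_tR.1 (hS tR (by simp [sList]))
  subst hroot
  rw [sat_and, sat_and]
  refine ⟨axC_root.sat V, ?_, psiAx_root⟩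
  rw [sat_bt]
  intro h hh hH
  exact jAx_root hh (sat_tH.1 hH)

theorem nondeg_root [Nonempty K] :
    ∃ h, Rel r VG (rt K) h ∧ (sigOf (Rel r VG)).H h ∧ ¬ JFO (Rel r VG) (sigOf (Rel r VG)).H h := by
  refine ⟨.inr (.H [] (top1 K)), ⟨0, top1_mem⟩, dec_H.2 ⟨_, _, rfl⟩, ?_⟩
  intro hj
  obtain ⟨o, X, hX⟩ := good_IS (K := K).1
  have hmo : Mem o (top1 K) := by rw [← mem_fm, fm_top1]; exact ⟨X, hX⟩
  obtain ⟨b', hb', hHb', _, huniq⟩ := hj (.inr (.H [] o)) ⟨hmo, rfl⟩ (dec_H.2 ⟨_, _, rfl⟩)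
  obtain ⟨τb, ob, rfl⟩ := dec_H.1 hHb'
  obtain ⟨hm, rfl⟩ : Mem ob (top1 K) ∧ τb = dn [] (lev ob) := hb'
  rw [← mem_fm, fm_top1] at hm
  obtain ⟨X', hX'⟩ := hm
  obtain ⟨x, y, hx, hy, hne⟩ := hX'.nontrivial
  have := huniq (.inr (.H [] x)) (.inr (.H [] y)) ⟨hx, rfl⟩ (dec_H.2 ⟨_, _, rfl⟩) ⟨hy, rfl⟩
    (dec_H.2 ⟨_, _, rfl⟩)
  simp only [Sum.inr.injEq, Pt.H.injEq, true_and] at this
  exact hne this

end Pool.Agent.Helper97.Ecf
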