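import Pool.Agent.Helper97.EcfAx
import Pool.Agent.Helper97.EcfCard

/-!
# A nondegenerate frame yields a refuting frame
-/

universe u

namespace Pool.Agent.Helper97.Ecf

open Form Cardinal

section chains
variable {W : Type u} {R : W → W → Prop} {V : ℕ → W → Prop}

theorem sat_ch_inj {n m : ℕ} {x : W} (hn : sat R V (ch n) x) (hm : sat R V (ch m) x) :
    n = m := by
  induction n generalizing m x with
  | zero =>
    cases m with
    | zero => rfl
    | succ m =>
      simp only [ch, sat_and, sat_dia, sat_box] at hn hm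
      obtain ⟨v, hv, _⟩ := hm.1
      exact (hn v hv).elim
  | succ n ih =>
    cases m with
    | zero =>
      simp only [ch, sat_and, sat_dia, sat_box] at hn hm
      obtain ⟨v, hv, _⟩ := hn.1
      exact (hm v hv).elim
    | succ m =>
      simp only [ch, sat_and, sat_dia, sat_box] at hn hm
      obtain ⟨v, hv, h⟩ := hn.1
      rw [ih h (hm.2 v hv)]

theorem sat_dpow_of_ch {n k : ℕ} (hk : k ≤ n) {x : W} (hn : sat R V (ch n) x) :
    sat R V (dpow k) x := by
  induction k generalizing n x with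
  | zero => simp [dpow]
  | succ k ih =>
    cases n with
    | zero => omega
    | succ n =>
      simp only [ch, sat_and, sat_dia, sat_box] at hn
      obtain ⟨v, hv, h⟩ := hn.1
      exact sat_dia.2 ⟨v, hv, ih (by omega) h⟩

theorem not_sat_real_of_ch {n : ℕ} {x : W} (hn : sat R V (ch n) x) : ¬ sat R V real x := by
  intro h
  simp only [real, sat_and, sat_dia, sat_box, sat_top] at h
  obtain ⟨⟨v, hv, hv'⟩, ⟨y, hy, y', hy', _⟩⟩ := h
  cases n with
  | zero => exact hn v hv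
  | succ n =>
    simp only [ch, sat_and, sat_dia, sat_box] at hn
    have h1 : n = 0 := sat_ch_inj (hn.2 v hv) (m := 0) hv'
    subst h1
    exact hn.2 y hy y' hy'

theorem sat_tB_of_idx {i : ℕ} {x : W} (h : sat R V (idx i) x) : (sigOf R).B x := by
  rw [← sat_tB (V := V)]
  rw [tB, sat_and, sat_neg]
  exact ⟨not_sat_real_of_ch h, sat_dpow_of_ch (by omega) h⟩

end chains

section
variable {W : Type u} {R : W → W → Prop} {w : W} {a b : Form}

/-- The visible members of a hyper-point. -/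
def fam (R : W → W → Prop) (x : W) : Set W := {u | R x u ∧ (sigOf R).H u}

/-- The consequences of the variable-free conditions. -/
structure RootC (R : W → W → Prop) (S : Sig W) (w : W) (a b : Form) : Prop where
  hL : ∃ l, R w l ∧ S.L l
  hH : ∀ h, R w h → S.H h → ∃ h', R h h' ∧ S.H h'
  hP : ∀ r, R w r → S.P r → ∃ d, R r d ∧ S.D d ∧ (∀ e, R d e → ¬ S.E e) ∧ ∃ h, R d h ∧ S.H h
  hD : ∀ r, R w r → S.P r → ∀ d, R r d → S.D d → S.f2 d ∨
    ((∃ d', R d d' ∧ S.D d' ∧ S.f1 d') ∧ ∃ d', R d d' ∧ S.D d' ∧ ¬ S.f1 d')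
  hQ : ∀ r, R w r → S.P r → ∃ q, R r q ∧ S.Q q ∧ ∃ h, R q h ∧ S.H h
  ha : ∀ i, R w i → S.I i → ∀ z, R i z → S.H z → ∀ t, R z t → S.T t →
    sat R (fun _ _ => False) (tr tT a) t
  hb : ∃ x, R w x ∧ S.K x ∧ ¬ sat R (fun _ _ => False) (tr tK b) x
  ia : sat R (fun _ _ => False) (idxs a) w
  ib : sat R (fun _ _ => False) (idxs b) w

theorem rootC_of_sat {V : ℕ → W → Prop} (h : sat R V (conj (sList a b)) w) :
    RootC R (sigOf R) w a b := by
  rw [sat_closed (closed_sList a b) V (fun _ _ => False), sat_conj] at h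
  simp only [sList, List.mem_cons, List.not_mem_nil, or_false, forall_eq_or_imp, forall_eq,
    sat_dt, sat_bt, sat_and, sat_or, sat_neg, sat_tK, sat_tT, sat_tE,
    sat_tH, sat_tL, sat_tP, sat_tQ, sat_tD, sat_tI, sat_f1, sat_f2,
    sat_top, and_true, sat_bot, imp_false] at h
  obtain ⟨_, h1, h2, h3, h4, h5, h6, h7, h8, h9⟩ := h
  exact ⟨h1, h2, h3, h4, h5, h6, h7, h8, h9⟩

/-- The partition property given by the validity of the partition axiom. -/
theorem part_of_valid {h : W} (hj : ∀ V : ℕ → W → Prop, sat R V jAx h) (P Q : Set W)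
    (hPQ : ∃ b ∈ fam R h, fam R b ⊆ P ∪ Q) :
    (∃ b ∈ fam R h, fam R b ⊆ P) ∨ ∃ b ∈ fam R h, fam R b ⊆ Q := by
  have := hj (val (· ∈ P) (· ∈ Q) (fun _ => True))
  simp only [jAx, sat_imp, sat_dt, sat_bt, sat_or, sat_var, sat_tH, val] at this
  obtain ⟨b, hb, hs⟩ := hPQ
  rcases this ⟨b, hb.1, hb.2, fun v hv hH => hs ⟨hv, hH⟩⟩ with ⟨c, h1, h2, h3⟩ | ⟨c, h1, h2, h3⟩
  · exact Or.inl ⟨c, ⟨h1, h2⟩, fun v hv => h3 v hv.1 hv.2⟩
  · exact Or.inr ⟨c, ⟨h1, h2⟩, fun v hv => h3 v hv.1 hv.2⟩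

/-- In a nondegenerate frame, every cover meets every set of conditions that is compatible with
a fixed two-valued function `X` of a point and a chain point. -/
theorem cover_meets (hax : AxC R (sigOf R) w) (hS : RootC R (sigOf R) w a b)
    (hj : ∀ h, R w h → (sigOf R).H h → ∀ V : ℕ → W → Prop, sat R V jAx h)
    (hnd : ∃ h, R w h ∧ (sigOf R).H h ∧ ¬ JFO R (sigOf R).H h)
    (X : W → W → Prop) (l : W) (hl : R w l) (hLl : (sigOf R).L l) :
    ∃ s, R l s ∧ (sigOf R).H s ∧ ∀ e, R s e → (sigOf R).E e → ∀ x, R e x → (sigOf R).K x →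
      ∀ c, R e c → (sigOf R).B c → ((sigOf R).f1 e ↔ X x c) := by
  set S := sigOf R with hSdef
  obtain ⟨a0, ha0, hHa0, hnot⟩ := hnd
  simp only [JFO] at hnot
  push Not at hnot
  obtain ⟨b0, hb0, hHb0, hnot⟩ := hnot
  obtain ⟨r, hr, hPr, hrl, hra, hrb⟩ := hax.a9 l hl hLl a0 ha0 hHa0 b0 hb0 hHb0
  by_contra hcon
  push Not at hcon
  -- all timers in the decision structure are nontrivial
  have hnt : ∀ d, R r d → S.D d → ∀ h, R d h → S.H h → ¬ (fam R h).Subsingleton := by
    intro d hd hDd h hh hHh hsub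
    obtain ⟨q, hq, hQq, b1, hb1, hHb1⟩ := hS.hQ r hr hPr
    have hb1' : b1 = b0 := hrb q hq hQq b1 hb1 hHb1
    subst hb1'
    obtain ⟨a1, ha1, hHa1, b', hb', hHb', hall⟩ :=
      hax.a20 r hr hPr q hq hQq b1 hb1 hHb1 d hd hDd h hh hHh
    have ha1' : a1 = a0 := hra a1 ha1 hHa1
    subst ha1'
    obtain ⟨u, u', hu, hHu, hu', hHu', hne⟩ :=
      hnot b' hb' hHb' (fun u hu hHu => (hall u hu hHu).1)
    obtain ⟨_, h1, hh1, hHh1, g1, hg1, hG1, hgu1⟩ := hall u hu hHu
    obtain ⟨_, h2, hh2, hHh2, g2, hg2, hG2, hgu2⟩ := hall u' hu' hHu'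
    have h12 : h1 = h2 := hsub ⟨hh1, hHh1⟩ ⟨hh2, hHh2⟩
    subst h12
    exact hne (hax.a21 r hr hPr d hd hDd h hh hHh h1 hh1 hHh1 g2 hg2 hG2 u' hgu2 hHu'
      g1 hg1 hG1 u hgu1 hHu)
  -- descent
  have key : ∀ κ : Cardinal.{u}, ∀ d h, R r d → S.D d →
      (∀ e, R d e → S.E e → ∀ x, R e x → S.K x → ∀ c, R e c → S.B c → (S.f1 e ↔ X x c)) →
      R d h → S.H h → #(fam R h) = κ → False := by
    intro κ
    induction κ using Cardinal.lt_wf.induction with
    | _ κ ih =>
    intro d h hd hDd hinv hh hHh hκ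
    -- `d` is not a leaf
    have hleaf : ¬ S.f2 d := by
      intro hf
      obtain ⟨l', hl', hLl', s, hs, hHs, hall⟩ := hax.a17 r hr hPr d hd hDd hf
      have : l' = l := hrl l' hl' hLl'
      subst this
      obtain ⟨e, he, hEe, x, hx, hKx, c, hc, hBc, hbad⟩ := hcon s hs hHs
      have := hinv e (hall e he hEe) hEe x hx hKx c hc hBc
      tauto
    have hhw : R w h := hax.a19 r hr hPr d hd hDd h hh hHh
    obtain ⟨⟨d1, hd1, hDd1, hf1⟩, d2, hd2, hDd2, hf2⟩ := (hS.hD r hr hPr d hd hDd).resolve_left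
      hleaf
    -- the next node
    obtain ⟨d', hd', hDd', hbit⟩ : ∃ d', R d d' ∧ S.D d' ∧
        (S.f1 d' ↔ ∃ x, R d x ∧ S.K x ∧ ∃ c, R d c ∧ S.B c ∧ X x c) := by
      by_cases hb : ∃ x, R d x ∧ S.K x ∧ ∃ c, R d c ∧ S.B c ∧ X x c
      · exact ⟨d1, hd1, hDd1, iff_of_true hf1 hb⟩
      · exact ⟨d2, hd2, hDd2, iff_of_false hf2 hb⟩
    have hrd' : R r d' := hax.a10 r hr hPr d hd hDd d' hd' hDd'
    have hinv' : ∀ e, R d' e → S.E e → ∀ x, R e x → S.K x → ∀ c, R e c → S.B c →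
        (S.f1 e ↔ X x c) := by
      intro e he hEe x hx hKx c hc hBc
      by_cases hde : R d e
      · exact hinv e hde hEe x hx hKx c hc hBc
      · have h1 : S.f1 e ↔ S.f1 d' := by
          constructor
          · intro h1
            by_contra h2
            exact hde (hax.a14 r hr hPr d hd hDd d' hd' hDd' h2 e he hEe h1)
          · intro h1
            by_contra h2
            exact hde (hax.a13 r hr hPr d hd hDd d' hd' hDd' h1 e he hEe h2)
        have h2 : R d x := (hax.a15 r hr hPr d hd hDd d' hd' hDd' e he hEe x hx hKx).resolve_left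
          hde
        have h3 : R d c := (hax.a16 r hr hPr d hd hDd d' hd' hDd' e he hEe c hc hBc).resolve_left
          hde
        rw [h1, hbit]
        constructor
        · rintro ⟨x', hx', hKx', c', hc', hBc', hX⟩
          have e1 : x' = x := hax.a11 r hr hPr d hd hDd x h2 hKx x' hx' hKx'
          have e2 : c' = c := hax.a12 r hr hPr d hd hDd c h3 hBc c' hc' hBc'
          rwa [e1, e2] at hX
        · intro hX
          exact ⟨x, h2, hKx, c, h3, hBc, hX⟩
    have hfam : ∀ h' ∈ fam R h, R d' h' := fun h' hh' =>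
      hax.a18 r hr hPr d hd hDd h hh hHh h' hh'.1 hh'.2 d' hd' hDd'
    obtain ⟨h', hh', _, hlt⟩ := card_drop (fam R h) (fam R) (hS.hH h hhw hHh)
      (fun h' hh' => hnt d' hrd' hDd' h' (hfam h' hh') hh'.2)
      (part_of_valid (hj h hhw hHh))
    exact ih _ (by rw [← hκ]; exact hlt) d' h' hrd' hDd' hinv' (hfam h' hh') hh'.2 rfl
  obtain ⟨d, hd, hDd, hE, h, hh, hHh⟩ := hS.hP r hr hPr
  exact key _ d h hd hDd (fun e he hEe => absurd hEe (hE e he)) hh hHh rfl

/-- The frame extracted from a nondegenerate point. -/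
def subRel (R : W → W → Prop) (w : W) (x y : {x // R w x ∧ (sigOf R).K x}) : Prop := R x.1 y.1

theorem refute_b (hax : AxC R (sigOf R) w) (hS : RootC R (sigOf R) w a b) :
    ¬ Valid (subRel R w) b := by
  obtain ⟨x0, hx0, hK0, hn⟩ := hS.hb
  intro hv
  apply hn
  have key : ∀ (φ : Form) (x : {x // R w x ∧ (sigOf R).K x}),
      sat (subRel R w) (fun i x => sat R (fun _ _ => False) (tr tK (.var i)) x.1) φ x ↔
        sat R (fun _ _ => False) (tr tK φ) x.1 := by
    intro φ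
    induction φ with
    | var i => intro x; rfl
    | bot => intro x; rfl
    | imp φ ψ ih1 ih2 => intro x; rw [sat_imp, ih1, ih2]; rfl
    | box φ ih =>
      intro x
      rw [sat_box, tr, sat_bt]
      constructor
      · intro h v hv hKv
        rw [sat_tK] at hKv
        exact (ih ⟨v, hax.a1 x.1 x.2.1 x.2.2 v hv hKv, hKv⟩).1 (h _ hv)
      · intro h v hv
        exact (ih v).2 (h v.1 hv (sat_tK.2 v.2.2))
  exact (key b ⟨x0, hx0, hK0⟩).1 (hv _ _)

/-- Visible variables. -/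
theorem valid_a (hax : AxC R (sigOf R) w) (hS : RootC R (sigOf R) w a b)
    (hj : ∀ h, R w h → (sigOf R).H h → ∀ V : ℕ → W → Prop, sat R V jAx h)
    (hpsi : ∀ V : ℕ → W → Prop, sat R V psiAx w)
    (hnd : ∃ h, R w h ∧ (sigOf R).H h ∧ ¬ JFO R (sigOf R).H h) :
    Valid (subRel R w) a := by
  set S := sigOf R with hSdef
  intro VG x0
  -- the two-valued function coding the valuation
  let X : W → W → Prop := fun x c => ∃ i, sat R (fun _ _ => False) (idx i) c ∧
    ∃ h : R w x ∧ S.K x, VG i ⟨x, h⟩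
  let Q : W → Prop := fun s => ∀ e, R s e → S.E e → ∀ x, R e x → S.K x →
    ∀ c, R e c → S.B c → (S.f1 e ↔ X x c)
  have hps := hpsi (val Q (fun _ => True) (fun _ => True))
  simp only [psiAx, sat_or, sat_dt, sat_bt, sat_neg, sat_var, sat_tI, sat_tH, sat_tL, val] at hps
  obtain ⟨i0, hi0, hI0, z, hz, hHz, hzQ⟩ : ∃ i0, R w i0 ∧ S.I i0 ∧ ∃ z, R i0 z ∧ S.H z ∧
      ∀ s, R z s → S.H s → Q s := by
    rcases hps with h | ⟨l, hl, hLl, hno⟩
    · exact h
    · obtain ⟨s, hs, hHs, hq⟩ := cover_meets hax hS hj hnd X l hl hLl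
      exact absurd hq (hno s hs hHs)
  -- bisimulation between the copy at `z` and the frame
  have key : ∀ (φ : Form), sat R (fun _ _ => False) (idxs φ) w →
      ∀ (t : W) (x : {x // R w x ∧ (sigOf R).K x}), R z t → S.T t → R t x.1 →
        (sat (subRel R w) VG φ x ↔ sat R (fun _ _ => False) (tr tT φ) t) := by
    intro φ
    induction φ with
    | var i =>
      intro hidx t x hzt hTt htx
      rw [tr, sat_var]
      simp only [sat_dt, sat_and, sat_dia, sat_tY, sat_f1]
      constructor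
      · intro hV
        simp only [idxs, sat_dia] at hidx
        obtain ⟨c, hwc, hic⟩ := hidx
        have hBc : S.B c := sat_tB_of_idx hic
        obtain ⟨y, hy, hYy, hyc⟩ := hax.a6 c hwc hBc i0 hi0 hI0 z hz hHz t hzt hTt
        refine ⟨y, hy, hYy, ?_, c, hyc, hic⟩
        by_contra hf
        obtain ⟨s, hs, hHs, e, he, hEe, hfe, hex, hec⟩ :=
          hax.a8 i0 hi0 hI0 z hz hHz t hzt hTt x.1 htx x.2.2 y hy hYy hf c hyc hBc
        exact hfe ((hzQ s hs hHs e he hEe x.1 hex x.2.2 c hec hBc).2 ⟨i, hic, x.2, hV⟩)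
      · rintro ⟨y, hy, hYy, hf, c, hyc, hic⟩
        have hBc : S.B c := sat_tB_of_idx hic
        obtain ⟨s, hs, hHs, e, he, hEe, hfe, hex, hec⟩ :=
          hax.a7 i0 hi0 hI0 z hz hHz t hzt hTt x.1 htx x.2.2 y hy hYy hf c hyc hBc
        obtain ⟨j, hjc, hx', hVj⟩ := (hzQ s hs hHs e he hEe x.1 hex x.2.2 c hec hBc).1 hfe
        have : j + 15 = i + 15 := sat_ch_inj hjc hic
        have hji : j = i := by omega
        rw [← hji]; exact hVj
    | bot => intro _ t x _ _ _; rfl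
    | imp φ ψ ih1 ih2 =>
      intro hidx t x hzt hTt htx
      simp only [idxs, sat_and] at hidx
      rw [sat_imp, ih1 hidx.1 t x hzt hTt htx, ih2 hidx.2 t x hzt hTt htx]
      rfl
    | box φ ih =>
      intro hidx t x hzt hTt htx
      rw [sat_box, tr, sat_bt]
      constructor
      · intro h t' ht' hTt'
        rw [sat_tT] at hTt'
        obtain ⟨x', hx', hKx', hxx'⟩ :=
          hax.a4 i0 hi0 hI0 z hz hHz t hzt hTt x.1 htx x.2.2 t' ht' hTt'
        have hwx' := hax.a1 x.1 x.2.1 x.2.2 x' hxx' hKx'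
        have hzt' := hax.a3 i0 hi0 hI0 z hz hHz t hzt hTt t' ht' hTt'
        exact (ih hidx t' ⟨x', hwx', hKx'⟩ hzt' hTt' hx').1 (h _ hxx')
      · intro h x' hxx'
        obtain ⟨t', ht', hTt', htx'⟩ :=
          hax.a5 i0 hi0 hI0 z hz hHz t hzt hTt x.1 htx x.2.2 x'.1 hxx' x'.2.2
        have hzt' := hax.a3 i0 hi0 hI0 z hz hHz t hzt hTt t' ht' hTt'
        exact (ih hidx t' x' hzt' hTt' htx').2 (h t' ht' (sat_tT.2 hTt'))
  obtain ⟨t, hzt, hTt, htx⟩ := hax.a2 x0.1 x0.2.1 x0.2.2 i0 hi0 hI0 z hz hHz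
  exact (key a hS.ia t x0 hzt hTt htx).2 (hS.ha i0 hi0 hI0 z hz hHz t hzt hTt)

/-- If some point satisfies the root conditions and all axioms and is nondegenerate, then `b` is
not a frame consequence of `a`. -/
theorem not_frameCons_of_nondeg {V : ℕ → W → Prop} (hS : sat R V (conj (sList a b)) w)
    (hv : Valid R (red a b))
    (hnd : ∃ h, R w h ∧ (sigOf R).H h ∧ ¬ JFO R (sigOf R).H h) : ¬ FrameCons.{u} a b := by
  have hall : ∀ V : ℕ → W → Prop, sat R V (conj ax) w ∧ sat R V (bt tH jAx) w ∧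
      sat R V psiAx w := by
    intro V'
    have h1 := hv V' w ((sat_closed (closed_sList a b) _ _ _).1 hS)
    rw [sat_and, sat_and] at h1
    exact h1
  have hax := axC_of_sat fun V => (hall V).1
  have hR := rootC_of_sat hS
  have hj : ∀ h, R w h → (sigOf R).H h → ∀ V : ℕ → W → Prop, sat R V jAx h := by
    intro h hh hH V
    exact sat_bt.1 (hall V).2.1 h hh (sat_tH.2 hH)
  intro hfc
  exact refute_b hax hR (hfc _ _ (valid_a hax hR hj (fun V => (hall V).2.2) hnd))

end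

end Pool.Agent.Helper97.Ecf
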