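import Pool.Agent.Helper97.EcfCode

/-!
# Full second-order logic: syntax, semantics, Goedel numbering
-/

universe u

namespace Pool.Agent.Helper97.Ecf

/-- Formulas of pure second-order logic: equality, relation variables of every finite arity
applied to lists of element variables, falsum, implication, quantification over elements and
over relations.  `app j l` applies the relation variable number `j` of arity `l.length`;
`allR k j a` quantifies over the relation variable number `j` of arity `k`. -/
inductive SO : Type
  | eq : ℕ → ℕ → SO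
  | app : ℕ → List ℕ → SO
  | bot : SO
  | imp : SO → SO → SO
  | all : ℕ → SO → SO
  | allR : ℕ → ℕ → SO → SO

namespace SO

/-- Full (standard) semantics: relation quantifiers range over all relations of the given arity.
A relation of arity `k` is given by a predicate on lists, of which only the values on lists of
length `k` are used. -/
def eval {W : Type u} : SO → (ℕ → W) → (ℕ → ℕ → List W → Prop) → Prop
  | eq i j, v, _ => v i = v j
  | app j l, v, U => U l.length j (l.map v)
  | bot, _, _ => False
  | imp a b, v, U => eval a v U → eval b v U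
  | all i a, v, U => ∀ x : W, eval a (Function.update v i x) U
  | allR k j a, v, U => ∀ X : List W → Prop,
      eval a v (Function.update U k (Function.update (U k) j X))

end SO

/-- Validity in full second-order logic: truth in all nonempty domains under all assignments to
the free element variables and relation variables. -/
def SOValid (a : SO) : Prop :=
  ∀ (W : Type u) [Nonempty W] (v : ℕ → W) (U : ℕ → ℕ → List W → Prop), a.eval v U

/-- The Goedel number of a second-order formula. -/
def encS : SO → ℕ
  | .bot => 0
  | .eq i j => 5 * Nat.pair i j + 1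
  | .app j l => 5 * Nat.pair j (Encodable.encode l) + 2
  | .imp a b => 5 * Nat.pair (encS a) (encS b) + 3
  | .all i a => 5 * Nat.pair i (encS a) + 4
  | .allR k j a => 5 * Nat.pair k (Nat.pair j (encS a)) + 5

/-- The second-order formula with a given Goedel number. -/
def decS : ℕ → SO
  | 0 => .bot
  | m + 1 =>
    if m % 5 = 0 then .eq (m / 5).unpair.1 (m / 5).unpair.2
    else if m % 5 = 1 then .app (m / 5).unpair.1 (Denumerable.ofNat (List ℕ) (m / 5).unpair.2)
    else if m % 5 = 2 then .imp (decS (m / 5).unpair.1) (decS (m / 5).unpair.2)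
    else if m % 5 = 3 then .all (m / 5).unpair.1 (decS (m / 5).unpair.2)
    else .allR (m / 5).unpair.1 (m / 5).unpair.2.unpair.1 (decS (m / 5).unpair.2.unpair.2)
  decreasing_by
    · exact Nat.lt_succ_of_le ((Nat.unpair_left_le _).trans (Nat.div_le_self _ _))
    · exact Nat.lt_succ_of_le ((Nat.unpair_right_le _).trans (Nat.div_le_self _ _))
    · exact Nat.lt_succ_of_le ((Nat.unpair_right_le _).trans (Nat.div_le_self _ _))
    · exact Nat.lt_succ_of_le ((Nat.unpair_right_le _).trans
        ((Nat.unpair_right_le _).trans (Nat.div_le_self _ _)))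

theorem decS_encS (a : SO) : decS (encS a) = a := by
  induction a with
  | bot => rw [encS, decS]
  | eq i j =>
    rw [encS, decS, if_pos (by omega), show 5 * Nat.pair i j / 5 = Nat.pair i j by omega,
      Nat.unpair_pair]
  | app j l =>
    rw [encS, decS, if_neg (by omega), if_pos (by omega),
      show (5 * Nat.pair j (Encodable.encode l) + 1) / 5 = Nat.pair j (Encodable.encode l) by
        omega, Nat.unpair_pair, Denumerable.ofNat_encode]
  | imp a b iha ihb =>
    rw [encS, decS, if_neg (by omega), if_neg (by omega), if_pos (by omega),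
      show (5 * Nat.pair (encS a) (encS b) + 2) / 5 = Nat.pair (encS a) (encS b) by omega,
      Nat.unpair_pair, iha, ihb]
  | all i a ih =>
    rw [encS, decS, if_neg (by omega), if_neg (by omega), if_neg (by omega), if_pos (by omega),
      show (5 * Nat.pair i (encS a) + 3) / 5 = Nat.pair i (encS a) by omega,
      Nat.unpair_pair, ih]
  | allR k j a ih =>
    rw [encS, decS, if_neg (by omega), if_neg (by omega), if_neg (by omega), if_neg (by omega),
      show (5 * Nat.pair k (Nat.pair j (encS a)) + 4) / 5 = Nat.pair k (Nat.pair j (encS a)) by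
        omega, Nat.unpair_pair, Nat.unpair_pair, ih]

theorem encS_decS (n : ℕ) : encS (decS n) = n := by
  induction n using Nat.strong_induction_on with
  | _ n ih =>
    cases n with
    | zero => rw [decS, encS]
    | succ m =>
      have h0 := Nat.div_le_self m 5
      have h1 := Nat.unpair_left_le (m / 5)
      have h2 := Nat.unpair_right_le (m / 5)
      have h3 := Nat.unpair_right_le (m / 5).unpair.2
      rw [decS]
      split_ifs
      · rw [encS, Nat.pair_unpair]; omega
      · rw [encS, Denumerable.encode_ofNat, Nat.pair_unpair]; omega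
      · rw [encS, ih _ (by omega), ih _ (by omega), Nat.pair_unpair]; omega
      · rw [encS, ih _ (by omega), Nat.pair_unpair]; omega
      · rw [encS, ih _ (by omega), Nat.pair_unpair, Nat.pair_unpair]; omega

/-- The Goedel numbering of second-order formulas is a bijection. -/
def soEquiv : SO ≃ ℕ := ⟨encS, decS, decS_encS, encS_decS⟩

instance : Denumerable SO := Denumerable.mk' soEquiv

instance : Primcodable SO := Primcodable.ofDenumerable SO

theorem encode_so (a : SO) : Encodable.encode a = encS a := rfl

theorem ofNat_so (n : ℕ) : Denumerable.ofNat SO n = decS n := by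
  have h : Encodable.encode (Denumerable.ofNat SO n) = n := Denumerable.encode_ofNat n
  rw [encode_so] at h
  rw [← decS_encS (Denumerable.ofNat SO n), h]

theorem pr_sEq : Primrec₂ SO.eq := by
  refine Primrec.encode_iff.1 ?_
  exact pr_affine (Primrec₂.natPair.comp Primrec.fst Primrec.snd) 5 1

theorem pr_sApp : Primrec₂ SO.app := by
  refine Primrec.encode_iff.1 ?_
  exact pr_affine (Primrec₂.natPair.comp Primrec.fst (Primrec.encode.comp Primrec.snd)) 5 2

theorem pr_sImp : Primrec₂ SO.imp := by
  refine Primrec.encode_iff.1 ?_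
  exact pr_affine (Primrec₂.natPair.comp (Primrec.encode.comp Primrec.fst)
    (Primrec.encode.comp Primrec.snd)) 5 3

theorem pr_sAll : Primrec₂ SO.all := by
  refine Primrec.encode_iff.1 ?_
  exact pr_affine (Primrec₂.natPair.comp Primrec.fst (Primrec.encode.comp Primrec.snd)) 5 4

theorem pr_sAllR (k : ℕ) : Primrec₂ (SO.allR k) := by
  refine Primrec.encode_iff.1 ?_
  exact pr_affine (Primrec₂.natPair.comp (Primrec.const k)
    (Primrec₂.natPair.comp Primrec.fst (Primrec.encode.comp Primrec.snd))) 5 5

/-- Structural recursion on second-order formulas is primitive recursive. -/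
theorem pr_soRec {σ : Type*} [Primcodable σ] {F : SO → σ} {e : ℕ → ℕ → σ}
    {p : ℕ → List ℕ → σ} {b : σ} {i : σ → σ → σ} {q : ℕ → σ → σ} {r : ℕ × ℕ → σ → σ}
    (he : Primrec₂ e) (hp : Primrec₂ p) (hi : Primrec₂ i) (hq : Primrec₂ q) (hr : Primrec₂ r)
    (F_eq : ∀ m n, F (.eq m n) = e m n) (F_app : ∀ j l, F (.app j l) = p j l)
    (F_bot : F .bot = b) (F_imp : ∀ a c, F (.imp a c) = i (F a) (F c))
    (F_all : ∀ m a, F (.all m a) = q m (F a))
    (F_allR : ∀ k j a, F (.allR k j a) = r (k, j) (F a)) :
    Primrec F := by
  refine Primrec.ofNat_iff.2 ?_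
  have e0 : (fun n => F (Denumerable.ofNat SO n)) = fun n => F (decS n) := by
    funext n; rw [ofNat_so]
  rw [e0]
  refine primrec_strong b (fun n => F (decS n))
    (fun n => if n = 0 then [] else if (n - 1) % 5 = 0 then [] else
      if (n - 1) % 5 = 1 then [] else if (n - 1) % 5 = 2 then
        [((n - 1) / 5).unpair.1, ((n - 1) / 5).unpair.2] else if (n - 1) % 5 = 3 then
        [((n - 1) / 5).unpair.2] else [((n - 1) / 5).unpair.2.unpair.2])
    (fun n l => if n = 0 then b else
      if (n - 1) % 5 = 0 then e ((n - 1) / 5).unpair.1 ((n - 1) / 5).unpair.2 else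
      if (n - 1) % 5 = 1 then
        p ((n - 1) / 5).unpair.1 (Denumerable.ofNat (List ℕ) ((n - 1) / 5).unpair.2) else
      if (n - 1) % 5 = 2 then i (l.getD 0 b) (l.getD 1 b) else
      if (n - 1) % 5 = 3 then q ((n - 1) / 5).unpair.1 (l.getD 0 b) else
      r (((n - 1) / 5).unpair.1, ((n - 1) / 5).unpair.2.unpair.1) (l.getD 0 b)) ?_ ?_ ?_ ?_
  · have h1 : Primrec fun n : ℕ => n - 1 := Primrec.nat_sub.comp Primrec.id (Primrec.const 1)
    have h2 : Primrec fun n : ℕ => (n - 1) % 5 := Primrec.nat_mod.comp h1 (Primrec.const 5)
    have h3 : Primrec fun n : ℕ => (n - 1) / 5 := Primrec.nat_div.comp h1 (Primrec.const 5)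
    have h4 := Primrec.unpair.comp h3
    have h5 := Primrec.snd.comp h4
    refine Primrec.ite (Primrec.eq.comp Primrec.id (Primrec.const 0)) (Primrec.const _) ?_
    refine Primrec.ite (Primrec.eq.comp h2 (Primrec.const 0)) (Primrec.const _) ?_
    refine Primrec.ite (Primrec.eq.comp h2 (Primrec.const 1)) (Primrec.const _) ?_
    refine Primrec.ite (Primrec.eq.comp h2 (Primrec.const 2)) ?_ ?_
    · exact Primrec.list_cons.comp (Primrec.fst.comp h4)
        (Primrec.list_cons.comp h5 (Primrec.const _))
    refine Primrec.ite (Primrec.eq.comp h2 (Primrec.const 3)) ?_ ?_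
    · exact Primrec.list_cons.comp h5 (Primrec.const _)
    · exact Primrec.list_cons.comp (Primrec.snd.comp (Primrec.unpair.comp h5)) (Primrec.const _)
  · have h0 : Primrec fun p : ℕ × List σ => p.1 := Primrec.fst
    have h1 : Primrec fun p : ℕ × List σ => p.1 - 1 :=
      Primrec.nat_sub.comp h0 (Primrec.const 1)
    have h2 : Primrec fun p : ℕ × List σ => (p.1 - 1) % 5 :=
      Primrec.nat_mod.comp h1 (Primrec.const 5)
    have h3 : Primrec fun p : ℕ × List σ => (p.1 - 1) / 5 :=
      Primrec.nat_div.comp h1 (Primrec.const 5)
    have h4 := Primrec.unpair.comp h3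
    have h5 := Primrec.snd.comp h4
    have h6 := Primrec.unpair.comp h5
    have g0 : Primrec fun p : ℕ × List σ => p.2.getD 0 b :=
      (Primrec.list_getD b).comp Primrec.snd (Primrec.const 0)
    have g1 : Primrec fun p : ℕ × List σ => p.2.getD 1 b :=
      (Primrec.list_getD b).comp Primrec.snd (Primrec.const 1)
    refine Primrec.ite (Primrec.eq.comp h0 (Primrec.const 0)) (Primrec.const _) ?_
    refine Primrec.ite (Primrec.eq.comp h2 (Primrec.const 0))
      (he.comp (Primrec.fst.comp h4) h5) ?_
    refine Primrec.ite (Primrec.eq.comp h2 (Primrec.const 1))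
      (hp.comp (Primrec.fst.comp h4) ((Primrec.ofNat (List ℕ)).comp h5)) ?_
    refine Primrec.ite (Primrec.eq.comp h2 (Primrec.const 2)) (hi.comp g0 g1) ?_
    refine Primrec.ite (Primrec.eq.comp h2 (Primrec.const 3))
      (hq.comp (Primrec.fst.comp h4) g0) ?_
    exact hr.comp (Primrec.pair (Primrec.fst.comp h4) (Primrec.fst.comp h6)) g0
  · intro n m hm
    cases n with
    | zero => simp at hm
    | succ n =>
      have e1 : n + 1 - 1 = n := rfl
      rw [if_neg (by omega), e1] at hm
      have h3 := Nat.div_le_self n 5
      have h4 := Nat.unpair_left_le (n / 5)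
      have h5 := Nat.unpair_right_le (n / 5)
      have h6 := Nat.unpair_right_le (n / 5).unpair.2
      split_ifs at hm
      · simp at hm
      · simp at hm
      · simp only [List.mem_cons, List.not_mem_nil, or_false] at hm
        omega
      · simp only [List.mem_singleton] at hm
        omega
      · simp only [List.mem_singleton] at hm
        omega
  · intro n
    cases n with
    | zero => simp [decS, F_bot]
    | succ n =>
      have e1 : n + 1 - 1 = n := rfl
      have e2 : ¬ n + 1 = 0 := Nat.succ_ne_zero n
      simp only [if_neg e2, e1]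
      rw [decS]
      split_ifs
      · rw [F_eq]
      · rw [F_app]
      · rw [F_imp]; simp
      · rw [F_all]; simp
      · rw [F_allR]; simp

/-! ### Derived connectives -/

namespace SO

def neg (a : SO) : SO := imp a bot
def and (a b : SO) : SO := neg (imp a (neg b))
def or (a b : SO) : SO := imp (neg a) b
def iff (a b : SO) : SO := and (imp a b) (imp b a)
def ex (i : ℕ) (a : SO) : SO := neg (all i (neg a))
def exR (k j : ℕ) (a : SO) : SO := neg (allR k j (neg a))

section
variable {W : Type u} {v : ℕ → W} {U : ℕ → ℕ → List W → Prop}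

@[simp] theorem eval_eq {i j : ℕ} : eval (eq i j) v U ↔ v i = v j := Iff.rfl
@[simp] theorem eval_app {j : ℕ} {l : List ℕ} : eval (app j l) v U ↔ U l.length j (l.map v) :=
  Iff.rfl
@[simp] theorem eval_bot : eval bot v U ↔ False := Iff.rfl
@[simp] theorem eval_imp {a b : SO} : eval (imp a b) v U ↔ (eval a v U → eval b v U) := Iff.rfl
@[simp] theorem eval_all {i : ℕ} {a : SO} :
    eval (all i a) v U ↔ ∀ x, eval a (Function.update v i x) U := Iff.rfl
@[simp] theorem eval_allR {k j : ℕ} {a : SO} : eval (allR k j a) v U ↔
    ∀ X : List W → Prop, eval a v (Function.update U k (Function.update (U k) j X)) := Iff.rfl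
@[simp] theorem eval_neg {a : SO} : eval (neg a) v U ↔ ¬ eval a v U := Iff.rfl
@[simp] theorem eval_and {a b : SO} : eval (and a b) v U ↔ eval a v U ∧ eval b v U := by
  simp only [and, eval_neg, eval_imp]; tauto
@[simp] theorem eval_or {a b : SO} : eval (or a b) v U ↔ eval a v U ∨ eval b v U := by
  simp only [or, eval_neg, eval_imp]; tauto
@[simp] theorem eval_iff {a b : SO} : eval (iff a b) v U ↔ (eval a v U ↔ eval b v U) := by
  simp only [iff, eval_and, eval_imp]; tauto
@[simp] theorem eval_ex {i : ℕ} {a : SO} :
    eval (ex i a) v U ↔ ∃ x, eval a (Function.update v i x) U := by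
  simp only [ex, eval_neg, eval_all]; push Not; rfl
@[simp] theorem eval_exR {k j : ℕ} {a : SO} : eval (exR k j a) v U ↔
    ∃ X : List W → Prop, eval a v (Function.update U k (Function.update (U k) j X)) := by
  simp only [exR, eval_neg, eval_allR]; push Not; rfl

end

end SO

theorem pr_sNeg : Primrec SO.neg := pr_sImp.comp Primrec.id (Primrec.const _)
theorem pr_sAnd : Primrec₂ SO.and :=
  pr_sNeg.comp (pr_sImp.comp Primrec.fst (pr_sNeg.comp Primrec.snd))
theorem pr_sEx : Primrec₂ SO.ex :=
  pr_sNeg.comp (pr_sAll.comp Primrec.fst (pr_sNeg.comp Primrec.snd))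

end Pool.Agent.Helper97.Ecf
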