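import Pool.Agent.Helper97.EcfThom2

/-!
# Full second-order validity reduces to the monadic reading
-/

universe u

namespace Pool.Agent.Helper97.Ecf

section mevlemmas
variable {D : Type u} {R : ℕ → D → D → Prop} {v : ℕ → Set D}

theorem mev_eq {i j : ℕ} : mev R (.eq i j) v ↔ v i ⊆ v j := Iff.rfl
theorem mev_rel {m i j : ℕ} :
    mev R (.app m [i, j]) v ↔ ∃ x ∈ v i, ∃ y ∈ v j, R m x y := Iff.rfl
theorem mev_bot : mev R .bot v ↔ False := Iff.rfl
theorem mev_imp {a b : SO} : mev R (.imp a b) v ↔ (mev R a v → mev R b v) := Iff.rfl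
theorem mev_all {i : ℕ} {a : SO} :
    mev R (.all i a) v ↔ ∀ S, mev R a (Function.update v i S) := Iff.rfl
theorem mev_neg {a : SO} : mev R (SO.neg a) v ↔ ¬ mev R a v := Iff.rfl
theorem mev_and {a b : SO} : mev R (SO.and a b) v ↔ mev R a v ∧ mev R b v := by
  simp only [SO.and, mev_neg, mev_imp]; tauto
theorem mev_or {a b : SO} : mev R (SO.or a b) v ↔ mev R a v ∨ mev R b v := by
  simp only [SO.or, mev_neg, mev_imp]; tauto
theorem mev_ex {i : ℕ} {a : SO} :
    mev R (SO.ex i a) v ↔ ∃ S, mev R a (Function.update v i S) := by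
  simp only [SO.ex, mev_neg, mev_all]; push Not; rfl

end mevlemmas

/-- The set variable `i` is a singleton. -/
def Sg (i : ℕ) : SO :=
  SO.and (SO.neg (.all 5 (.eq i 5)))
    (.all 5 (.imp (.eq 5 i) (SO.or (.eq i 5) (.all 8 (.eq 5 8)))))

theorem mev_Sg {D : Type u} {R : ℕ → D → D → Prop} {v : ℕ → Set D} {i : ℕ} (h5 : i ≠ 5) :
    mev R (Sg i) v ↔ ∃ x, v i = {x} := by
  simp only [Sg, mev_and, mev_neg, mev_all, mev_eq, mev_imp, mev_or, Function.update_self,
    Function.update_of_ne h5, Function.update_of_ne (show (5 : ℕ) ≠ 8 by decide)]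
  constructor
  · rintro ⟨h1, h2⟩
    push Not at h1
    obtain ⟨S, hS⟩ := h1
    obtain ⟨x, hx, _⟩ := Set.not_subset.1 hS
    refine ⟨x, ?_⟩
    rcases h2 {x} (Set.singleton_subset_iff.2 hx) with h | h
    · exact Set.Subset.antisymm h (Set.singleton_subset_iff.2 hx)
    · exact absurd (h ∅ rfl) (by simp)
  · rintro ⟨x, hx⟩
    rw [hx]
    refine ⟨fun h => by simpa using h ∅, fun S hS => ?_⟩
    rcases Set.subset_singleton_iff_eq.1 hS with h | h
    · right; intro T; rw [h]; exact Set.empty_subset _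
    · left; rw [h]

/-- Quantification over the elements of a set variable. -/
def allS (i A : ℕ) (a : SO) : SO := .all i (.imp (SO.and (Sg i) (.eq i A)) a)
def exS (i A : ℕ) (a : SO) : SO := SO.ex i (SO.and (SO.and (Sg i) (.eq i A)) a)

section
variable {D : Type u} {R : ℕ → D → D → Prop} {v : ℕ → Set D}

theorem mev_allS {i A : ℕ} {a : SO} (h5 : i ≠ 5) (hA : A ≠ i) :
    mev R (allS i A a) v ↔ ∀ x ∈ v A, mev R a (Function.update v i {x}) := by
  simp only [allS, mev_all, mev_imp, mev_and, mev_Sg h5, mev_eq, Function.update_self,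
    Function.update_of_ne hA]
  constructor
  · intro h x hx
    exact h {x} ⟨⟨x, rfl⟩, Set.singleton_subset_iff.2 hx⟩
  · rintro h S ⟨⟨x, rfl⟩, hx⟩
    exact h x (Set.singleton_subset_iff.1 hx)

theorem mev_exS {i A : ℕ} {a : SO} (h5 : i ≠ 5) (hA : A ≠ i) :
    mev R (exS i A a) v ↔ ∃ x ∈ v A, mev R a (Function.update v i {x}) := by
  simp only [exS, mev_ex, mev_and, mev_Sg h5, mev_eq, Function.update_self,
    Function.update_of_ne hA]
  constructor
  · rintro ⟨S, ⟨⟨x, rfl⟩, hx⟩, h⟩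
    exact ⟨x, Set.singleton_subset_iff.1 hx, h⟩
  · rintro ⟨x, hx, h⟩
    exact ⟨{x}, ⟨⟨x, rfl⟩, Set.singleton_subset_iff.2 hx⟩, h⟩

end

/-- The set variables used for element variables and relation variables. -/
def vX (i : ℕ) : ℕ := 3 * i + 3
def vY (k j : ℕ) : ℕ := 3 * Nat.pair k j + 4

/-- The set variable `11` holds the code of the tuple of the values of a list of variables. -/
def tup : List ℕ → SO
  | [] => SO.and (Sg 11) (.eq 11 2)
  | i :: l => exS 14 1 (SO.and (SO.ex 11 (SO.and (.eq 11 14) (SO.and (.eq 14 11) (tup l))))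
      (SO.and (SO.and (Sg 11) (.eq 11 1)) (SO.and (.app 0 [11, vX i]) (.app 1 [11, 14]))))

/-- The translation. -/
def tSO : SO → SO
  | .eq i j => .eq (vX i) (vX j)
  | .app j l => SO.ex 11 (SO.and (tup l) (.eq 11 (vY l.length j)))
  | .bot => .bot
  | .imp a b => .imp (tSO a) (tSO b)
  | .all i a => allS (vX i) 0 (tSO a)
  | .allR k j a => .all (vY k j) (tSO a)

/-- The values of the element variables are elements of the domain. -/
def sX (i : ℕ) : SO := SO.and (Sg (vX i)) (.eq (vX i) 0)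

def fv : SO → SO
  | .eq i j => SO.and (sX i) (sX j)
  | .app _ l => l.foldr (fun i s => SO.and (sX i) s) (.imp .bot .bot)
  | .bot => .imp .bot .bot
  | .imp a b => SO.and (fv a) (fv b)
  | .all _ a => fv a
  | .allR _ _ a => fv a

/-- The coding axioms. -/
def prem : SO :=
  SO.and (SO.neg (.all 5 (.eq 0 5)))
  (SO.and (SO.and (Sg 2) (.eq 2 1))
  (SO.and (allS 17 0 (allS 11 1 (exS 14 1 (SO.and (.app 0 [14, 17]) (.app 1 [14, 11])))))
  (SO.and (allS 17 0 (allS 11 1 (allS 14 1 (allS 20 1 (.imp (.app 0 [14, 17])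
    (.imp (.app 1 [14, 11]) (.imp (.app 0 [20, 17]) (.imp (.app 1 [20, 11]) (.eq 14 20)))))))))
  (SO.and (allS 14 1 (allS 17 0 (allS 20 0 (.imp (.app 0 [14, 17])
    (.imp (.app 0 [14, 20]) (.eq 17 20))))))
  (allS 14 1 (allS 11 1 (allS 20 1 (.imp (.app 1 [14, 11])
    (.imp (.app 1 [14, 20]) (.eq 11 20))))))))))

def toM (χ : SO) : SO := .imp (SO.and prem (fv χ)) (tSO χ)

/-- A coding of finite sequences over a domain. -/
structure Cod {D : Type u} (R : ℕ → D → D → Prop) (Wd Li : Set D) (n0 : D) : Prop where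
  wne : ∃ x, x ∈ Wd
  nn : n0 ∈ Li
  ex : ∀ x ∈ Wd, ∀ t ∈ Li, ∃ z ∈ Li, R 0 z x ∧ R 1 z t
  un : ∀ x ∈ Wd, ∀ t ∈ Li, ∀ z ∈ Li, ∀ z' ∈ Li, R 0 z x → R 1 z t → R 0 z' x → R 1 z' t → z = z'
  i0 : ∀ z ∈ Li, ∀ x ∈ Wd, ∀ x' ∈ Wd, R 0 z x → R 0 z x' → x = x'
  i1 : ∀ z ∈ Li, ∀ t ∈ Li, ∀ t' ∈ Li, R 1 z t → R 1 z t' → t = t'

theorem mev_prem {D : Type u} {R : ℕ → D → D → Prop} {v : ℕ → Set D} :
    mev R prem v ↔ ∃ n0, v 2 = {n0} ∧ Cod R (v 0) (v 1) n0 := by
  simp (config := {decide := true}) only [prem, mev_and, mev_neg, mev_all, mev_eq, mev_imp,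
    mev_allS, mev_exS, mev_Sg, mev_rel, ne_eq, Function.update_self, Function.update_of_ne,
    Set.mem_singleton_iff, exists_eq_left, Set.singleton_subset_iff]
  constructor
  · rintro ⟨h0, ⟨⟨n0, hn0⟩, hn1⟩, h2, h3, h4, h5⟩
    refine ⟨n0, hn0, ?_, ?_, h2, h3, h4, h5⟩
    · push Not at h0
      obtain ⟨S, hS⟩ := h0
      obtain ⟨x, hx, _⟩ := Set.not_subset.1 hS
      exact ⟨x, hx⟩
    · rw [hn0] at hn1
      exact hn1 rfl
  · rintro ⟨n0, hn0, ⟨x, hx⟩, hn1, h2, h3, h4, h5⟩
    refine ⟨?_, ⟨⟨n0, hn0⟩, ?_⟩, h2, h3, h4, h5⟩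
    · intro h
      exact h ∅ hx
    · rw [hn0]; exact Set.singleton_subset_iff.2 hn1

/-- All element variables occurring in equalities and applications are in `S`. -/
def Oc (S : Set ℕ) : SO → Prop
  | .eq i j => i ∈ S ∧ j ∈ S
  | .app _ l => ∀ i ∈ l, i ∈ S
  | .bot => True
  | .imp a b => Oc S a ∧ Oc S b
  | .all _ a => Oc S a
  | .allR _ _ a => Oc S a

theorem mev_sX {D : Type u} {R : ℕ → D → D → Prop} {v : ℕ → Set D} {i : ℕ} :
    mev R (sX i) v ↔ ∃ x ∈ v 0, v (vX i) = {x} := by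
  rw [sX, mev_and, mev_Sg (by rw [vX]; omega), mev_eq]
  constructor
  · rintro ⟨⟨x, hx⟩, h⟩
    rw [hx] at h
    exact ⟨x, h rfl, hx⟩
  · rintro ⟨x, hx, h⟩
    rw [h]
    exact ⟨⟨x, rfl⟩, Set.singleton_subset_iff.2 hx⟩

theorem oc_of_fv {D : Type u} {R : ℕ → D → D → Prop} {v : ℕ → Set D} {a : SO}
    (h : mev R (fv a) v) : Oc {i | ∃ x ∈ v 0, v (vX i) = {x}} a := by
  induction a with
  | eq i j =>
    rw [fv, mev_and, mev_sX, mev_sX] at h
    exact h
  | app j l =>
    rw [fv] at h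
    intro i hi
    induction l with
    | nil => simp at hi
    | cons k l ih =>
      rw [List.foldr, mev_and, mev_sX] at h
      rcases List.mem_cons.1 hi with rfl | hi
      · exact h.1
      · exact ih h.2 hi
  | bot => trivial
  | imp a b iha ihb =>
    rw [fv, mev_and] at h
    exact ⟨iha h.1, ihb h.2⟩
  | all i a ih => exact ih h
  | allR k j a ih => exact ih h

theorem fv_of_all {D : Type u} {R : ℕ → D → D → Prop} {v : ℕ → Set D} {a : SO}
    (h : ∀ i, ∃ x ∈ v 0, v (vX i) = {x}) : mev R (fv a) v := by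
  induction a with
  | eq i j =>
    rw [fv, mev_and, mev_sX, mev_sX]
    exact ⟨h i, h j⟩
  | app j l =>
    rw [fv]
    induction l with
    | nil => exact fun h => h
    | cons k l ih =>
      rw [List.foldr, mev_and, mev_sX]
      exact ⟨h k, ih⟩
  | bot => exact fun h => h
  | imp a b iha ihb =>
    rw [fv, mev_and]
    exact ⟨iha, ihb⟩
  | all i a ih => exact ih
  | allR k j a ih => exact ih

section main
variable {D : Type u} {R : ℕ → D → D → Prop} {Wd Li : Set D} {n0 : D}

/-- A coding of the lists over `W`. -/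
structure Cds {W : Type u} (R : ℕ → D → D → Prop) (Wd Li : Set D) (n0 : D) (ι : W → D)
    (code : List W → D) : Prop where
  inj : Function.Injective ι
  mem : ∀ w, ι w ∈ Wd
  sur : ∀ x ∈ Wd, ∃ w, ι w = x
  c0 : code [] = n0
  cm : ∀ l, code l ∈ Li
  cr0 : ∀ w l, R 0 (code (w :: l)) (ι w)
  cr1 : ∀ w l, R 1 (code (w :: l)) (code l)

variable {W : Type u} {ι : W → D} {code : List W → D}

theorem code_inj (hC : Cod R Wd Li n0) (hc : Cds R Wd Li n0 ι code) :
    ∀ l l' : List W, l.length = l'.length → code l = code l' → l = l' := by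
  intro l
  induction l with
  | nil =>
    intro l' h _
    exact (List.length_eq_zero_iff.1 h.symm).symm
  | cons w l ih =>
    intro l' h he
    cases l' with
    | nil => simp at h
    | cons w' l' =>
      have h0 := hc.cr0 w l
      have h0' := hc.cr0 w' l'
      have h1 := hc.cr1 w l
      have h1' := hc.cr1 w' l'
      rw [← he] at h0' h1'
      have e1 := hC.i0 _ (hc.cm _) _ (hc.mem w) _ (hc.mem w') h0 h0'
      have e2 := hC.i1 _ (hc.cm _) _ (hc.cm l) _ (hc.cm l') h1 h1'
      rw [hc.inj e1, ih l' (by simpa using h) e2]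

theorem mev_tup (hC : Cod R Wd Li n0) (hc : Cds R Wd Li n0 ι code) (vW : ℕ → W) (l : List ℕ)
    (v : ℕ → Set D) (h0 : v 0 = Wd) (h1 : v 1 = Li) (h2 : v 2 = {n0})
    (hl : ∀ i ∈ l, v (vX i) = {ι (vW i)}) :
    mev R (tup l) v ↔ v 11 = {code (l.map vW)} := by
  induction l generalizing v with
  | nil =>
    rw [tup, mev_and, mev_Sg (by decide), mev_eq, h2, List.map_nil, hc.c0]
    constructor
    · rintro ⟨⟨x, hx⟩, h⟩
      rw [hx] at h ⊢
      rw [Set.singleton_subset_iff, Set.mem_singleton_iff] at h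
      rw [h]
    · intro h
      rw [h]
      exact ⟨⟨n0, rfl⟩, subset_rfl⟩
  | cons i l ih =>
    have ne1 : vX i ≠ 14 := by rw [vX]; omega
    have hvi : v (vX i) = {ι (vW i)} := hl i (by simp)
    have key : ∀ t : D, (∃ S, S ⊆ {t} ∧ {t} ⊆ S ∧ mev R (tup l)
        (Function.update (Function.update v 14 {t}) 11 S)) ↔ t = code (l.map vW) := by
      intro t
      have ih' := fun S => ih (Function.update (Function.update v 14 {t}) 11 S)
        (by simpa using h0) (by simpa using h1) (by simpa using h2) (by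
          intro j hj
          have e1 : vX j ≠ 11 := by rw [vX]; omega
          have e2 : vX j ≠ 14 := by rw [vX]; omega
          rw [Function.update_of_ne e1, Function.update_of_ne e2]
          exact hl j (by simp [hj]))
      simp only [ih', Function.update_self]
      constructor
      · rintro ⟨S, hS1, hS2, hS⟩
        rw [hS] at hS1
        exact (Set.singleton_subset_iff.1 hS1).symm
      · intro h
        exact ⟨{t}, subset_rfl, subset_rfl, by rw [h]⟩
    rw [tup, mev_exS (by decide) (by decide)]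
    simp only [mev_and, mev_ex, mev_Sg (show (11 : ℕ) ≠ 5 by decide), mev_eq,
      mev_rel, Function.update_self, Function.update_of_ne (show (11 : ℕ) ≠ 14 by decide),
      Function.update_of_ne (show (14 : ℕ) ≠ 11 by decide), key,
      Function.update_of_ne (show (1 : ℕ) ≠ 14 by decide), Function.update_of_ne ne1, hvi,
      Set.mem_singleton_iff, exists_eq_left, h1]
    constructor
    · rintro ⟨t, ht, rfl, ⟨⟨z, hz⟩, hz1⟩, ⟨z', hz', h3⟩, z'', hz'', h4⟩
      rw [hz, Set.mem_singleton_iff] at hz' hz''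
      rw [hz, Set.singleton_subset_iff] at hz1
      subst hz' hz''
      have := hC.un _ (hc.mem (vW i)) _ ht _ hz1 _ (hc.cm (vW i :: l.map vW)) h3 h4
        (hc.cr0 _ _) (hc.cr1 _ _)
      rw [hz, this, List.map_cons]
    · intro h
      rw [List.map_cons] at h
      rw [h]
      exact ⟨_, hc.cm _, rfl, ⟨⟨_, rfl⟩, Set.singleton_subset_iff.2 (hc.cm _)⟩,
        ⟨_, rfl, hc.cr0 _ _⟩, _, rfl, hc.cr1 _ _⟩

theorem tr_main (hC : Cod R Wd Li n0) (hc : Cds R Wd Li n0 ι code) (S : Set ℕ) (a : SO)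
    (ha : Oc S a) (v : ℕ → Set D) (vW : ℕ → W) (U : ℕ → ℕ → List W → Prop)
    (h0 : v 0 = Wd) (h1 : v 1 = Li) (h2 : v 2 = {n0}) (hX : ∀ i ∈ S, v (vX i) = {ι (vW i)})
    (hU : ∀ k j l, l.length = k → (U k j l ↔ code l ∈ v (vY k j))) :
    a.eval vW U ↔ mev R (tSO a) v := by
  induction a generalizing v vW U with
  | eq i j =>
    rw [tSO, mev_eq, hX i ha.1, hX j ha.2, SO.eval_eq, Set.singleton_subset_iff,
      Set.mem_singleton_iff]
    exact ⟨fun h => by rw [h], fun h => hc.inj h⟩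
  | app j l =>
    have ne : ∀ i, vX i ≠ 11 := fun i => by rw [vX]; omega
    have neY : vY l.length j ≠ 11 := by rw [vY]; omega
    have key := fun T => mev_tup hC hc vW l (Function.update v 11 T) (by simpa using h0)
      (by simpa using h1) (by simpa using h2) (by
        intro i hi
        rw [Function.update_of_ne (ne i)]
        exact hX i (ha i hi))
    rw [tSO, mev_ex, SO.eval_app, hU l.length j _ (by simp)]
    simp only [mev_and, key, mev_eq, Function.update_self, Function.update_of_ne neY,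
      exists_eq_left, Set.singleton_subset_iff]
  | bot => exact Iff.rfl
  | imp a b iha ihb =>
    exact imp_congr (iha ha.1 v vW U h0 h1 h2 hX hU) (ihb ha.2 v vW U h0 h1 h2 hX hU)
  | all i a ih =>
    have e0 : (0 : ℕ) ≠ vX i := by rw [vX]; omega
    have e1 : (1 : ℕ) ≠ vX i := by rw [vX]; omega
    have e2 : (2 : ℕ) ≠ vX i := by rw [vX]; omega
    rw [tSO, mev_allS (by rw [vX]; omega) e0, SO.eval_all]
    have key : ∀ w, SO.eval a (Function.update vW i w) U ↔
        mev R (tSO a) (Function.update v (vX i) {ι w}) := by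
      intro w
      refine ih ha _ _ _ ?_ ?_ ?_ ?_ ?_
      · rw [Function.update_of_ne e0, h0]
      · rw [Function.update_of_ne e1, h1]
      · rw [Function.update_of_ne e2, h2]
      · intro j hj
        by_cases hji : j = i
        · rw [hji]; simp
        · rw [Function.update_of_ne hji, Function.update_of_ne (by rw [vX, vX]; omega), hX j hj]
      · intro k j l hl
        rw [Function.update_of_ne (by rw [vX, vY]; omega)]
        exact hU k j l hl
    constructor
    · intro h x hx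
      rw [h0] at hx
      obtain ⟨w, rfl⟩ := hc.sur x hx
      exact (key w).1 (h w)
    · intro h w
      exact (key w).2 (h _ (by rw [h0]; exact hc.mem w))
  | allR k j a ih =>
    rw [tSO, mev_all, SO.eval_allR]
    have key : ∀ (X : List W → Prop) (T : Set D), (∀ l, l.length = k → (X l ↔ code l ∈ T)) →
        (SO.eval a vW (Function.update U k (Function.update (U k) j X)) ↔
          mev R (tSO a) (Function.update v (vY k j) T)) := by
      intro X T hT
      refine ih ha _ _ _ ?_ ?_ ?_ ?_ ?_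
      · rw [Function.update_of_ne (by rw [vY]; omega), h0]
      · rw [Function.update_of_ne (by rw [vY]; omega), h1]
      · rw [Function.update_of_ne (by rw [vY]; omega), h2]
      · intro i hi
        rw [Function.update_of_ne (by rw [vX, vY]; omega), hX i hi]
      · intro k' j' l hl
        by_cases hk : k' = k
        · subst hk
          rw [Function.update_self]
          by_cases hj : j' = j
          · subst hj
            rw [Function.update_self, Function.update_self]
            exact hT l hl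
          · rw [Function.update_of_ne hj, Function.update_of_ne]
            · exact hU _ _ _ hl
            · intro he
              rw [vY, vY] at he
              have h3 : Nat.pair k' j' = Nat.pair k' j := by omega
              exact hj (Nat.pair_eq_pair.1 h3).2
        · rw [Function.update_of_ne hk, Function.update_of_ne]
          · exact hU _ _ _ hl
          · intro he
            rw [vY, vY] at he
            have h3 : Nat.pair k' j' = Nat.pair k j := by omega
            exact hk (Nat.pair_eq_pair.1 h3).1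
    constructor
    · intro h T
      exact (key (fun l => code l ∈ T) T (fun l _ => Iff.rfl)).1 (h _)
    · intro h X
      refine (key X {d | ∃ l, l.length = k ∧ X l ∧ code l = d} ?_).2 (h _)
      intro l hl
      constructor
      · intro hX'
        exact ⟨l, hl, hX', rfl⟩
      · rintro ⟨l', hl', hX', he⟩
        rwa [code_inj hC hc l' l (hl'.trans hl.symm) he] at hX'

end main

theorem mvalid_of_sovalid {χ : SO} (h : SOValid.{u} χ) : MValid.{u} (toM χ) := by
  classical
  intro D R v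
  rw [toM, mev_imp, mev_and, mev_prem]
  rintro ⟨⟨n0, h2, hC⟩, hfv⟩
  let W : Type u := {x : D // x ∈ v 0}
  have hne : Nonempty W := by obtain ⟨x, hx⟩ := hC.wne; exact ⟨⟨x, hx⟩⟩
  let code' : List W → {t : D // t ∈ v 1} := fun l => List.rec ⟨n0, hC.nn⟩
    (fun w _ t => ⟨(hC.ex w.1 w.2 t.1 t.2).choose, (hC.ex w.1 w.2 t.1 t.2).choose_spec.1⟩) l
  have hcode : ∀ w l, (code' (w :: l)).1 = (hC.ex w.1 w.2 (code' l).1 (code' l).2).choose :=
    fun w l => rfl
  have hc : Cds R (v 0) (v 1) n0 (fun w : W => w.1) (fun l => (code' l).1) := by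
    refine ⟨Subtype.val_injective, fun w => w.2, fun x hx => ⟨⟨x, hx⟩, rfl⟩, rfl,
      fun l => (code' l).2, fun w l => ?_, fun w l => ?_⟩
    · rw [hcode]
      exact (hC.ex w.1 w.2 (code' l).1 (code' l).2).choose_spec.2.1
    · rw [hcode]
      exact (hC.ex w.1 w.2 (code' l).1 (code' l).2).choose_spec.2.2
  have hocc := oc_of_fv hfv
  let vW : ℕ → W := fun i => if h : ∃ x ∈ v 0, v (vX i) = {x} then
    ⟨h.choose, h.choose_spec.1⟩ else hne.some
  refine (tr_main hC hc _ χ hocc v vW (fun k j l => (code' l).1 ∈ v (vY k j)) rfl rfl h2 ?_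
    (fun k j l _ => Iff.rfl)).1 (h W vW _)
  intro i hi
  have hi' : ∃ x ∈ v 0, v (vX i) = {x} := hi
  have : (vW i).1 = hi'.choose := by simp only [vW, dif_pos hi']
  rw [this]
  exact hi'.choose_spec.2

theorem sovalid_of_mvalid {χ : SO} (h : MValid.{u} (toM χ)) : SOValid.{u} χ := by
  intro W _ vW U
  let D : Type u := W ⊕ List W
  let R : ℕ → D → D → Prop := fun m z x =>
    ∃ a l, z = Sum.inr (a :: l) ∧ ((m = 0 ∧ x = Sum.inl a) ∨ (m = 1 ∧ x = Sum.inr l))
  let v : ℕ → Set D := fun n =>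
    if n = 0 then Set.range Sum.inl else if n = 1 then Set.range Sum.inr else
    if n = 2 then {Sum.inr []} else if n % 3 = 0 then {Sum.inl (vW ((n - 3) / 3))} else
    {x | ∃ l, x = Sum.inr l ∧ U ((n - 4) / 3).unpair.1 ((n - 4) / 3).unpair.2 l}
  have v0 : v 0 = Set.range Sum.inl := rfl
  have v1 : v 1 = Set.range Sum.inr := rfl
  have v2 : v 2 = {Sum.inr []} := rfl
  have vx : ∀ i, v (vX i) = {Sum.inl (vW i)} := by
    intro i
    have e : v (vX i) = {Sum.inl (vW ((vX i - 3) / 3))} := by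
      change (if vX i = 0 then _ else if vX i = 1 then _ else if vX i = 2 then _ else
        if vX i % 3 = 0 then _ else _) = _
      rw [if_neg (by rw [vX]; omega), if_neg (by rw [vX]; omega), if_neg (by rw [vX]; omega),
        if_pos (by rw [vX]; omega)]
    rw [e, vX, show (3 * i + 3 - 3) / 3 = i by omega]
  have vy : ∀ k j, v (vY k j) = {x | ∃ l, x = Sum.inr l ∧ U k j l} := by
    intro k j
    have e : v (vY k j) = {x | ∃ l, x = Sum.inr l ∧ U ((vY k j - 4) / 3).unpair.1
        ((vY k j - 4) / 3).unpair.2 l} := by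
      change (if vY k j = 0 then _ else if vY k j = 1 then _ else if vY k j = 2 then _ else
        if vY k j % 3 = 0 then _ else _) = _
      rw [if_neg (by rw [vY]; omega), if_neg (by rw [vY]; omega), if_neg (by rw [vY]; omega),
        if_neg (by rw [vY]; omega)]
    rw [e, vY, show (3 * Nat.pair k j + 4 - 4) / 3 = Nat.pair k j by omega, Nat.unpair_pair]
  have r0 : ∀ z x, R 0 (Sum.inr z) (Sum.inl x) → ∃ l, z = x :: l := by
    rintro z x ⟨a, l, h1, ⟨_, h2⟩ | ⟨h2, _⟩⟩
    · exact ⟨l, by rw [Sum.inr_injective h1, Sum.inl_injective h2]⟩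
    · exact absurd h2 (by decide)
  have r1 : ∀ z t, R 1 (Sum.inr z) (Sum.inr t) → ∃ a, z = a :: t := by
    rintro z t ⟨a, l, h1, ⟨h2, _⟩ | ⟨_, h2⟩⟩
    · exact absurd h2 (by decide)
    · exact ⟨a, by rw [Sum.inr_injective h1, Sum.inr_injective h2]⟩
  have hC : Cod R (v 0) (v 1) (Sum.inr []) := by
    rw [v0, v1]
    refine ⟨⟨Sum.inl (vW 0), ⟨_, rfl⟩⟩, ⟨_, rfl⟩, ?_, ?_, ?_, ?_⟩
    · rintro _ ⟨x, rfl⟩ _ ⟨t, rfl⟩
      exact ⟨Sum.inr (x :: t), ⟨_, rfl⟩, ⟨x, t, rfl, Or.inl ⟨rfl, rfl⟩⟩,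
        ⟨x, t, rfl, Or.inr ⟨rfl, rfl⟩⟩⟩
    · rintro _ ⟨x, rfl⟩ _ ⟨t, rfl⟩ _ ⟨z, rfl⟩ _ ⟨z', rfl⟩ h1 h2 h3 h4
      obtain ⟨l, rfl⟩ := r0 _ _ h1
      obtain ⟨l', rfl⟩ := r0 _ _ h3
      obtain ⟨a, h5⟩ := r1 _ _ h2
      obtain ⟨b, h6⟩ := r1 _ _ h4
      simp only [List.cons.injEq] at h5 h6
      rw [h5.2, h6.2]
    · rintro _ ⟨z, rfl⟩ _ ⟨x, rfl⟩ _ ⟨x', rfl⟩ h1 h2
      obtain ⟨l, rfl⟩ := r0 _ _ h1
      obtain ⟨l', h3⟩ := r0 _ _ h2
      simp only [List.cons.injEq] at h3
      rw [h3.1]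
    · rintro _ ⟨z, rfl⟩ _ ⟨x, rfl⟩ _ ⟨x', rfl⟩ h1 h2
      obtain ⟨l, rfl⟩ := r1 _ _ h1
      obtain ⟨l', h3⟩ := r1 _ _ h2
      simp only [List.cons.injEq] at h3
      rw [h3.2]
  have hc : Cds R (v 0) (v 1) (Sum.inr []) (Sum.inl : W → D) (Sum.inr : List W → D) := by
    rw [v0, v1]
    exact ⟨Sum.inl_injective, fun w => ⟨w, rfl⟩, fun x hx => hx, rfl, fun l => ⟨l, rfl⟩,
      fun w l => ⟨w, l, rfl, Or.inl ⟨rfl, rfl⟩⟩, fun w l => ⟨w, l, rfl, Or.inr ⟨rfl, rfl⟩⟩⟩
  have hocc : ∀ a : SO, Oc Set.univ a := by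
    intro a
    induction a with
    | eq i j => exact ⟨trivial, trivial⟩
    | app j l => exact fun _ _ => trivial
    | bot => trivial
    | imp a b iha ihb => exact ⟨iha, ihb⟩
    | all i a ih => exact ih
    | allR k j a ih => exact ih
  refine (tr_main hC hc Set.univ χ (hocc χ) v vW U rfl rfl v2 (fun i _ => vx i) ?_).2 ?_
  · intro k j l _
    rw [vy]
    constructor
    · intro h
      exact ⟨l, rfl, h⟩
    · rintro ⟨l', he, h⟩
      rwa [← Sum.inr_injective he] at h
  · have h1 := h D R v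
    rw [toM, mev_imp, mev_and, mev_prem] at h1
    exact h1 ⟨⟨_, v2, hC⟩, fv_of_all fun i => ⟨_, ⟨vW i, rfl⟩, vx i⟩⟩

theorem sovalid_iff_mvalid (χ : SO) : SOValid.{u} χ ↔ MValid.{u} (toM χ) :=
  ⟨mvalid_of_sovalid, sovalid_of_mvalid⟩

/-- Thomason's theorem: second-order validity reduces to frame consequence. -/
theorem sovalid_iff_frameCons (χ : SO) :
    SOValid.{u} χ ↔ FrameCons.{u} (thA (toM χ)) (thB (toM χ)) :=
  (sovalid_iff_mvalid χ).trans (mvalid_iff _)

end Pool.Agent.Helper97.Ecf
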