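import Pool.Agent.Helper97.EcfCanon

/-!
# Local canonicity of Sahlqvist implications
-/

universe u

namespace Pool.Agent.Helper97.Ecf

open Form

/-- `Can a`: whenever all substitution instances of `a` belong to a point of a canonical frame,
`a` is true at that point under every valuation. -/
def Can (a : Form) : Prop :=
  ∀ (Λ : Set Form), NormalLogic Λ → ∀ w : CanonPt Λ, (∀ s : ℕ → Form, a.subst s ∈ w.1) →
    ∀ V : ℕ → CanonPt Λ → Prop, sat (canonRel Λ) V a w

theorem Can.canonical {a : Form} (h : Can a) : Canonical a :=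
  fun Λ N ha V w => h Λ N w (fun s => w.2.mem_of_logic N (N.subst a s ha)) V

theorem Can.box {a : Form} (h : Can a) : Can (Form.box a) := by
  intro Λ N w hw V v hv
  exact h Λ N v (fun s => hv _ (hw s)) V

theorem Can.guard {t a : Form} (ht : t.Closed) (h : Can a) : Can (Form.imp t a) := by
  intro Λ N w hw V hs
  refine h Λ N w (fun s => ?_) V
  have h1 := hw s
  rw [Form.subst, subst_closed ht, w.2.imp_mem_iff N] at h1
  exact h1 ((truth_closed N ht V w).1 hs)

theorem Can.and {a b : Form} (ha : Can a) (hb : Can b) : Can (Form.and a b) := by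
  intro Λ N w hw V
  rw [sat_and]
  exact ⟨ha Λ N w (fun s => ((w.2.and_mem_iff N _ _).1 (hw s)).1) V,
    hb Λ N w (fun s => ((w.2.and_mem_iff N _ _).1 (hw s)).2) V⟩

/-- Positive formulas. -/
inductive Pos : Form → Prop
  | closed {a : Form} : a.Closed → Pos a
  | var (n : ℕ) : Pos (.var n)
  | and {a b : Form} : Pos a → Pos b → Pos (Form.and a b)
  | or {a b : Form} : Pos a → Pos b → Pos (Form.or a b)
  | dia {a : Form} : Pos a → Pos (Form.dia a)
  | box {a : Form} : Pos a → Pos (Form.box a)
  | guard {t a : Form} : t.Closed → Pos a → Pos (Form.imp t a)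

/-- Boxed atoms `□(τ₁ → □(τ₂ → … pₙ))`. -/
inductive BA (n : ℕ) : Form → Prop
  | var : BA n (.var n)
  | box {t a : Form} : t.Closed → BA n a → BA n (.box (.imp t a))

/-- Sahlqvist antecedents. -/
inductive SP : Form → Prop
  | closed {a : Form} : a.Closed → SP a
  | atom {n : ℕ} {a : Form} : BA n a → SP a
  | and {a b : Form} : SP a → SP b → SP (Form.and a b)
  | dia {a : Form} : SP a → SP (Form.dia a)

theorem BA.pos {n : ℕ} {a : Form} (h : BA n a) : Pos a := by
  induction h with
  | var => exact Pos.var n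
  | box ht _ ih => exact Pos.box (Pos.guard ht ih)

theorem SP.pos {a : Form} (h : SP a) : Pos a := by
  induction h with
  | closed h => exact Pos.closed h
  | atom h => exact h.pos
  | and _ _ iha ihb => exact Pos.and iha ihb
  | dia _ ih => exact Pos.dia ih

theorem Pos.mono {W : Type u} {R : W → W → Prop} {V V' : ℕ → W → Prop} {a : Form} (h : Pos a)
    (hV : ∀ n x, V n x → V' n x) : ∀ w, sat R V a w → sat R V' a w := by
  induction h with
  | closed hc => exact fun w => (sat_closed hc V V' w).1
  | var n => exact fun w => hV n w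
  | and _ _ iha ihb => intro w; rw [sat_and, sat_and]; exact fun h => ⟨iha w h.1, ihb w h.2⟩
  | or _ _ iha ihb => intro w; rw [sat_or, sat_or]; exact fun h => h.imp (iha w) (ihb w)
  | dia _ ih =>
    intro w; rw [sat_dia, sat_dia]
    exact fun ⟨v, hv, h⟩ => ⟨v, hv, ih v h⟩
  | box _ ih => exact fun w h v hv => ih v (h v hv)
  | guard ht _ ih => exact fun w h h1 => ih w (h ((sat_closed ht V V' w).2 h1))

variable {Λ : Set Form}

theorem Pos.mono_subst (N : NormalLogic Λ) {a : Form} (h : Pos a) {s s' : ℕ → Form}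
    (hs : ∀ n (x : CanonPt Λ), s n ∈ x.1 → s' n ∈ x.1) (w : CanonPt Λ)
    (hw : a.subst s ∈ w.1) : a.subst s' ∈ w.1 := by
  rw [← truth N] at hw ⊢
  exact h.mono hs w hw

/-- Closed sets of points of the canonical frame. -/
def IsCl (C : Set (CanonPt Λ)) : Prop :=
  ∀ x : CanonPt Λ, (∀ a : Form, (∀ y ∈ C, a ∈ y.1) → a ∈ x.1) → x ∈ C

theorem isCl_empty (N : NormalLogic Λ) : IsCl (∅ : Set (CanonPt Λ)) := fun x hx =>
  absurd (hx .bot (by simp)) (x.2.bot_notMem N)

theorem IsCl.union (N : NormalLogic Λ) {C D : Set (CanonPt Λ)} (hC : IsCl C) (hD : IsCl D) :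
    IsCl (C ∪ D) := by
  intro x hx
  by_contra hcon
  have h1 : x ∉ C := fun h => hcon (Or.inl h)
  have h2 : x ∉ D := fun h => hcon (Or.inr h)
  have h3 : ∃ a : Form, (∀ y ∈ C, a ∈ y.1) ∧ a ∉ x.1 := by
    by_contra h; push Not at h; exact h1 (hC x h)
  have h4 : ∃ a : Form, (∀ y ∈ D, a ∈ y.1) ∧ a ∉ x.1 := by
    by_contra h; push Not at h; exact h2 (hD x h)
  obtain ⟨a, ha, hax⟩ := h3
  obtain ⟨b, hb, hbx⟩ := h4
  have := hx (Form.or a b) (by
    rintro y (hy | hy)
    · exact (y.2.or_mem_iff N a b).2 (Or.inl (ha y hy))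
    · exact (y.2.or_mem_iff N a b).2 (Or.inr (hb y hy)))
  rcases (x.2.or_mem_iff N a b).1 this with h | h
  · exact hax h
  · exact hbx h

theorem eq_of_subset {w y : CanonPt Λ} (h : w.1 ⊆ y.1) : y = w :=
  Subtype.ext (w.2.2 y.1 h y.2.1)

/-- The minimal set that makes a boxed atom true at `w`. -/
def baSet (b : Form) (w : CanonPt Λ) : Set (CanonPt Λ) :=
  {y | ∀ a : Form, b.subst (fun _ => a) ∈ w.1 → a ∈ y.1}

theorem isCl_baSet (b : Form) (w : CanonPt Λ) : IsCl (baSet b w) :=
  fun _ hx a ha => hx a fun _ hy => hy a ha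

theorem BA.sat_iff (N : NormalLogic Λ) {n : ℕ} {b : Form} (hb : BA n b)
    (V : ℕ → CanonPt Λ → Prop) (w : CanonPt Λ) :
    sat (canonRel Λ) V b w ↔ ∀ y ∈ baSet b w, V n y := by
  induction hb generalizing w with
  | var =>
    constructor
    · intro h y hy
      have : y = w := eq_of_subset fun a ha => hy a ha
      rw [this]; exact h
    · intro h
      exact h w fun a ha => ha
  | @box t b' ht hb' ih =>
    constructor
    · intro h y hy
      -- find the intermediate point
      have key : ∃ v : CanonPt Λ, canonRel Λ w v ∧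
          ({t} ∪ {c | ∃ a : Form, a ∉ y.1 ∧ c = neg (b'.subst fun _ => a)}) ⊆ v.1 := by
        refine exists_succ N w _ fun l hl => ?_
        have hl' : ∃ a0 : Form, a0 ∉ y.1 ∧ ∀ c ∈ l, c = t ∨ ∃ a : Form,
            c = neg (b'.subst fun _ => a) ∧ ∀ x : CanonPt Λ, a ∈ x.1 → a0 ∈ x.1 := by
          induction l with
          | nil => exact ⟨.bot, y.2.bot_notMem N, by simp⟩
          | cons c l ihl =>
            obtain ⟨a0, h0, hall⟩ := ihl fun a ha => hl a (by simp [ha])
            rcases hl c (by simp) with hc | ⟨a, ha, hc⟩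
            · refine ⟨a0, h0, fun d hd => ?_⟩
              rcases List.mem_cons.1 hd with rfl | hd
              · exact Or.inl hc
              · exact hall d hd
            · refine ⟨Form.or a0 a, fun hcon => ?_, fun d hd => ?_⟩
              · rcases (y.2.or_mem_iff N _ _).1 hcon with h | h
                · exact h0 h
                · exact ha h
              · rcases List.mem_cons.1 hd with rfl | hd
                · exact Or.inr ⟨a, hc, fun x hx => (x.2.or_mem_iff N _ _).2 (Or.inr hx)⟩
                · rcases hall d hd with h | ⟨e, he, hx⟩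
                  · exact Or.inl h
                  · exact Or.inr ⟨e, he, fun x hxe =>
                      (x.2.or_mem_iff N _ _).2 (Or.inl (hx x hxe))⟩
        obtain ⟨a0, h0, hall⟩ := hl'
        have h1 : Form.box (Form.imp t (b'.subst fun _ => a0)) ∉ w.1 := by
          intro hcon
          refine h0 (hy a0 ?_)
          rw [Form.subst, Form.subst, subst_closed ht]
          exact hcon
        rw [box_mem_iff N] at h1
        push Not at h1
        obtain ⟨v, hv, hnv⟩ := h1
        rw [v.2.imp_mem_iff N] at hnv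
        push Not at hnv
        rw [dia_mem_iff N]
        refine ⟨v, hv, (v.2.conj_mem_iff N l).2 fun c hc => ?_⟩
        rcases hall c hc with h | ⟨a, h, hx⟩
        · rw [h]; exact hnv.1
        · rw [h, v.2.neg_mem_iff N]
          intro hcon
          exact hnv.2 (hb'.pos.mono_subst N (fun _ x hx' => hx x hx') v hcon)
      obtain ⟨v, hv, hD⟩ := key
      have htv : sat (canonRel Λ) V t v := (truth_closed N ht V v).2 (hD (Or.inl rfl))
      refine (ih v).1 (h v hv htv) y fun a ha => ?_
      by_contra hay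
      have := hD (Or.inr ⟨a, hay, rfl⟩)
      exact (v.2.neg_mem_iff N _).1 this ha
    · intro h v hv htv
      refine (ih v).2 fun y hy => h y fun a ha => hy a ?_
      rw [Form.subst, Form.subst, subst_closed ht] at ha
      have := hv _ ha
      rw [v.2.imp_mem_iff N] at this
      exact this ((truth_closed N ht V v).1 htv)

theorem SP.exists_min (N : NormalLogic Λ) {a : Form} (h : SP a) (V : ℕ → CanonPt Λ → Prop) :
    ∀ w : CanonPt Λ, sat (canonRel Λ) V a w → ∃ M : ℕ → Set (CanonPt Λ),
      (∀ n, IsCl (M n)) ∧ (∀ n, ∀ x ∈ M n, V n x) ∧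
        sat (canonRel Λ) (fun n x => x ∈ M n) a w := by
  induction h with
  | closed hc =>
    intro w hw
    exact ⟨fun _ => ∅, fun _ => isCl_empty N, fun _ _ hx => hx.elim, (sat_closed hc _ _ w).1 hw⟩
  | @atom n b hb =>
    intro w hw
    classical
    refine ⟨fun m => if m = n then baSet b w else ∅, fun m => ?_, fun m x hx => ?_, ?_⟩
    · by_cases hm : m = n
      · simp only [hm, if_true]; exact isCl_baSet b w
      · simp only [hm, if_false]; exact isCl_empty N
    · by_cases hm : m = n
      · simp only [hm, if_true] at hx ⊢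
        exact (hb.sat_iff N V w).1 hw x hx
      · simp only [hm, if_false] at hx
        exact hx.elim
    · rw [hb.sat_iff N]
      intro y hy
      simpa using hy
  | and ha hb iha ihb =>
    intro w hw
    rw [sat_and] at hw
    obtain ⟨M1, hc1, hv1, hs1⟩ := iha w hw.1
    obtain ⟨M2, hc2, hv2, hs2⟩ := ihb w hw.2
    refine ⟨fun n => M1 n ∪ M2 n, fun n => (hc1 n).union N (hc2 n), fun n x hx => ?_, ?_⟩
    · rcases hx with hx | hx
      · exact hv1 n x hx
      · exact hv2 n x hx
    · rw [sat_and]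
      exact ⟨ha.pos.mono (fun n x hx => Or.inl hx) w hs1,
        hb.pos.mono (fun n x hx => Or.inr hx) w hs2⟩
  | dia _ ih =>
    intro w hw
    rw [sat_dia] at hw
    obtain ⟨v, hv, hs⟩ := hw
    obtain ⟨M, hc, hm, hsat⟩ := ih v hs
    exact ⟨M, hc, hm, sat_dia.2 ⟨v, hv, hsat⟩⟩

theorem Pos.sat_of_inst (N : NormalLogic Λ) {b : Form} (h : Pos b)
    (M : ℕ → Set (CanonPt Λ)) (hM : ∀ n, IsCl (M n)) :
    ∀ w : CanonPt Λ, (∀ s : ℕ → Form, (∀ n, ∀ x ∈ M n, s n ∈ x.1) → b.subst s ∈ w.1) →
      sat (canonRel Λ) (fun n x => x ∈ M n) b w := by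
  have topmem : ∀ x : CanonPt Λ, top ∈ x.1 := fun x =>
    x.2.mem_of_logic N (N.taut _ fun v => by simp)
  induction h with
  | @closed a hc =>
    intro w hw
    rw [truth_closed N hc]
    have := hw (fun _ => top) (fun _ x _ => topmem x)
    rwa [subst_closed hc] at this
  | var n =>
    intro w hw
    refine hM n w fun a ha => ?_
    classical
    have := hw (fun m => if m = n then a else top) (fun m x hx => by
      by_cases hm : m = n
      · subst hm; simpa using ha x hx
      · simpa [hm] using topmem x)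
    simpa [Form.subst] using this
  | and _ _ iha ihb =>
    intro w hw
    rw [sat_and]
    exact ⟨iha w fun s hs => ((w.2.and_mem_iff N _ _).1 (hw s hs)).1,
      ihb w fun s hs => ((w.2.and_mem_iff N _ _).1 (hw s hs)).2⟩
  | @or a b ha hb iha ihb =>
    intro w hw
    rw [sat_or]
    by_contra hcon
    push Not at hcon
    have h1 : ∃ s : ℕ → Form, (∀ n, ∀ x ∈ M n, s n ∈ x.1) ∧ a.subst s ∉ w.1 := by
      by_contra h; push Not at h; exact hcon.1 (iha w h)
    have h2 : ∃ s : ℕ → Form, (∀ n, ∀ x ∈ M n, s n ∈ x.1) ∧ b.subst s ∉ w.1 := by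
      by_contra h; push Not at h; exact hcon.2 (ihb w h)
    obtain ⟨s1, hs1, h1⟩ := h1
    obtain ⟨s2, hs2, h2⟩ := h2
    have := hw (fun n => Form.and (s1 n) (s2 n)) (fun n x hx =>
      (x.2.and_mem_iff N _ _).2 ⟨hs1 n x hx, hs2 n x hx⟩)
    rcases (w.2.or_mem_iff N _ _).1 this with h | h
    · exact h1 (ha.mono_subst N (fun n x hx => ((x.2.and_mem_iff N _ _).1 hx).1) w h)
    · exact h2 (hb.mono_subst N (fun n x hx => ((x.2.and_mem_iff N _ _).1 hx).2) w h)
  | @dia a ha ih =>
    intro w hw
    rw [sat_dia]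
    obtain ⟨v, hv, hD⟩ := exists_succ N w
      {c | ∃ s : ℕ → Form, (∀ n, ∀ x ∈ M n, s n ∈ x.1) ∧ c = a.subst s} (by
        intro l hl
        have : ∃ s : ℕ → Form, (∀ n, ∀ x ∈ M n, s n ∈ x.1) ∧
            ∀ c ∈ l, ∀ v : CanonPt Λ, a.subst s ∈ v.1 → c ∈ v.1 := by
          induction l with
          | nil => exact ⟨fun _ => top, fun _ x _ => topmem x, by simp⟩
          | cons c l ihl =>
            obtain ⟨s1, hs1, hall⟩ := ihl fun d hd => hl d (by simp [hd])
            obtain ⟨s2, hs2, rfl⟩ := hl c (by simp)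
            refine ⟨fun n => Form.and (s1 n) (s2 n), fun n x hx =>
              (x.2.and_mem_iff N _ _).2 ⟨hs1 n x hx, hs2 n x hx⟩, fun d hd v hv => ?_⟩
            rcases List.mem_cons.1 hd with rfl | hd
            · exact ha.mono_subst N (fun n x hx => ((x.2.and_mem_iff N _ _).1 hx).2) v hv
            · exact hall d hd v
                (ha.mono_subst N (fun n x hx => ((x.2.and_mem_iff N _ _).1 hx).1) v hv)
        obtain ⟨s, hs, hall⟩ := this
        have h1 := hw s hs
        rw [subst_dia, dia_mem_iff N] at h1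
        obtain ⟨v, hv, hsv⟩ := h1
        rw [dia_mem_iff N]
        exact ⟨v, hv, (v.2.conj_mem_iff N l).2 fun c hc => hall c hc v hsv⟩)
    exact ⟨v, hv, ih v fun s hs => hD ⟨s, hs, rfl⟩⟩
  | box _ ih =>
    intro w hw v hv
    exact ih v fun s hs => hv _ (hw s hs)
  | @guard t a ht _ ih =>
    intro w hw hsat
    refine ih w fun s hs => ?_
    have h1 := hw s hs
    rw [Form.subst, subst_closed ht, w.2.imp_mem_iff N] at h1
    exact h1 ((truth_closed N ht _ w).1 hsat)

/-- Sahlqvist implications are locally canonical. -/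
theorem can_sahlqvist {a b : Form} (ha : SP a) (hb : Pos b) : Can (Form.imp a b) := by
  intro Λ N w hw V hV
  obtain ⟨M, hcl, hle, hsat⟩ := ha.exists_min N V w hV
  refine hb.mono hle w (hb.sat_of_inst N M hcl w fun s hs => ?_)
  have h1 : a.subst s ∈ w.1 := by
    rw [← truth N]
    exact ha.pos.mono hs w hsat
  have h2 := hw s
  rw [Form.subst, w.2.imp_mem_iff N] at h2
  exact h2 h1

end Pool.Agent.Helper97.Ecf
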