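import Mathlib

/-!
# Basic modal logic: formulas, Kripke frames, canonical frames, elementary formulas
-/

universe u

namespace Pool.Agent.Helper97.Ecf

/-- Formulas of the basic modal language.  The primitive modality is `box`; `dia` is defined
as its dual. -/
inductive Form : Type
  | var : ℕ → Form
  | bot : Form
  | imp : Form → Form → Form
  | box : Form → Form
  deriving DecidableEq

namespace Form

/-- Negation. -/
def neg (a : Form) : Form := imp a bot
/-- Truth constant. -/
def top : Form := imp bot bot
/-- Conjunction. -/
def and (a b : Form) : Form := neg (imp a (neg b))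
/-- Disjunction. -/
def or (a b : Form) : Form := imp (neg a) b
/-- The diamond. -/
def dia (a : Form) : Form := neg (box (neg a))

/-- Uniform substitution. -/
def subst (s : ℕ → Form) : Form → Form
  | var n => s n
  | bot => bot
  | imp a b => imp (a.subst s) (b.subst s)
  | box a => box (a.subst s)

/-- Variable-free formulas. -/
def Closed : Form → Prop
  | var _ => False
  | bot => True
  | imp a b => a.Closed ∧ b.Closed
  | box a => a.Closed

theorem subst_closed {a : Form} (h : a.Closed) (s : ℕ → Form) : a.subst s = a := by
  induction a with
  | var n => exact h.elim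
  | bot => rfl
  | imp a b iha ihb => simp [subst, iha h.1, ihb h.2]
  | box a iha => simp [subst, iha h]

theorem subst_subst (a : Form) (s t : ℕ → Form) :
    (a.subst s).subst t = a.subst (fun n => (s n).subst t) := by
  induction a with
  | var n => rfl
  | bot => rfl
  | imp a b iha ihb => simp [subst, iha, ihb]
  | box a iha => simp [subst, iha]

theorem subst_var (a : Form) : a.subst var = a := by
  induction a with
  | var n => rfl
  | bot => rfl
  | imp a b iha ihb => simp [subst, iha, ihb]
  | box a iha => simp [subst, iha]

@[simp] theorem subst_neg (a : Form) (s : ℕ → Form) : (neg a).subst s = neg (a.subst s) := rfl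
@[simp] theorem subst_and (a b : Form) (s : ℕ → Form) :
    (and a b).subst s = and (a.subst s) (b.subst s) := rfl
@[simp] theorem subst_or (a b : Form) (s : ℕ → Form) :
    (or a b).subst s = or (a.subst s) (b.subst s) := rfl
@[simp] theorem subst_dia (a : Form) (s : ℕ → Form) : (dia a).subst s = dia (a.subst s) := rfl

end Form

open Form

/-- Truth of a formula at a point of a Kripke model. -/
def sat {W : Type u} (R : W → W → Prop) (V : ℕ → W → Prop) : Form → W → Prop
  | .var n, w => V n w
  | .bot, _ => False
  | .imp a b, w => sat R V a w → sat R V b w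
  | .box a, w => ∀ v, R w v → sat R V a v

section sat
variable {W : Type u} {R : W → W → Prop} {V : ℕ → W → Prop}

@[simp] theorem sat_var {n : ℕ} {w : W} : sat R V (.var n) w ↔ V n w := Iff.rfl
@[simp] theorem sat_bot {w : W} : sat R V .bot w ↔ False := Iff.rfl
@[simp] theorem sat_imp {a b : Form} {w : W} :
    sat R V (.imp a b) w ↔ (sat R V a w → sat R V b w) := Iff.rfl
@[simp] theorem sat_box {a : Form} {w : W} :
    sat R V (.box a) w ↔ ∀ v, R w v → sat R V a v := Iff.rfl
@[simp] theorem sat_neg {a : Form} {w : W} : sat R V (neg a) w ↔ ¬ sat R V a w := Iff.rfl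
@[simp] theorem sat_top {w : W} : sat R V top w ↔ True := by simp [top]
@[simp] theorem sat_and {a b : Form} {w : W} :
    sat R V (Form.and a b) w ↔ sat R V a w ∧ sat R V b w := by
  simp only [Form.and, sat_neg, sat_imp]; tauto
@[simp] theorem sat_or {a b : Form} {w : W} :
    sat R V (Form.or a b) w ↔ sat R V a w ∨ sat R V b w := by
  simp only [Form.or, sat_neg, sat_imp]; tauto
@[simp] theorem sat_dia {a : Form} {w : W} :
    sat R V (dia a) w ↔ ∃ v, R w v ∧ sat R V a v := by
  simp only [dia, sat_neg, sat_box]; push Not; rfl

theorem sat_subst (a : Form) (s : ℕ → Form) (w : W) :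
    sat R V (a.subst s) w ↔ sat R (fun n => sat R V (s n)) a w := by
  induction a generalizing w with
  | var n => rfl
  | bot => rfl
  | imp a b iha ihb => simp only [Form.subst, sat_imp, iha, ihb]
  | box a iha => simp only [Form.subst, sat_box, iha]

/-- Truth of a variable-free formula does not depend on the valuation. -/
theorem sat_closed {a : Form} (h : a.Closed) (V V' : ℕ → W → Prop) (w : W) :
    sat R V a w ↔ sat R V' a w := by
  induction a generalizing w with
  | var n => exact h.elim
  | bot => rfl
  | imp a b iha ihb => simp only [sat_imp, iha h.1, ihb h.2]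
  | box a iha => simp only [sat_box, iha h]

end sat

/-- Validity of a formula in a Kripke frame. -/
def Valid {W : Type u} (R : W → W → Prop) (a : Form) : Prop :=
  ∀ (V : ℕ → W → Prop) (w : W), sat R V a w

/-- `FrameCons a b`: the formula `b` is a consequence of `a` over Kripke frames, i.e. every
Kripke frame validating `a` validates `b`. -/
def FrameCons (a b : Form) : Prop :=
  ∀ (W : Type u) (R : W → W → Prop), Valid R a → Valid R b

/-! ### Elementary formulas -/

/-- The relation symbols of the first-order frame language: one binary symbol. -/
inductive FrameSymb : ℕ → Type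
  | rel : FrameSymb 2

/-- The first-order language with one binary relation symbol. -/
def frameLang : FirstOrder.Language := ⟨fun _ => Empty, FrameSymb⟩

/-- A Kripke frame as a first-order structure. -/
def frameStructure {W : Type u} (R : W → W → Prop) : frameLang.Structure W where
  funMap := fun f => nomatch f
  RelMap := fun {_} r => match r with
    | .rel => fun x => R (x 0) (x 1)

/-- A modal formula is elementary if the class of (nonempty) Kripke frames validating it is
defined by a first-order sentence. -/
def Elementary (a : Form) : Prop :=
  ∃ α : frameLang.Sentence, ∀ (W : Type u) [Nonempty W] (R : W → W → Prop),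
    Valid R a ↔ @FirstOrder.Language.Sentence.Realize frameLang W (frameStructure R) α

/-! ### Normal logics and canonical frames -/

/-- Propositional valuations: variables and boxed formulas are treated as atoms. -/
def pval (v : Form → Prop) : Form → Prop
  | .var n => v (.var n)
  | .bot => False
  | .imp a b => pval v a → pval v b
  | .box a => v (.box a)

/-- Propositional tautologies. -/
def Taut (a : Form) : Prop := ∀ v : Form → Prop, pval v a

/-- Normal modal logics. -/
structure NormalLogic (Λ : Set Form) : Prop where
  taut : ∀ a, Taut a → a ∈ Λ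
  axK : Form.imp (.box (.imp (.var 0) (.var 1))) (.imp (.box (.var 0)) (.box (.var 1))) ∈ Λ
  mp : ∀ a b, Form.imp a b ∈ Λ → a ∈ Λ → b ∈ Λ
  nec : ∀ a, a ∈ Λ → Form.box a ∈ Λ
  subst : ∀ a (s : ℕ → Form), a ∈ Λ → a.subst s ∈ Λ

/-- `conseq [a₁,…,aₙ] b` is `a₁ → … → aₙ → b`. -/
def conseq (l : List Form) (b : Form) : Form := l.foldr Form.imp b

/-- A set of formulas is `Λ`-consistent if no finite list of its members is refuted by `Λ`. -/
def Consistent (Λ Γ : Set Form) : Prop :=
  ∀ l : List Form, (∀ a ∈ l, a ∈ Γ) → conseq l .bot ∉ Λ

/-- Maximal `Λ`-consistent sets. -/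
def MCS (Λ Γ : Set Form) : Prop :=
  Consistent Λ Γ ∧ ∀ Δ : Set Form, Γ ⊆ Δ → Consistent Λ Δ → Δ = Γ

/-- The set of points of the canonical frame of `Λ`. -/
def CanonPt (Λ : Set Form) : Type := {Γ : Set Form // MCS Λ Γ}

/-- The accessibility relation of the canonical frame of `Λ`. -/
def canonRel (Λ : Set Form) (Γ Δ : CanonPt Λ) : Prop :=
  ∀ a, Form.box a ∈ Γ.1 → a ∈ Δ.1

/-- A formula is canonical if it is valid on the canonical frame of every normal modal logic
containing it. -/
def Canonical (a : Form) : Prop :=
  ∀ Λ : Set Form, NormalLogic Λ → a ∈ Λ → Valid (canonRel Λ) a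

/-- The set `ECF` of elementary canonical formulas. -/
def ECF (a : Form) : Prop := Elementary.{u} a ∧ Canonical a

end Pool.Agent.Helper97.Ecf
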