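import Pool.Agent.Helper97.EcfSO

/-!
# Monadic second-order logic over binary relations reduces to frame consequence
-/

universe u

namespace Pool.Agent.Helper97.Ecf

open Form

/-- The monadic reading of second-order formulas over a family of binary relations. -/
def mev {D : Type u} (R : ℕ → D → D → Prop) : SO → (ℕ → Set D) → Prop
  | .eq i j, v => v i ⊆ v j
  | .app m l, v => ∃ x ∈ v (l.getD 0 0), ∃ y ∈ v (l.getD 1 0), R m x y
  | .bot, _ => False
  | .imp a b, v => mev R a v → mev R b v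
  | .all i a, v => ∀ S : Set D, mev R a (Function.update v i S)
  | .allR _ _ a, v => mev R a v

/-- Validity in the monadic reading. -/
def MValid (a : SO) : Prop :=
  ∀ (D : Type u) (R : ℕ → D → D → Prop) (v : ℕ → Set D), mev R a v

/-- A bound for the indices. -/
def mb : SO → ℕ
  | .eq i j => i + j + 1
  | .app m l => m + l.getD 0 0 + l.getD 1 0 + 1
  | .bot => 0
  | .imp a b => mb a + mb b
  | .all i a => i + 1 + mb a
  | .allR _ _ a => mb a

/-- All indices are below `N`. -/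
def Bd (N : ℕ) : SO → Prop
  | .eq i j => i < N ∧ j < N
  | .app m l => m < N ∧ l.getD 0 0 < N ∧ l.getD 1 0 < N
  | .bot => True
  | .imp a b => Bd N a ∧ Bd N b
  | .all i a => i < N ∧ Bd N a
  | .allR _ _ a => Bd N a

theorem Bd.mono {N M : ℕ} (h : N ≤ M) {a : SO} (ha : Bd N a) : Bd M a := by
  induction a with
  | eq i j => exact ⟨lt_of_lt_of_le ha.1 h, lt_of_lt_of_le ha.2 h⟩
  | app m l =>
    exact ⟨lt_of_lt_of_le ha.1 h, lt_of_lt_of_le ha.2.1 h, lt_of_lt_of_le ha.2.2 h⟩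
  | bot => trivial
  | imp a b iha ihb => exact ⟨iha ha.1, ihb ha.2⟩
  | all i a ih => exact ⟨lt_of_lt_of_le ha.1 h, ih ha.2⟩
  | allR k j a ih => exact ih ha

theorem bd_mb (a : SO) : Bd (mb a) a := by
  induction a with
  | eq i j => exact ⟨by simp only [mb]; omega, by simp only [mb]; omega⟩
  | app m l =>
    exact ⟨by simp only [mb]; omega, by simp only [mb]; omega, by simp only [mb]; omega⟩
  | bot => trivial
  | imp a b iha ihb =>
    exact ⟨iha.mono (by simp only [mb]; omega), ihb.mono (by simp only [mb]; omega)⟩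
  | all i a ih =>
    exact ⟨by simp only [mb]; omega, ih.mono (by simp only [mb]; omega)⟩
  | allR k j a ih => exact ih

theorem mev_congr {D : Type u} {R : ℕ → D → D → Prop} {N : ℕ} {a : SO} (ha : Bd N a)
    {v v' : ℕ → Set D} (h : ∀ i < N, v i = v' i) : mev R a v ↔ mev R a v' := by
  induction a generalizing v v' with
  | eq i j => rw [mev, mev, h i ha.1, h j ha.2]
  | app m l => rw [mev, mev, h _ ha.2.1, h _ ha.2.2]
  | bot => rfl
  | imp a b iha ihb => rw [mev, mev, iha ha.1 h, ihb ha.2 h]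
  | all i a ih =>
    rw [mev, mev]
    refine forall_congr' fun S => ih ha.2 fun j hj => ?_
    by_cases hji : j = i
    · rw [hji]; simp
    · rw [Function.update_of_ne hji, Function.update_of_ne hji, h j hj]
  | allR k j a ih => exact ih ha h

/-! ### The modal formulas -/

def mD : Form := tp 1
def mP (m : ℕ) : Form := Form.and (tp 2) (dia (idx m))
def mE : Form := tp 3
def mI (i : ℕ) : Form := Form.and (tp 4) (dia (idx i))
def mO (i : ℕ) : Form := Form.and (tp 5) (dia (idx i))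
def mS (i : ℕ) : Form := Form.and (tp 6) (dia (idx i))

@[simp] theorem closed_mD : Closed mD := closed_tp _
@[simp] theorem closed_mE : Closed mE := closed_tp _
@[simp] theorem closed_mP (i : ℕ) : Closed (mP i) := by simp [mP]
@[simp] theorem closed_mI (i : ℕ) : Closed (mI i) := by simp [mI]
@[simp] theorem closed_mO (i : ℕ) : Closed (mO i) := by simp [mO]
@[simp] theorem closed_mS (i : ℕ) : Closed (mS i) := by simp [mS]

def bX (t s a : Form) : Form := bt t (bt s a)
def dX (t s a : Form) : Form := dt t (dt s a)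

/-- The mark for inclusion and the mark for a relation. -/
def mu (i j : ℕ) : Form := dia (idx (2 * Nat.pair i j))
def nu (m i j : ℕ) : Form := dia (idx (2 * Nat.pair m (Nat.pair i j) + 1))

/-- The first minimal point of `p`. -/
def nom : Form := Form.and (.var 0) (neg (dt mD (.var 0)))

/-- The axioms with indices `m`, `i`, `j`. -/
def axm (m i j : ℕ) : Form :=
  let p := Form.var 0
  conj
    [ .imp (dt mE (dX (mS i) mE p)) (dt mE p),
      .imp (dt mE (dX (mI i) mD p)) (dt mD p),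
      .imp (dt mE (dX (mO i) mD p)) (dt mD p),
      .imp (dt mD p) (bt mE (Form.or (dX (mI i) mD p) (dX (mO i) mD p))),
      bt mE (neg (Form.and (dX (mI i) mD nom) (dX (mO i) mD nom))),
      bt mE (dX (mS i) mE (Form.and (bX (mI i) mD p) (bX (mO i) mD (neg p)))),
      (if i = j then top else bt mE (.imp (bX (mI j) mD p) (bX (mS i) mE (bX (mI j) mD p)))),
      (if i = j then top else bt mE (.imp (bX (mO j) mD p) (bX (mS i) mE (bX (mO j) mD p)))),
      bt mE (.imp (mu i j) (.imp (bX (mI j) mD p) (bX (mI i) mD p))),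
      bt mE (.imp (neg (mu i j)) (.imp (bX (mI i) mD p) (dX (mO j) mD p))),
      bt mE (.imp (nu m i j) (.imp (bX (mI j) mD p) (dX (mI i) mD (dX (mP m) mD p)))),
      bt mE (.imp (neg (nu m i j)) (.imp (bX (mO j) mD p) (bX (mI i) mD (bX (mP m) mD p)))) ]

def axn (n : ℕ) : Form := axm n.unpair.1 n.unpair.2.unpair.1 n.unpair.2.unpair.2

def axAll : ℕ → Form
  | 0 => .imp (dt mD (.var 0)) (dt mD nom)
  | n + 1 => Form.and (axn n) (axAll n)

def bigM (N : ℕ) : ℕ := (N * N + N + 1) * (N * N + N + 1)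

/-- The modal translation. -/
def tm : SO → Form
  | .eq i j => mu i j
  | .app m l => nu m (l.getD 0 0) (l.getD 1 0)
  | .bot => .bot
  | .imp a b => .imp (tm a) (tm b)
  | .all i a => bX (mS i) mE (tm a)
  | .allR _ _ a => tm a

/-- The premise and the conclusion of the frame consequence for a second-order formula. -/
def thA (χ : SO) : Form := .imp tR (axAll (bigM (mb χ)))
def thB (χ : SO) : Form := .imp tR (bt mE (tm χ))

theorem pair_lt_bigM {N m i j : ℕ} (hm : m < N) (hi : i < N) (hj : j < N) :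
    Nat.pair m (Nat.pair i j) < bigM N := by
  have h1 : Nat.pair i j < N * N := by
    have := Nat.pair_lt_max_add_one_sq i j
    have h2 : (max i j + 1) ^ 2 ≤ N ^ 2 := Nat.pow_le_pow_left (by omega) 2
    calc Nat.pair i j < (max i j + 1) ^ 2 := this
      _ ≤ N ^ 2 := h2
      _ = N * N := by ring
  have h3 := Nat.pair_lt_max_add_one_sq m (Nat.pair i j)
  have h4 : (max m (Nat.pair i j) + 1) ^ 2 ≤ (N * N + N + 1) ^ 2 :=
    Nat.pow_le_pow_left (by omega) 2
  calc Nat.pair m (Nat.pair i j) < (max m (Nat.pair i j) + 1) ^ 2 := h3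
    _ ≤ (N * N + N + 1) ^ 2 := h4
    _ = bigM N := by rw [bigM]; ring

section sound
variable {W : Type u} {R : W → W → Prop} {V : ℕ → W → Prop} {w : W}

theorem sat_axAll {M : ℕ} : sat R V (axAll M) w ↔
    sat R V (.imp (dt mD (.var 0)) (dt mD nom)) w ∧ ∀ n < M, sat R V (axn n) w := by
  induction M with
  | zero => simp [axAll]
  | succ M ih =>
    rw [axAll, sat_and, ih]
    constructor
    · rintro ⟨h1, h2, h3⟩
      refine ⟨h2, fun n hn => ?_⟩
      rcases Nat.lt_succ_iff_lt_or_eq.1 hn with h | h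
      · exact h3 n h
      · rw [h]; exact h1
    · rintro ⟨h1, h2⟩
      exact ⟨h2 M (Nat.lt_succ_self M), h1, fun n hn => h2 n (Nat.lt_succ_of_lt hn)⟩

theorem sat_bX {t s a : Form} : sat R V (bX t s a) w ↔
    ∀ x, R w x → sat R V t x → ∀ y, R x y → sat R V s y → sat R V a y := by
  simp [bX]
theorem sat_dX {t s a : Form} : sat R V (dX t s a) w ↔
    ∃ x, R w x ∧ sat R V t x ∧ ∃ y, R x y ∧ sat R V s y ∧ sat R V a y := by
  simp [dX]

/-- Truth of a closed formula, independently of the valuation. -/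
abbrev cl (R : W → W → Prop) (t : Form) (x : W) : Prop := sat R (fun _ _ => False) t x

theorem sat_cl {t : Form} (ht : Closed t) {x : W} : sat R V t x ↔ cl R t x := sat_closed ht _ _ _

/-- Paths through a pointer. -/
def via (R : W → W → Prop) (t : Form) (x y : W) : Prop := ∃ z, R x z ∧ cl R t z ∧ R z y

/-- The semantic content of the axioms at a point. -/
structure AxM (R : W → W → Prop) (w : W) (N : ℕ) : Prop where
  irr : ∀ d, R w d → cl R mD d → ¬ R d d
  s1 : ∀ i < N, ∀ e, R w e → cl R mE e → ∀ e', via R (mS i) e e' → cl R mE e' → R w e'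
  s2 : ∀ i < N, ∀ e, R w e → cl R mE e → ∀ d, via R (mI i) e d → cl R mD d → R w d
  s3 : ∀ i < N, ∀ e, R w e → cl R mE e → ∀ d, via R (mO i) e d → cl R mD d → R w d
  c1 : ∀ i < N, ∀ d, R w d → cl R mD d → ∀ e, R w e → cl R mE e →
    via R (mI i) e d ∨ via R (mO i) e d
  c2 : ∀ i < N, ∀ d, R w d → cl R mD d → ∀ e, R w e → cl R mE e →
    ¬ (via R (mI i) e d ∧ via R (mO i) e d)
  c3 : ∀ i < N, ∀ e, R w e → cl R mE e → ∀ P : W → Prop, ∃ e', via R (mS i) e e' ∧ cl R mE e' ∧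
    (∀ d, via R (mI i) e' d → cl R mD d → P d) ∧ (∀ d, via R (mO i) e' d → cl R mD d → ¬ P d)
  c4 : ∀ i < N, ∀ j < N, i ≠ j → ∀ e, R w e → cl R mE e → ∀ e', via R (mS i) e e' →
    cl R mE e' → ∀ d, via R (mI j) e' d → cl R mD d → via R (mI j) e d
  c5 : ∀ i < N, ∀ j < N, i ≠ j → ∀ e, R w e → cl R mE e → ∀ e', via R (mS i) e e' →
    cl R mE e' → ∀ d, via R (mO j) e' d → cl R mD d → via R (mO j) e d
  d1 : ∀ i < N, ∀ j < N, ∀ e, R w e → cl R mE e → cl R (mu i j) e →
    ∀ d, via R (mI i) e d → cl R mD d → via R (mI j) e d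
  d2 : ∀ i < N, ∀ j < N, ∀ e, R w e → cl R mE e → ¬ cl R (mu i j) e →
    ∃ d, via R (mO j) e d ∧ cl R mD d ∧ via R (mI i) e d
  d3 : ∀ m < N, ∀ i < N, ∀ j < N, ∀ e, R w e → cl R mE e → cl R (nu m i j) e →
    ∃ d, via R (mI i) e d ∧ cl R mD d ∧ ∃ d', via R (mP m) d d' ∧ cl R mD d' ∧ via R (mI j) e d'
  d4 : ∀ m < N, ∀ i < N, ∀ j < N, ∀ e, R w e → cl R mE e → ¬ cl R (nu m i j) e →
    ∀ d, via R (mI i) e d → cl R mD d → ∀ d', via R (mP m) d d' → cl R mD d' → via R (mO j) e d'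

@[simp] theorem closed_mu (i j : ℕ) : Closed (mu i j) := by simp [mu]
@[simp] theorem closed_nu (m i j : ℕ) : Closed (nu m i j) := by simp [nu]

theorem axM_of_sat {N : ℕ} (h : ∀ V : ℕ → W → Prop, sat R V (axAll (bigM N)) w) :
    AxM R w N := by
  have h0 : ∀ V : ℕ → W → Prop, _ := fun V => (sat_axAll.1 (h V)).1
  have h1 : ∀ m < N, ∀ i < N, ∀ j < N, ∀ V : ℕ → W → Prop, sat R V (axm m i j) w := by
    intro m hm i hi j hj V
    have := (sat_axAll.1 (h V)).2 _ (pair_lt_bigM hm hi hj)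
    rwa [axn, Nat.unpair_pair, Nat.unpair_pair] at this
  have key : ∀ m < N, ∀ i < N, ∀ j < N, ∀ P : W → Prop, _ := fun m hm i hi j hj P =>
    (sat_conj _ w).1 (h1 m hm i hi j hj (fun _ => P))
  simp only [List.mem_cons, List.not_mem_nil, or_false, forall_eq_or_imp, forall_eq,
    sat_imp, sat_dt, sat_bt, sat_bX, sat_dX, sat_and, sat_or, sat_neg, sat_var, nom,
    sat_cl closed_mD, sat_cl closed_mE, sat_cl (closed_mI _), sat_cl (closed_mO _),
    sat_cl (closed_mS _), sat_cl (closed_mP _), sat_cl (closed_mu _ _),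
    sat_cl (closed_nu _ _ _)] at key h0
  have irr : ∀ d, R w d → cl R mD d → ¬ R d d := by
    intro d hd hD hdd
    obtain ⟨x, _, _, hx, hn⟩ := h0 (fun _ => (· = d)) ⟨d, hd, hD, rfl⟩
    rw [hx] at hn
    exact hn ⟨d, hdd, hD, rfl⟩
  refine ⟨irr, ?_, ?_, ?_, ?_, ?_, ?_, ?_, ?_, ?_, ?_, ?_, ?_⟩
  · rintro i hi e he hE e' ⟨z, hz, hS, hze⟩ hE'
    obtain ⟨x, hx, _, rfl⟩ := (key i hi i hi i hi (· = e')).1
      ⟨e, he, hE, z, hz, hS, e', hze, hE', rfl⟩
    exact hx
  · rintro i hi e he hE e' ⟨z, hz, hS, hze⟩ hE'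
    obtain ⟨x, hx, _, rfl⟩ := (key i hi i hi i hi (· = e')).2.1
      ⟨e, he, hE, z, hz, hS, e', hze, hE', rfl⟩
    exact hx
  · rintro i hi e he hE e' ⟨z, hz, hS, hze⟩ hE'
    obtain ⟨x, hx, _, rfl⟩ := (key i hi i hi i hi (· = e')).2.2.1
      ⟨e, he, hE, z, hz, hS, e', hze, hE', rfl⟩
    exact hx
  · rintro i hi d hd hD e he hE
    rcases (key i hi i hi i hi (· = d)).2.2.2.1 ⟨d, hd, hD, rfl⟩ e he hE with
      ⟨x, hx, hI, y, hy, _, rfl⟩ | ⟨x, hx, hI, y, hy, _, rfl⟩
    · exact Or.inl ⟨x, hx, hI, hy⟩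
    · exact Or.inr ⟨x, hx, hI, hy⟩
  · rintro i hi d hd hD e he hE ⟨⟨x, hx, hI, hxd⟩, y, hy, hO, hyd⟩
    have hn : d = d ∧ ¬ ∃ v, R d v ∧ cl R mD v ∧ v = d :=
      ⟨rfl, by rintro ⟨v, hv, _, rfl⟩; exact irr _ hd hD hv⟩
    exact (key i hi i hi i hi (· = d)).2.2.2.2.1 e he hE
      ⟨⟨x, hx, hI, d, hxd, hD, hn⟩, y, hy, hO, d, hyd, hD, hn⟩
  · rintro i hi e he hE P
    obtain ⟨x, hx, hS, e', hxe, hE', h2, h3⟩ := (key i hi i hi i hi P).2.2.2.2.2.1 e he hE
    exact ⟨e', ⟨x, hx, hS, hxe⟩, hE', fun d ⟨z, hz, hI, hzd⟩ hD => h2 z hz hI d hzd hD,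
      fun d ⟨z, hz, hI, hzd⟩ hD => h3 z hz hI d hzd hD⟩
  · rintro i hi j hj hij e he hE e' ⟨x, hx, hS, hxe⟩ hE' d ⟨z, hz, hI, hzd⟩ hD
    have h2 := (key i hi i hi j hj (via R (mI j) e)).2.2.2.2.2.2.1
    simp only [if_neg hij, sat_bt, sat_imp, sat_bX, sat_var, sat_cl closed_mD, sat_cl closed_mE,
      sat_cl (closed_mI _), sat_cl (closed_mS _)] at h2
    exact h2 e he hE (fun x hx hI y hy hDy => ⟨x, hx, hI, hy⟩) x hx hS e' hxe hE' z hz hI d hzd hD
  · rintro i hi j hj hij e he hE e' ⟨x, hx, hS, hxe⟩ hE' d ⟨z, hz, hI, hzd⟩ hD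
    have h2 := (key i hi i hi j hj (via R (mO j) e)).2.2.2.2.2.2.2.1
    simp only [if_neg hij, sat_bt, sat_imp, sat_bX, sat_var, sat_cl closed_mD, sat_cl closed_mE,
      sat_cl (closed_mO _), sat_cl (closed_mS _)] at h2
    exact h2 e he hE (fun x hx hI y hy hDy => ⟨x, hx, hI, hy⟩) x hx hS e' hxe hE' z hz hI d hzd hD
  · rintro i hi j hj e he hE hmu d ⟨z, hz, hI, hzd⟩ hD
    exact (key i hi i hi j hj (via R (mI j) e)).2.2.2.2.2.2.2.2.1 e he hE hmu
      (fun x hx hI y hy hDy => ⟨x, hx, hI, hy⟩) z hz hI d hzd hD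
  · rintro i hi j hj e he hE hmu
    obtain ⟨z, hz, hO, d, hzd, hD, hd⟩ :=
      (key i hi i hi j hj (via R (mI i) e)).2.2.2.2.2.2.2.2.2.1 e he hE hmu
        (fun x hx hI y hy hDy => ⟨x, hx, hI, hy⟩)
    exact ⟨d, ⟨z, hz, hO, hzd⟩, hD, hd⟩
  · rintro m hm i hi j hj e he hE hmu
    obtain ⟨z, hz, hI, d, hzd, hD, y, hy, hP, d', hyd, hD', hd'⟩ :=
      (key m hm i hi j hj (via R (mI j) e)).2.2.2.2.2.2.2.2.2.2.1 e he hE hmu
        (fun x hx hI y hy hDy => ⟨x, hx, hI, hy⟩)
    exact ⟨d, ⟨z, hz, hI, hzd⟩, hD, d', ⟨y, hy, hP, hyd⟩, hD', hd'⟩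
  · rintro m hm i hi j hj e he hE hmu d ⟨z, hz, hI, hzd⟩ hD d' ⟨y, hy, hP, hyd⟩ hD'
    exact (key m hm i hi j hj (via R (mO j) e)).2.2.2.2.2.2.2.2.2.2.2 e he hE hmu
        (fun x hx hI y hy hDy => ⟨x, hx, hI, hy⟩) z hz hI d hzd hD y hy hP d' hyd hD'

/-- The domain extracted from a point. -/
def DW (R : W → W → Prop) (w : W) : Type u := {d : W // R w d ∧ cl R mD d}

def inS (R : W → W → Prop) (w : W) (e : W) (i : ℕ) : Set (DW R w) :=
  {d | via R (mI i) e d.1}

def relS (R : W → W → Prop) (w : W) (m : ℕ) (d d' : DW R w) : Prop := via R (mP m) d.1 d'.1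

theorem truth_M {N : ℕ} (hA : AxM R w N) (a : SO) (ha : Bd N a) (e : W) (he : R w e)
    (hE : cl R mE e) : cl R (tm a) e ↔ mev (relS R w) a (inS R w e) := by
  have dis : ∀ i < N, ∀ e, R w e → cl R mE e → ∀ d : DW R w, via R (mO i) e d.1 →
      ¬ via R (mI i) e d.1 := fun i hi e he hE d h1 h2 => hA.c2 i hi d.1 d.2.1 d.2.2 e he hE ⟨h2, h1⟩
  have tot : ∀ i < N, ∀ e, R w e → cl R mE e → ∀ d : DW R w, ¬ via R (mI i) e d.1 →
      via R (mO i) e d.1 := fun i hi e he hE d h =>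
    (hA.c1 i hi d.1 d.2.1 d.2.2 e he hE).resolve_left h
  -- the step relation
  have step : ∀ i < N, ∀ e, R w e → cl R mE e → ∀ e', via R (mS i) e e' → cl R mE e' →
      ∀ j < N, inS R w e' j = Function.update (inS R w e) i (inS R w e' i) j := by
    intro i hi e he hE e' hst hE' j hj
    by_cases hij : j = i
    · rw [hij]; simp
    · rw [Function.update_of_ne hij]
      have he' := hA.s1 i hi e he hE e' hst hE'
      ext d
      constructor
      · intro hd
        exact hA.c4 i hi j hj (Ne.symm hij) e he hE e' hst hE' d.1 hd d.2.2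
      · intro hd
        by_contra hn
        have h1 := tot j hj e' he' hE' d hn
        have h2 := hA.c5 i hi j hj (Ne.symm hij) e he hE e' hst hE' d.1 h1 d.2.2
        exact dis j hj e he hE d h2 hd
  induction a generalizing e with
  | eq i j =>
    obtain ⟨hi, hj⟩ := ha
    rw [tm, mev]
    constructor
    · intro h d hd
      exact hA.d1 i hi j hj e he hE h d.1 hd d.2.2
    · intro h
      by_contra hn
      obtain ⟨d, h1, h2, h3⟩ := hA.d2 i hi j hj e he hE hn
      have hw := hA.s3 j hj e he hE d h1 h2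
      exact dis j hj e he hE ⟨d, hw, h2⟩ h1 (h (a := ⟨d, hw, h2⟩) h3)
  | app m l =>
    obtain ⟨hm, hi, hj⟩ := ha
    rw [tm, mev]
    constructor
    · intro h
      obtain ⟨d, h1, h2, d', h3, h4, h5⟩ := hA.d3 m hm _ hi _ hj e he hE h
      exact ⟨⟨d, hA.s2 _ hi e he hE d h1 h2, h2⟩, h1,
        ⟨d', hA.s2 _ hj e he hE d' h5 h4, h4⟩, h5, h3⟩
    · rintro ⟨d, h1, d', h2, h3⟩
      by_contra hn
      exact dis _ hj e he hE d' (hA.d4 m hm _ hi _ hj e he hE hn d.1 h1 d.2.2 d'.1 h3 d'.2.2) h2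
  | bot => rfl
  | imp a b iha ihb => exact imp_congr (iha ha.1 e he hE) (ihb ha.2 e he hE)
  | all i a ih =>
    obtain ⟨hi, ha⟩ := ha
    rw [mev, tm]
    change sat R _ _ e ↔ _
    rw [sat_bX]
    constructor
    · intro h S
      obtain ⟨e', hst, hE', h1, h2⟩ := hA.c3 i hi e he hE (fun x => ∃ d ∈ S, d.1 = x)
      have he' := hA.s1 i hi e he hE e' hst hE'
      have hS : inS R w e' i = S := by
        ext d
        constructor
        · intro hd
          obtain ⟨d', hd', hdd⟩ := h1 d.1 hd d.2.2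
          rwa [Subtype.ext hdd] at hd'
        · intro hd
          by_contra hn
          exact h2 d.1 (tot i hi e' he' hE' d hn) d.2.2 ⟨d, hd, rfl⟩
      have h3 : cl R (tm a) e' := by
        obtain ⟨x, hx, hSx, hxe⟩ := hst
        exact h x hx hSx e' hxe hE'
      have h4 := (mev_congr ha (step i hi e he hE e' hst hE')).1 ((ih ha e' he' hE').1 h3)
      rw [hS] at h4
      exact h4
    · intro h x hx hSx e' hxe hE'
      have hst : via R (mS i) e e' := ⟨x, hx, hSx, hxe⟩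
      have he' := hA.s1 i hi e he hE e' hst hE'
      exact (ih ha e' he' hE').2 ((mev_congr ha (step i hi e he hE e' hst hE')).2 (h _))
  | allR k j a ih => exact ih ha e he hE

end sound

theorem frameCons_of_mvalid {χ : SO} (h : MValid.{u} χ) : FrameCons.{u} (thA χ) (thB χ) := by
  intro W R hA V w hR
  have hax : ∀ V : ℕ → W → Prop, sat R V (axAll (bigM (mb χ))) w := by
    intro V'
    exact hA V' w ((sat_closed closed_tR _ _ _).1 hR)
  have hM := axM_of_sat hax
  rw [sat_bt]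
  intro e he hE
  rw [sat_cl closed_mE] at hE
  have hc : ∀ a : SO, Closed (tm a) := by
    intro a
    induction a with
    | eq i j => exact closed_mu i j
    | app m l => exact closed_nu _ _ _
    | bot => trivial
    | imp a b iha ihb => exact ⟨iha, ihb⟩
    | all i a ih => simp [tm, bX, ih]
    | allR k j a ih => exact ih
  rw [sat_cl (hc χ), truth_M hM χ (bd_mb χ) e he hE]
  exact h _ _ _

end Pool.Agent.Helper97.Ecf
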