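import Pool.Agent.Helper97.EcfThom
import Pool.Agent.Helper97.EcfHard

/-!
# The converse: a frame refuting the consequence from a monadic refutation
-/

universe u

namespace Pool.Agent.Helper97.Ecf

open Form

/-! ### Frames given by edges and marks -/

section generic

/-- Real points together with the chain points. -/
def GRel {X : Type u} (Ed : X → X → Prop) (Mk : X → ℕ → Prop) : ℕ ⊕ X → ℕ ⊕ X → Prop
  | .inl n, .inl m => n = m + 1
  | .inl _, .inr _ => False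
  | .inr p, .inl n => n = 0 ∨ ∃ k, n = k + 1 ∧ Mk p k
  | .inr p, .inr q => Ed p q

variable {X : Type u} {Ed : X → X → Prop} {Mk : X → ℕ → Prop} {V : ℕ → ℕ ⊕ X → Prop}

theorem g_ch_inl (n m : ℕ) : sat (GRel Ed Mk) V (ch n) (.inl m) ↔ n = m := by
  induction n generalizing m with
  | zero =>
    rw [ch, sat_box]
    constructor
    · intro h
      cases m with
      | zero => rfl
      | succ m => exact (h (.inl m) rfl).elim
    · rintro rfl v hv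
      cases v with
      | inl k => exact absurd hv (by simp [GRel])
      | inr p => exact hv
  | succ n ih =>
    rw [ch, sat_and, sat_dia, sat_box]
    constructor
    · rintro ⟨⟨v, hv, h⟩, _⟩
      cases v with
      | inl k => rw [ih] at h; have : m = k + 1 := hv; omega
      | inr p => exact hv.elim
    · rintro rfl
      refine ⟨⟨.inl n, rfl, (ih n).2 rfl⟩, ?_⟩
      intro v hv
      cases v with
      | inl k => rw [ih]; have : n + 1 = k + 1 := hv; omega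
      | inr p => exact hv.elim

theorem g_not_ch_inr (hM : ∀ p, ∃ k, Mk p k) (n : ℕ) (p : X) :
    ¬ sat (GRel Ed Mk) V (ch n) (.inr p) := by
  intro h
  cases n with
  | zero => exact (sat_box.1 h) (.inl 0) (Or.inl rfl)
  | succ n =>
    rw [ch, sat_and, sat_box] at h
    have h1 := (g_ch_inl n 0).1 (h.2 (.inl 0) (Or.inl rfl))
    obtain ⟨k, hk⟩ := hM p
    have h2 := (g_ch_inl n (k + 1)).1 (h.2 (.inl (k + 1)) (Or.inr ⟨k, rfl, hk⟩))
    omega

theorem g_real_inr (hM : ∀ p, ∃ k, Mk p k) (p : X) :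
    sat (GRel Ed Mk) V real (.inr p) := by
  rw [real, sat_and, sat_dia, sat_dia]
  refine ⟨⟨.inl 0, Or.inl rfl, (g_ch_inl 0 0).2 rfl⟩, ?_⟩
  obtain ⟨k, hk⟩ := hM p
  exact ⟨.inl (k + 1), Or.inr ⟨k, rfl, hk⟩, sat_dia.2 ⟨.inl k, rfl, sat_top.2 trivial⟩⟩

theorem g_not_real_inl (n : ℕ) : ¬ sat (GRel Ed Mk) V real (.inl n) :=
  not_sat_real_of_ch ((g_ch_inl n n).2 rfl)

theorem g_mk_inr (hM : ∀ p, ∃ k, Mk p k) (k : ℕ) (p : X) :
    sat (GRel Ed Mk) V (mk k) (.inr p) ↔ Mk p k := by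
  rw [mk, sat_dia]
  constructor
  · rintro ⟨v, hv, h⟩
    cases v with
    | inl n =>
      rw [g_ch_inl] at h
      rcases hv with hv | ⟨k', hk', hm⟩
      · omega
      · obtain rfl : k = k' := by omega
        exact hm
    | inr q => exact absurd h (g_not_ch_inr hM _ q)
  · intro h
    exact ⟨.inl (k + 1), Or.inr ⟨k, rfl, h⟩, (g_ch_inl _ _).2 rfl⟩

theorem g_tp_iff (hM : ∀ p, ∃ k, Mk p k) (k : ℕ) (x : ℕ ⊕ X) :
    sat (GRel Ed Mk) V (tp k) x ↔ ∃ p, x = .inr p ∧ Mk p k := by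
  rw [tp, sat_and]
  constructor
  · rintro ⟨h1, h2⟩
    cases x with
    | inl n => exact absurd h1 (g_not_real_inl n)
    | inr p => exact ⟨p, rfl, (g_mk_inr hM k p).1 h2⟩
  · rintro ⟨p, rfl, h⟩
    exact ⟨g_real_inr hM p, (g_mk_inr hM k p).2 h⟩

theorem g_idx (hM : ∀ p, ∃ k, Mk p k) (i : ℕ) (p : X) :
    sat (GRel Ed Mk) V (dia (idx i)) (.inr p) ↔ Mk p (i + 14) :=
  g_mk_inr hM (i + 14) p

end generic

/-! ### The frame -/

/-- The real points. -/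
inductive TP (D : Type u) : Type u
  | root : TP D
  | D : D → TP D
  | P : ℕ → D → TP D
  | E : (ℕ → Set D) → TP D
  | I : ℕ → Set D → TP D
  | O : ℕ → Set D → TP D
  | S : ℕ → (ℕ → Set D) → TP D

variable {D : Type u}

def TEd (R : ℕ → D → D → Prop) : TP D → TP D → Prop
  | .root, q => match q with
    | .D _ => True
    | .E _ => True
    | _ => False
  | .D d, q => match q with
    | .D d' => WellOrderingRel d' d
    | .P m d' => R m d d'
    | _ => False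
  | .P _ d, q => match q with
    | .D d' => d' = d
    | _ => False
  | .E v, q => match q with
    | .I i S => S = v i
    | .O i S => S = v i
    | .S _ v' => v' = v
    | _ => False
  | .I _ S, q => match q with
    | .D d => d ∈ S
    | _ => False
  | .O _ S, q => match q with
    | .D d => d ∉ S
    | _ => False
  | .S i v, q => match q with
    | .E v' => ∃ S, v' = Function.update v i S
    | _ => False

def TMk (R : ℕ → D → D → Prop) : TP D → ℕ → Prop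
  | .root, k => k = 0
  | .D _, k => k = 1
  | .P m _, k => k = 2 ∨ k = m + 14
  | .E v, k => k = 3 ∨ (∃ i j, v i ⊆ v j ∧ k = 2 * Nat.pair i j + 14) ∨
      ∃ m i j, (∃ x ∈ v i, ∃ y ∈ v j, R m x y) ∧ k = 2 * Nat.pair m (Nat.pair i j) + 1 + 14
  | .I i _, k => k = 4 ∨ k = i + 14
  | .O i _, k => k = 5 ∨ k = i + 14
  | .S i _, k => k = 6 ∨ k = i + 14

variable {R : ℕ → D → D → Prop}

theorem tmk_ex (p : TP D) : ∃ k, TMk R p k := by
  cases p with
  | root => exact ⟨0, rfl⟩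
  | D x => exact ⟨1, rfl⟩
  | P x X => exact ⟨2, Or.inl rfl⟩
  | E x => exact ⟨3, Or.inl rfl⟩
  | I x i => exact ⟨4, Or.inl rfl⟩
  | O x i => exact ⟨5, Or.inl rfl⟩
  | S x i => exact ⟨6, Or.inl rfl⟩

/-- The accessibility relation. -/
abbrev TR (R : ℕ → D → D → Prop) : ℕ ⊕ TP D → ℕ ⊕ TP D → Prop := GRel (TEd R) (TMk R)

section dec
variable {V : ℕ → ℕ ⊕ TP D → Prop} {x : ℕ ⊕ TP D}

theorem t_root : sat (TR R) V tR x ↔ x = .inr .root := by
  rw [tR, g_tp_iff tmk_ex]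
  constructor
  · rintro ⟨p, rfl, h⟩
    cases p <;> simp [TMk] at h ⊢
  · rintro rfl
    exact ⟨_, rfl, rfl⟩

theorem t_D : sat (TR R) V mD x ↔ ∃ d, x = .inr (.D d) := by
  rw [mD, g_tp_iff tmk_ex]
  constructor
  · rintro ⟨p, rfl, h⟩
    cases p <;> simp [TMk] at h ⊢
  · rintro ⟨d, rfl⟩
    exact ⟨_, rfl, rfl⟩

theorem t_E : sat (TR R) V mE x ↔ ∃ v, x = .inr (.E v) := by
  rw [mE, g_tp_iff tmk_ex]
  constructor
  · rintro ⟨p, rfl, h⟩
    cases p <;> simp [TMk] at h ⊢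
  · rintro ⟨d, rfl⟩
    exact ⟨_, rfl, Or.inl rfl⟩

theorem t_P {m : ℕ} : sat (TR R) V (mP m) x ↔ ∃ d, x = .inr (.P m d) := by
  rw [mP, sat_and, g_tp_iff tmk_ex]
  constructor
  · rintro ⟨⟨p, rfl, h⟩, h2⟩
    rw [g_idx tmk_ex] at h2
    cases p with
    | P n d =>
      rcases h2 with h2 | h2
      · omega
      · obtain rfl : m = n := by omega
        exact ⟨d, rfl⟩
    | _ => simp [TMk] at h
  · rintro ⟨d, rfl⟩
    exact ⟨⟨_, rfl, Or.inl rfl⟩, (g_idx tmk_ex _ _).2 (Or.inr rfl)⟩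

theorem t_I {m : ℕ} : sat (TR R) V (mI m) x ↔ ∃ S, x = .inr (.I m S) := by
  rw [mI, sat_and, g_tp_iff tmk_ex]
  constructor
  · rintro ⟨⟨p, rfl, h⟩, h2⟩
    rw [g_idx tmk_ex] at h2
    cases p with
    | I n d =>
      rcases h2 with h2 | h2
      · omega
      · obtain rfl : m = n := by omega
        exact ⟨d, rfl⟩
    | _ => simp [TMk] at h
  · rintro ⟨d, rfl⟩
    exact ⟨⟨_, rfl, Or.inl rfl⟩, (g_idx tmk_ex _ _).2 (Or.inr rfl)⟩

theorem t_O {m : ℕ} : sat (TR R) V (mO m) x ↔ ∃ S, x = .inr (.O m S) := by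
  rw [mO, sat_and, g_tp_iff tmk_ex]
  constructor
  · rintro ⟨⟨p, rfl, h⟩, h2⟩
    rw [g_idx tmk_ex] at h2
    cases p with
    | O n d =>
      rcases h2 with h2 | h2
      · omega
      · obtain rfl : m = n := by omega
        exact ⟨d, rfl⟩
    | _ => simp [TMk] at h
  · rintro ⟨d, rfl⟩
    exact ⟨⟨_, rfl, Or.inl rfl⟩, (g_idx tmk_ex _ _).2 (Or.inr rfl)⟩

theorem t_S {m : ℕ} : sat (TR R) V (mS m) x ↔ ∃ v, x = .inr (.S m v) := by
  rw [mS, sat_and, g_tp_iff tmk_ex]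
  constructor
  · rintro ⟨⟨p, rfl, h⟩, h2⟩
    rw [g_idx tmk_ex] at h2
    cases p with
    | S n d =>
      rcases h2 with h2 | h2
      · omega
      · obtain rfl : m = n := by omega
        exact ⟨d, rfl⟩
    | _ => simp [TMk] at h
  · rintro ⟨d, rfl⟩
    exact ⟨⟨_, rfl, Or.inl rfl⟩, (g_idx tmk_ex _ _).2 (Or.inr rfl)⟩

theorem t_mu {i j : ℕ} {v : ℕ → Set D} :
    sat (TR R) V (mu i j) (.inr (.E v)) ↔ v i ⊆ v j := by
  rw [mu, g_idx tmk_ex]
  constructor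
  · rintro (h | ⟨i', j', h, hk⟩ | ⟨m', i', j', h, hk⟩)
    · omega
    · have h2 : Nat.pair i j = Nat.pair i' j' := by omega
      obtain ⟨rfl, rfl⟩ := Nat.pair_eq_pair.1 h2
      exact h
    · omega
  · intro h
    exact Or.inr (Or.inl ⟨i, j, h, rfl⟩)

theorem t_nu {m i j : ℕ} {v : ℕ → Set D} :
    sat (TR R) V (nu m i j) (.inr (.E v)) ↔ ∃ x ∈ v i, ∃ y ∈ v j, R m x y := by
  rw [nu, g_idx tmk_ex]
  constructor
  · rintro (h | ⟨i', j', h, hk⟩ | ⟨m', i', j', h, hk⟩)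
    · omega
    · omega
    · have h2 : Nat.pair m (Nat.pair i j) = Nat.pair m' (Nat.pair i' j') := by omega
      obtain ⟨rfl, h3⟩ := Nat.pair_eq_pair.1 h2
      obtain ⟨rfl, rfl⟩ := Nat.pair_eq_pair.1 h3
      exact h
  · intro h
    exact Or.inr (Or.inr ⟨m, i, j, h, rfl⟩)

theorem t_bS {i : ℕ} {a : Form} {v : ℕ → Set D} :
    sat (TR R) V (bX (mS i) mE a) (.inr (.E v)) ↔
      ∀ S, sat (TR R) V a (.inr (.E (Function.update v i S))) := by
  rw [sat_bX]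
  constructor
  · intro h S
    exact h (.inr (.S i v)) rfl (t_S.2 ⟨_, rfl⟩) _ ⟨S, rfl⟩ (t_E.2 ⟨_, rfl⟩)
  · intro h x hx hS y hy hE
    obtain ⟨v', rfl⟩ := t_S.1 hS
    obtain ⟨u, rfl⟩ := t_E.1 hE
    obtain rfl : v' = v := hx
    obtain ⟨S, rfl⟩ : ∃ S, u = Function.update v' i S := hy
    exact h S

theorem t_bI {i : ℕ} {a : Form} {v : ℕ → Set D} :
    sat (TR R) V (bX (mI i) mD a) (.inr (.E v)) ↔ ∀ d ∈ v i, sat (TR R) V a (.inr (.D d)) := by
  rw [sat_bX]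
  constructor
  · intro h d hd
    exact h (.inr (.I i (v i))) rfl (t_I.2 ⟨_, rfl⟩) _ hd (t_D.2 ⟨_, rfl⟩)
  · intro h x hx hI y hy hD
    obtain ⟨S, rfl⟩ := t_I.1 hI
    obtain ⟨d, rfl⟩ := t_D.1 hD
    obtain rfl : S = v i := hx
    exact h d hy

theorem t_bO {i : ℕ} {a : Form} {v : ℕ → Set D} :
    sat (TR R) V (bX (mO i) mD a) (.inr (.E v)) ↔ ∀ d, d ∉ v i → sat (TR R) V a (.inr (.D d)) := by
  rw [sat_bX]
  constructor
  · intro h d hd
    exact h (.inr (.O i (v i))) rfl (t_O.2 ⟨_, rfl⟩) _ hd (t_D.2 ⟨_, rfl⟩)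
  · intro h x hx hI y hy hD
    obtain ⟨S, rfl⟩ := t_O.1 hI
    obtain ⟨d, rfl⟩ := t_D.1 hD
    obtain rfl : S = v i := hx
    exact h d hy

theorem t_bP {m : ℕ} {a : Form} {d : D} :
    sat (TR R) V (bX (mP m) mD a) (.inr (.D d)) ↔ ∀ d', R m d d' → sat (TR R) V a (.inr (.D d')) := by
  rw [sat_bX]
  constructor
  · intro h d' hd
    exact h (.inr (.P m d')) hd (t_P.2 ⟨_, rfl⟩) _ rfl (t_D.2 ⟨_, rfl⟩)
  · intro h x hx hI y hy hD
    obtain ⟨d1, rfl⟩ := t_P.1 hI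
    obtain ⟨d2, rfl⟩ := t_D.1 hD
    obtain rfl : d2 = d1 := hy
    exact h d2 hx

theorem t_dS {i : ℕ} {a : Form} {v : ℕ → Set D} :
    sat (TR R) V (dX (mS i) mE a) (.inr (.E v)) ↔
      ∃ S, sat (TR R) V a (.inr (.E (Function.update v i S))) := by
  rw [sat_dX]
  constructor
  · rintro ⟨x, hx, hS, y, hy, hE, h⟩
    obtain ⟨v', rfl⟩ := t_S.1 hS
    obtain ⟨u, rfl⟩ := t_E.1 hE
    obtain rfl : v' = v := hx
    obtain ⟨S, rfl⟩ : ∃ S, u = Function.update v' i S := hy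
    exact ⟨S, h⟩
  · rintro ⟨S, h⟩
    exact ⟨.inr (.S i v), rfl, t_S.2 ⟨_, rfl⟩, .inr (.E (Function.update v i S)), ⟨S, rfl⟩,
      t_E.2 ⟨_, rfl⟩, h⟩

theorem t_dI {i : ℕ} {a : Form} {v : ℕ → Set D} :
    sat (TR R) V (dX (mI i) mD a) (.inr (.E v)) ↔ ∃ d ∈ v i, sat (TR R) V a (.inr (.D d)) := by
  rw [sat_dX]
  constructor
  · rintro ⟨x, hx, hI, y, hy, hD, h⟩
    obtain ⟨S, rfl⟩ := t_I.1 hI
    obtain ⟨d, rfl⟩ := t_D.1 hD
    obtain rfl : S = v i := hx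
    exact ⟨d, hy, h⟩
  · rintro ⟨d, hd, h⟩
    exact ⟨.inr (.I i (v i)), rfl, t_I.2 ⟨_, rfl⟩, .inr (.D d), hd, t_D.2 ⟨_, rfl⟩, h⟩

theorem t_dO {i : ℕ} {a : Form} {v : ℕ → Set D} :
    sat (TR R) V (dX (mO i) mD a) (.inr (.E v)) ↔ ∃ d, d ∉ v i ∧ sat (TR R) V a (.inr (.D d)) := by
  rw [sat_dX]
  constructor
  · rintro ⟨x, hx, hI, y, hy, hD, h⟩
    obtain ⟨S, rfl⟩ := t_O.1 hI
    obtain ⟨d, rfl⟩ := t_D.1 hD
    obtain rfl : S = v i := hx
    exact ⟨d, hy, h⟩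
  · rintro ⟨d, hd, h⟩
    exact ⟨.inr (.O i (v i)), rfl, t_O.2 ⟨_, rfl⟩, .inr (.D d), hd, t_D.2 ⟨_, rfl⟩, h⟩

theorem t_dP {m : ℕ} {a : Form} {d : D} :
    sat (TR R) V (dX (mP m) mD a) (.inr (.D d)) ↔ ∃ d', R m d d' ∧ sat (TR R) V a (.inr (.D d')) := by
  rw [sat_dX]
  constructor
  · rintro ⟨x, hx, hI, y, hy, hD, h⟩
    obtain ⟨d1, rfl⟩ := t_P.1 hI
    obtain ⟨d2, rfl⟩ := t_D.1 hD
    obtain rfl : d2 = d1 := hy
    exact ⟨d2, hx, h⟩
  · rintro ⟨d', hd, h⟩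
    exact ⟨.inr (.P m d'), hd, t_P.2 ⟨_, rfl⟩, .inr (.D d'), rfl, t_D.2 ⟨_, rfl⟩, h⟩

theorem t_rootE {a : Form} : sat (TR R) V (bt mE a) (.inr .root) ↔
    ∀ v, sat (TR R) V a (.inr (.E v)) := by
  rw [sat_bt]
  constructor
  · intro h v
    exact h _ trivial (t_E.2 ⟨v, rfl⟩)
  · intro h x hx hE
    obtain ⟨v, rfl⟩ := t_E.1 hE
    exact h v

theorem t_rootdE {a : Form} : sat (TR R) V (dt mE a) (.inr .root) ↔
    ∃ v, sat (TR R) V a (.inr (.E v)) := by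
  rw [sat_dt]
  constructor
  · rintro ⟨x, hx, hE, h⟩
    obtain ⟨v, rfl⟩ := t_E.1 hE
    exact ⟨v, h⟩
  · rintro ⟨v, h⟩
    exact ⟨.inr (.E v), trivial, t_E.2 ⟨v, rfl⟩, h⟩

theorem t_rootdD {a : Form} : sat (TR R) V (dt mD a) (.inr .root) ↔
    ∃ d, sat (TR R) V a (.inr (.D d)) := by
  rw [sat_dt]
  constructor
  · rintro ⟨x, hx, hE, h⟩
    obtain ⟨v, rfl⟩ := t_D.1 hE
    exact ⟨v, h⟩
  · rintro ⟨v, h⟩
    exact ⟨.inr (.D v), trivial, t_D.2 ⟨v, rfl⟩, h⟩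

theorem t_nom {d : D} : sat (TR R) V nom (.inr (.D d)) ↔
    V 0 (.inr (.D d)) ∧ ∀ d', WellOrderingRel d' d → ¬ V 0 (.inr (.D d')) := by
  rw [nom, sat_and, sat_neg, sat_dt, sat_var]
  refine and_congr_right fun _ => ?_
  constructor
  · intro h d' hd hV
    exact h ⟨.inr (.D d'), hd, t_D.2 ⟨_, rfl⟩, hV⟩
  · rintro h ⟨x, hx, hD, hV⟩
    obtain ⟨d', rfl⟩ := t_D.1 hD
    exact h d' hx hV

theorem t_nom_unique {d d' : D} (h : sat (TR R) V nom (.inr (.D d)))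
    (h' : sat (TR R) V nom (.inr (.D d'))) : d = d' := by
  rw [t_nom] at h h'
  rcases trichotomous_of WellOrderingRel d d' with h1 | h1 | h1
  · exact absurd h.1 (h'.2 d h1)
  · exact h1
  · exact absurd h'.1 (h.2 d' h1)

end dec

theorem axm_root (V : ℕ → ℕ ⊕ TP D → Prop) (m i j : ℕ) :
    sat (TR R) V (axm m i j) (.inr .root) := by
  rw [axm, sat_conj]
  simp only [List.mem_cons, List.not_mem_nil, or_false, forall_eq_or_imp, forall_eq]
  refine ⟨?_, ?_, ?_, ?_, ?_, ?_, ?_, ?_, ?_, ?_, ?_, ?_⟩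
  · rw [sat_imp, t_rootdE, t_rootdE]
    rintro ⟨v, h⟩
    obtain ⟨S, h⟩ := t_dS.1 h
    exact ⟨_, h⟩
  · rw [sat_imp, t_rootdE, t_rootdD]
    rintro ⟨v, h⟩
    obtain ⟨d, _, h⟩ := t_dI.1 h
    exact ⟨_, h⟩
  · rw [sat_imp, t_rootdE, t_rootdD]
    rintro ⟨v, h⟩
    obtain ⟨d, _, h⟩ := t_dO.1 h
    exact ⟨_, h⟩
  · rw [sat_imp, t_rootdD, t_rootE]
    rintro ⟨d, h⟩ v
    rw [sat_or, t_dI, t_dO]
    by_cases hd : d ∈ v i
    · exact Or.inl ⟨d, hd, h⟩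
    · exact Or.inr ⟨d, hd, h⟩
  · rw [t_rootE]
    intro v
    rw [sat_neg, sat_and, t_dI, t_dO]
    rintro ⟨⟨d, hd, h⟩, d', hd', h'⟩
    rw [t_nom_unique h h'] at hd
    exact hd' hd
  · rw [t_rootE]
    intro v
    rw [t_dS]
    refine ⟨{d | V 0 (.inr (.D d))}, ?_⟩
    rw [sat_and, t_bI, t_bO]
    simp only [Function.update_self]
    exact ⟨fun d hd => hd, fun d hd => hd⟩
  · split_ifs with hij
    · exact sat_top.2 trivial
    · rw [t_rootE]
      intro v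
      rw [sat_imp, t_bI, t_bS]
      intro h S
      rw [t_bI, Function.update_of_ne (Ne.symm hij)]
      exact h
  · split_ifs with hij
    · exact sat_top.2 trivial
    · rw [t_rootE]
      intro v
      rw [sat_imp, t_bO, t_bS]
      intro h S
      rw [t_bO, Function.update_of_ne (Ne.symm hij)]
      exact h
  · rw [t_rootE]
    intro v
    rw [sat_imp, sat_imp, t_mu, t_bI, t_bI]
    intro h1 h2 d hd
    exact h2 d (h1 hd)
  · rw [t_rootE]
    intro v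
    rw [sat_imp, sat_imp, sat_neg, t_mu, t_bI, t_dO, Set.not_subset]
    rintro ⟨d, h1, h2⟩ h3
    exact ⟨d, h2, h3 d h1⟩
  · rw [t_rootE]
    intro v
    rw [sat_imp, sat_imp, t_nu, t_bI, t_dI]
    rintro ⟨x, hx, y, hy, h⟩ h2
    exact ⟨x, hx, t_dP.2 ⟨y, h, h2 y hy⟩⟩
  · rw [t_rootE]
    intro v
    rw [sat_imp, sat_imp, sat_neg, t_nu, t_bO, t_bI]
    intro h1 h2 x hx
    rw [t_bP]
    intro y hxy
    exact h2 y fun hy => h1 ⟨x, hx, y, hy, hxy⟩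

theorem valid_thA (χ : SO) : Valid (TR R) (thA χ) := by
  intro V x hx
  rw [t_root] at hx
  subst hx
  rw [sat_axAll]
  refine ⟨?_, fun n _ => axm_root V _ _ _⟩
  rw [sat_imp, t_rootdD, t_rootdD]
  rintro ⟨d, hd⟩
  obtain ⟨d0, h0, hmin⟩ := (IsWellFounded.wf : WellFounded (WellOrderingRel (α := D))).has_min
    {d | V 0 (.inr (.D d))} ⟨d, hd⟩
  exact ⟨d0, t_nom.2 ⟨h0, fun d' h1 h2 => hmin d' h2 h1⟩⟩

theorem t_truth (V : ℕ → ℕ ⊕ TP D → Prop) (a : SO) (v : ℕ → Set D) :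
    sat (TR R) V (tm a) (.inr (.E v)) ↔ mev R a v := by
  induction a generalizing v with
  | eq i j => exact t_mu
  | app m l => exact t_nu
  | bot => rfl
  | imp a b iha ihb => exact imp_congr (iha v) (ihb v)
  | all i a ih =>
    rw [tm, t_bS, mev]
    exact forall_congr' fun S => ih _
  | allR k j a ih => exact ih v

theorem mvalid_of_frameCons {χ : SO} (h : FrameCons.{u} (thA χ) (thB χ)) : MValid.{u} χ := by
  intro D R v
  have h1 := h (ℕ ⊕ TP D) (TR R) (valid_thA χ) (fun _ _ => False) (.inr .root) (t_root.2 rfl)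
  rw [t_rootE] at h1
  exact (t_truth _ χ v).1 (h1 v)

/-- The monadic reading reduces to frame consequence. -/
theorem mvalid_iff (χ : SO) : MValid.{u} χ ↔ FrameCons.{u} (thA χ) (thB χ) :=
  ⟨frameCons_of_mvalid, mvalid_of_frameCons⟩

end Pool.Agent.Helper97.Ecf
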