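import Pool.Agent.Helper97.EcfForms

/-!
# Canonicity of the partition and dichotomy axioms
-/

universe u

namespace Pool.Agent.Helper97.Ecf

open Form

/-- Below every member of the family of `h` there is a member with at most one element. -/
def JFO {W : Type u} (R : W → W → Prop) (H : W → Prop) (h : W) : Prop :=
  ∀ b, R h b → H b → ∃ b', R h b' ∧ H b' ∧ (∀ u, R b' u → H u → R b u) ∧
    ∀ u u', R b' u → H u → R b' u' → H u' → u = u'

/-- The first-order condition for the dichotomy axiom in degenerate frames. -/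
def DFO {W : Type u} (R : W → W → Prop) (H I L : W → Prop) (w : W) : Prop :=
  ∃ z, R w z ∧ L z ∧ ∀ v, R z v → H v → ∃ a, R w a ∧ I a ∧ ∃ y, R a y ∧ H y ∧
    ∀ u, R y u → H u → u = v

theorem JFO.sat {W : Type u} {R : W → W → Prop} {V0 V : ℕ → W → Prop} {h : W}
    (hj : JFO R (sat R V0 tH) h) : sat R V jAx h := by
  have e : ∀ x, Ecf.sat R V tH x ↔ Ecf.sat R V0 tH x := sat_closed (by simp) V V0
  simp only [jAx, sat_imp, sat_dt, sat_bt, sat_or, sat_var, e]
  rintro ⟨b, hb, hHb, hall⟩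
  obtain ⟨b', hb', hHb', hsub, huniq⟩ := hj b hb hHb
  by_cases hp : ∀ u, R b' u → Ecf.sat R V0 tH u → V 0 u
  · exact Or.inl ⟨b', hb', hHb', hp⟩
  · push Not at hp
    obtain ⟨u, hu, hHu, hnu⟩ := hp
    refine Or.inr ⟨b', hb', hHb', fun u' hu' hHu' => ?_⟩
    have : u' = u := huniq u' u hu' hHu' hu hHu
    rw [this]
    exact (hall u (hsub u hu hHu) hHu).resolve_left hnu

theorem DFO.sat {W : Type u} {R : W → W → Prop} {V0 V : ℕ → W → Prop} {w : W}
    (hd : DFO R (sat R V0 tH) (sat R V0 tI) (sat R V0 tL) w) : sat R V psiAx w := by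
  have e1 : ∀ x, Ecf.sat R V tH x ↔ Ecf.sat R V0 tH x := sat_closed (by simp) V V0
  have e2 : ∀ x, Ecf.sat R V tI x ↔ Ecf.sat R V0 tI x := sat_closed (by simp) V V0
  have e3 : ∀ x, Ecf.sat R V tL x ↔ Ecf.sat R V0 tL x := sat_closed (by simp) V V0
  simp only [psiAx, sat_dt, sat_bt, sat_or, sat_var, sat_neg, e1, e2, e3]
  obtain ⟨z, hz, hLz, hall⟩ := hd
  by_cases hp : ∀ v, R z v → Ecf.sat R V0 tH v → ¬ V 0 v
  · exact Or.inr ⟨z, hz, hLz, hp⟩
  · push Not at hp
    obtain ⟨v, hv, hHv, hVv⟩ := hp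
    obtain ⟨a, ha, hIa, y, hy, hHy, huniq⟩ := hall v hv hHv
    exact Or.inl ⟨a, ha, hIa, y, hy, hHy, fun u hu hHu => by rw [huniq u hu hHu]; exact hVv⟩

variable {Λ : Set Form}

theorem dt_mem_iff (N : NormalLogic Λ) (w : CanonPt Λ) (t a : Form) :
    dt t a ∈ w.1 ↔ ∃ v : CanonPt Λ, canonRel Λ w v ∧ t ∈ v.1 ∧ a ∈ v.1 := by
  rw [dt, dia_mem_iff N]
  exact exists_congr fun v => and_congr_right fun _ => v.2.and_mem_iff N t a

theorem bt_mem_iff (N : NormalLogic Λ) (w : CanonPt Λ) (t a : Form) :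
    bt t a ∈ w.1 ↔ ∀ v : CanonPt Λ, canonRel Λ w v → t ∈ v.1 → a ∈ v.1 := by
  rw [bt, box_mem_iff N]
  exact forall_congr' fun v => imp_congr_right fun _ => v.2.imp_mem_iff N t a

theorem jfo_canon (N : NormalLogic Λ) (h : CanonPt Λ)
    (hj : ∀ s : ℕ → Form, jAx.subst s ∈ h.1) :
    JFO (canonRel Λ) (fun x => tH ∈ x.1) h := by
  intro b hb hHb
  -- the partition property
  have part : ∀ c d : Form, dt tH (bt tH (Form.or c d)) ∈ h.1 →
      dt tH (bt tH c) ∈ h.1 ∨ dt tH (bt tH d) ∈ h.1 := by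
    intro c d hcd
    have h1 := hj (fun n => if n = 0 then c else d)
    have e : jAx.subst (fun n => if n = 0 then c else d) =
        .imp (dt tH (bt tH (Form.or c d))) (Form.or (dt tH (bt tH c)) (dt tH (bt tH d))) := by
      simp [jAx, dt, bt, Form.subst, subst_closed closed_tH]
    rw [e, h.2.imp_mem_iff N] at h1
    exact (h.2.or_mem_iff N _ _).1 (h1 hcd)
  have mono : ∀ c d : Form, (∀ x : CanonPt Λ, c ∈ x.1 → d ∈ x.1) →
      dt tH (bt tH c) ∈ h.1 → dt tH (bt tH d) ∈ h.1 := by
    intro c d hcd hc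
    rw [dt_mem_iff N] at hc ⊢
    obtain ⟨v, hv, hHv, hvc⟩ := hc
    refine ⟨v, hv, hHv, ?_⟩
    rw [bt_mem_iff N] at hvc ⊢
    exact fun u hu hHu => hcd u (hvc u hu hHu)
  obtain ⟨G, hG, hmax⟩ := zorn_subset_nonempty
    {G : Set Form | ∀ l : List Form, (∀ a ∈ l, a ∈ G) → dt tH (bt tH (conj l)) ∈ h.1} (by
    intro c hc hchain hne
    refine ⟨⋃₀ c, ?_, fun s hs => Set.subset_sUnion_of_mem hs⟩
    intro l hl
    have : ∃ s ∈ c, ∀ a ∈ l, a ∈ s := by
      induction l with
      | nil => exact ⟨hne.some, hne.some_mem, by simp⟩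
      | cons b l ih =>
        obtain ⟨s, hs, hsl⟩ := ih (fun a ha => hl a (by simp [ha]))
        obtain ⟨t, ht, hbt⟩ := hl b (by simp)
        rcases hchain.total hs ht with h | h
        · exact ⟨t, ht, fun a ha => by
            rcases List.mem_cons.1 ha with rfl | ha
            · exact hbt
            · exact h (hsl a ha)⟩
        · exact ⟨s, hs, fun a ha => by
            rcases List.mem_cons.1 ha with rfl | ha
            · exact h hbt
            · exact hsl a ha⟩
    obtain ⟨s, hs, hsl⟩ := this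
    exact hc hs l hsl)
    {a | bt tH a ∈ b.1} (by
      intro l hl
      rw [dt_mem_iff N]
      refine ⟨b, hb, hHb, ?_⟩
      rw [bt_mem_iff N]
      intro v hv hHv
      rw [v.2.conj_mem_iff N]
      intro a ha
      exact (bt_mem_iff N b _ _).1 (hl a ha) v hv hHv)
  have hGp := hmax.prop
  -- `G` decides every formula
  have dec : ∀ a : Form, a ∈ G ∨ neg a ∈ G := by
    intro a
    by_contra hcon
    push Not at hcon
    have ins : ∀ c : Form, c ∉ G → ∃ l : List Form, (∀ a ∈ l, a ∈ G) ∧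
        dt tH (bt tH (Form.and (conj l) c)) ∉ h.1 := by
      intro c hc
      have h1 : ¬ (∀ l : List Form, (∀ a ∈ l, a ∈ insert c G) →
          dt tH (bt tH (conj l)) ∈ h.1) := by
        intro hins
        exact hc (hmax.le_of_ge (y := insert c G) hins (Set.subset_insert _ _)
          (Set.mem_insert _ _))
      push Not at h1
      obtain ⟨l, hl, hn⟩ := h1
      classical
      refine ⟨l.filter (· ≠ c), ?_, fun hcon => hn (mono _ _ ?_ hcon)⟩
      · intro d hd
        simp only [ne_eq, decide_not, List.mem_filter, Bool.not_eq_eq_eq_not, Bool.not_true,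
          decide_eq_false_iff_not] at hd
        rcases hl d hd.1 with h2 | h2
        · exact absurd h2 hd.2
        · exact h2
      · intro x hx
        rw [x.2.and_mem_iff N, x.2.conj_mem_iff N] at hx
        rw [x.2.conj_mem_iff N]
        intro d hd
        by_cases hdc : d = c
        · rw [hdc]; exact hx.2
        · exact hx.1 d (by simp [hd, hdc])
    obtain ⟨l1, hl1, hn1⟩ := ins a hcon.1
    obtain ⟨l2, hl2, hn2⟩ := ins (neg a) hcon.2
    have h3 := hGp (l1 ++ l2) (fun d hd => by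
      rcases List.mem_append.1 hd with h | h
      · exact hl1 d h
      · exact hl2 d h)
    have h4 : dt tH (bt tH (Form.or (Form.and (conj l1) a) (Form.and (conj l2) (neg a)))) ∈
        h.1 := by
      refine mono _ _ (fun x hx => ?_) h3
      rw [x.2.conj_mem_iff N] at hx
      rw [x.2.or_mem_iff N, x.2.and_mem_iff N, x.2.and_mem_iff N, x.2.conj_mem_iff N,
        x.2.conj_mem_iff N, x.2.neg_mem_iff N]
      by_cases ha : a ∈ x.1
      · exact Or.inl ⟨fun d hd => hx d (by simp [hd]), ha⟩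
      · exact Or.inr ⟨fun d hd => hx d (by simp [hd]), ha⟩
    rcases part _ _ h4 with h5 | h5
    · exact hn1 h5
    · exact hn2 h5
  -- realise `G`
  obtain ⟨b', hb', hD⟩ := exists_succ N h ({tH} ∪ {c | ∃ a ∈ G, c = bt tH a}) (by
    intro l hl
    have : ∃ l' : List Form, (∀ a ∈ l', a ∈ G) ∧ ∀ c ∈ l, c = tH ∨ ∃ a ∈ l', c = bt tH a := by
      induction l with
      | nil => exact ⟨[], by simp, by simp⟩
      | cons c l ih =>
        obtain ⟨l', hl', hall⟩ := ih fun a ha => hl a (by simp [ha])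
        rcases hl c (by simp) with hc | ⟨a, ha, hc⟩
        · refine ⟨l', hl', fun d hd => ?_⟩
          rcases List.mem_cons.1 hd with rfl | hd
          · exact Or.inl hc
          · exact hall d hd
        · refine ⟨a :: l', fun d hd => ?_, fun d hd => ?_⟩
          · rcases List.mem_cons.1 hd with rfl | hd
            · exact ha
            · exact hl' d hd
          · rcases List.mem_cons.1 hd with rfl | hd
            · exact Or.inr ⟨a, by simp, hc⟩
            · rcases hall d hd with h | ⟨e, he, h⟩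
              · exact Or.inl h
              · exact Or.inr ⟨e, by simp [he], h⟩
    obtain ⟨l', hl', hall⟩ := this
    have h6 := hGp l' hl'
    rw [dt_mem_iff N] at h6
    obtain ⟨v, hv, hHv, hbt⟩ := h6
    rw [dia_mem_iff N]
    refine ⟨v, hv, (v.2.conj_mem_iff N l).2 fun c hc => ?_⟩
    rcases hall c hc with h | ⟨a, ha, h⟩
    · rw [h]; exact hHv
    · rw [h, bt_mem_iff N]
      intro u hu hHu
      exact (u.2.conj_mem_iff N _).1 ((bt_mem_iff N v _ _).1 hbt u hu hHu) a ha)
  have hsub : ∀ u : CanonPt Λ, canonRel Λ b' u → tH ∈ u.1 → ∀ a ∈ G, a ∈ u.1 := by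
    intro u hu hHu a ha
    exact (bt_mem_iff N b' _ _).1 (hD (Or.inr ⟨a, ha, rfl⟩)) u hu hHu
  refine ⟨b', hb', hD (Or.inl rfl), ?_, ?_⟩
  · intro u hu hHu a ha
    refine hsub u hu hHu a (hG ?_)
    refine (bt_mem_iff N b _ _).2 ?_
    intro v hv _
    exact hv a ha
  · intro u u' hu hHu hu' hHu'
    refine eq_of_subset fun a ha => ?_
    rcases dec a with h | h
    · exact hsub u hu hHu a h
    · exact absurd ha ((u'.2.neg_mem_iff N a).1 (hsub u' hu' hHu' _ h))

theorem dfo_canon (N : NormalLogic Λ) (w : CanonPt Λ)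
    (hL : dt tL top ∈ w.1)
    (hj : ∀ a : CanonPt Λ, canonRel Λ w a → tI ∈ a.1 → ∀ s : ℕ → Form, jAx.subst s ∈ a.1)
    (hp : ∀ s : ℕ → Form, psiAx.subst s ∈ w.1) :
    DFO (canonRel Λ) (fun x => tH ∈ x.1) (fun x => tI ∈ x.1) (fun x => tL ∈ x.1) w := by
  have psi : ∀ c : Form, dt tI (dt tH (bt tH c)) ∈ w.1 ∨ dt tL (bt tH (neg c)) ∈ w.1 := by
    intro c
    have h1 := hp (fun _ => c)
    have e : psiAx.subst (fun _ => c) =
        Form.or (dt tI (dt tH (bt tH c))) (dt tL (bt tH (neg c))) := by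
      simp [psiAx, dt, bt, Form.subst, subst_closed closed_tH, subst_closed closed_tI,
        subst_closed closed_tL]
    rw [e] at h1
    exact (w.2.or_mem_iff N _ _).1 h1
  -- the bad formulas form an ideal
  have part : ∀ c d : Form, dt tI (dt tH (bt tH (Form.or c d))) ∈ w.1 →
      dt tI (dt tH (bt tH c)) ∈ w.1 ∨ dt tI (dt tH (bt tH d)) ∈ w.1 := by
    intro c d hcd
    rw [dt_mem_iff N] at hcd
    obtain ⟨a, ha, hIa, hcd⟩ := hcd
    have h1 := hj a ha hIa (fun n => if n = 0 then c else d)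
    have e : jAx.subst (fun n => if n = 0 then c else d) =
        .imp (dt tH (bt tH (Form.or c d))) (Form.or (dt tH (bt tH c)) (dt tH (bt tH d))) := by
      simp [jAx, dt, bt, Form.subst, subst_closed closed_tH]
    rw [e, a.2.imp_mem_iff N] at h1
    rcases (a.2.or_mem_iff N _ _).1 (h1 hcd) with h2 | h2
    · exact Or.inl ((dt_mem_iff N w _ _).2 ⟨a, ha, hIa, h2⟩)
    · exact Or.inr ((dt_mem_iff N w _ _).2 ⟨a, ha, hIa, h2⟩)
  obtain ⟨z, hz, hD⟩ := exists_succ N w
    ({tL} ∪ {c | ∃ a : Form, dt tI (dt tH (bt tH a)) ∉ w.1 ∧ c = bt tH (neg a)}) (by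
    intro l hl
    have : (∀ c ∈ l, c = tL) ∨ ∃ a0 : Form, dt tI (dt tH (bt tH a0)) ∉ w.1 ∧
        ∀ c ∈ l, c = tL ∨ ∃ a : Form, c = bt tH (neg a) ∧
          ∀ x : CanonPt Λ, a ∈ x.1 → a0 ∈ x.1 := by
      induction l with
      | nil => exact Or.inl (by simp)
      | cons c l ih =>
        rcases ih fun a ha => hl a (by simp [ha]) with hall | ⟨a0, h0, hall⟩
        · rcases hl c (by simp) with hc | ⟨a, ha, hc⟩
          · refine Or.inl fun d hd => ?_
            rcases List.mem_cons.1 hd with rfl | hd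
            · exact hc
            · exact hall d hd
          · refine Or.inr ⟨a, ha, fun d hd => ?_⟩
            rcases List.mem_cons.1 hd with rfl | hd
            · exact Or.inr ⟨a, hc, fun x hx => hx⟩
            · exact Or.inl (hall d hd)
        · rcases hl c (by simp) with hc | ⟨a, ha, hc⟩
          · refine Or.inr ⟨a0, h0, fun d hd => ?_⟩
            rcases List.mem_cons.1 hd with rfl | hd
            · exact Or.inl hc
            · exact hall d hd
          · refine Or.inr ⟨Form.or a0 a, fun hcon => ?_, fun d hd => ?_⟩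
            · rcases part _ _ hcon with h | h
              · exact h0 h
              · exact ha h
            · rcases List.mem_cons.1 hd with rfl | hd
              · exact Or.inr ⟨a, hc, fun x hx => (x.2.or_mem_iff N _ _).2 (Or.inr hx)⟩
              · rcases hall d hd with h | ⟨e, he, hx⟩
                · exact Or.inl h
                · exact Or.inr ⟨e, he, fun x hxe =>
                    (x.2.or_mem_iff N _ _).2 (Or.inl (hx x hxe))⟩
    rw [dia_mem_iff N]
    rcases this with hall | ⟨a0, h0, hall⟩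
    · rw [dt_mem_iff N] at hL
      obtain ⟨v, hv, hLv, _⟩ := hL
      exact ⟨v, hv, (v.2.conj_mem_iff N l).2 fun c hc => by rw [hall c hc]; exact hLv⟩
    · have h1 := (psi a0).resolve_left h0
      rw [dt_mem_iff N] at h1
      obtain ⟨v, hv, hLv, hbt⟩ := h1
      refine ⟨v, hv, (v.2.conj_mem_iff N l).2 fun c hc => ?_⟩
      rcases hall c hc with h | ⟨a, h, hx⟩
      · rw [h]; exact hLv
      · rw [h, bt_mem_iff N]
        intro u hu hHu
        rw [u.2.neg_mem_iff N]
        intro hau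
        exact (u.2.neg_mem_iff N _).1 ((bt_mem_iff N v _ _).1 hbt u hu hHu) (hx u hau))
  refine ⟨z, hz, hD (Or.inl rfl), fun v hv hHv => ?_⟩
  -- every formula in `v` is good
  have good : ∀ c ∈ v.1, dt tI (dt tH (bt tH c)) ∈ w.1 := by
    intro c hc
    by_contra hcon
    have h1 := hD (Or.inr ⟨c, hcon, rfl⟩)
    exact (v.2.neg_mem_iff N _).1 ((bt_mem_iff N z _ _).1 h1 v hv hHv) hc
  have coll : ∀ (t : Form) (F : Form → Form) (l : List Form),
      (∀ c ∈ l, c ∈ ({t} ∪ {c | ∃ a ∈ v.1, c = F a} : Set Form)) →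
      ∃ a ∈ v.1, ∀ c ∈ l, c = t ∨ ∃ a' : Form, c = F a' ∧
        ∀ x : CanonPt Λ, a ∈ x.1 → a' ∈ x.1 := by
    intro t F l
    induction l with
    | nil => exact fun _ => ⟨top, v.2.mem_of_logic N (N.taut _ fun v => by simp), by simp⟩
    | cons c l ih =>
      intro hl
      obtain ⟨a, ha, hall⟩ := ih fun a ha => hl a (by simp [ha])
      rcases hl c (by simp) with hc | ⟨a', ha', hc⟩
      · refine ⟨a, ha, fun d hd => ?_⟩
        rcases List.mem_cons.1 hd with rfl | hd
        · exact Or.inl hc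
        · exact hall d hd
      · refine ⟨Form.and a a', (v.2.and_mem_iff N _ _).2 ⟨ha, ha'⟩, fun d hd => ?_⟩
        rcases List.mem_cons.1 hd with rfl | hd
        · exact Or.inr ⟨a', hc, fun x hx => ((x.2.and_mem_iff N _ _).1 hx).2⟩
        · rcases hall d hd with h | ⟨e, he, hx⟩
          · exact Or.inl h
          · exact Or.inr ⟨e, he, fun x hxe => hx x ((x.2.and_mem_iff N _ _).1 hxe).1⟩
  obtain ⟨a, ha, hDa⟩ := exists_succ N w
    ({tI} ∪ {c | ∃ d ∈ v.1, c = dt tH (bt tH d)}) (by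
    intro l hl
    obtain ⟨a, ha, hall⟩ := coll tI (fun d => dt tH (bt tH d)) l hl
    have h1 := good a ha
    rw [dt_mem_iff N] at h1
    obtain ⟨x, hx, hIx, hax⟩ := h1
    rw [dia_mem_iff N]
    refine ⟨x, hx, (x.2.conj_mem_iff N l).2 fun c hc => ?_⟩
    rcases hall c hc with h | ⟨a', h, hxx⟩
    · rw [h]; exact hIx
    · rw [h, dt_mem_iff N]
      rw [dt_mem_iff N] at hax
      obtain ⟨y, hy, hHy, hyb⟩ := hax
      refine ⟨y, hy, hHy, ?_⟩
      rw [bt_mem_iff N] at hyb ⊢
      exact fun u hu hHu => hxx u (hyb u hu hHu))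
  refine ⟨a, ha, hDa (Or.inl rfl), ?_⟩
  obtain ⟨y, hy, hDy⟩ := exists_succ N a ({tH} ∪ {c | ∃ d ∈ v.1, c = bt tH d}) (by
    intro l hl
    obtain ⟨a1, ha1, hall⟩ := coll tH (fun d => bt tH d) l hl
    have h1 := hDa (Or.inr ⟨a1, ha1, rfl⟩)
    rw [dt_mem_iff N] at h1
    obtain ⟨x, hx, hHx, hax⟩ := h1
    rw [dia_mem_iff N]
    refine ⟨x, hx, (x.2.conj_mem_iff N l).2 fun c hc => ?_⟩
    rcases hall c hc with h | ⟨a', h, hxx⟩
    · rw [h]; exact hHx
    · rw [h, bt_mem_iff N]
      rw [bt_mem_iff N] at hax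
      exact fun u hu hHu => hxx u (hax u hu hHu))
  refine ⟨y, hy, hDy (Or.inl rfl), fun u hu hHu => eq_of_subset fun c hc => ?_⟩
  exact (bt_mem_iff N y _ _).1 (hDy (Or.inr ⟨c, hc, rfl⟩)) u hu hHu

/-- The formulas produced by the reduction are canonical. -/
theorem canonical_red (a b : Form) : Canonical (red a b) := by
  intro Λ N ha V w hS
  have hin : ∀ s : ℕ → Form, (red a b).subst s ∈ w.1 := fun s =>
    w.2.mem_of_logic N (N.subst _ s ha)
  have hS' : conj (sList a b) ∈ w.1 := (truth_closed N (closed_sList a b) V w).1 hS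
  have hin2 : ∀ s : ℕ → Form,
      (conj ax).subst s ∈ w.1 ∧ (bt tH jAx).subst s ∈ w.1 ∧ psiAx.subst s ∈ w.1 := by
    intro s
    have h1 := hin s
    rw [red, Form.subst, subst_closed (closed_sList a b), w.2.imp_mem_iff N] at h1
    have h2 := h1 hS'
    rw [subst_and, w.2.and_mem_iff N, subst_and, w.2.and_mem_iff N] at h2
    exact h2
  have hJ : ∀ h : CanonPt Λ, canonRel Λ w h → tH ∈ h.1 → ∀ s : ℕ → Form,
      jAx.subst s ∈ h.1 := by
    intro h hh hHh s
    have h1 := (hin2 s).2.1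
    have e : (bt tH jAx).subst s = bt tH (jAx.subst s) := by
      simp [bt, Form.subst, subst_closed closed_tH]
    rw [e, bt_mem_iff N] at h1
    exact h1 h hh hHh
  rw [sat_and, sat_and]
  have eH : (fun x : CanonPt Λ => tH ∈ x.1) = sat (canonRel Λ) V tH := by
    funext x; exact propext (truth_closed N (by simp) V x).symm
  have eI : (fun x : CanonPt Λ => tI ∈ x.1) = sat (canonRel Λ) V tI := by
    funext x; exact propext (truth_closed N (by simp) V x).symm
  have eL : (fun x : CanonPt Λ => tL ∈ x.1) = sat (canonRel Λ) V tL := by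
    funext x; exact propext (truth_closed N (by simp) V x).symm
  refine ⟨can_ax Λ N w (fun s => (hin2 s).1) V, ?_, ?_⟩
  · rw [sat_bt]
    intro h hh hHh
    have hHh' : tH ∈ h.1 := (truth_closed N (by simp) V h).1 hHh
    have := jfo_canon N h (hJ h hh hHh')
    rw [eH] at this
    exact this.sat
  · have := dfo_canon N w ?_ ?_ (fun s => (hin2 s).2.2)
    · rw [eH, eI, eL] at this
      exact this.sat
    · rw [w.2.conj_mem_iff N] at hS'
      exact hS' _ (by simp [sList])
    · intro x hx hIx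
      refine hJ x hx ?_
      rw [tI, x.2.and_mem_iff N] at hIx
      exact hIx.1

end Pool.Agent.Helper97.Ecf
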