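import Pool.Agent.Helper97.EcfSO

/-!
# Second-order formulas describing modal syntax, canonical frames and first-order definability
-/

universe u

namespace Pool.Agent.Helper97.Ecf

open SO

def u1 (j x : ℕ) : SO := .app j [x]
def b2 (j x y : ℕ) : SO := .app j [x, y]
def t3 (j x y z : ℕ) : SO := .app j [x, y, z]

def conjS (l : List SO) : SO := l.foldr SO.and (.imp .bot .bot)

section
variable {M : Type u} {v : ℕ → M} {U : ℕ → ℕ → List M → Prop}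

theorem eval_u1 {j x : ℕ} : eval (u1 j x) v U ↔ U 1 j [v x] := Iff.rfl
theorem eval_b2 {j x y : ℕ} : eval (b2 j x y) v U ↔ U 2 j [v x, v y] := Iff.rfl
theorem eval_t3 {j x y z : ℕ} : eval (t3 j x y z) v U ↔ U 3 j [v x, v y, v z] := Iff.rfl

theorem eval_conjS (l : List SO) : eval (conjS l) v U ↔ ∀ a ∈ l, eval a v U := by
  induction l with
  | nil => simp [conjS]
  | cons a l ih =>
    rw [show conjS (a :: l) = SO.and a (conjS l) from rfl, eval_and, ih]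
    simp
end

/-! Indices.  Unary: numbers 0, formulas 1, sets 2, zero 3, falsum 4, logic 9, points 10,
equality atoms 20.  Binary: successor 0, variable 1, box 2, membership 3, accessibility 10,
truth 11, domain 20, assignments 21, left index 22, right index 23.  Ternary: implication 0,
relation 20, value 21. -/

/-- The axioms for the syntax. -/
def fSyn : SO := conjS
  [ ex 1 (u1 3 1),
    all 1 (all 2 (imp (u1 3 1) (imp (u1 3 2) (eq 1 2)))),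
    all 1 (imp (u1 3 1) (u1 0 1)),
    all 1 (imp (u1 0 1) (ex 2 (b2 0 1 2))),
    all 1 (all 2 (all 3 (imp (b2 0 1 2) (imp (b2 0 1 3) (eq 2 3))))),
    all 1 (all 2 (all 3 (imp (b2 0 1 3) (imp (b2 0 2 3) (eq 1 2))))),
    all 1 (all 2 (imp (b2 0 1 2) (SO.and (u1 0 1) (u1 0 2)))),
    all 1 (all 2 (imp (b2 0 1 2) (neg (u1 3 2)))),
    allR 1 30 (imp (all 1 (imp (u1 3 1) (u1 30 1)))
      (imp (all 1 (all 2 (imp (b2 0 1 2) (imp (u1 30 1) (u1 30 2)))))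
        (all 1 (imp (u1 0 1) (u1 30 1))))),
    all 1 (imp (u1 0 1) (ex 2 (b2 1 1 2))),
    all 1 (all 2 (all 3 (imp (b2 1 1 2) (imp (b2 1 1 3) (eq 2 3))))),
    all 1 (all 2 (all 3 (imp (b2 1 1 3) (imp (b2 1 2 3) (eq 1 2))))),
    all 1 (all 2 (imp (b2 1 1 2) (SO.and (u1 0 1) (u1 1 2)))),
    ex 1 (u1 4 1),
    all 1 (all 2 (imp (u1 4 1) (imp (u1 4 2) (eq 1 2)))),
    all 1 (imp (u1 4 1) (u1 1 1)),
    all 1 (all 2 (imp (u1 1 1) (imp (u1 1 2) (ex 3 (t3 0 1 2 3))))),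
    all 1 (all 2 (all 3 (all 4 (imp (t3 0 1 2 3) (imp (t3 0 1 2 4) (eq 3 4)))))),
    all 1 (all 2 (all 3 (all 4 (all 5 (imp (t3 0 1 2 5) (imp (t3 0 3 4 5)
      (SO.and (eq 1 3) (eq 2 4)))))))),
    all 1 (all 2 (all 3 (imp (t3 0 1 2 3) (SO.and (u1 1 1) (SO.and (u1 1 2) (u1 1 3)))))),
    all 1 (imp (u1 1 1) (ex 2 (b2 2 1 2))),
    all 1 (all 2 (all 3 (imp (b2 2 1 2) (imp (b2 2 1 3) (eq 2 3))))),
    all 1 (all 2 (all 3 (imp (b2 2 1 3) (imp (b2 2 2 3) (eq 1 2))))),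
    all 1 (all 2 (imp (b2 2 1 2) (SO.and (u1 1 1) (u1 1 2)))),
    all 1 (all 2 (imp (b2 1 1 2) (neg (u1 4 2)))),
    all 1 (all 2 (all 3 (all 4 (imp (b2 1 1 4) (neg (t3 0 2 3 4)))))),
    all 1 (all 2 (all 3 (imp (b2 1 1 3) (neg (b2 2 2 3))))),
    all 1 (all 2 (all 3 (imp (u1 4 3) (neg (t3 0 1 2 3))))),
    all 1 (all 2 (imp (u1 4 2) (neg (b2 2 1 2)))),
    all 1 (all 2 (all 3 (all 4 (imp (b2 2 1 4) (neg (t3 0 2 3 4)))))),
    allR 1 30 (imp (all 1 (all 2 (imp (b2 1 1 2) (u1 30 2))))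
      (imp (all 1 (imp (u1 4 1) (u1 30 1)))
      (imp (all 1 (all 2 (all 3 (imp (t3 0 1 2 3) (imp (u1 30 1) (imp (u1 30 2) (u1 30 3)))))))
      (imp (all 1 (all 2 (imp (b2 2 1 2) (imp (u1 30 1) (u1 30 2)))))
        (all 1 (imp (u1 1 1) (u1 30 1))))))) ]

/-- The semantic content of the syntax axioms. -/
structure SynC {M : Type u} (N F Z Bo Sc Va Bx Im : List M → Prop) : Prop where
  z0 : ∃ x, Z [x]
  z1 : ∀ x y, Z [x] → Z [y] → x = y
  zN : ∀ x, Z [x] → N [x]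
  s0 : ∀ x, N [x] → ∃ y, Sc [x, y]
  s1 : ∀ x y z, Sc [x, y] → Sc [x, z] → y = z
  s2 : ∀ x y z, Sc [x, z] → Sc [y, z] → x = y
  sN : ∀ x y, Sc [x, y] → N [x] ∧ N [y]
  sZ : ∀ x y, Sc [x, y] → ¬ Z [y]
  nI : ∀ X : List M → Prop, (∀ x, Z [x] → X [x]) → (∀ x y, Sc [x, y] → X [x] → X [y]) →
    ∀ x, N [x] → X [x]
  v0 : ∀ x, N [x] → ∃ y, Va [x, y]
  v1 : ∀ x y z, Va [x, y] → Va [x, z] → y = z
  v2 : ∀ x y z, Va [x, z] → Va [y, z] → x = y
  vF : ∀ x y, Va [x, y] → N [x] ∧ F [y]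
  b0 : ∃ x, Bo [x]
  b1 : ∀ x y, Bo [x] → Bo [y] → x = y
  bF : ∀ x, Bo [x] → F [x]
  i0 : ∀ x y, F [x] → F [y] → ∃ z, Im [x, y, z]
  i1 : ∀ x y z z', Im [x, y, z] → Im [x, y, z'] → z = z'
  i2 : ∀ x y x' y' z, Im [x, y, z] → Im [x', y', z] → x = x' ∧ y = y'
  iF : ∀ x y z, Im [x, y, z] → F [x] ∧ F [y] ∧ F [z]
  x0 : ∀ x, F [x] → ∃ y, Bx [x, y]
  x1 : ∀ x y z, Bx [x, y] → Bx [x, z] → y = z
  x2 : ∀ x y z, Bx [x, z] → Bx [y, z] → x = y
  xF : ∀ x y, Bx [x, y] → F [x] ∧ F [y]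
  dvb : ∀ x y, Va [x, y] → ¬ Bo [y]
  dvi : ∀ x y z w, Va [x, w] → ¬ Im [y, z, w]
  dvx : ∀ x y z, Va [x, z] → ¬ Bx [y, z]
  dbi : ∀ x y z, Bo [z] → ¬ Im [x, y, z]
  dbx : ∀ x y, Bo [y] → ¬ Bx [x, y]
  dxi : ∀ x y z w, Bx [x, w] → ¬ Im [y, z, w]
  fI : ∀ X : List M → Prop, (∀ x y, Va [x, y] → X [y]) → (∀ x, Bo [x] → X [x]) →
    (∀ x y z, Im [x, y, z] → X [x] → X [y] → X [z]) → (∀ x y, Bx [x, y] → X [x] → X [y]) →
    ∀ x, F [x] → X [x]

theorem eval_fSyn {M : Type u} {v : ℕ → M} {U : ℕ → ℕ → List M → Prop} :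
    eval fSyn v U ↔ SynC (U 1 0) (U 1 1) (U 1 3) (U 1 4) (U 2 0) (U 2 1) (U 2 2) (U 3 0) := by
  rw [fSyn, eval_conjS]
  simp (config := {decide := true}) only [List.mem_cons, List.not_mem_nil, or_false,
    forall_eq_or_imp, forall_eq, eval_ex, eval_all, eval_imp, eval_and, eval_neg, eval_eq,
    eval_allR, eval_u1, eval_b2, eval_t3, Function.update_self, Function.update_of_ne, ne_eq]
  constructor
  · rintro ⟨h1, h2, h3, h4, h5, h6, h7, h8, h9, h10, h11, h12, h13, h14, h15, h16, h17, h18,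
      h19, h20, h21, h22, h23, h24, h25, h26, h27, h28, h29, h30, h31⟩
    exact ⟨h1, h2, h3, h4, h5, h6, h7, h8, h9, h10, h11, h12, h13, h14, h15, h16, h17, h18,
      h19, h20, h21, h22, h23, h24, h25, h26, h27, h28, h29, h30, h31⟩
  · rintro ⟨h1, h2, h3, h4, h5, h6, h7, h8, h9, h10, h11, h12, h13, h14, h15, h16, h17, h18,
      h19, h20, h21, h22, h23, h24, h25, h26, h27, h28, h29, h30, h31⟩
    exact ⟨h1, h2, h3, h4, h5, h6, h7, h8, h9, h10, h11, h12, h13, h14, h15, h16, h17, h18,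
      h19, h20, h21, h22, h23, h24, h25, h26, h27, h28, h29, h30, h31⟩

/-- Truth predicates over a frame. -/
def fSat : SO :=
  all 1 (imp (u1 10 1) (SO.and (all 2 (imp (u1 4 2) (neg (b2 11 2 1))))
    (SO.and (all 2 (all 3 (all 4 (imp (t3 0 2 3 4)
      (iff (b2 11 4 1) (imp (b2 11 2 1) (b2 11 3 1)))))))
    (all 2 (all 3 (imp (b2 2 2 3)
      (iff (b2 11 3 1) (all 4 (imp (u1 10 4) (imp (b2 10 1 4) (b2 11 2 4)))))))))))

def SatC {M : Type u} (Bo Im Bx Pt Rl T : List M → Prop) : Prop :=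
  ∀ s, Pt [s] → (∀ a, Bo [a] → ¬ T [a, s]) ∧
    (∀ a b c, Im [a, b, c] → (T [c, s] ↔ (T [a, s] → T [b, s]))) ∧
    (∀ a b, Bx [a, b] → (T [b, s] ↔ ∀ t, Pt [t] → Rl [s, t] → T [a, t]))

theorem eval_fSat {M : Type u} {v : ℕ → M} {U : ℕ → ℕ → List M → Prop} :
    eval fSat v U ↔ SatC (U 1 4) (U 3 0) (U 2 2) (U 1 10) (U 2 10) (U 2 11) := by
  simp (config := {decide := true}) only [fSat, SatC, eval_all, eval_imp, eval_and, eval_neg,
    eval_iff, eval_u1, eval_b2, eval_t3, Function.update_self, Function.update_of_ne, ne_eq]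

/-- Normal logics. -/
def fNL : SO := conjS
  [ all 1 (imp (u1 1 1) (imp (allR 1 30 (imp (all 2 (imp (u1 4 2) (neg (u1 30 2))))
      (imp (all 2 (all 3 (all 4 (imp (t3 0 2 3 4) (iff (u1 30 4) (imp (u1 30 2) (u1 30 3)))))))
        (u1 30 1)))) (u1 9 1))),
    all 1 (all 2 (all 3 (all 4 (all 5 (all 6 (all 7 (all 8 (imp (t3 0 1 2 3) (imp (b2 2 3 4)
      (imp (b2 2 1 5) (imp (b2 2 2 6) (imp (t3 0 5 6 7) (imp (t3 0 4 7 8) (u1 9 8)))))))))))))),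
    all 1 (all 2 (all 3 (imp (t3 0 1 2 3) (imp (u1 9 3) (imp (u1 9 1) (u1 9 2)))))),
    all 1 (all 2 (imp (b2 2 1 2) (imp (u1 9 1) (u1 9 2)))),
    allR 2 31 (imp (all 1 (imp (u1 1 1) (ex 2 (SO.and (u1 1 2) (b2 31 1 2)))))
      (imp (all 1 (all 2 (all 3 (imp (b2 31 1 2) (imp (b2 31 1 3) (eq 2 3))))))
      (imp (all 1 (imp (u1 4 1) (b2 31 1 1)))
      (imp (all 1 (all 2 (all 3 (all 4 (all 5 (all 6 (imp (t3 0 1 2 3) (imp (b2 31 1 4)
        (imp (b2 31 2 5) (imp (t3 0 4 5 6) (b2 31 3 6)))))))))))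
      (imp (all 1 (all 2 (all 3 (all 4 (imp (b2 2 1 2) (imp (b2 31 1 3) (imp (b2 2 3 4)
        (b2 31 2 4))))))))
        (all 1 (all 2 (imp (u1 1 1) (imp (u1 9 1) (imp (b2 31 1 2) (u1 9 2))))))))))) ]

structure NLC {M : Type u} (F Bo Im Bx L : List M → Prop) : Prop where
  l1 : ∀ a, F [a] → (∀ P : List M → Prop, (∀ b, Bo [b] → ¬ P [b]) →
    (∀ b c d, Im [b, c, d] → (P [d] ↔ (P [b] → P [c]))) → P [a]) → L [a]
  l2 : ∀ a b c d e f g h, Im [a, b, c] → Bx [c, d] → Bx [a, e] → Bx [b, f] → Im [e, f, g] →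
    Im [d, g, h] → L [h]
  l3 : ∀ a b c, Im [a, b, c] → L [c] → L [a] → L [b]
  l4 : ∀ a b, Bx [a, b] → L [a] → L [b]
  l5 : ∀ H : List M → Prop, (∀ a, F [a] → ∃ b, F [b] ∧ H [a, b]) →
    (∀ a b c, H [a, b] → H [a, c] → b = c) → (∀ a, Bo [a] → H [a, a]) →
    (∀ a b c a' b' c', Im [a, b, c] → H [a, a'] → H [b, b'] → Im [a', b', c'] → H [c, c']) →
    (∀ a b a' b', Bx [a, b] → H [a, a'] → Bx [a', b'] → H [b, b']) →
    ∀ a b, F [a] → L [a] → H [a, b] → L [b]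

theorem eval_fNL {M : Type u} {v : ℕ → M} {U : ℕ → ℕ → List M → Prop} :
    eval fNL v U ↔ NLC (U 1 1) (U 1 4) (U 3 0) (U 2 2) (U 1 9) := by
  rw [fNL, eval_conjS]
  simp (config := {decide := true}) only [List.mem_cons, List.not_mem_nil, or_false,
    forall_eq_or_imp, forall_eq, eval_ex, eval_all, eval_imp, eval_and, eval_neg, eval_eq,
    eval_iff,
    eval_allR, eval_u1, eval_b2, eval_t3, Function.update_self, Function.update_of_ne, ne_eq]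
  constructor
  · rintro ⟨h1, h2, h3, h4, h5⟩
    exact ⟨h1, h2, h3, h4, h5⟩
  · rintro ⟨h1, h2, h3, h4, h5⟩
    exact ⟨h1, h2, h3, h4, h5⟩

/-- Comprehension and extensionality for set points. -/
def fSet : SO :=
  SO.and (allR 1 30 (ex 1 (SO.and (u1 2 1) (all 2 (imp (u1 1 2) (iff (b2 3 2 1) (u1 30 2)))))))
    (all 1 (all 2 (imp (u1 2 1) (imp (u1 2 2) (imp
      (all 3 (imp (u1 1 3) (iff (b2 3 3 1) (b2 3 3 2)))) (eq 1 2))))))

def SetC {M : Type u} (F S El : List M → Prop) : Prop :=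
  (∀ X : List M → Prop, ∃ s, S [s] ∧ ∀ a, F [a] → (El [a, s] ↔ X [a])) ∧
    ∀ s t, S [s] → S [t] → (∀ a, F [a] → (El [a, s] ↔ El [a, t])) → s = t

theorem eval_fSet {M : Type u} {v : ℕ → M} {U : ℕ → ℕ → List M → Prop} :
    eval fSet v U ↔ SetC (U 1 1) (U 1 2) (U 2 3) := by
  simp (config := {decide := true}) only [fSet, SetC, eval_ex, eval_all, eval_imp, eval_and,
    eval_eq, eval_iff,
    eval_allR, eval_u1, eval_b2, Function.update_self, Function.update_of_ne, ne_eq]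

/-- The points of the canonical frame of the logic. -/
def fPt : SO := all 1 (iff (u1 10 1) (SO.and (u1 2 1)
  (SO.and (all 2 (imp (u1 1 2) (imp (u1 9 2) (b2 3 2 1))))
  (SO.and (all 2 (imp (u1 4 2) (neg (b2 3 2 1))))
    (all 2 (all 3 (all 4 (imp (t3 0 2 3 4)
      (iff (b2 3 4 1) (imp (b2 3 2 1) (b2 3 3 1)))))))))))

def PtC {M : Type u} (F Bo Im S El L Pt : List M → Prop) : Prop :=
  ∀ s, Pt [s] ↔ (S [s] ∧ (∀ a, F [a] → L [a] → El [a, s]) ∧ (∀ a, Bo [a] → ¬ El [a, s]) ∧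
    ∀ a b c, Im [a, b, c] → (El [c, s] ↔ (El [a, s] → El [b, s])))

theorem eval_fPt {M : Type u} {v : ℕ → M} {U : ℕ → ℕ → List M → Prop} :
    eval fPt v U ↔ PtC (U 1 1) (U 1 4) (U 3 0) (U 1 2) (U 2 3) (U 1 9) (U 1 10) := by
  simp (config := {decide := true}) only [fPt, PtC, eval_all, eval_imp, eval_and, eval_neg,
    eval_iff, eval_u1, eval_b2, eval_t3, Function.update_self, Function.update_of_ne, ne_eq]

/-- The accessibility relation of the canonical frame. -/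
def fRl : SO := all 1 (all 2 (iff (b2 10 1 2)
  (all 3 (all 4 (imp (b2 2 3 4) (imp (b2 3 4 1) (b2 3 3 2)))))))

def RlC {M : Type u} (Bx El Rl : List M → Prop) : Prop :=
  ∀ s t, Rl [s, t] ↔ ∀ a b, Bx [a, b] → El [b, s] → El [a, t]

theorem eval_fRl {M : Type u} {v : ℕ → M} {U : ℕ → ℕ → List M → Prop} :
    eval fRl v U ↔ RlC (U 2 2) (U 2 3) (U 2 10) := by
  simp (config := {decide := true}) only [fRl, RlC, eval_all, eval_imp,
    eval_iff, eval_b2, Function.update_self, Function.update_of_ne, ne_eq]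

/-- The formula coded by element variable 0 is canonical. -/
def fCan : SO :=
  allR 1 9 (imp fNL (imp (u1 9 0) (allR 1 10 (imp fPt (allR 2 10 (imp fRl
    (allR 2 11 (imp fSat (all 1 (imp (u1 10 1) (b2 11 0 1))))))))))) 

def CanC {M : Type u} (F S Bo Bx El Im : List M → Prop) (x : M) : Prop :=
  ∀ L : List M → Prop, NLC F Bo Im Bx L → L [x] → ∀ Pt : List M → Prop,
    PtC F Bo Im S El L Pt → ∀ Rl : List M → Prop, RlC Bx El Rl → ∀ T : List M → Prop,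
      SatC Bo Im Bx Pt Rl T → ∀ s, Pt [s] → T [x, s]

theorem eval_fCan {M : Type u} {v : ℕ → M} {U : ℕ → ℕ → List M → Prop} :
    eval fCan v U ↔ CanC (U 1 1) (U 1 2) (U 1 4) (U 2 2) (U 2 3) (U 3 0) (v 0) := by
  simp (config := {decide := true}) only [fCan, CanC, eval_all, eval_imp,
    eval_allR, eval_fNL, eval_fPt, eval_fRl, eval_fSat, eval_u1, eval_b2,
    Function.update_self, Function.update_of_ne, ne_eq]

/-- Families of frames with assignments, indexed by formulas. -/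
def fFam : SO := conjS
  [ all 1 (imp (u1 0 1) (ex 2 (SO.and (u1 0 2) (b2 22 1 2)))),
    all 1 (all 2 (all 3 (imp (b2 22 1 2) (imp (b2 22 1 3) (eq 2 3))))),
    all 1 (imp (u1 0 1) (ex 2 (SO.and (u1 0 2) (b2 23 1 2)))),
    all 1 (all 2 (all 3 (imp (b2 23 1 2) (imp (b2 23 1 3) (eq 2 3))))),
    all 1 (all 2 (imp (u1 0 1) (imp (u1 0 2) (ex 3 (SO.and (u1 0 3) (SO.and (u1 20 3)
      (SO.and (b2 22 3 1) (b2 23 3 2)))))))),
    all 1 (all 2 (imp (u1 0 1) (imp (u1 0 2) (ex 3 (SO.and (u1 0 3) (SO.and (neg (u1 20 3))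
      (SO.and (b2 22 3 1) (b2 23 3 2)))))))),
    all 1 (imp (u1 1 1) (ex 2 (b2 20 1 2))),
    all 1 (imp (u1 1 1) (ex 2 (b2 21 1 2))),
    all 1 (all 2 (all 3 (imp (b2 21 1 2) (imp (u1 0 3)
      (ex 4 (SO.and (b2 20 1 4) (t3 21 2 3 4))))))),
    all 1 (all 2 (all 3 (all 4 (imp (t3 21 1 2 3) (imp (t3 21 1 2 4) (eq 3 4)))))),
    all 1 (all 2 (all 3 (imp (b2 21 1 2) (imp (b2 20 1 3) (ex 4 (SO.and (b2 21 1 4)
      (SO.and (all 5 (imp (u1 3 5) (t3 21 4 5 3)))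
        (all 5 (all 6 (all 7 (imp (b2 0 5 6) (imp (t3 21 2 5 7) (t3 21 4 6 7)))))))))))))]

structure FamC {M : Type u} (N F Z EQ Sc Dm As Fa Fb Ap : List M → Prop) : Prop where
  fa0 : ∀ n, N [n] → ∃ i, N [i] ∧ Fa [n, i]
  fa1 : ∀ n i j, Fa [n, i] → Fa [n, j] → i = j
  fb0 : ∀ n, N [n] → ∃ i, N [i] ∧ Fb [n, i]
  fb1 : ∀ n i j, Fb [n, i] → Fb [n, j] → i = j
  fe : ∀ i j, N [i] → N [j] → ∃ n, N [n] ∧ EQ [n] ∧ Fa [n, i] ∧ Fb [n, j]
  fr : ∀ i j, N [i] → N [j] → ∃ n, N [n] ∧ ¬ EQ [n] ∧ Fa [n, i] ∧ Fb [n, j]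
  d0 : ∀ c, F [c] → ∃ x, Dm [c, x]
  a0 : ∀ c, F [c] → ∃ g, As [c, g]
  a1 : ∀ c g n, As [c, g] → N [n] → ∃ x, Dm [c, x] ∧ Ap [g, n, x]
  a2 : ∀ g n x y, Ap [g, n, x] → Ap [g, n, y] → x = y
  a3 : ∀ c g x, As [c, g] → Dm [c, x] → ∃ g', As [c, g'] ∧ (∀ n, Z [n] → Ap [g', n, x]) ∧
    ∀ n n' y, Sc [n, n'] → Ap [g, n, y] → Ap [g', n', y]

theorem eval_fFam {M : Type u} {v : ℕ → M} {U : ℕ → ℕ → List M → Prop} :
    eval fFam v U ↔ FamC (U 1 0) (U 1 1) (U 1 3) (U 1 20) (U 2 0) (U 2 20) (U 2 21) (U 2 22)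
      (U 2 23) (U 3 21) := by
  rw [fFam, eval_conjS]
  simp (config := {decide := true}) only [List.mem_cons, List.not_mem_nil, or_false,
    forall_eq_or_imp, forall_eq, eval_ex, eval_all, eval_imp, eval_and, eval_neg, eval_eq,
    eval_u1, eval_b2, eval_t3, Function.update_self, Function.update_of_ne, ne_eq]
  constructor
  · rintro ⟨h1, h2, h3, h4, h5, h6, h7, h8, h9, h10, h11⟩
    exact ⟨h1, h2, h3, h4, h5, h6, h7, h8, h9, h10, h11⟩
  · rintro ⟨h1, h2, h3, h4, h5, h6, h7, h8, h9, h10, h11⟩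
    exact ⟨h1, h2, h3, h4, h5, h6, h7, h8, h9, h10, h11⟩

/-- Validity of the formula coded by variable 0 in the frame with index variable 9. -/
def fMod : SO :=
  allR 1 10 (imp (all 1 (iff (u1 10 1) (b2 20 9 1))) (allR 2 10 (imp
    (all 1 (all 2 (iff (b2 10 1 2) (t3 20 9 1 2)))) (allR 2 11 (imp fSat
      (all 1 (imp (u1 10 1) (b2 11 0 1))))))))

def ModC {M : Type u} (Bo Bx Dm Im Rf : List M → Prop) (c x : M) : Prop :=
  ∀ Pt : List M → Prop, (∀ s, Pt [s] ↔ Dm [c, s]) → ∀ Rl : List M → Prop,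
    (∀ s t, Rl [s, t] ↔ Rf [c, s, t]) → ∀ T : List M → Prop, SatC Bo Im Bx Pt Rl T →
      ∀ s, Pt [s] → T [x, s]

theorem eval_fMod {M : Type u} {v : ℕ → M} {U : ℕ → ℕ → List M → Prop} :
    eval fMod v U ↔ ModC (U 1 4) (U 2 2) (U 2 20) (U 3 0) (U 3 20) (v 9) (v 0) := by
  simp (config := {decide := true}) only [fMod, ModC, eval_all, eval_imp, eval_iff,
    eval_allR, eval_fSat, eval_u1, eval_b2, eval_t3,
    Function.update_self, Function.update_of_ne, ne_eq]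

/-- The atomic clauses of first-order truth. -/
def fAt : SO :=
  all 1 (all 2 (all 3 (imp (b2 1 1 2) (imp (u1 10 3) (iff (b2 11 2 3)
    (SO.or (SO.and (u1 20 1) (ex 4 (ex 5 (ex 6 (SO.and (b2 22 1 4) (SO.and (b2 23 1 5)
      (SO.and (t3 21 3 4 6) (t3 21 3 5 6))))))))
    (SO.and (neg (u1 20 1)) (ex 4 (ex 5 (ex 6 (ex 7 (SO.and (b2 22 1 4) (SO.and (b2 23 1 5)
      (SO.and (t3 21 3 4 6) (SO.and (t3 21 3 5 7) (t3 20 9 6 7)))))))))))))))) 

def AtC {M : Type u} (EQ Va Fa Fb Rf Ap : List M → Prop) (c : M) (Pt T : List M → Prop) : Prop :=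
  ∀ n a g, Va [n, a] → Pt [g] → (T [a, g] ↔
    ((EQ [n] ∧ ∃ i j x, Fa [n, i] ∧ Fb [n, j] ∧ Ap [g, i, x] ∧ Ap [g, j, x]) ∨
      (¬ EQ [n] ∧ ∃ i j x y, Fa [n, i] ∧ Fb [n, j] ∧ Ap [g, i, x] ∧ Ap [g, j, y] ∧
        Rf [c, x, y])))

/-- First-order truth of the formula coded by variable 9 in the frame with that index. -/
def fFo : SO :=
  allR 1 10 (imp (all 1 (iff (u1 10 1) (b2 21 9 1))) (allR 2 10 (imp
    (all 1 (all 2 (iff (b2 10 1 2)
      (all 5 (all 6 (all 7 (imp (b2 0 5 6) (imp (t3 21 1 5 7) (t3 21 2 6 7)))))))))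
    (allR 2 11 (imp fSat (imp fAt (all 1 (imp (u1 10 1) (b2 11 9 1)))))))))

def FoC {M : Type u} (EQ Bo Sc Va Bx As Fa Fb Im Rf Ap : List M → Prop) (c : M) : Prop :=
  ∀ Pt : List M → Prop, (∀ g, Pt [g] ↔ As [c, g]) → ∀ Rl : List M → Prop,
    (∀ g g', Rl [g, g'] ↔ ∀ n n' y, Sc [n, n'] → Ap [g, n, y] → Ap [g', n', y]) →
    ∀ T : List M → Prop, SatC Bo Im Bx Pt Rl T → AtC EQ Va Fa Fb Rf Ap c Pt T →
      ∀ g, Pt [g] → T [c, g]

theorem eval_fFo {M : Type u} {v : ℕ → M} {U : ℕ → ℕ → List M → Prop} :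
    eval fFo v U ↔ FoC (U 1 20) (U 1 4) (U 2 0) (U 2 1) (U 2 2) (U 2 21) (U 2 22) (U 2 23)
      (U 3 0) (U 3 20) (U 3 21) (v 9) := by
  simp (config := {decide := true}) only [fFo, FoC, fAt, AtC, eval_all, eval_imp, eval_iff,
    eval_allR, eval_fSat, eval_u1, eval_b2, eval_t3, eval_ex, eval_and, eval_or, eval_neg,
    Function.update_self, Function.update_of_ne, ne_eq]

/-- The formula coded by variable 0 is elementary. -/
def fEl : SO := ex 9 (SO.and (u1 1 9) (iff fMod fFo))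

theorem eval_fEl {M : Type u} {v : ℕ → M} {U : ℕ → ℕ → List M → Prop} :
    eval fEl v U ↔ ∃ c, U 1 1 [c] ∧ (ModC (U 1 4) (U 2 2) (U 2 20) (U 3 0) (U 3 20) c (v 0) ↔
      FoC (U 1 20) (U 1 4) (U 2 0) (U 2 1) (U 2 2) (U 2 21) (U 2 22) (U 2 23)
      (U 3 0) (U 3 20) (U 3 21) c) := by
  simp (config := {decide := true}) only [fEl, eval_ex, eval_and, eval_iff, eval_fMod, eval_fFo,
    eval_u1, Function.update_self, Function.update_of_ne, ne_eq]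

/-! ### Codes of numbers and formulas -/

/-- Variable 0 is the numeral `n`. -/
def nmF : ℕ → SO
  | 0 => u1 3 0
  | n + 1 => ex 1 (SO.and (b2 0 1 0) (ex 0 (SO.and (eq 0 1) (nmF n))))

/-- Variable 0 is the code of the formula. -/
def cdF : Form → SO
  | .bot => u1 4 0
  | .var n => ex 1 (SO.and (b2 1 1 0) (ex 0 (SO.and (eq 0 1) (nmF n))))
  | .imp a b => ex 1 (ex 2 (SO.and (t3 0 1 2 0) (SO.and (ex 0 (SO.and (eq 0 1) (cdF a)))
      (ex 0 (SO.and (eq 0 2) (cdF b))))))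
  | .box a => ex 1 (SO.and (b2 2 1 0) (ex 0 (SO.and (eq 0 1) (cdF a))))

/-- The second-order formula expressing membership in `ECF`. -/
def theta (φ : Form) : SO :=
  SO.and (imp fSyn (imp fSet (all 0 (imp (cdF φ) fCan))))
    (imp fSyn (imp fFam (all 0 (imp (cdF φ) fEl))))

end Pool.Agent.Helper97.Ecf
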