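import Pool.Agent.Helper97.EcfUp1

/-!
# Models of the syntax axioms are standard
-/

universe u

namespace Pool.Agent.Helper97.Ecf

/-- The syntax relations are given by codes of numbers and formulas. -/
structure Std {M : Type u} (num : ℕ → M) (cd : Form → M)
    (N F Z Bo Sc Va Bx Im : List M → Prop) : Prop where
  ninj : Function.Injective num
  cinj : Function.Injective cd
  N : ∀ x, N [x] ↔ ∃ n, x = num n
  F : ∀ x, F [x] ↔ ∃ a, x = cd a
  Z : ∀ x, Z [x] ↔ x = num 0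
  Bo : ∀ x, Bo [x] ↔ x = cd .bot
  Sc : ∀ x y, Sc [x, y] ↔ ∃ n, x = num n ∧ y = num (n + 1)
  Va : ∀ x y, Va [x, y] ↔ ∃ n, x = num n ∧ y = cd (.var n)
  Bx : ∀ x y, Bx [x, y] ↔ ∃ a, x = cd a ∧ y = cd (.box a)
  Im : ∀ x y z, Im [x, y, z] ↔ ∃ a b, x = cd a ∧ y = cd b ∧ z = cd (.imp a b)

variable {M : Type u} {N F Z Bo Sc Va Bx Im : List M → Prop}

theorem Std.synC {num : ℕ → M} {cd : Form → M} (h : Std num cd N F Z Bo Sc Va Bx Im) :
    SynC N F Z Bo Sc Va Bx Im := by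
  constructor
  · exact ⟨num 0, (h.Z _).2 rfl⟩
  · intro x y hx hy
    rw [(h.Z _).1 hx, (h.Z _).1 hy]
  · intro x hx
    exact (h.N _).2 ⟨0, (h.Z _).1 hx⟩
  · intro x hx
    obtain ⟨n, rfl⟩ := (h.N _).1 hx
    exact ⟨num (n + 1), (h.Sc _ _).2 ⟨n, rfl, rfl⟩⟩
  · intro x y z h1 h2
    obtain ⟨n, rfl, rfl⟩ := (h.Sc _ _).1 h1
    obtain ⟨m, he, rfl⟩ := (h.Sc _ _).1 h2
    rw [h.ninj he]
  · intro x y z h1 h2
    obtain ⟨n, rfl, rfl⟩ := (h.Sc _ _).1 h1
    obtain ⟨m, rfl, he⟩ := (h.Sc _ _).1 h2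
    have := h.ninj he
    rw [show n = m by omega]
  · intro x y h1
    obtain ⟨n, rfl, rfl⟩ := (h.Sc _ _).1 h1
    exact ⟨(h.N _).2 ⟨_, rfl⟩, (h.N _).2 ⟨_, rfl⟩⟩
  · intro x y h1 h2
    obtain ⟨n, rfl, rfl⟩ := (h.Sc _ _).1 h1
    have := h.ninj ((h.Z _).1 h2)
    omega
  · intro X h0 hs x hx
    obtain ⟨n, rfl⟩ := (h.N _).1 hx
    clear hx
    induction n with
    | zero => exact h0 _ ((h.Z _).2 rfl)
    | succ n ih => exact hs _ _ ((h.Sc _ _).2 ⟨n, rfl, rfl⟩) ih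
  · intro x hx
    obtain ⟨n, rfl⟩ := (h.N _).1 hx
    exact ⟨cd (.var n), (h.Va _ _).2 ⟨n, rfl, rfl⟩⟩
  · intro x y z h1 h2
    obtain ⟨n, rfl, rfl⟩ := (h.Va _ _).1 h1
    obtain ⟨m, he, rfl⟩ := (h.Va _ _).1 h2
    rw [h.ninj he]
  · intro x y z h1 h2
    obtain ⟨n, rfl, rfl⟩ := (h.Va _ _).1 h1
    obtain ⟨m, rfl, he⟩ := (h.Va _ _).1 h2
    have := h.cinj he
    simp only [Form.var.injEq] at this
    rw [this]
  · intro x y h1
    obtain ⟨n, rfl, rfl⟩ := (h.Va _ _).1 h1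
    exact ⟨(h.N _).2 ⟨_, rfl⟩, (h.F _).2 ⟨_, rfl⟩⟩
  · exact ⟨cd .bot, (h.Bo _).2 rfl⟩
  · intro x y hx hy
    rw [(h.Bo _).1 hx, (h.Bo _).1 hy]
  · intro x hx
    exact (h.F _).2 ⟨_, (h.Bo _).1 hx⟩
  · intro x y hx hy
    obtain ⟨a, rfl⟩ := (h.F _).1 hx
    obtain ⟨b, rfl⟩ := (h.F _).1 hy
    exact ⟨cd (.imp a b), (h.Im _ _ _).2 ⟨a, b, rfl, rfl, rfl⟩⟩
  · intro x y z z' h1 h2
    obtain ⟨a, b, rfl, rfl, rfl⟩ := (h.Im _ _ _).1 h1
    obtain ⟨a', b', e1, e2, rfl⟩ := (h.Im _ _ _).1 h2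
    rw [h.cinj e1, h.cinj e2]
  · intro x y x' y' z h1 h2
    obtain ⟨a, b, rfl, rfl, rfl⟩ := (h.Im _ _ _).1 h1
    obtain ⟨a', b', rfl, rfl, he⟩ := (h.Im _ _ _).1 h2
    have := h.cinj he
    simp only [Form.imp.injEq] at this
    rw [this.1, this.2]
    exact ⟨rfl, rfl⟩
  · intro x y z h1
    obtain ⟨a, b, rfl, rfl, rfl⟩ := (h.Im _ _ _).1 h1
    exact ⟨(h.F _).2 ⟨_, rfl⟩, (h.F _).2 ⟨_, rfl⟩, (h.F _).2 ⟨_, rfl⟩⟩
  · intro x hx
    obtain ⟨a, rfl⟩ := (h.F _).1 hx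
    exact ⟨cd (.box a), (h.Bx _ _).2 ⟨a, rfl, rfl⟩⟩
  · intro x y z h1 h2
    obtain ⟨n, rfl, rfl⟩ := (h.Bx _ _).1 h1
    obtain ⟨m, he, rfl⟩ := (h.Bx _ _).1 h2
    rw [h.cinj he]
  · intro x y z h1 h2
    obtain ⟨n, rfl, rfl⟩ := (h.Bx _ _).1 h1
    obtain ⟨m, rfl, he⟩ := (h.Bx _ _).1 h2
    have := h.cinj he
    simp only [Form.box.injEq] at this
    rw [this]
  · intro x y h1
    obtain ⟨n, rfl, rfl⟩ := (h.Bx _ _).1 h1
    exact ⟨(h.F _).2 ⟨_, rfl⟩, (h.F _).2 ⟨_, rfl⟩⟩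
  · intro x y h1 h2
    obtain ⟨n, rfl, rfl⟩ := (h.Va _ _).1 h1
    exact Form.noConfusion (h.cinj ((h.Bo _).1 h2))
  · intro x y z w h1 h2
    obtain ⟨n, rfl, rfl⟩ := (h.Va _ _).1 h1
    obtain ⟨a, b, rfl, rfl, he⟩ := (h.Im _ _ _).1 h2
    exact Form.noConfusion (h.cinj he)
  · intro x y z h1 h2
    obtain ⟨n, rfl, rfl⟩ := (h.Va _ _).1 h1
    obtain ⟨a, rfl, he⟩ := (h.Bx _ _).1 h2
    exact Form.noConfusion (h.cinj he)
  · intro x y z h1 h2
    obtain rfl := (h.Bo _).1 h1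
    obtain ⟨a, b, rfl, rfl, he⟩ := (h.Im _ _ _).1 h2
    exact Form.noConfusion (h.cinj he)
  · intro x y h1 h2
    obtain rfl := (h.Bo _).1 h1
    obtain ⟨a, rfl, he⟩ := (h.Bx _ _).1 h2
    exact Form.noConfusion (h.cinj he)
  · intro x y z w h1 h2
    obtain ⟨n, rfl, rfl⟩ := (h.Bx _ _).1 h1
    obtain ⟨a, b, rfl, rfl, he⟩ := (h.Im _ _ _).1 h2
    exact Form.noConfusion (h.cinj he)
  · intro X hv hb hi hx x hF
    obtain ⟨a, rfl⟩ := (h.F _).1 hF
    clear hF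
    induction a with
    | var n => exact hv _ _ ((h.Va _ _).2 ⟨n, rfl, rfl⟩)
    | bot => exact hb _ ((h.Bo _).2 rfl)
    | imp a b iha ihb => exact hi _ _ _ ((h.Im _ _ _).2 ⟨a, b, rfl, rfl, rfl⟩) iha ihb
    | box a ih => exact hx _ _ ((h.Bx _ _).2 ⟨a, rfl, rfl⟩) ih

theorem SynC.std (h : SynC N F Z Bo Sc Va Bx Im) :
    ∃ num cd, Std num cd N F Z Bo Sc Va Bx Im := by
  classical
  obtain ⟨z, hz⟩ := h.z0
  obtain ⟨b, hb⟩ := h.b0
  let num' : ℕ → {x : M // N [x]} := fun n => Nat.rec ⟨z, h.zN z hz⟩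
    (fun _ x => ⟨(h.s0 x.1 x.2).choose, (h.sN _ _ (h.s0 x.1 x.2).choose_spec).2⟩) n
  have n0 : (num' 0).1 = z := rfl
  have n1 : ∀ n, Sc [(num' n).1, (num' (n + 1)).1] := fun n =>
    (h.s0 (num' n).1 (num' n).2).choose_spec
  let cd' : Form → {x : M // F [x]} := fun a => Form.rec
    (fun n => ⟨(h.v0 (num' n).1 (num' n).2).choose,
      (h.vF _ _ (h.v0 (num' n).1 (num' n).2).choose_spec).2⟩)
    ⟨b, h.bF b hb⟩
    (fun _ _ x y => ⟨(h.i0 x.1 y.1 x.2 y.2).choose,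
      (h.iF _ _ _ (h.i0 x.1 y.1 x.2 y.2).choose_spec).2.2⟩)
    (fun _ x => ⟨(h.x0 x.1 x.2).choose, (h.xF _ _ (h.x0 x.1 x.2).choose_spec).2⟩) a
  have cb : Bo [(cd' .bot).1] := hb
  have cv : ∀ n, Va [(num' n).1, (cd' (.var n)).1] := fun n =>
    (h.v0 (num' n).1 (num' n).2).choose_spec
  have ci : ∀ a b, Im [(cd' a).1, (cd' b).1, (cd' (.imp a b)).1] := fun a b =>
    (h.i0 (cd' a).1 (cd' b).1 (cd' a).2 (cd' b).2).choose_spec
  have cx : ∀ a, Bx [(cd' a).1, (cd' (.box a)).1] := fun a =>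
    (h.x0 (cd' a).1 (cd' a).2).choose_spec
  have hN : ∀ x, N [x] ↔ ∃ n, x = (num' n).1 := by
    intro x
    constructor
    · intro hx
      have := h.nI (fun l => ∃ n, l = [(num' n).1]) (fun y hy => ⟨0, by
        rw [h.z1 y z hy hz, n0]⟩) (by
        rintro y y' hyy ⟨n, hn⟩
        simp only [List.cons.injEq, and_true] at hn
        subst hn
        exact ⟨n + 1, by rw [h.s1 _ _ _ hyy (n1 n)]⟩) x hx
      obtain ⟨n, hn⟩ := this
      simp only [List.cons.injEq, and_true] at hn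
      exact ⟨n, hn⟩
    · rintro ⟨n, rfl⟩
      exact (num' n).2
  have hF : ∀ x, F [x] ↔ ∃ a, x = (cd' a).1 := by
    intro x
    constructor
    · intro hx
      have := h.fI (fun l => ∃ a, l = [(cd' a).1]) (by
        intro y y' hyy
        obtain ⟨n, rfl⟩ := (hN y).1 (h.vF _ _ hyy).1
        exact ⟨.var n, by rw [h.v1 _ _ _ hyy (cv n)]⟩) (by
        intro y hy
        exact ⟨.bot, by rw [h.b1 _ _ hy cb]⟩) (by
        rintro y y' y'' hyy ⟨a, ha⟩ ⟨a', ha'⟩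
        simp only [List.cons.injEq, and_true] at ha ha'
        subst ha ha'
        exact ⟨.imp a a', by rw [h.i1 _ _ _ _ hyy (ci a a')]⟩) (by
        rintro y y' hyy ⟨a, ha⟩
        simp only [List.cons.injEq, and_true] at ha
        subst ha
        exact ⟨.box a, by rw [h.x1 _ _ _ hyy (cx a)]⟩) x hx
      obtain ⟨n, hn⟩ := this
      simp only [List.cons.injEq, and_true] at hn
      exact ⟨n, hn⟩
    · rintro ⟨n, rfl⟩
      exact (cd' n).2
  have ninj : Function.Injective (fun n => (num' n).1) := by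
    intro n
    induction n with
    | zero =>
      intro m he
      cases m with
      | zero => rfl
      | succ m =>
        have h1 := n1 m
        simp only at he
        rw [← he] at h1
        exact absurd hz (h.sZ _ _ h1)
    | succ n ih =>
      intro m he
      cases m with
      | zero =>
        have h1 := n1 n
        simp only at he
        rw [he] at h1
        exact absurd hz (h.sZ _ _ h1)
      | succ m =>
        have h1 := n1 n
        simp only at he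
        rw [he] at h1
        rw [ih (h.s2 _ _ _ h1 (n1 m))]
  have cinj : Function.Injective (fun a => (cd' a).1) := by
    intro a
    induction a with
    | var n =>
      intro b he
      simp only at he
      have h1 := cv n
      rw [he] at h1
      cases b with
      | var m => rw [ninj (h.v2 _ _ _ h1 (cv m))]
      | bot => exact absurd cb (h.dvb _ _ h1)
      | imp c d => exact absurd (ci c d) (h.dvi _ _ _ _ h1)
      | box c => exact absurd (cx c) (h.dvx _ _ _ h1)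
    | bot =>
      intro b he
      simp only at he
      have h1 := cb
      rw [he] at h1
      cases b with
      | var m => exact absurd h1 (h.dvb _ _ (cv m))
      | bot => rfl
      | imp c d => exact absurd (ci c d) (h.dbi _ _ _ h1)
      | box c => exact absurd (cx c) (h.dbx _ _ h1)
    | imp a1 a2 ih1 ih2 =>
      intro b he
      simp only at he
      have h1 := ci a1 a2
      rw [he] at h1
      cases b with
      | var m => exact absurd h1 (h.dvi _ _ _ _ (cv m))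
      | bot => exact absurd h1 (h.dbi _ _ _ cb)
      | imp c d =>
        obtain ⟨e1, e2⟩ := h.i2 _ _ _ _ _ h1 (ci c d)
        rw [ih1 e1, ih2 e2]
      | box c => exact absurd h1 (h.dxi _ _ _ _ (cx c))
    | box a1 ih =>
      intro b he
      simp only at he
      have h1 := cx a1
      rw [he] at h1
      cases b with
      | var m => exact absurd h1 (h.dvx _ _ _ (cv m))
      | bot => exact absurd h1 (h.dbx _ _ cb)
      | imp c d => exact absurd (ci c d) (h.dxi _ _ _ _ h1)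
      | box c => rw [ih (h.x2 _ _ _ h1 (cx c))]
  refine ⟨fun n => (num' n).1, fun a => (cd' a).1, ninj, cinj, hN, hF, ?_, ?_, ?_, ?_, ?_, ?_⟩
  · intro x
    exact ⟨fun hx => h.z1 _ _ hx hz, fun hx => by rw [hx]; exact hz⟩
  · intro x
    exact ⟨fun hx => h.b1 _ _ hx cb, fun hx => by rw [hx]; exact cb⟩
  · intro x y
    constructor
    · intro hxy
      obtain ⟨n, rfl⟩ := (hN x).1 (h.sN _ _ hxy).1
      exact ⟨n, rfl, h.s1 _ _ _ hxy (n1 n)⟩
    · rintro ⟨n, rfl, rfl⟩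
      exact n1 n
  · intro x y
    constructor
    · intro hxy
      obtain ⟨n, rfl⟩ := (hN x).1 (h.vF _ _ hxy).1
      exact ⟨n, rfl, h.v1 _ _ _ hxy (cv n)⟩
    · rintro ⟨n, rfl, rfl⟩
      exact cv n
  · intro x y
    constructor
    · intro hxy
      obtain ⟨a, rfl⟩ := (hF x).1 (h.xF _ _ hxy).1
      exact ⟨a, rfl, h.x1 _ _ _ hxy (cx a)⟩
    · rintro ⟨n, rfl, rfl⟩
      exact cx n
  · intro x y z
    constructor
    · intro hxy
      obtain ⟨a, rfl⟩ := (hF x).1 (h.iF _ _ _ hxy).1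
      obtain ⟨b, rfl⟩ := (hF y).1 (h.iF _ _ _ hxy).2.1
      exact ⟨a, b, rfl, rfl, h.i1 _ _ _ _ hxy (ci a b)⟩
    · rintro ⟨a, b, rfl, rfl, rfl⟩
      exact ci a b

/-! ### Codes of formulas -/

open SO

theorem eval_nmF {v : ℕ → M} {U : ℕ → ℕ → List M → Prop} {num : ℕ → M} {cd : Form → M}
    (h : Std num cd (U 1 0) (U 1 1) (U 1 3) (U 1 4) (U 2 0) (U 2 1) (U 2 2) (U 3 0)) (n : ℕ) :
    eval (nmF n) v U ↔ v 0 = num n := by
  induction n generalizing v with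
  | zero => rw [nmF, eval_u1, h.Z]
  | succ n ih =>
    simp (config := {decide := true}) only [nmF, eval_ex, eval_and, eval_eq, ih, eval_b2,
      Function.update_self, Function.update_of_ne, ne_eq]
    constructor
    · rintro ⟨x, hx, y, rfl, rfl⟩
      obtain ⟨m, h1, h2⟩ := (h.Sc _ _).1 hx
      rw [h2, h.ninj h1]
    · intro hv
      exact ⟨num n, (h.Sc _ _).2 ⟨n, rfl, hv⟩, num n, rfl, rfl⟩

theorem eval_cdF {v : ℕ → M} {U : ℕ → ℕ → List M → Prop} {num : ℕ → M} {cd : Form → M}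
    (h : Std num cd (U 1 0) (U 1 1) (U 1 3) (U 1 4) (U 2 0) (U 2 1) (U 2 2) (U 3 0)) (φ : Form) :
    eval (cdF φ) v U ↔ v 0 = cd φ := by
  induction φ generalizing v with
  | var n =>
    simp (config := {decide := true}) only [cdF, eval_ex, eval_and, eval_eq, eval_nmF h, eval_b2,
      Function.update_self, Function.update_of_ne, ne_eq]
    constructor
    · rintro ⟨x, hx, y, rfl, rfl⟩
      obtain ⟨m, h1, h2⟩ := (h.Va _ _).1 hx
      rw [h2, h.ninj h1]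
    · intro hv
      exact ⟨num n, (h.Va _ _).2 ⟨n, rfl, hv⟩, num n, rfl, rfl⟩
  | bot => rw [cdF, eval_u1, h.Bo]
  | imp a b iha ihb =>
    simp (config := {decide := true}) only [cdF, eval_ex, eval_and, eval_eq, iha, ihb, eval_t3,
      Function.update_self, Function.update_of_ne, ne_eq]
    constructor
    · rintro ⟨x, y, hx, ⟨z, rfl, rfl⟩, z', rfl, rfl⟩
      obtain ⟨a', b', h1, h2, h3⟩ := (h.Im _ _ _).1 hx
      rw [h3, h.cinj h1, h.cinj h2]
    · intro hv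
      exact ⟨cd a, cd b, (h.Im _ _ _).2 ⟨a, b, rfl, rfl, hv⟩, ⟨cd a, rfl, rfl⟩, cd b, rfl, rfl⟩
  | box a ih =>
    simp (config := {decide := true}) only [cdF, eval_ex, eval_and, eval_eq, ih, eval_b2,
      Function.update_self, Function.update_of_ne, ne_eq]
    constructor
    · rintro ⟨x, hx, y, rfl, rfl⟩
      obtain ⟨m, h1, h2⟩ := (h.Bx _ _).1 hx
      rw [h2, h.cinj h1]
    · intro hv
      exact ⟨cd a, (h.Bx _ _).2 ⟨a, rfl, hv⟩, cd a, rfl, rfl⟩

end Pool.Agent.Helper97.Ecf
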