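import Pool.Agent.Helper97.EcfUp2
import Pool.Agent.Helper97.EcfCanon

/-!
# The second-order description of canonicity is correct
-/

universe u

namespace Pool.Agent.Helper97.Ecf

open Form

/-- Validity is invariant under isomorphism. -/
theorem valid_iso {W W' : Type u} {R : W → W → Prop} {R' : W' → W' → Prop} (e : W → W')
    (he : Function.Bijective e) (hR : ∀ x y, R x y ↔ R' (e x) (e y)) (φ : Form) :
    Valid R φ ↔ Valid R' φ := by
  have key : ∀ (V : ℕ → W' → Prop) (a : Form) (x : W),
      sat R (fun n x => V n (e x)) a x ↔ sat R' V a (e x) := by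
    intro V a
    induction a with
    | var n => intro x; rfl
    | bot => intro x; rfl
    | imp a b iha ihb => intro x; rw [sat_imp, sat_imp, iha, ihb]
    | box a ih =>
      intro x
      rw [sat_box, sat_box]
      constructor
      · intro h y hy
        obtain ⟨z, rfl⟩ := he.2 y
        exact (ih z).1 (h z ((hR x z).2 hy))
      · intro h y hy
        exact (ih y).2 (h _ ((hR x y).1 hy))
  constructor
  · intro h V x
    obtain ⟨z, rfl⟩ := he.2 x
    exact (key V φ z).1 (h _ z)
  · intro h V x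
    let V' : ℕ → W' → Prop := fun n y => ∃ x, e x = y ∧ V n x
    have e1 : (fun n x => V' n (e x)) = V := by
      funext n x
      refine propext ⟨?_, fun h => ⟨x, rfl, h⟩⟩
      rintro ⟨y, hy, hV⟩
      rwa [he.1 hy] at hV
    rw [← e1]
    exact (key V' φ x).2 (h V' (e x))

/-- Maximal consistent sets are the sets of formulas that contain the logic and respect the
propositional connectives. -/
theorem mcs_iff {L : Set Form} (N : NormalLogic L) (G : Set Form) :
    MCS L G ↔ L ⊆ G ∧ Form.bot ∉ G ∧ ∀ a b, (Form.imp a b ∈ G ↔ (a ∈ G → b ∈ G)) := by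
  constructor
  · intro h
    exact ⟨fun a ha => h.mem_of_logic N ha, h.bot_notMem N, fun a b => h.imp_mem_iff N a b⟩
  · rintro ⟨h1, h2, h3⟩
    have h4 : ∀ (l : List Form) (b : Form), (∀ a ∈ l, a ∈ G) → conseq l b ∈ G → b ∈ G := by
      intro l b
      induction l with
      | nil => exact fun _ h => h
      | cons a l ih =>
        intro hl hb
        exact ih (fun c hc => hl c (by simp [hc])) ((h3 _ _).1 hb (hl a (by simp)))
    refine ⟨fun l hl hcon => h2 (h4 l _ hl (h1 hcon)), ?_⟩
    intro D hGD hD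
    refine Set.Subset.antisymm (fun a ha => ?_) hGD
    by_contra hn
    have h5 : Form.imp a .bot ∈ G := (h3 _ _).2 fun h => absurd h hn
    refine hD [a, Form.imp a .bot] ?_ (N.taut _ ?_)
    · intro c hc
      simp only [List.mem_cons, List.not_mem_nil, or_false] at hc
      rcases hc with rfl | rfl
      · exact ha
      · exact hGD h5
    · intro v
      simp only [conseq, List.foldr, pval_imp, pval_bot]
      tauto

variable {M : Type u} {N F Z Bo Sc Va Bx Im : List M → Prop} {num : ℕ → M} {cd : Form → M}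

theorem nlc_iff (h : Std num cd N F Z Bo Sc Va Bx Im) (L : List M → Prop) :
    NLC F Bo Im Bx L ↔ NormalLogic {a | L [cd a]} := by
  have hF : ∀ a, F [cd a] := fun a => (h.F _).2 ⟨a, rfl⟩
  have hB : Bo [cd .bot] := (h.Bo _).2 rfl
  have hI : ∀ a b, Im [cd a, cd b, cd (.imp a b)] := fun a b => (h.Im _ _ _).2 ⟨a, b, rfl, rfl, rfl⟩
  have hX : ∀ a, Bx [cd a, cd (.box a)] := fun a => (h.Bx _ _).2 ⟨a, rfl, rfl⟩
  constructor
  · intro hL
    refine ⟨?_, ?_, ?_, ?_, ?_⟩
    · intro a ha
      refine hL.l1 _ (hF a) fun P h1 h2 => ?_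
      have key : ∀ b, pval (fun b => P [cd b]) b ↔ P [cd b] := by
        intro b
        induction b with
        | var n => rfl
        | bot => exact iff_of_false (fun h => h) (h1 _ hB)
        | imp b c ihb ihc => rw [pval_imp, ihb, ihc]; exact (h2 _ _ _ (hI b c)).symm
        | box b ih => rfl
      exact (key a).1 (ha _)
    · exact hL.l2 _ _ _ _ _ _ _ _ (hI (.var 0) (.var 1)) (hX _) (hX _) (hX _) (hI _ _) (hI _ _)
    · intro a b hab ha
      exact hL.l3 _ _ _ (hI a b) hab ha
    · intro a ha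
      exact hL.l4 _ _ (hX a) ha
    · intro a s ha
      refine hL.l5 (fun l => ∃ a, l = [cd a, cd (a.subst s)]) ?_ ?_ ?_ ?_ ?_ (cd a)
        (cd (a.subst s)) (hF a) ha ⟨a, rfl⟩
      · intro x hx
        obtain ⟨b, rfl⟩ := (h.F _).1 hx
        exact ⟨_, hF _, b, rfl⟩
      · rintro x y z ⟨b, hb⟩ ⟨c, hc⟩
        simp only [List.cons.injEq, and_true] at hb hc
        obtain ⟨rfl, rfl⟩ := hb
        obtain ⟨h1, rfl⟩ := hc
        rw [h.cinj h1]
      · intro x hx
        rw [(h.Bo _).1 hx]
        exact ⟨.bot, rfl⟩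
      · rintro x y z x' y' z' hxyz ⟨b, hb⟩ ⟨c, hc⟩ hxyz'
        simp only [List.cons.injEq, and_true] at hb hc
        obtain ⟨rfl, rfl⟩ := hb
        obtain ⟨rfl, rfl⟩ := hc
        obtain ⟨b', c', e1, e2, rfl⟩ := (h.Im _ _ _).1 hxyz
        obtain ⟨b'', c'', e3, e4, rfl⟩ := (h.Im _ _ _).1 hxyz'
        refine ⟨.imp b c, ?_⟩
        rw [← h.cinj e1, ← h.cinj e2, ← h.cinj e3, ← h.cinj e4]
        rfl
      · rintro x y x' y' hxy ⟨b, hb⟩ hxy'
        simp only [List.cons.injEq, and_true] at hb
        obtain ⟨rfl, rfl⟩ := hb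
        obtain ⟨b', e1, rfl⟩ := (h.Bx _ _).1 hxy
        obtain ⟨b'', e3, rfl⟩ := (h.Bx _ _).1 hxy'
        refine ⟨.box b, ?_⟩
        rw [← h.cinj e1, ← h.cinj e3]
        rfl
  · intro hN
    refine ⟨?_, ?_, ?_, ?_, ?_⟩
    · intro x hx hP
      obtain ⟨a, rfl⟩ := (h.F _).1 hx
      refine hN.taut a fun v => ?_
      have := hP (fun l => ∃ b, l = [cd b] ∧ pval v b) ?_ ?_
      · obtain ⟨b, hb, hv⟩ := this
        simp only [List.cons.injEq, and_true] at hb
        rwa [h.cinj hb]
      · rintro y hy ⟨b, hb, hv⟩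
        simp only [List.cons.injEq, and_true] at hb
        rw [(h.Bo _).1 hy] at hb
        rw [← h.cinj hb] at hv
        exact hv
      · intro x y z hxyz
        obtain ⟨b, c, rfl, rfl, rfl⟩ := (h.Im _ _ _).1 hxyz
        have key : ∀ a, (∃ b, [cd a] = [cd b] ∧ pval v b) ↔ pval v a := by
          intro a
          constructor
          · rintro ⟨b, hb, hv⟩
            simp only [List.cons.injEq, and_true] at hb
            rwa [h.cinj hb]
          · intro hv
            exact ⟨a, rfl, hv⟩
        rw [key, key, key, pval_imp]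
    · intro x y z x1 x2 x3 x4 x5 h1 h2 h3 h4 h5 h6
      obtain ⟨a, b, rfl, rfl, rfl⟩ := (h.Im _ _ _).1 h1
      obtain ⟨_, e, rfl⟩ := (h.Bx _ _).1 h2
      obtain rfl := h.cinj e
      obtain ⟨_, e, rfl⟩ := (h.Bx _ _).1 h3
      obtain rfl := h.cinj e
      obtain ⟨_, e, rfl⟩ := (h.Bx _ _).1 h4
      obtain rfl := h.cinj e
      obtain ⟨_, _, e, e', rfl⟩ := (h.Im _ _ _).1 h5
      obtain rfl := h.cinj e
      obtain rfl := h.cinj e'
      obtain ⟨_, _, e, e', rfl⟩ := (h.Im _ _ _).1 h6
      obtain rfl := h.cinj e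
      obtain rfl := h.cinj e'
      exact hN.K a b
    · intro x y z h1 h2 h3
      obtain ⟨a, b, rfl, rfl, rfl⟩ := (h.Im _ _ _).1 h1
      exact hN.mp a b h2 h3
    · intro x y h1 h2
      obtain ⟨a, rfl, rfl⟩ := (h.Bx _ _).1 h1
      exact hN.nec a h2
    · intro H h1 h2 h3 h4 h5 x y hx hL hH
      obtain ⟨a, rfl⟩ := (h.F _).1 hx
      have hs : ∀ n, ∃ b, H [cd (.var n), cd b] := by
        intro n
        obtain ⟨y, hy, hy'⟩ := h1 _ (hF (.var n))
        obtain ⟨b, rfl⟩ := (h.F _).1 hy
        exact ⟨b, hy'⟩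
      choose s hs using hs
      have key : ∀ a : Form, H [cd a, cd (a.subst s)] := by
        intro a
        induction a with
        | var n => exact hs n
        | bot => exact h3 _ hB
        | imp a b iha ihb => exact h4 _ _ _ _ _ _ (hI a b) iha ihb (hI _ _)
        | box a ih => exact h5 _ _ _ _ (hX a) ih (hX _)
      rw [h2 _ _ _ hH (key a)]
      exact hN.subst a s hL

/-- Universal quantification over truth predicates expresses validity. -/
theorem satC_iff (h : Std num cd N F Z Bo Sc Va Bx Im) (Pt Rl : List M → Prop) (φ : Form) :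
    (∀ T, SatC Bo Im Bx Pt Rl T → ∀ s, Pt [s] → T [cd φ, s]) ↔
      Valid (fun x y : {s : M // Pt [s]} => Rl [x.1, y.1]) φ := by
  have hB : Bo [cd .bot] := (h.Bo _).2 rfl
  have hI : ∀ a b, Im [cd a, cd b, cd (.imp a b)] := fun a b => (h.Im _ _ _).2 ⟨a, b, rfl, rfl, rfl⟩
  have hX : ∀ a, Bx [cd a, cd (.box a)] := fun a => (h.Bx _ _).2 ⟨a, rfl, rfl⟩
  constructor
  · intro hT V x
    obtain ⟨T0, key⟩ : ∃ T0 : List M → Prop, ∀ (a : Form) (s : M) (hs : Pt [s]), T0 [cd a, s] ↔
        sat (fun x y : {s : M // Pt [s]} => Rl [x.1, y.1]) V a ⟨s, hs⟩ := by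
      refine ⟨fun l => ∃ (a' : Form) (s' : M) (hs' : Pt [s']), l = [cd a', s'] ∧
          sat (fun x y : {s : M // Pt [s]} => Rl [x.1, y.1]) V a' ⟨s', hs'⟩, ?_⟩
      intro a s hs
      constructor
      · rintro ⟨a', s', hs', he, hsat⟩
        simp only [List.cons.injEq, and_true] at he
        obtain ⟨e1, rfl⟩ := he
        rw [h.cinj e1]
        exact hsat
      · intro hsat
        exact ⟨a, s, hs, rfl, hsat⟩
    refine (key φ x.1 x.2).1 (hT T0 ?_ x.1 x.2)
    intro s hs
    refine ⟨?_, ?_, ?_⟩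
    · intro a ha
      rw [(h.Bo _).1 ha, key _ _ hs]
      exact fun h => h
    · intro a b c habc
      obtain ⟨a, b, rfl, rfl, rfl⟩ := (h.Im _ _ _).1 habc
      rw [key _ _ hs, key _ _ hs, key _ _ hs, sat_imp]
    · intro a b hab
      obtain ⟨a, rfl, rfl⟩ := (h.Bx _ _).1 hab
      rw [key _ _ hs, sat_box]
      constructor
      · intro hb t ht hr
        exact (key _ _ ht).2 (hb ⟨t, ht⟩ hr)
      · intro hb t hr
        exact (key _ _ t.2).1 (hb t.1 t.2 hr)
  · intro hV T hT s hs
    have key : ∀ (a : Form) (x : {s : M // Pt [s]}), T [cd a, x.1] ↔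
        sat (fun x y : {s : M // Pt [s]} => Rl [x.1, y.1]) (fun n x => T [cd (.var n), x.1]) a x := by
      intro a
      induction a with
      | var n => intro x; rfl
      | bot =>
        intro x
        exact iff_of_false ((hT x.1 x.2).1 _ hB) (fun h => h)
      | imp a b iha ihb =>
        intro x
        rw [sat_imp, ← iha, ← ihb]
        exact (hT x.1 x.2).2.1 _ _ _ (hI a b)
      | box a ih =>
        intro x
        rw [sat_box, (hT x.1 x.2).2.2 _ _ (hX a)]
        constructor
        · intro hb t hr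
          exact (ih t).1 (hb t.1 t.2 hr)
        · intro hb t ht hr
          exact (ih ⟨t, ht⟩).2 (hb ⟨t, ht⟩ hr)
    exact (key φ ⟨s, hs⟩).2 (hV _ _)

theorem canC_iff (h : Std num cd N F Z Bo Sc Va Bx Im) {S El : List M → Prop}
    (hS : SetC F S El) (φ : Form) : CanC F S Bo Bx El Im (cd φ) ↔ Canonical φ := by
  have hF : ∀ a, F [cd a] := fun a => (h.F _).2 ⟨a, rfl⟩
  -- the canonical frame is isomorphic to the frame of points
  have main : ∀ (L Pt Rl : List M → Prop) (NL : NormalLogic {a | L [cd a]}),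
      PtC F Bo Im S El L Pt → RlC Bx El Rl →
      (Valid (fun x y : {s : M // Pt [s]} => Rl [x.1, y.1]) φ ↔
        (∀ (V : ℕ → CanonPt {a | L [cd a]} → Prop) w,
          sat (canonRel {a | L [cd a]}) V φ w)) := by
    intro L Pt Rl NL hPt hRl
    have hm : ∀ s, Pt [s] ↔ S [s] ∧ MCS {a | L [cd a]} {a | El [cd a, s]} := by
      intro s
      rw [hPt s, mcs_iff NL]
      refine and_congr_right fun _ => ?_
      refine and_congr ?_ (and_congr ?_ ?_)
      · constructor
        · intro h1 a ha
          exact h1 _ (hF a) ha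
        · intro h1 x hx hL
          obtain ⟨a, rfl⟩ := (h.F _).1 hx
          exact h1 hL
      · constructor
        · intro h1
          exact h1 _ ((h.Bo _).2 rfl)
        · intro h1 x hx
          rw [(h.Bo _).1 hx]
          exact h1
      · constructor
        · intro h1 a b
          exact h1 _ _ _ ((h.Im _ _ _).2 ⟨a, b, rfl, rfl, rfl⟩)
        · intro h1 x y z hxyz
          obtain ⟨a, b, rfl, rfl, rfl⟩ := (h.Im _ _ _).1 hxyz
          exact h1 a b
    let e : {s : M // Pt [s]} → CanonPt {a | L [cd a]} := fun s =>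
      ⟨{a | El [cd a, s.1]}, ((hm s.1).1 s.2).2⟩
    have hbij : Function.Bijective e := by
      constructor
      · intro s t hst
        have h1 : {a | El [cd a, s.1]} = {a | El [cd a, t.1]} := congrArg Subtype.val hst
        refine Subtype.ext (hS.2 _ _ ((hm s.1).1 s.2).1 ((hm t.1).1 t.2).1 fun x hx => ?_)
        obtain ⟨a, rfl⟩ := (h.F _).1 hx
        exact Set.ext_iff.1 h1 a
      · rintro ⟨G, hG⟩
        obtain ⟨s, hs, hEl⟩ := hS.1 (fun l => ∃ a ∈ G, l = [cd a])
        have h1 : {a | El [cd a, s]} = G := by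
          ext a
          change El [cd a, s] ↔ _
          rw [hEl _ (hF a)]
          constructor
          · rintro ⟨b, hb, he⟩
            simp only [List.cons.injEq, and_true] at he
            rwa [h.cinj he]
          · intro ha
            exact ⟨a, ha, rfl⟩
        refine ⟨⟨s, (hm s).2 ⟨hs, by rw [h1]; exact hG⟩⟩, Subtype.ext h1⟩
    -- transport of validity
    have hR : ∀ x y : {s : M // Pt [s]}, Rl [x.1, y.1] ↔ canonRel _ (e x) (e y) := by
      intro x y
      rw [hRl]
      constructor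
      · intro h1 a ha
        exact h1 _ _ ((h.Bx _ _).2 ⟨a, rfl, rfl⟩) ha
      · intro h1 a b hab hb
        obtain ⟨a, rfl, rfl⟩ := (h.Bx _ _).1 hab
        exact h1 a hb
    have key : ∀ (V : ℕ → CanonPt {a | L [cd a]} → Prop) (a : Form) (x : {s : M // Pt [s]}),
        sat (fun x y : {s : M // Pt [s]} => Rl [x.1, y.1]) (fun n x => V n (e x)) a x ↔
          sat (canonRel {a | L [cd a]}) V a (e x) := by
      intro V a
      induction a with
      | var n => intro x; rfl
      | bot => intro x; rfl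
      | imp a b iha ihb => intro x; rw [sat_imp, sat_imp, iha, ihb]
      | box a ih =>
        intro x
        rw [sat_box, sat_box]
        constructor
        · intro h y hy
          obtain ⟨z, rfl⟩ := hbij.2 y
          exact (ih z).1 (h z ((hR x z).2 hy))
        · intro h y hy
          exact (ih y).2 (h _ ((hR x y).1 hy))
    constructor
    · intro hv V x
      obtain ⟨z, rfl⟩ := hbij.2 x
      exact (key V φ z).1 (hv _ z)
    · intro hv V x
      have e1 : (fun (n : ℕ) (x : {s : M // Pt [s]}) => ∃ x', e x' = e x ∧ V n x') = V := by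
        funext n x
        refine propext ⟨?_, fun h => ⟨x, rfl, h⟩⟩
        rintro ⟨y, hy, hV⟩
        rwa [hbij.1 hy] at hV
      have h9 := key (fun n y => ∃ x, e x = y ∧ V n x) φ x
      rw [e1] at h9
      exact h9.2 (hv _ (e x))
  constructor
  · intro hC L NL hφ V w
    have e0 : {a : Form | (fun l : List M => ∃ a ∈ L, l = [cd a]) [cd a]} = L := by
      ext a
      constructor
      · rintro ⟨b, hb, he⟩
        simp only [List.cons.injEq, and_true] at he
        rwa [h.cinj he]
      · intro ha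
        exact ⟨a, ha, rfl⟩
    have NL' : NormalLogic {a : Form | (fun l : List M => ∃ a ∈ L, l = [cd a]) [cd a]} := by
      rw [e0]; exact NL
    have hPt : PtC F Bo Im S El (fun l => ∃ a ∈ L, l = [cd a]) (fun l => ∃ s, l = [s] ∧
        (S [s] ∧ (∀ a, F [a] → (∃ b ∈ L, [a] = [cd b]) → El [a, s]) ∧ (∀ a, Bo [a] → ¬ El [a, s]) ∧
    ∀ a b c, Im [a, b, c] → (El [c, s] ↔ (El [a, s] → El [b, s])))) := by
      intro s
      constructor
      · rintro ⟨s', hs', h1⟩
        simp only [List.cons.injEq, and_true] at hs'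
        subst hs'
        exact h1
      · intro h1
        exact ⟨s, rfl, h1⟩
    have hRl : RlC Bx El (fun l => ∃ s t, l = [s, t] ∧
        ∀ a b, Bx [a, b] → El [b, s] → El [a, t]) := by
      intro s t
      constructor
      · rintro ⟨s', t', hs', h1⟩
        simp only [List.cons.injEq, and_true] at hs'
        obtain ⟨rfl, rfl⟩ := hs'
        exact h1
      · intro h1
        exact ⟨s, t, rfl, h1⟩
    have h2 := (main _ _ _ NL' hPt hRl).1 ((satC_iff h _ _ φ).1 fun T hT s hs =>
      hC _ ((nlc_iff h _).2 NL') ⟨φ, hφ, rfl⟩ _ hPt _ hRl T hT s hs)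
    have h3 : ∀ (L' : Set Form), L' = L → (∀ (V : ℕ → CanonPt L' → Prop) w,
        sat (canonRel L') V φ w) → ∀ (V : ℕ → CanonPt L → Prop) w, sat (canonRel L) V φ w := by
      rintro L' rfl h
      exact h
    exact h3 _ e0 h2 V w
  · intro hC L hL hφ Pt hPt Rl hRl T hT s hs
    have NL := (nlc_iff h L).1 hL
    exact (satC_iff h Pt Rl φ).2 ((main L Pt Rl NL hPt hRl).2 (hC _ NL hφ)) T hT s hs

end Pool.Agent.Helper97.Ecf
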