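import Pool.Agent.Helper97.EcfUp3
import Pool.Agent.Helper97.EcfFO

/-!
# The second-order description of elementarity is correct
-/

universe u

namespace Pool.Agent.Helper97.Ecf

open Form FirstOrder

/-- Adding a value in front of an assignment. -/
def scons {W : Type u} (x : W) (g : ℕ → W) : ℕ → W
  | 0 => x
  | n + 1 => g n

/-- Modal formulas read as first-order formulas: variables are atomic formulas, boxes are
universal quantifiers. -/
def fev {W : Type u} (A : (ℕ → W) → ℕ → Prop) : Form → (ℕ → W) → Prop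
  | .var n, g => A g n
  | .bot, _ => False
  | .imp a b, g => fev A a g → fev A b g
  | .box a, g => ∀ x, fev A a (scons x g)

/-- The atoms given by an indexing. -/
def atm {W : Type u} (R : W → W → Prop) (eq : ℕ → Prop) (fa fb : ℕ → ℕ) (g : ℕ → W) (n : ℕ) :
    Prop :=
  (eq n ∧ g (fa n) = g (fb n)) ∨ (¬ eq n ∧ R (g (fa n)) (g (fb n)))

theorem term_eq {n : ℕ} (t : frameLang.Term (Empty ⊕ Fin n)) :
    ∃ i : Fin n, t = Language.Term.var (Sum.inr i) := by
  cases t with
  | var x =>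
    cases x with
    | inl e => exact e.elim
    | inr i => exact ⟨i, rfl⟩
  | func f _ => exact nomatch f

/-- Every first-order formula is the reading of some modal formula. -/
theorem exists_form (eq : ℕ → Prop) (fa fb : ℕ → ℕ)
    (hE : ∀ i j, ∃ n, eq n ∧ fa n = i ∧ fb n = j)
    (hR : ∀ i j, ∃ n, ¬ eq n ∧ fa n = i ∧ fb n = j) {n : ℕ}
    (φ : frameLang.BoundedFormula Empty n) :
    ∃ a : Form, ∀ (W : Type u) (R : W → W → Prop) (xs : Fin n → W) (g : ℕ → W),
      (∀ i : Fin n, g (n - 1 - i) = xs i) →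
      (@Language.BoundedFormula.Realize frameLang W (frameStructure R) Empty n φ default xs ↔
        fev (atm R eq fa fb) a g) := by
  induction φ with
  | falsum => exact ⟨.bot, fun W R xs g _ => Iff.rfl⟩
  | @equal n t1 t2 =>
    obtain ⟨i, rfl⟩ := term_eq t1
    obtain ⟨j, rfl⟩ := term_eq t2
    obtain ⟨k, hk, h1, h2⟩ := hE (n - 1 - i) (n - 1 - j)
    refine ⟨.var k, fun W R xs g hg => ?_⟩
    change xs i = xs j ↔ _
    rw [fev, atm, h1, h2, hg, hg]
    tauto
  | @rel n l r ts =>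
    cases r
    obtain ⟨i, hi⟩ := term_eq (ts 0)
    obtain ⟨j, hj⟩ := term_eq (ts 1)
    obtain ⟨k, hk, h1, h2⟩ := hR (n - 1 - i) (n - 1 - j)
    refine ⟨.var k, fun W R xs g hg => ?_⟩
    let _ := frameStructure R
    change R ((ts 0).realize (Sum.elim default xs)) ((ts 1).realize (Sum.elim default xs)) ↔ _
    rw [fev, atm, h1, h2, hg, hg, hi, hj]
    change R (xs i) (xs j) ↔ _
    tauto
  | imp φ ψ ih1 ih2 =>
    obtain ⟨a, ha⟩ := ih1
    obtain ⟨b, hb⟩ := ih2
    exact ⟨.imp a b, fun W R xs g hg => imp_congr (ha W R xs g hg) (hb W R xs g hg)⟩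
  | @all n φ ih =>
    obtain ⟨a, ha⟩ := ih
    refine ⟨.box a, fun W R xs g hg => forall_congr' fun x => ha W R _ _ ?_⟩
    intro i
    refine Fin.lastCases ?_ (fun i => ?_) i
    · rw [Fin.snoc_last, Fin.val_last, show n + 1 - 1 - n = 0 by omega]
      rfl
    · rw [Fin.snoc_castSucc, Fin.val_castSucc,
        show n + 1 - 1 - (i : ℕ) = (n - 1 - i) + 1 by have := i.2; omega]
      exact hg i

/-- Conversely, readings of modal formulas are first-order with named variables. -/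
theorem exists_fo (eq : ℕ → Prop) (fa fb : ℕ → ℕ) (a : Form) :
    ∃ K, ∀ k, K ≤ k → ∃ c : FO, ∀ (W : Type u) (R : W → W → Prop) (v : ℕ → W),
      (FO.eval R c v ↔ fev (atm R eq fa fb) a (fun i => v (i + k))) := by
  classical
  induction a with
  | var n =>
    refine ⟨0, fun k _ => ?_⟩
    by_cases he : eq n
    · refine ⟨.eq (fa n + k) (fb n + k), fun W R v => ?_⟩
      rw [fev, atm, FO.eval_eq]
      tauto
    · refine ⟨.rel (fa n + k) (fb n + k), fun W R v => ?_⟩
      rw [fev, atm, FO.eval_rel]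
      tauto
  | bot => exact ⟨0, fun k _ => ⟨.bot, fun W R v => Iff.rfl⟩⟩
  | imp a b iha ihb =>
    obtain ⟨K1, h1⟩ := iha
    obtain ⟨K2, h2⟩ := ihb
    refine ⟨max K1 K2, fun k hk => ?_⟩
    obtain ⟨c1, h1⟩ := h1 k (le_trans (le_max_left _ _) hk)
    obtain ⟨c2, h2⟩ := h2 k (le_trans (le_max_right _ _) hk)
    exact ⟨.imp c1 c2, fun W R v => imp_congr (h1 W R v) (h2 W R v)⟩
  | box a ih =>
    obtain ⟨K, h⟩ := ih
    refine ⟨K + 1, fun k hk => ?_⟩
    obtain ⟨c, hc⟩ := h (k - 1) (by omega)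
    refine ⟨.all (k - 1) c, fun W R v => ?_⟩
    rw [FO.eval_all, fev]
    refine forall_congr' fun x => ?_
    rw [hc]
    have : (fun i => Function.update v (k - 1) x (i + (k - 1))) = scons x (fun i => v (i + k)) := by
      funext i
      cases i with
      | zero => simp [scons]
      | succ i =>
        rw [Function.update_of_ne (by omega), scons]
        congr 1
        omega
    rw [this]

theorem scons_eta {W : Type u} (g : ℕ → W) : scons (g 0) (fun n => g (n + 1)) = g := by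
  funext n
  cases n <;> rfl

theorem forall_box {W : Type u} (A : (ℕ → W) → ℕ → Prop) (a : Form) (m : ℕ) :
    (∀ g, fev A (Form.box^[m] a) g) ↔ ∀ g, fev A a g := by
  induction m with
  | zero => rfl
  | succ m ih =>
    rw [Function.iterate_succ_apply', ← ih]
    constructor
    · intro h g
      have := h (fun n => g (n + 1)) (g 0)
      rwa [scons_eta] at this
    · intro h g x
      exact h _

/-- Truth depends on finitely many values. -/
theorem exists_bdd (eq : ℕ → Prop) (fa fb : ℕ → ℕ) (a : Form) :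
    ∃ m, ∀ (W : Type u) (R : W → W → Prop) (g g' : ℕ → W), (∀ i < m, g i = g' i) →
      (fev (atm R eq fa fb) a g ↔ fev (atm R eq fa fb) a g') := by
  induction a with
  | var n =>
    refine ⟨fa n + fb n + 1, fun W R g g' h => ?_⟩
    rw [fev, fev, atm, atm, h _ (by omega), h _ (by omega)]
  | bot => exact ⟨0, fun W R g g' _ => Iff.rfl⟩
  | imp a b iha ihb =>
    obtain ⟨m1, h1⟩ := iha
    obtain ⟨m2, h2⟩ := ihb
    exact ⟨max m1 m2, fun W R g g' h => imp_congr
      (h1 W R g g' fun i hi => h i (lt_of_lt_of_le hi (le_max_left _ _)))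
      (h2 W R g g' fun i hi => h i (lt_of_lt_of_le hi (le_max_right _ _)))⟩
  | box a ih =>
    obtain ⟨m, h⟩ := ih
    refine ⟨m, fun W R g g' hg => forall_congr' fun x => h W R _ _ fun i hi => ?_⟩
    cases i with
    | zero => rfl
    | succ i => exact hg i (by omega)

theorem bdd_box (eq : ℕ → Prop) (fa fb : ℕ → ℕ) (a : Form) (m : ℕ)
    (h : ∀ (W : Type u) (R : W → W → Prop) (g g' : ℕ → W), (∀ i < m, g i = g' i) →
      (fev (atm R eq fa fb) a g ↔ fev (atm R eq fa fb) a g')) (k : ℕ) :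
    ∀ (W : Type u) (R : W → W → Prop) (g g' : ℕ → W), (∀ i < m - k, g i = g' i) →
      (fev (atm R eq fa fb) (Form.box^[k] a) g ↔ fev (atm R eq fa fb) (Form.box^[k] a) g') := by
  induction k with
  | zero => exact h
  | succ k ih =>
    intro W R g g' hg
    rw [Function.iterate_succ_apply']
    refine forall_congr' fun x => ih W R _ _ fun i hi => ?_
    cases i with
    | zero => rfl
    | succ i => exact hg i (by omega)

theorem exists_closed_fo (eq : ℕ → Prop) (fa fb : ℕ → ℕ) (a : Form) :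
    ∃ c : FO, ∀ (W : Type u) (R : W → W → Prop) (x : W),
      (FO.eval R c (fun _ => x) ↔ ∀ g, fev (atm R eq fa fb) a g) := by
  obtain ⟨m, hm⟩ := exists_bdd.{u} eq fa fb a
  obtain ⟨K, hK⟩ := exists_fo.{u} eq fa fb (Form.box^[m] a)
  obtain ⟨c, hc⟩ := hK K le_rfl
  refine ⟨c, fun W R x => ?_⟩
  rw [hc, ← forall_box _ a m]
  constructor
  · intro h g
    exact (bdd_box eq fa fb a m hm m W R _ g (fun i hi => by omega)).1 h
  · intro h
    exact h _

/-- A non-elementary formula is not defined by any reading. -/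
theorem not_elementary_family (eq : ℕ → Prop) (fa fb : ℕ → ℕ) {φ : Form}
    (h : ¬ Elementary.{u} φ) (a : Form) :
    ∃ (W : Type u) (_ : Nonempty W) (R : W → W → Prop),
      ¬ (Valid R φ ↔ ∀ g, fev (atm R eq fa fb) a g) := by
  by_contra hcon
  push Not at hcon
  obtain ⟨c, hc⟩ := exists_closed_fo.{u} eq fa fb a
  refine h (elementary_of_fo c fun W R x => ?_)
  rw [hc]
  exact hcon W ⟨x⟩ R

variable {M : Type u} {N F Z Bo Sc Va Bx Im EQ Dm As Fa Fb Rf Ap : List M → Prop}
  {num : ℕ → M} {cd : Form → M}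

theorem modC_iff (h : Std num cd N F Z Bo Sc Va Bx Im) (c : M) (φ : Form) :
    ModC Bo Bx Dm Im Rf c (cd φ) ↔
      Valid (fun x y : {s : M // Dm [c, s]} => Rf [c, x.1, y.1]) φ := by
  have key : ∀ Pt Rl : List M → Prop, (∀ s, Pt [s] ↔ Dm [c, s]) →
      (∀ s t, Rl [s, t] ↔ Rf [c, s, t]) →
      (Valid (fun x y : {s : M // Pt [s]} => Rl [x.1, y.1]) φ ↔
        Valid (fun x y : {s : M // Dm [c, s]} => Rf [c, x.1, y.1]) φ) := by
    intro Pt Rl h1 h2
    refine valid_iso (fun x => ⟨x.1, (h1 x.1).1 x.2⟩) ⟨?_, ?_⟩ ?_ φ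
    · intro x y hxy
      simp only [Subtype.mk.injEq] at hxy
      exact Subtype.ext hxy
    · intro x
      exact ⟨⟨x.1, (h1 x.1).2 x.2⟩, rfl⟩
    · intro x y
      exact h2 _ _
  constructor
  · intro hM
    obtain ⟨Pt, h1⟩ : ∃ Pt : List M → Prop, ∀ s, Pt [s] ↔ Dm [c, s] := by
      refine ⟨fun l => ∃ s, l = [s] ∧ Dm [c, s], fun s => ⟨?_, fun h => ⟨s, rfl, h⟩⟩⟩
      rintro ⟨s', hs, h⟩
      simp only [List.cons.injEq, and_true] at hs
      rwa [hs]
    obtain ⟨Rl, h2⟩ : ∃ Rl : List M → Prop, ∀ s t, Rl [s, t] ↔ Rf [c, s, t] := by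
      refine ⟨fun l => ∃ s t, l = [s, t] ∧ Rf [c, s, t], fun s t => ⟨?_, fun h => ⟨s, t, rfl, h⟩⟩⟩
      rintro ⟨s', t', hs, h⟩
      simp only [List.cons.injEq, and_true] at hs
      rwa [hs.1, hs.2]
    exact (key Pt Rl h1 h2).1 ((satC_iff h _ _ φ).1 fun T hT s hs => hM Pt h1 Rl h2 T hT s hs)
  · intro hV Pt h1 Rl h2 T hT s hs
    exact (satC_iff h Pt Rl φ).2 ((key Pt Rl h1 h2).2 hV) T hT s hs

theorem foC_iff (h : Std num cd N F Z Bo Sc Va Bx Im)
    (hF : FamC N F Z EQ Sc Dm As Fa Fb Ap) (b : Form) (fa fb : ℕ → ℕ)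
    (hfa : ∀ n, Fa [num n, num (fa n)]) (hfb : ∀ n, Fb [num n, num (fb n)])
    (val : ∀ g, As [cd b, g] → ℕ → {x : M // Dm [cd b, x]})
    (hval : ∀ g hg n, Ap [g, num n, (val g hg n).1]) :
    FoC EQ Bo Sc Va Bx As Fa Fb Im Rf Ap (cd b) ↔ ∀ g (hg : As [cd b, g]),
      fev (atm (fun x y : {s : M // Dm [cd b, s]} => Rf [cd b, x.1, y.1])
        (fun n => EQ [num n]) fa fb) b (val g hg) := by
  have hB : Bo [cd .bot] := (h.Bo _).2 rfl
  have hI : ∀ a b, Im [cd a, cd b, cd (.imp a b)] := fun a b => (h.Im _ _ _).2 ⟨a, b, rfl, rfl, rfl⟩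
  have hX : ∀ a, Bx [cd a, cd (.box a)] := fun a => (h.Bx _ _).2 ⟨a, rfl, rfl⟩
  -- the push relation
  have push : ∀ g hg g' hg', (∀ n n' y, Sc [n, n'] → Ap [g, n, y] → Ap [g', n', y]) ↔
      val g' hg' = scons (val g' hg' 0) (val g hg) := by
    intro g hg g' hg'
    constructor
    · intro hp
      funext n
      cases n with
      | zero => rfl
      | succ n =>
        refine Subtype.ext ?_
        exact hF.a2 _ _ _ _ (hval g' hg' (n + 1))
          (hp _ _ _ ((h.Sc _ _).2 ⟨n, rfl, rfl⟩) (hval g hg n))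
    · intro he n n' y hs hy
      obtain ⟨k, rfl, rfl⟩ := (h.Sc _ _).1 hs
      have h1 : y = (val g hg k).1 := hF.a2 _ _ _ _ hy (hval g hg k)
      have h2 : (val g' hg' (k + 1)).1 = (val g hg k).1 := by rw [he]; rfl
      rw [h1, ← h2]
      exact hval g' hg' (k + 1)
  -- atoms
  have atoms : ∀ g hg k, ((EQ [num k] ∧ ∃ i j x, Fa [num k, i] ∧ Fb [num k, j] ∧ Ap [g, i, x] ∧
        Ap [g, j, x]) ∨ (¬ EQ [num k] ∧ ∃ i j x y, Fa [num k, i] ∧ Fb [num k, j] ∧
          Ap [g, i, x] ∧ Ap [g, j, y] ∧ Rf [cd b, x, y])) ↔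
      atm (fun x y : {s : M // Dm [cd b, s]} => Rf [cd b, x.1, y.1])
        (fun n => EQ [num n]) fa fb (val g hg) k := by
    intro g hg k
    rw [atm]
    refine or_congr (and_congr_right fun _ => ?_) (and_congr_right fun _ => ?_)
    · constructor
      · rintro ⟨i, j, x, h1, h2, h3, h4⟩
        obtain rfl := hF.fa1 _ _ _ h1 (hfa k)
        obtain rfl := hF.fb1 _ _ _ h2 (hfb k)
        exact Subtype.ext ((hF.a2 _ _ _ _ (hval g hg _) h3).trans
          (hF.a2 _ _ _ _ h4 (hval g hg _)))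
      · intro he
        exact ⟨_, _, (val g hg (fa k)).1, hfa k, hfb k, hval g hg _, by
          rw [he]; exact hval g hg _⟩
    · constructor
      · rintro ⟨i, j, x, y, h1, h2, h3, h4, h5⟩
        obtain rfl := hF.fa1 _ _ _ h1 (hfa k)
        obtain rfl := hF.fb1 _ _ _ h2 (hfb k)
        have e1 := hF.a2 _ _ _ _ (hval g hg _) h3
        have e2 := hF.a2 _ _ _ _ (hval g hg _) h4
        rw [e1, e2]
        exact h5
      · intro he
        exact ⟨_, _, _, _, hfa k, hfb k, hval g hg _, hval g hg _, he⟩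
  constructor
  · intro hFo g hg
    obtain ⟨T0, key⟩ : ∃ T0 : List M → Prop, ∀ (a : Form) (g : M) (hg : As [cd b, g]),
        T0 [cd a, g] ↔ fev (atm (fun x y : {s : M // Dm [cd b, s]} => Rf [cd b, x.1, y.1])
        (fun n => EQ [num n]) fa fb) a (val g hg) := by
      refine ⟨fun l => ∃ (a' : Form) (s' : M) (hs' : As [cd b, s']), l = [cd a', s'] ∧
          fev (atm (fun x y : {s : M // Dm [cd b, s]} => Rf [cd b, x.1, y.1])
        (fun n => EQ [num n]) fa fb) a' (val s' hs'), ?_⟩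
      intro a s hs
      constructor
      · rintro ⟨a', s', hs', he, hsat⟩
        simp only [List.cons.injEq, and_true] at he
        obtain ⟨e1, rfl⟩ := he
        rw [h.cinj e1]
        exact hsat
      · intro hsat
        exact ⟨a, s, hs, rfl, hsat⟩
    obtain ⟨Pt, hPt⟩ : ∃ Pt : List M → Prop, ∀ s, Pt [s] ↔ As [cd b, s] := by
      refine ⟨fun l => ∃ s, l = [s] ∧ As [cd b, s], fun s => ⟨?_, fun h => ⟨s, rfl, h⟩⟩⟩
      rintro ⟨s', hs, h⟩
      simp only [List.cons.injEq, and_true] at hs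
      rwa [hs]
    obtain ⟨Rl, hRl⟩ : ∃ Rl : List M → Prop, ∀ g g', Rl [g, g'] ↔
        ∀ n n' y, Sc [n, n'] → Ap [g, n, y] → Ap [g', n', y] := by
      refine ⟨fun l => ∃ s t, l = [s, t] ∧ ∀ n n' y, Sc [n, n'] → Ap [s, n, y] → Ap [t, n', y],
        fun s t => ⟨?_, fun h => ⟨s, t, rfl, h⟩⟩⟩
      rintro ⟨s', t', hs, h⟩
      simp only [List.cons.injEq, and_true] at hs
      rw [hs.1, hs.2]
      exact h
    refine (key b g hg).1 (hFo Pt hPt Rl hRl T0 ?_ ?_ g ((hPt g).2 hg))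
    · intro s hs
      have hs' := (hPt s).1 hs
      refine ⟨?_, ?_, ?_⟩
      · intro a ha
        rw [(h.Bo _).1 ha, key _ _ hs']
        exact fun h => h
      · intro x y z hxyz
        obtain ⟨a, b, rfl, rfl, rfl⟩ := (h.Im _ _ _).1 hxyz
        rw [key _ _ hs', key _ _ hs', key _ _ hs', fev]
      · intro x y hxy
        obtain ⟨a, rfl, rfl⟩ := (h.Bx _ _).1 hxy
        rw [key _ _ hs', fev]
        constructor
        · intro hb t ht hr
          have ht' := (hPt t).1 ht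
          rw [key _ _ ht', (push s hs' t ht').1 ((hRl s t).1 hr)]
          exact hb _
        · intro hb x
          obtain ⟨t, ht, h0, h1⟩ := hF.a3 _ _ _ hs' x.2
          have h2 := (push s hs' t ht).1 h1
          have h3 : val t ht 0 = x := Subtype.ext
            (hF.a2 _ _ _ _ (hval t ht 0) (h0 _ ((h.Z _).2 rfl)))
          rw [h3] at h2
          rw [← h2]
          exact (key _ _ ht).1 (hb t ((hPt t).2 ht) ((hRl s t).2 h1))
    · intro n a g hna hg
      obtain ⟨k, rfl, rfl⟩ := (h.Va _ _).1 hna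
      have hg' := (hPt g).1 hg
      rw [key _ _ hg', fev]
      exact (atoms g hg' k).symm
  · intro hall Pt hPt Rl hRl T hT hAt g hg
    have key : ∀ (a : Form) (g : M) (hg : As [cd b, g]), T [cd a, g] ↔
        fev (atm (fun x y : {s : M // Dm [cd b, s]} => Rf [cd b, x.1, y.1])
        (fun n => EQ [num n]) fa fb) a (val g hg) := by
      intro a
      induction a with
      | var n =>
        intro g hg
        rw [fev, ← atoms g hg n]
        exact hAt _ _ _ ((h.Va _ _).2 ⟨n, rfl, rfl⟩) ((hPt g).2 hg)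
      | bot =>
        intro g hg
        exact iff_of_false ((hT g ((hPt g).2 hg)).1 _ hB) (fun h => h)
      | imp a b iha ihb =>
        intro g hg
        rw [fev, ← iha, ← ihb]
        exact (hT g ((hPt g).2 hg)).2.1 _ _ _ (hI a b)
      | box a ih =>
        intro g hg
        rw [fev, (hT g ((hPt g).2 hg)).2.2 _ _ (hX a)]
        constructor
        · intro hb x
          obtain ⟨t, ht, h0, h1⟩ := hF.a3 _ _ _ hg x.2
          have h2 := (push g hg t ht).1 h1
          have h3 : val t ht 0 = x := Subtype.ext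
            (hF.a2 _ _ _ _ (hval t ht 0) (h0 _ ((h.Z _).2 rfl)))
          rw [h3] at h2
          rw [← h2]
          exact (ih t ht).1 (hb t ((hPt t).2 ht) ((hRl g t).2 h1))
        · intro hb t ht hr
          have ht' := (hPt t).1 ht
          rw [ih t ht', (push g hg t ht').1 ((hRl g t).1 hr)]
          exact hb _
    exact (key b g ((hPt g).1 hg)).2 (hall g ((hPt g).1 hg))

/-- For an elementary formula, the description holds in every model of the axioms. -/
theorem el_of_elementary (h : Std num cd N F Z Bo Sc Va Bx Im)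
    (hF : FamC N F Z EQ Sc Dm As Fa Fb Ap) {φ : Form} (hφ : Elementary.{u} φ) :
    ∃ c, F [c] ∧ (ModC Bo Bx Dm Im Rf c (cd φ) ↔
      FoC EQ Bo Sc Va Bx As Fa Fb Im Rf Ap c) := by
  classical
  have hN : ∀ n, N [num n] := fun n => (h.N _).2 ⟨n, rfl⟩
  have hfa : ∀ n, ∃ m, Fa [num n, num m] := by
    intro n
    obtain ⟨i, hi, hi'⟩ := hF.fa0 _ (hN n)
    obtain ⟨m, rfl⟩ := (h.N _).1 hi
    exact ⟨m, hi'⟩
  have hfb : ∀ n, ∃ m, Fb [num n, num m] := by
    intro n
    obtain ⟨i, hi, hi'⟩ := hF.fb0 _ (hN n)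
    obtain ⟨m, rfl⟩ := (h.N _).1 hi
    exact ⟨m, hi'⟩
  choose fa hfa using hfa
  choose fb hfb using hfb
  have hE : ∀ i j, ∃ n, EQ [num n] ∧ fa n = i ∧ fb n = j := by
    intro i j
    obtain ⟨x, hx, h1, h2, h3⟩ := hF.fe _ _ (hN i) (hN j)
    obtain ⟨n, rfl⟩ := (h.N _).1 hx
    exact ⟨n, h1, h.ninj (hF.fa1 _ _ _ (hfa n) h2), h.ninj (hF.fb1 _ _ _ (hfb n) h3)⟩
  have hR : ∀ i j, ∃ n, ¬ EQ [num n] ∧ fa n = i ∧ fb n = j := by
    intro i j
    obtain ⟨x, hx, h1, h2, h3⟩ := hF.fr _ _ (hN i) (hN j)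
    obtain ⟨n, rfl⟩ := (h.N _).1 hx
    exact ⟨n, h1, h.ninj (hF.fa1 _ _ _ (hfa n) h2), h.ninj (hF.fb1 _ _ _ (hfb n) h3)⟩
  obtain ⟨α, hα⟩ := hφ
  obtain ⟨b, hb⟩ := exists_form.{u} (fun n => EQ [num n]) fa fb hE hR α
  have hFb : F [cd b] := (h.F _).2 ⟨b, rfl⟩
  have hval : ∀ g, As [cd b, g] → ∃ val : ℕ → {x : M // Dm [cd b, x]},
      ∀ n, Ap [g, num n, (val n).1] := by
    intro g hg
    have : ∀ n, ∃ x : {x : M // Dm [cd b, x]}, Ap [g, num n, x.1] := by
      intro n
      obtain ⟨x, hx, hx'⟩ := hF.a1 _ _ _ hg (hN n)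
      exact ⟨⟨x, hx⟩, hx'⟩
    choose val hval using this
    exact ⟨val, hval⟩
  choose val hval using hval
  refine ⟨cd b, hFb, ?_⟩
  rw [modC_iff h, foC_iff h hF b fa fb hfa hfb val hval]
  obtain ⟨x0, hx0⟩ := hF.d0 _ hFb
  have hne : Nonempty {s : M // Dm [cd b, s]} := ⟨⟨x0, hx0⟩⟩
  rw [hα]
  obtain ⟨g0, hg0⟩ := hF.a0 _ hFb
  constructor
  · intro hr g hg
    exact (hb _ _ default _ (fun i => i.elim0)).1 hr
  · intro hall
    exact (hb _ _ default _ (fun i => i.elim0)).2 (hall g0 hg0)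

end Pool.Agent.Helper97.Ecf
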