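import Mathlib

/-!
# Basic notions of stability theory used in the hand-in on Mazoyer's hypothesis
-/

open FirstOrder FirstOrder.Language Cardinal Set

namespace Pool.Agent.Helper97.MT

/-- Model-theoretic algebraic closure: the union of all finite sets definable with parameters
in `A`. -/
def acl (L : FirstOrder.Language.{0, 0}) {M : Type} [L.Structure M] (A : Set M) : Set M :=
  {c | ∃ S : Set M, A.Definable₁ L S ∧ S.Finite ∧ c ∈ S}

/-- `T` is `ω`-stable: over each countable subset `A` of each model there are only countably many
complete `n`-types, for every `n`. -/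
def OmegaStable {L : FirstOrder.Language.{0, 0}} (T : L.Theory) : Prop :=
  ∀ (M : Theory.ModelType.{0, 0, 0} T) (A : Set M), A.Countable → ∀ n : ℕ,
    Countable ((L[[A]].completeTheory M).CompleteType (Fin n))

/-- The set of elements of `M` satisfying the formula `φ`. -/
def solutions {L : FirstOrder.Language.{0, 0}} (M : Type) [L.Structure M]
    (φ : L.Formula (Fin 1)) : Set M := {x | φ.Realize (fun _ => x)}

/-- `φ` is a strongly minimal formula of `T`: in every model `M` its solution set is infinite, and
each subset of `M` definable with parameters contains only finitely many or all but finitely many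
solutions of `φ`. -/
def StronglyMinimalFormula {L : FirstOrder.Language.{0, 0}} (T : L.Theory)
    (φ : L.Formula (Fin 1)) : Prop :=
  ∀ M : Theory.ModelType.{0, 0, 0} T, (solutions M φ).Infinite ∧
    ∀ X : Set M, (Set.univ : Set M).Definable₁ L X →
      (solutions M φ ∩ X).Finite ∨ (solutions M φ \ X).Finite

/-- A strongly minimal type over the empty set (Morley rank 1 and Morley degree 1): a complete
1-type which is not algebraic and contains a strongly minimal formula. -/
def StronglyMinimalType {L : FirstOrder.Language.{0, 0}} (T : L.Theory)
    (p : T.CompleteType (Fin 1)) : Prop :=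
  (∃ φ : L.Formula (Fin 1), Formula.equivSentence φ ∈ p ∧ StronglyMinimalFormula T φ) ∧
    ∀ φ : L.Formula (Fin 1), Formula.equivSentence φ ∈ p →
      ∀ M : Theory.ModelType.{0, 0, 0} T, (solutions M φ).Infinite

/-- `c` realizes the 1-type `p` in the model `M`. -/
def Realizes {L : FirstOrder.Language.{0, 0}} {T : L.Theory} (M : Theory.ModelType.{0, 0, 0} T)
    (p : T.CompleteType (Fin 1)) (c : M) : Prop :=
  ∀ φ : L.Formula (Fin 1), Formula.equivSentence φ ∈ p → φ.Realize (fun _ => c)

end Pool.Agent.Helper97.MT
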