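import Mathlib
import Pool.Agent.Helper97.Canon
import Pool.Agent.Helper97.MTDefs

open FirstOrder FirstOrder.Language Cardinal Set

namespace Pool.Agent.Helper97.MT

open Pool.Agent.Helper97.Canon

variable {G : Type} {W : Type} [Group G] [MulAction G W]

/-- Definable sets are invariant under group elements fixing the parameters. -/
theorem definable_inv {α : Type} {A : Set W} {s : Set (α → W)} (h : A.Definable (canLang G W) s)
    (g : G) (hg : ∀ a ∈ A, g • a = a) (x : α → W) : (fun i => g • x i) ∈ s ↔ x ∈ s := by
  rw [definable_iff_exists_formula_sum] at h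
  obtain ⟨φ, rfl⟩ := h
  have := (aut (W := W) g).toElementaryEmbedding.map_formula φ (Sum.elim (↑) x)
  simp only [Set.mem_ofPred_eq]
  rw [← this]
  have e : (aut (W := W) g).toElementaryEmbedding ∘ (Sum.elim (Subtype.val : A → W) x)
      = Sum.elim (Subtype.val : A → W) (fun i => g • x i) := by
    ext i
    rcases i with i | i
    · exact hg _ i.2
    · rfl
  rw [e]

theorem definable₁_inv {A : Set W} {s : Set W} (h : A.Definable₁ (canLang G W) s)
    (g : G) (hg : ∀ a ∈ A, g • a = a) (x : W) : g • x ∈ s ↔ x ∈ s :=
  definable_inv (α := Fin 1) h g hg (fun _ => x)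

/-- The orbit of an algebraic element over the parameters is finite. -/
theorem finite_of_mem_acl {A : Set W} {c : W} (h : c ∈ acl (canLang G W) A) :
    {y : W | ∃ g : G, (∀ a ∈ A, g • a = a) ∧ g • c = y}.Finite := by
  obtain ⟨S, hS, hf, hc⟩ := h
  refine hf.subset ?_
  rintro y ⟨g, hg, rfl⟩
  exact (definable₁_inv hS g hg c).2 hc

/-- If `A` is finite and every group element fixing `A` pointwise fixes `c`, then `c` is
algebraic over `A`. -/
theorem mem_acl_of_fixed {A : Set W} (hA : A.Finite) {c : W}
    (h : ∀ g : G, (∀ a ∈ A, g • a = a) → g • c = c) : c ∈ acl (canLang G W) A := by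
  classical
  obtain ⟨t, rfl⟩ := hA.exists_finset_coe
  let e := t.equivFin
  let w : Fin t.card → W := fun i => (e.symm i).1
  refine ⟨{c}, ?_, Set.finite_singleton c, rfl⟩
  unfold Definable₁
  rw [definable_iff_exists_formula_sum]
  refine ⟨(orb (G := G) (Fin.snoc w c : Fin (t.card + 1) → W)).formula
    (Fin.snoc (fun i => Term.var (Sum.inl ⟨(e.symm i).1, (e.symm i).2⟩))
      (Term.var (Sum.inr 0)) : Fin (t.card + 1) → (canLang G W).Term ((t : Set W) ⊕ Fin 1)), ?_⟩
  ext v
  simp only [Set.mem_ofPred_eq, Set.mem_singleton_iff]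
  rw [Formula.realize_rel]
  have e1 : (fun i => Term.realize (Sum.elim (Subtype.val : ((t : Set W) : Type) → W) v)
      ((Fin.snoc (fun i => Term.var (Sum.inl ⟨(e.symm i).1, (e.symm i).2⟩))
      (Term.var (Sum.inr 0)) : Fin (t.card + 1) → (canLang G W).Term ((t : Set W) ⊕ Fin 1)) i))
         = (Fin.snoc w (v 0) : Fin (t.card + 1) → W) := by
    ext i
    refine Fin.lastCases ?_ (fun j => ?_) i
    · simp
    · simp [w]
  rw [e1, relMap_iff, orb_eq_iff]
  constructor
  · intro hv
    refine ⟨1, ?_⟩
    rw [one_smul, hv]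
  · rintro ⟨g, hg⟩
    have h1 : ∀ a ∈ (t : Set W), g • a = a := by
      intro a ha
      have := congrFun hg (Fin.castSucc (e ⟨a, ha⟩))
      simpa [w] using this
    have h2 := congrFun hg (Fin.last _)
    simp only [Pi.smul_apply, Fin.snoc_last] at h2
    rw [← h2, h g h1]

section embed

variable {L : FirstOrder.Language.{0, 0}} {M N : Type} [L.Structure M] [L.Structure N]

/-- Finite solution sets do not grow under elementary embeddings. -/
theorem fin_transfer (j : M ↪ₑ[L] N) {α : Type} (φ : L.Formula (α ⊕ Fin 1)) (v : α → M)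
    (hf : {c : M | φ.Realize (Sum.elim v (fun _ => c))}.Finite) :
    {y : N | φ.Realize (Sum.elim (j ∘ v) (fun _ => y))} =
      j '' {c : M | φ.Realize (Sum.elim v (fun _ => c))} := by
  classical
  set S := {c : M | φ.Realize (Sum.elim v (fun _ => c))} with hS
  have : Finite S := hf
  apply Set.Subset.antisymm
  · intro y hy
    let χ : L.Formula ((α ⊕ S) ⊕ Fin 1) :=
      (φ.relabel (Sum.map Sum.inl id)).imp
        (Formula.iSup (fun s : S => Term.equal (Term.var (Sum.inr 0)) (Term.var (Sum.inl (Sum.inr s)))))
    have h1 : (χ.iAlls (Fin 1)).Realize (Sum.elim v (Subtype.val : S → M)) := by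
      rw [Formula.realize_iAlls]
      intro i
      show Formula.Realize _ _
      simp only [χ]
      rw [Formula.realize_imp, Formula.realize_relabel, Formula.realize_iSup]
      intro h
      have e : (fun a => Sum.elim (Sum.elim v (Subtype.val : S → M)) i a) ∘
          (Sum.map Sum.inl id : α ⊕ Fin 1 → (α ⊕ S) ⊕ Fin 1) = Sum.elim v (fun _ => i 0) := by
        ext a
        rcases a with a | a
        · rfl
        · simp [Subsingleton.elim a 0]
      rw [e] at h
      refine ⟨⟨i 0, h⟩, ?_⟩
      rw [Formula.realize_equal]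
      simp
    rw [← j.map_formula, Formula.realize_iAlls] at h1
    have h2 := h1 (fun _ => y)
    simp only [χ] at h2
    rw [Formula.realize_imp, Formula.realize_relabel, Formula.realize_iSup] at h2
    have e : (fun a => Sum.elim (j ∘ Sum.elim v (Subtype.val : S → M)) (fun _ => y) a) ∘
        (Sum.map Sum.inl id : α ⊕ Fin 1 → (α ⊕ S) ⊕ Fin 1) = Sum.elim (j ∘ v) (fun _ => y) := by
      ext a
      rcases a with a | a <;> rfl
    rw [e] at h2
    obtain ⟨s, hs⟩ := h2 hy
    rw [Formula.realize_equal] at hs
    simp at hs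
    exact ⟨s.1, s.2, hs.symm⟩
  · rintro _ ⟨c, hc, rfl⟩
    have : (j ∘ Sum.elim v (fun _ : Fin 1 => c)) = Sum.elim (j ∘ v) (fun _ => j c) := by
      ext a
      rcases a with a | a <;> rfl
    show Formula.Realize _ _
    rw [← this, j.map_formula]
    exact hc

theorem definable₁_iff {A : Set M} {S : Set M} : A.Definable₁ L S ↔
    ∃ φ : L.Formula (A ⊕ Fin 1), S = {c | φ.Realize (Sum.elim (Subtype.val) (fun _ => c))} := by
  unfold Definable₁
  rw [definable_iff_exists_formula_sum]
  refine exists_congr fun φ => ?_
  constructor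
  · intro h
    ext c
    have := Set.ext_iff.1 h (fun _ => c)
    simpa using this
  · rintro rfl
    ext v
    have : v = (fun _ => v 0) := by ext i; rw [Subsingleton.elim i 0]
    simp only [Set.mem_ofPred_eq]
    rw [this]

/-- Algebraic closure commutes with elementary embeddings. -/
theorem acl_image (j : M ↪ₑ[L] N) (A : Set M) : acl L (j '' A) = j '' acl L A := by
  classical
  apply Set.Subset.antisymm
  · rintro y ⟨S, hS, hf, hy⟩
    rw [definable₁_iff] at hS
    obtain ⟨φ, rfl⟩ := hS
    -- choose preimages
    have hpre : ∀ a : (j '' A : Set N), ∃ b : A, j b.1 = a.1 := by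
      rintro ⟨_, b, hb, rfl⟩
      exact ⟨⟨b, hb⟩, rfl⟩
    choose f hf' using hpre
    let ψ : L.Formula (A ⊕ Fin 1) := φ.relabel (Sum.map f id)
    have e : ∀ c : M, {c : M | ψ.Realize (Sum.elim Subtype.val (fun _ => c))} c ↔
        φ.Realize (Sum.elim Subtype.val (fun _ => j c)) := by
      intro c
      show ψ.Realize (Sum.elim Subtype.val (fun _ => c)) ↔ _
      simp only [ψ]
      rw [Formula.realize_relabel, ← j.map_formula]
      have : (j ∘ Sum.elim Subtype.val (fun _ : Fin 1 => c) ∘ (Sum.map f id)) =
          Sum.elim Subtype.val (fun _ => j c) := by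
        ext a
        rcases a with a | a
        · simp [hf']
        · rfl
      rw [this]
    have hfin : {c : M | ψ.Realize (Sum.elim Subtype.val (fun _ => c))}.Finite := by
      refine Set.Finite.subset (hf.preimage (j.injective.injOn)) ?_
      intro c hc
      exact (e c).1 hc
    have key := fin_transfer j ψ (Subtype.val : A → M) hfin
    have hy' : y ∈ {y : N | ψ.Realize (Sum.elim (j ∘ Subtype.val) (fun _ => y))} := by
      show ψ.Realize _
      simp only [ψ]
      rw [Formula.realize_relabel]
      have : (Sum.elim (j ∘ Subtype.val) (fun _ : Fin 1 => y)) ∘ (Sum.map f id) =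
          Sum.elim Subtype.val (fun _ => y) := by
        ext a
        rcases a with a | a
        · simp [hf']
        · rfl
      rw [this]
      exact hy
    rw [key] at hy'
    obtain ⟨c, hc, rfl⟩ := hy'
    exact ⟨c, ⟨_, definable₁_iff.2 ⟨ψ, rfl⟩, hfin, hc⟩, rfl⟩
  · rintro _ ⟨c, ⟨S, hS, hf, hc⟩, rfl⟩
    rw [definable₁_iff] at hS
    obtain ⟨φ, rfl⟩ := hS
    have key := fin_transfer j φ (Subtype.val : A → M) hf
    refine ⟨_, definable₁_iff.2 ⟨φ.relabel (Sum.map (fun a => ⟨j a.1, a.1, a.2, rfl⟩) id), rfl⟩,
      ?_, ?_⟩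
    · convert hf.image j using 1
      rw [← key]
      ext y
      simp only [Set.mem_ofPred_eq]
      rw [Formula.realize_relabel]
      have : (Sum.elim Subtype.val (fun _ : Fin 1 => y)) ∘
          (Sum.map (fun a : A => (⟨j a.1, a.1, a.2, rfl⟩ : (j '' A : Set N))) id) =
          Sum.elim (j ∘ Subtype.val) (fun _ => y) := by
        ext a
        rcases a with a | a <;> rfl
      rw [this]
    · show Formula.Realize _ _
      rw [Formula.realize_relabel]
      have : (Sum.elim Subtype.val (fun _ : Fin 1 => j c)) ∘
          (Sum.map (fun a : A => (⟨j a.1, a.1, a.2, rfl⟩ : (j '' A : Set N))) id) =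
          j ∘ (Sum.elim Subtype.val (fun _ => c)) := by
        ext a
        rcases a with a | a <;> rfl
      rw [this, j.map_formula]
      exact hc

end embed

theorem card_canLang (hfin : ∀ n, Finite ((canLang G W).Relations n)) :
    (canLang G W).card ≤ ℵ₀ := by
  have h1 : ∀ n, IsEmpty ((canLang G W).Functions n) := fun n => (inferInstance : IsEmpty Empty)
  have h2 : Countable (Σ n, (canLang G W).Relations n) := inferInstance
  have h3 : Countable (Σ n, (canLang G W).Functions n) := inferInstance
  have : Countable (canLang G W).Symbols := inferInstanceAs (Countable (_ ⊕ _))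
  exact Cardinal.mk_le_aleph0_iff.2 this

/-- Every countable subset of a model of the theory of `W` lies in an elementarily embedded copy
of `W`. -/
theorem exists_embed [Countable W] [Infinite W]
    (hfin : ∀ n, Finite ((canLang G W).Relations n))
    (N : Type) [(canLang G W).Structure N] [N ⊨ (canLang G W).completeTheory W]
    (s : Set N) (hs : s.Countable) :
    ∃ j : W ↪ₑ[canLang G W] N, s ⊆ Set.range j := by
  have hinf : Infinite N := by
    have : W ≅[canLang G W] N := by
      rw [elementarilyEquivalent_iff]
      intro φ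
      exact (realize_iff_of_model_completeTheory W N φ).symm
    exact this.infinite
  have hcard := card_canLang hfin
  obtain ⟨S, hS1, hS2⟩ := exists_elementarySubstructure_card_eq (canLang G W) s (ℵ₀ : Cardinal.{0}) le_rfl
    (by simpa using hs.le_aleph0) (by simpa using hcard) (by simp)
  have : Countable S := by
    rw [← Cardinal.mk_le_aleph0_iff]
    simpa using hS2.le
  have : Nonempty S := by
    rw [← Cardinal.mk_ne_zero_iff]
    intro h
    simp [h] at hS2
    exact absurd hS2.symm Cardinal.aleph0_ne_zero
  obtain ⟨f⟩ := exists_iso (G := G) (W := W) (N := W) (N' := S) hfin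
  refine ⟨S.subtype.comp f.toElementaryEmbedding, ?_⟩
  intro a ha
  refine ⟨f.symm ⟨a, hS1 ha⟩, ?_⟩
  simp

end Pool.Agent.Helper97.MT
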