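import Mathlib
import Pool.Agent.Helper97.MTGeneric

open FirstOrder FirstOrder.Language Cardinal Set

namespace Pool.Agent.Helper97.MT

open Pool.Agent.Helper97.Canon

section filt

variable {L : FirstOrder.Language.{0, 0}} {M W : Type} [L.Structure M] [L.Structure W]
  {A : Set M} {n : ℕ}

theorem mem_iff_exists_model (p : (L[[A]].completeTheory M).CompleteType (Fin n)) :
    ∃ (P : Type) (_ : L[[A]].Structure P) (v : Fin n → P),
      (∀ σ : L[[A]].Sentence, P ⊨ σ ↔ M ⊨ σ) ∧
      ∀ φ : L[[A]].Formula (Fin n), Formula.equivSentence φ ∈ p ↔ φ.Realize v := by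
  obtain ⟨P, v, hv⟩ := Theory.exists_modelType_is_realized_in _ p
  refine ⟨P, inferInstance, v, ?_, ?_⟩
  · intro σ
    exact realize_iff_of_model_completeTheory M P σ
  · intro φ
    rw [← hv]
    exact Theory.CompleteType.formula_mem_typeOf

/-- Replace constants by variables. -/
def cv (φ : L[[A]].Formula (Fin n)) : L.Formula (A ⊕ Fin n) :=
  BoundedFormula.constantsVarsEquiv φ

/-- The trace on `W` of a formula with parameters in `A`, along an elementary embedding. -/
def trace (j : W ↪ₑ[L] M) (φ : L[[A]].Formula (Fin n)) : Set (Fin n → W) :=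
  {x | φ.Realize (j ∘ x)}

theorem trace_eq (j : W ↪ₑ[L] M) (hA : A ⊆ Set.range j) (φ : L[[A]].Formula (Fin n)) :
    ∃ f : A → W, (∀ a, j (f a) = a) ∧
      trace j φ = {x | (cv φ).Realize (Sum.elim f x)} := by
  have : ∀ a : A, ∃ b : W, j b = a := fun a => hA a.2
  choose f hf using this
  refine ⟨f, hf, ?_⟩
  ext x
  show φ.Realize (j ∘ x) ↔ Formula.Realize _ _
  rw [← j.map_formula]
  have e : j ∘ Sum.elim f x = Sum.elim (fun a : A => ((L.con a : L[[A]].Constants) : M)) (j ∘ x) := by
    ext i
    rcases i with i | i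
    · simp [hf]
    · rfl
  rw [e]
  exact (BoundedFormula.realize_constantsVarsEquiv (φ := φ)).symm

theorem trace_nonempty (j : W ↪ₑ[L] M) (hA : A ⊆ Set.range j)
    (p : (L[[A]].completeTheory M).CompleteType (Fin n)) (φ : L[[A]].Formula (Fin n))
    (hφ : Formula.equivSentence φ ∈ p) : (trace j φ).Nonempty := by
  obtain ⟨P, _, v, hP, hv⟩ := mem_iff_exists_model p
  have h1 : P ⊨ ((φ.relabel (Sum.inr : Fin n → Empty ⊕ Fin n)).iExs (Fin n) : L[[A]].Sentence) := by
    show Formula.Realize _ _
    rw [Formula.realize_iExs]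
    refine ⟨v, ?_⟩
    rw [Formula.realize_relabel]
    exact (hv φ).1 hφ
  rw [hP] at h1
  have h2 : Formula.Realize _ _ := h1
  rw [Formula.realize_iExs] at h2
  obtain ⟨y, hy⟩ := h2
  rw [Formula.realize_relabel] at hy
  have hy' : φ.Realize y := hy
  obtain ⟨f, hf, htr⟩ := trace_eq j hA φ
  rw [htr]
  have h3 : Formula.Realize (cv φ)
      (Sum.elim (fun a : A => ((L.con a : L[[A]].Constants) : M)) y) :=
    (BoundedFormula.realize_constantsVarsEquiv (φ := φ)).2 hy'
  have h4 : ((cv φ).iExs (Fin n)).Realize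
      (j ∘ f) := by
    rw [Formula.realize_iExs]
    refine ⟨y, ?_⟩
    convert h3 using 1
    ext i
    rcases i with i | i
    · simp [hf]
    · rfl
  rw [j.map_formula, Formula.realize_iExs] at h4
  exact h4

/-- The filter on `W^n` generated by a type. -/
def typeFilter (j : W ↪ₑ[L] M) (p : (L[[A]].completeTheory M).CompleteType (Fin n)) :
    Filter (Fin n → W) where
  sets := {X | ∃ φ : L[[A]].Formula (Fin n), Formula.equivSentence φ ∈ p ∧ trace j φ ⊆ X}
  univ_sets := by
    obtain ⟨P, _, v, hP, hv⟩ := mem_iff_exists_model p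
    exact ⟨⊤, (hv _).2 (by simp), fun _ _ => trivial⟩
  sets_of_superset := by
    rintro X Y ⟨φ, h1, h2⟩ hXY
    exact ⟨φ, h1, h2.trans hXY⟩
  inter_sets := by
    rintro X Y ⟨φ, h1, h2⟩ ⟨ψ, h3, h4⟩
    obtain ⟨P, _, v, hP, hv⟩ := mem_iff_exists_model p
    refine ⟨φ ⊓ ψ, (hv _).2 ?_, ?_⟩
    · rw [Formula.realize_inf]
      exact ⟨(hv _).1 h1, (hv _).1 h3⟩
    · intro x hx
      have hx' : (φ ⊓ ψ).Realize (j ∘ x) := hx
      rw [Formula.realize_inf] at hx'
      exact ⟨h2 hx'.1, h4 hx'.2⟩

theorem typeFilter_neBot (j : W ↪ₑ[L] M) (hA : A ⊆ Set.range j)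
    (p : (L[[A]].completeTheory M).CompleteType (Fin n)) : (typeFilter j p).NeBot := by
  rw [Filter.neBot_iff]
  intro h
  rw [← Filter.empty_mem_iff_bot] at h
  obtain ⟨φ, h1, h2⟩ := h
  obtain ⟨x, hx⟩ := trace_nonempty j hA p φ h1
  exact h2 hx

end filt

variable {G : Type} {W : Type} [Group G] [MulAction G W]

/-- A criterion for `ω`-stability: ultrafilters on `W^n` are classified, as far as sets definable
over finite sets are concerned, by countably many data. -/
theorem omegaStable_of [Countable W] [Infinite W]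
    (hfin : ∀ n, Finite ((canLang G W).Relations n))
    (D : ℕ → Type) (hD : ∀ n, Countable (D n)) (data : ∀ n, Ultrafilter (Fin n → W) → D n)
    (hdata : ∀ n (U V : Ultrafilter (Fin n → W)), data n U = data n V →
      ∀ (B : Finset W) (X : Set (Fin n → W)), (B : Set W).Definable (canLang G W) X →
        X ∈ U → X ∈ V) :
    OmegaStable ((canLang G W).completeTheory W) := by
  intro M A hA n
  obtain ⟨j, hj⟩ := exists_embed hfin M A hA
  have hne : ∀ p : ((canLang G W)[[A]].completeTheory M).CompleteType (Fin n),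
      (typeFilter j p).NeBot := fun p => typeFilter_neBot j hj p
  have := hD n
  refine Function.Injective.countable
    (f := fun p => data n (@Ultrafilter.of _ (typeFilter j p) (hne p))) ?_
  intro p q hpq
  by_contra hne'
  have key : ∀ p q : ((canLang G W)[[A]].completeTheory M).CompleteType (Fin n),
      data n (@Ultrafilter.of _ (typeFilter j p) (hne p)) =
        data n (@Ultrafilter.of _ (typeFilter j q) (hne q)) → ∀ φ, φ ∈ p → φ ∈ q := by
    intro p q hpq φ hφ
    by_contra hφ'
    rw [← Theory.CompleteType.not_mem_iff] at hφ'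
    obtain ⟨φ, rfl⟩ := Formula.equivSentence.surjective φ
    have h1 : trace j φ ∈ @Ultrafilter.of _ (typeFilter j p) (hne p) := by
      apply @Ultrafilter.of_le _ (typeFilter j p) (hne p)
      exact ⟨φ, hφ, le_rfl⟩
    have h2 : trace j φ.not ∈ @Ultrafilter.of _ (typeFilter j q) (hne q) := by
      apply @Ultrafilter.of_le _ (typeFilter j q) (hne q)
      exact ⟨φ.not, hφ', le_rfl⟩
    have h3 : trace j φ.not = (trace j φ)ᶜ := by
      ext x; rfl
    rw [h3] at h2
    obtain ⟨f, hf, htr⟩ := trace_eq j hj φ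
    have hdef : ((j ⁻¹' A) : Set W).Definable (canLang G W) (trace j φ) := by
      rw [definable_iff_exists_formula_sum]
      refine ⟨(cv φ).relabel
        (Sum.map (fun a => ⟨f a, by show j (f a) ∈ A; rw [hf]; exact a.2⟩) id), ?_⟩
      rw [htr]
      ext x
      simp only [Set.mem_ofPred_eq]
      rw [Formula.realize_relabel]
      have : (Sum.elim Subtype.val x ∘
          Sum.map (fun a : A => (⟨f a, by show j (f a) ∈ A; rw [hf]; exact a.2⟩ :
            (j ⁻¹' A : Set W))) id) = Sum.elim f x := by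
        ext i
        rcases i with i | i <;> rfl
      rw [this]
    rw [definable_iff_finitely_definable] at hdef
    obtain ⟨B, -, hB⟩ := hdef
    have h4 := hdata n _ _ hpq B _ hB h1
    exact (Ultrafilter.compl_notMem_iff.2 h4) h2
  exact hne' (SetLike.ext fun φ => ⟨key p q hpq φ, key q p hpq.symm φ⟩)

end Pool.Agent.Helper97.MT
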