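import Mathlib

/-!
# Linear algebra over `F₂` used in the counterexample
-/

open Module

namespace Pool.Agent.Helper97.Maz

section general

variable {X : Type} [AddCommGroup X] [Module (ZMod 2) X]

theorem zmod2_cases (a : ZMod 2) : a = 0 ∨ a = 1 := by
  revert a; decide

theorem add_self_eq_zero' (x : X) : x + x = 0 := by
  have : (2 : ZMod 2) • x = 0 := by
    rw [show (2 : ZMod 2) = 0 from rfl, zero_smul]
  rwa [two_smul] at this

theorem eq_add_of_add_eq {x y z : X} (h : x + y = z) : x = z + y := by
  rw [← h, add_assoc, add_self_eq_zero', add_zero]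

/-- A functional vanishing on `S` and equal to one at `x`. -/
theorem exists_functional (S : Submodule (ZMod 2) X) {x : X} (hx : x ∉ S) :
    ∃ f : X →ₗ[ZMod 2] ZMod 2, (∀ s ∈ S, f s = 0) ∧ f x = 1 := by
  obtain ⟨f, hf, hS⟩ := S.exists_dual_map_eq_bot_of_notMem hx inferInstance
  refine ⟨f, ?_, ?_⟩
  · intro s hs
    have : f s ∈ S.map f := ⟨s, hs, rfl⟩
    rw [hS] at this
    simpa using this
  · rcases zmod2_cases (f x) with h | h
    · exact absurd h hf
    · exact h

/-- A functional vanishing on `S` and equal to one at `x` and `y`. -/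
theorem exists_functional₂ (S : Submodule (ZMod 2) X) {x y : X} (hx : x ∉ S) (hy : y ∉ S) :
    ∃ f : X →ₗ[ZMod 2] ZMod 2, (∀ s ∈ S, f s = 0) ∧ f x = 1 ∧ f y = 1 := by
  obtain ⟨f, hf, hfx⟩ := exists_functional S hx
  obtain ⟨g, hg, hgy⟩ := exists_functional S hy
  rcases zmod2_cases (f y) with h | h
  · rcases zmod2_cases (g x) with h' | h'
    · refine ⟨f + g, fun s hs => ?_, ?_, ?_⟩
      · simp [hf s hs, hg s hs]
      · simp [hfx, h']
      · simp [hgy, h]
    · exact ⟨g, hg, h', hgy⟩
  · exact ⟨f, hf, hfx, h⟩

/-- Transvections move `x` to `y`, fixing `S`. -/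
theorem exists_transvection (S : Submodule (ZMod 2) X) {x y : X} (hx : x ∉ S) (hy : y ∉ S) :
    ∃ τ : X ≃ₗ[ZMod 2] X, (∀ s ∈ S, τ s = s) ∧ τ x = y := by
  obtain ⟨f, hf, hfx, hfy⟩ := exists_functional₂ S hx hy
  have h0 : f (x + y) = 0 := by
    rw [map_add, hfx, hfy]; rfl
  refine ⟨LinearEquiv.transvection h0, fun s hs => ?_, ?_⟩
  · rw [LinearEquiv.transvection.apply, hf s hs, zero_smul, add_zero]
  · rw [LinearEquiv.transvection.apply, hfx, one_smul, ← add_assoc, add_self_eq_zero', zero_add]

/-- Two tuples with the same linear relations over `S` are conjugate over `S`. -/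
theorem exists_linearEquiv {ι : Type} [Fintype ι] (S : Submodule (ZMod 2) X) (v v' : ι → X)
    (h : ∀ ε : ι → ZMod 2, ∀ s ∈ S, (∑ i, ε i • v i = s ↔ ∑ i, ε i • v' i = s)) :
    ∃ γ : X ≃ₗ[ZMod 2] X, (∀ s ∈ S, γ s = s) ∧ ∀ i, γ (v i) = v' i := by
  classical
  suffices H : ∀ t : Finset ι, ∃ γ : X ≃ₗ[ZMod 2] X, (∀ s ∈ S, γ s = s) ∧
      ∀ i ∈ t, γ (v i) = v' i by
    obtain ⟨γ, h1, h2⟩ := H Finset.univ
    exact ⟨γ, h1, fun i => h2 i (Finset.mem_univ i)⟩
  intro t
  induction t using Finset.induction_on with
  | empty => exact ⟨LinearEquiv.refl _ _, fun s _ => rfl, by simp⟩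
  | insert a t ha ih =>
    obtain ⟨γ, h1, h2⟩ := ih
    by_cases hw : γ (v a) = v' a
    · refine ⟨γ, h1, ?_⟩
      intro i hi
      rcases Finset.mem_insert.1 hi with rfl | hi
      · exact hw
      · exact h2 i hi
    · -- a relation expressing an element by others
      have key : ∀ (ε : ι → ZMod 2) (s : X) (u : ι → X), 
          (∑ i, (if i = a then 1 else if i ∈ t then ε i else 0) • u i = s ↔
            u a = s + ∑ i ∈ t, ε i • u i) := by
        intro ε s u
        have e1 : ∑ i, (if i = a then (1 : ZMod 2) else if i ∈ t then ε i else 0) • u i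
            = u a + ∑ i ∈ t, ε i • u i := by
          rw [← Finset.add_sum_erase Finset.univ _ (Finset.mem_univ a)]
          congr 1
          · simp
          · rw [← Finset.sum_subset (s₁ := t)]
            · refine Finset.sum_congr rfl fun i hi => ?_
              have : i ≠ a := fun h => ha (h ▸ hi)
              simp [this, hi]
            · intro i hi
              exact Finset.mem_erase.2 ⟨fun h => ha (h ▸ hi), Finset.mem_univ i⟩
            · intro i hi hit
              have : i ≠ a := (Finset.mem_erase.1 hi).1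
              simp [this, hit]
        rw [e1]
        constructor
        · intro h
          exact eq_add_of_add_eq h
        · intro h
          rw [h, add_assoc, add_self_eq_zero', add_zero]
      have hS' : ∀ x, x ∈ S ⊔ Submodule.span (ZMod 2) (v' '' (t : Set ι)) →
          ∃ s ∈ S, ∃ ε : ι → ZMod 2, x = s + ∑ i ∈ t, ε i • v' i := by
        intro x hx
        obtain ⟨s, hs, y, hy, rfl⟩ := Submodule.mem_sup.1 hx
        rw [Submodule.mem_span_image_finset_iff_exists_fun'] at hy
        obtain ⟨f, rfl⟩ := hy
        exact ⟨s, hs, f, rfl⟩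
      have hx : γ (v a) ∉ S ⊔ Submodule.span (ZMod 2) (v' '' (t : Set ι)) := by
        intro hx
        obtain ⟨s, hs, ε, he⟩ := hS' _ hx
        have e2 : v a = s + ∑ i ∈ t, ε i • v i := by
          apply γ.injective
          rw [he, map_add, h1 s hs, map_sum]
          congr 1
          refine Finset.sum_congr rfl fun i hi => ?_
          rw [map_smul, h2 i hi]
        have e3 := (key ε s v).2 e2
        have e4 := (h _ s hs).1 e3
        have e5 := (key ε s v').1 e4
        exact hw (by rw [he, e5])
      have hy : v' a ∉ S ⊔ Submodule.span (ZMod 2) (v' '' (t : Set ι)) := by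
        intro hy
        obtain ⟨s, hs, ε, he⟩ := hS' _ hy
        have e3 := (key ε s v').2 he
        have e4 := (h _ s hs).2 e3
        have e5 := (key ε s v).1 e4
        apply hw
        rw [e5, map_add, h1 s hs, map_sum, he]
        congr 1
        refine Finset.sum_congr rfl fun i hi => ?_
        rw [map_smul, h2 i hi]
      obtain ⟨τ, hτ1, hτ2⟩ := exists_transvection _ hx hy
      refine ⟨γ.trans τ, ?_, ?_⟩
      · intro s hs
        rw [LinearEquiv.trans_apply, h1 s hs]
        exact hτ1 s (Submodule.mem_sup_left hs)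
      · intro i hi
        rw [LinearEquiv.trans_apply]
        rcases Finset.mem_insert.1 hi with rfl | hi
        · exact hτ2
        · rw [h2 i hi]
          exact hτ1 _ (Submodule.mem_sup_right (Submodule.subset_span ⟨i, hi, rfl⟩))

end general

/-- Two tuples with the same equality pattern over `F` are conjugate by a permutation fixing
`F`. -/
theorem exists_perm {I ι : Type} [Fintype ι] (F : Finset I) (v v' : ι → I)
    (h1 : ∀ a, ∀ f ∈ F, (v a = f ↔ v' a = f)) (h2 : ∀ a b, (v a = v b ↔ v' a = v' b)) :
    ∃ σ : Equiv.Perm I, (∀ f ∈ F, σ f = f) ∧ ∀ a, σ (v a) = v' a := by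
  classical
  suffices H : ∀ t : Finset ι, ∃ σ : Equiv.Perm I, (∀ s ∈ F, σ s = s) ∧
      ∀ i ∈ t, σ (v i) = v' i by
    obtain ⟨γ, h1, h2⟩ := H Finset.univ
    exact ⟨γ, h1, fun i => h2 i (Finset.mem_univ i)⟩
  intro t
  induction t using Finset.induction_on with
  | empty => exact ⟨Equiv.refl _, fun s _ => rfl, by simp⟩
  | insert a t ha ih =>
    obtain ⟨σ, h3, h4⟩ := ih
    by_cases hw : σ (v a) = v' a
    · refine ⟨σ, h3, ?_⟩
      intro i hi
      rcases Finset.mem_insert.1 hi with rfl | hi
      · exact hw
      · exact h4 i hi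
    · refine ⟨σ.trans (Equiv.swap (σ (v a)) (v' a)), ?_, ?_⟩
      · intro f hf
        rw [Equiv.trans_apply, h3 f hf]
        apply Equiv.swap_apply_of_ne_of_ne
        · rintro h5
          have h6 : v a = f := σ.injective (by rw [← h5, h3 f hf])
          rw [(h1 a f hf).1 h6] at hw
          exact hw h5.symm
        · rintro h5
          have h6 := (h1 a f hf).2 h5.symm
          rw [h6, h3 f hf] at hw
          exact hw h5
      · intro i hi
        rw [Equiv.trans_apply]
        rcases Finset.mem_insert.1 hi with rfl | hi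
        · exact Equiv.swap_apply_left _ _
        · rw [h4 i hi]
          apply Equiv.swap_apply_of_ne_of_ne
          · intro h5
            have h6 : v i = v a := σ.injective (by rw [← h5, h4 i hi])
            have h7 := (h2 i a).1 h6
            rw [h7] at h5
            exact hw h5.symm
          · intro h5
            have h6 := (h2 i a).2 h5
            rw [← h6, h4 i hi] at hw
            exact hw h5

end Pool.Agent.Helper97.Maz
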