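import Mathlib
import Pool.Agent.Helper97.MTStable
import Pool.Agent.Helper97.MazLin

/-!
# The structure
-/

open Module

namespace Pool.Agent.Helper97.Maz

open Pool.Agent.Helper97.Canon Pool.Agent.Helper97.MT

/-- index set of the pure-set sort -/
abbrev I := ℕ × Fin 3
abbrev V := ℕ →₀ ZMod 2
abbrev H := I →₀ ZMod 2
abbrev E := V × H

/-- The weight of a vector: number of indices in the support of the second component. -/
def wt (x : E) : ℕ := x.2.support.card

/-- The weight-preserving linear automorphisms. -/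
def Gr : Subgroup (E ≃ₗ[ZMod 2] E) where
  carrier := {g | ∀ x, wt (g x) = wt x}
  mul_mem' := by
    intro a b ha hb x
    rw [LinearEquiv.mul_apply, ha, hb]
  one_mem' := fun x => rfl
  inv_mem' := by
    intro a ha x
    have := ha (a⁻¹ x)
    rw [← this]
    congr 1
    exact a.apply_symm_apply x

/-- Vectors of weight at most three. -/
abbrev U := {x : E // wt x ≤ 3}

noncomputable instance : MulAction Gr U where
  smul g x := ⟨g.1 x.1, by rw [g.2]; exact x.2⟩
  one_smul x := rfl
  mul_smul g h x := rfl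

theorem smul_val (g : Gr) (x : U) : (g • x).1 = g.1 x.1 := rfl

/-- The universe: pairs of vectors of weight at most three. -/
abbrev W := Fin 2 → U

theorem smul_W (g : Gr) (w : W) (i : Fin 2) : ((g • w) i).1 = g.1 (w i).1 := rfl

instance : Countable W := inferInstance

/-- The vector `(v, 0)` as an element of `U`. -/
noncomputable def uV (v : V) : U := ⟨(v, 0), by simp [wt]⟩

theorem uV_inj : Function.Injective uV := by
  intro v w h
  have := congrArg (fun u : U => u.1.1) h
  exact this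

instance : Infinite U := Infinite.of_injective uV uV_inj

instance : Infinite W := inferInstance

theorem emd_fix (σ : Equiv.Perm I) (h : H) (hσ : ∀ k ∈ h.support, σ k = k) :
    Finsupp.equivMapDomain σ h = h := by
  ext i
  rw [Finsupp.equivMapDomain_apply]
  by_cases hi : i ∈ h.support
  · have := hσ i hi
    rw [show σ.symm i = i by rw [Equiv.symm_apply_eq, this]]
  · have h2 : σ.symm i ∉ h.support := by
      intro h3
      have := hσ _ h3
      rw [Equiv.apply_symm_apply] at this
      rw [← this] at h3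
      exact hi h3
    rw [Finsupp.notMem_support_iff.1 hi, Finsupp.notMem_support_iff.1 h2]

theorem supp_emd (σ : Equiv.Perm I) (h : H) :
    (Finsupp.equivMapDomain σ h).support = h.support.map σ.toEmbedding := rfl

/-- The block-diagonal element of the group given by a linear automorphism of `V` and a
permutation of the index set. -/
noncomputable def mk (γ : V ≃ₗ[ZMod 2] V) (σ : Equiv.Perm I) : Gr :=
  ⟨γ.prodCongr (Finsupp.domLCongr σ), by
    intro x
    unfold wt
    rw [LinearEquiv.prodCongr_apply]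
    simp only [Finsupp.domLCongr_apply]
    have : ((Finsupp.domCongr σ : H ≃+ H) x.2) = Finsupp.equivMapDomain σ x.2 := rfl
    rw [this, supp_emd]
    simp⟩

theorem mk_apply (γ : V ≃ₗ[ZMod 2] V) (σ : Equiv.Perm I) (x : E) :
    (mk γ σ).1 x = (γ x.1, Finsupp.equivMapDomain σ x.2) := rfl

/-- Transvections along vectors of `V`. -/
noncomputable def tv (f : E →ₗ[ZMod 2] ZMod 2) (d : V) (h : f (d, 0) = 0) : Gr :=
  ⟨LinearEquiv.transvection h, by
    intro x
    rw [LinearEquiv.transvection.apply]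
    unfold wt
    simp⟩

theorem tv_apply (f : E →ₗ[ZMod 2] ZMod 2) (d : V) (h : f (d, 0) = 0) (x : E) :
    (tv f d h).1 x = x + f x • ((d, 0) : E) := rfl

/-- Index list of a vector of `H`. -/
noncomputable def idx (h : H) (j : Fin 3) : I := h.support.toList.getD j (0, 0)

theorem equivMapDomain_eq (σ : Equiv.Perm I) (h h' : H) (hc : h.support.card ≤ 3)
    (hcc : h.support.card = h'.support.card) (hi : ∀ j, σ (idx h j) = idx h' j) :
    Finsupp.equivMapDomain σ h = h' := by
  have hs : (Finsupp.equivMapDomain σ h).support = h'.support := by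
    apply Finset.eq_of_subset_of_card_le
    · intro i hi'
      rw [supp_emd, Finset.mem_map] at hi'
      obtain ⟨k, hk, rfl⟩ := hi'
      rw [← Finset.mem_toList] at hk
      obtain ⟨j, hj, rfl⟩ := List.getElem_of_mem hk
      have hj' : j < 3 := by
        rw [Finset.length_toList] at hj; omega
      have h1 := hi ⟨j, hj'⟩
      unfold idx at h1
      simp only at h1
      rw [List.getD_eq_getElem _ _ hj, List.getD_eq_getElem _ _ (by
        rw [Finset.length_toList] at hj ⊢; omega)] at h1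
      show σ _ ∈ _
      rw [h1, ← Finset.mem_toList]
      exact List.getElem_mem _
    · rw [supp_emd, Finset.card_map, hcc]
  ext i
  have h1 : (Finsupp.equivMapDomain σ h) i ≠ 0 ↔ h' i ≠ 0 := by
    rw [← Finsupp.mem_support_iff, ← Finsupp.mem_support_iff, hs]
  rcases zmod2_cases ((Finsupp.equivMapDomain σ h) i) with h2 | h2 <;>
    rcases zmod2_cases (h' i) with h3 | h3 <;> simp_all

/-- The main conjugacy lemma. -/
theorem exists_conj {ι : Type} [Fintype ι] (F : Finset I) (S : Submodule (ZMod 2) V)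
    (x x' : ι → U)
    (hc : ∀ a, (x a).1.2.support.card = (x' a).1.2.support.card)
    (h1 : ∀ p : ι × Fin 3, ∀ f ∈ F, (idx (x p.1).1.2 p.2 = f ↔ idx (x' p.1).1.2 p.2 = f))
    (h2 : ∀ p q : ι × Fin 3, (idx (x p.1).1.2 p.2 = idx (x q.1).1.2 q.2 ↔
      idx (x' p.1).1.2 p.2 = idx (x' q.1).1.2 q.2))
    (h3 : ∀ ε : ι → ZMod 2, ∀ s ∈ S, (∑ i, ε i • (x i).1.1 = s ↔ ∑ i, ε i • (x' i).1.1 = s)) :
    ∃ (γ : V ≃ₗ[ZMod 2] V) (σ : Equiv.Perm I), (∀ s ∈ S, γ s = s) ∧ (∀ f ∈ F, σ f = f) ∧
      ∀ a, mk γ σ • x a = x' a := by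
  obtain ⟨γ, hγ1, hγ2⟩ := exists_linearEquiv S (fun a => (x a).1.1) (fun a => (x' a).1.1) h3
  obtain ⟨σ, hσ1, hσ2⟩ := exists_perm F (fun p : ι × Fin 3 => idx (x p.1).1.2 p.2)
    (fun p => idx (x' p.1).1.2 p.2) h1 h2
  refine ⟨γ, σ, hγ1, hσ1, fun a => ?_⟩
  apply Subtype.ext
  rw [smul_val, mk_apply]
  apply Prod.ext
  · exact hγ2 a
  · exact equivMapDomain_eq σ _ _ (x a).2 (hc a) (fun j => hσ2 (a, j))

/-- Finitely many orbits on `W^n`. -/
theorem finite_rel (n : ℕ) : Finite ((canLang Gr W).Relations n) := by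
  classical
  let D := (Fin n × Fin 2 → Fin 4) ×
    ((Fin n × Fin 2) × Fin 3 → (Fin n × Fin 2) × Fin 3 → Prop) ×
    ((Fin n × Fin 2 → ZMod 2) → Prop)
  have : Finite D := inferInstance
  let rep : (canLang Gr W).Relations n → (Fin n → W) := fun R => (orb_surj R).choose
  have hrep : ∀ R, orb (rep R) = R := fun R => (orb_surj R).choose_spec
  let dat : (Fin n → W) → D := fun x =>
    (fun a => ⟨(x a.1 a.2).1.2.support.card, Nat.lt_succ_of_le (x a.1 a.2).2⟩,
     fun p q => idx (x p.1.1 p.1.2).1.2 p.2 = idx (x q.1.1 q.1.2).1.2 q.2,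
     fun ε => ∑ i, ε i • (x i.1 i.2).1.1 = 0)
  apply Finite.of_injective (fun R => dat (rep R))
  intro R R' h
  rw [← hrep R, ← hrep R', eq_comm, orb_eq_iff]
  have h1 := congrArg Prod.fst h
  have h2 := congrArg (fun z => z.2.1) h
  have h3 := congrArg (fun z => z.2.2) h
  obtain ⟨γ, σ, -, -, h4⟩ := exists_conj (ι := Fin n × Fin 2) ∅ ⊥
    (fun a => rep R a.1 a.2) (fun a => rep R' a.1 a.2)
    (fun a => congrArg Fin.val (congrFun h1 a))
    (fun p f hf => by simp at hf)
    (fun p q => iff_of_eq (congrFun (congrFun h2 p) q))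
    (fun ε s hs => by
      rw [Submodule.mem_bot] at hs
      subst hs
      exact iff_of_eq (congrFun h3 ε))
  refine ⟨mk γ σ, ?_⟩
  ext i b : 2
  exact h4 (i, b)

/-! ### omega-stability -/

section lim

variable {X Y : Type}

/-- The value taken by `f` on a large set, if there is one. -/
noncomputable def lim (u : Ultrafilter X) (f : X → Y) : Option Y :=
  open Classical in
  if h : ∃ y, f ⁻¹' {y} ∈ u then some h.choose else none

theorem lim_some (u : Ultrafilter X) (f : X → Y) (y : Y) : lim u f = some y ↔ f ⁻¹' {y} ∈ u := by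
  unfold lim
  constructor
  · intro h
    split_ifs at h with h'
    · rw [Option.some_inj] at h
      rw [← h]
      exact h'.choose_spec
  · intro h
    have h' : ∃ y, f ⁻¹' {y} ∈ u := ⟨y, h⟩
    rw [dif_pos h']
    congr 1
    by_contra hne
    have h2 := Filter.inter_mem h'.choose_spec h
    have h3 : f ⁻¹' {h'.choose} ∩ f ⁻¹' {y} = ∅ := by
      ext x
      simp only [Set.mem_inter_iff, Set.mem_preimage, Set.mem_singleton_iff,
        Set.mem_empty_iff_false, iff_false, not_and]
      intro h4 h5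
      exact hne (h4 ▸ h5)
    rw [h3] at h2
    exact u.empty_notMem h2

theorem mem_of_lim {u v : Ultrafilter X} {f : X → Y} (h : lim u f = lim v f) (y : Y) :
    f ⁻¹' {y} ∈ u ↔ f ⁻¹' {y} ∈ v := by
  rw [← lim_some, ← lim_some, h]

theorem exists_pair {Q : Type} [Finite Q] {u v : Ultrafilter X} (cond : Q → Set X)
    (h : ∀ q, cond q ∈ u ↔ cond q ∈ v) {A B : Set X} (hA : A ∈ u) (hB : B ∈ v) :
    ∃ x ∈ A, ∃ y ∈ B, ∀ q, x ∈ cond q ↔ y ∈ cond q := by
  have h1 : ∀ w : Ultrafilter X, {x | ∀ q, x ∈ cond q ↔ cond q ∈ w} ∈ w := by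
    intro w
    have : {x | ∀ q, x ∈ cond q ↔ cond q ∈ w} = ⋂ q, {x | x ∈ cond q ↔ cond q ∈ w} := by
      ext x; simp
    rw [this]
    rw [← Ultrafilter.mem_coe, Filter.iInter_mem]
    intro q
    by_cases hq : cond q ∈ w
    · filter_upwards [hq] with x hx
      exact ⟨fun _ => hq, fun _ => hx⟩
    · have hq' : (cond q)ᶜ ∈ w := Ultrafilter.compl_mem_iff_notMem.2 hq
      filter_upwards [hq'] with x hx
      exact ⟨fun hx' => absurd hx' hx, fun h => absurd h hq⟩
  obtain ⟨x, hx1, hx2⟩ := u.nonempty_of_mem (Filter.inter_mem hA (h1 u))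
  obtain ⟨y, hy1, hy2⟩ := v.nonempty_of_mem (Filter.inter_mem hB (h1 v))
  refine ⟨x, hx1, y, hy1, fun q => ?_⟩
  rw [hx2 q, hy2 q, h q]

end lim

/-- Countable data classifying types. -/
abbrev Dat (n : ℕ) : Type := (Fin n × Fin 2 → Option ℕ) × ((Fin n × Fin 2) × Fin 3 → Option I) ×
  ((Fin n × Fin 2) × Fin 3 → (Fin n × Fin 2) × Fin 3 → Option Bool) ×
  ((Fin n × Fin 2 → ZMod 2) → Option V)

open Classical in
/-- The data of an ultrafilter. -/
noncomputable def dataOf (n : ℕ) (u : Ultrafilter (Fin n → W)) : Dat n :=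
  (fun a => lim u (fun x => (x a.1 a.2).1.2.support.card),
   fun p => lim u (fun x => idx (x p.1.1 p.1.2).1.2 p.2),
   fun p q => lim u (fun x => decide (idx (x p.1.1 p.1.2).1.2 p.2 = idx (x q.1.1 q.1.2).1.2 q.2)),
   fun ε => lim u (fun x => ∑ i, ε i • (x i.1 i.2).1.1))

instance (n : ℕ) : Countable (Dat n) := inferInstance

theorem finite_span_V (B : Finset V) : Finite (Submodule.span (ZMod 2) (B : Set V)) := by
  have : Module.Finite (ZMod 2) (Submodule.span (ZMod 2) (B : Set V)) :=
    Module.Finite.span_finset _ B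
  exact Module.finite_of_finite (ZMod 2)

theorem omegaStable : OmegaStable ((canLang Gr W).completeTheory W) := by
  classical
  refine omegaStable_of finite_rel Dat (fun n => inferInstance) dataOf ?_
  intro n u v huv B X hX hu
  by_contra hv
  rw [← Ultrafilter.compl_mem_iff_notMem] at hv
  -- parameters
  let Fs : Finset I := B.biUnion (fun w => (Finset.univ : Finset (Fin 2)).biUnion
    (fun i => (w i).1.2.support))
  let Vs : Finset V := B.biUnion (fun w => (Finset.univ : Finset (Fin 2)).image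
    (fun i => (w i).1.1))
  let S := Submodule.span (ZMod 2) (Vs : Set V)
  have hSf : Finite S := finite_span_V Vs
  have e1 := congrArg Prod.fst huv
  have e2 := congrArg (fun z => z.2.1) huv
  have e3 := congrArg (fun z => z.2.2.1) huv
  have e4 := congrArg (fun z => z.2.2.2) huv
  let Q : Type := ((Fin n × Fin 2) × Fin 4) ⊕ (((Fin n × Fin 2) × Fin 3) × Fs) ⊕
    (((Fin n × Fin 2) × Fin 3) × ((Fin n × Fin 2) × Fin 3)) ⊕ ((Fin n × Fin 2 → ZMod 2) × S)
  let cond : Q → Set (Fin n → W) := fun q => match q with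
    | Sum.inl (a, c) => {x | (x a.1 a.2).1.2.support.card = c.1}
    | Sum.inr (Sum.inl (p, f)) => {x | idx (x p.1.1 p.1.2).1.2 p.2 = f.1}
    | Sum.inr (Sum.inr (Sum.inl (p, q))) =>
        {x | idx (x p.1.1 p.1.2).1.2 p.2 = idx (x q.1.1 q.1.2).1.2 q.2}
    | Sum.inr (Sum.inr (Sum.inr (ε, s))) => {x | ∑ i, ε i • (x i.1 i.2).1.1 = s.1}
  have hQ : Finite Q := inferInstance
  obtain ⟨x, hx, y, hy, hxy⟩ := exists_pair (u := u) (v := v) cond (by
    rintro (⟨a, c⟩ | ⟨p, f⟩ | ⟨p, q⟩ | ⟨ε, s⟩)
    · exact mem_of_lim (congrFun e1 a) c.1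
    · exact mem_of_lim (congrFun e2 p) f.1
    · have := mem_of_lim (congrFun (congrFun e3 p) q) true
      have h5 : (fun x : Fin n → W => decide (idx (x p.1.1 p.1.2).1.2 p.2 =
          idx (x q.1.1 q.1.2).1.2 q.2)) ⁻¹' {true} =
          {x | idx (x p.1.1 p.1.2).1.2 p.2 = idx (x q.1.1 q.1.2).1.2 q.2} := by
        ext x; simp
      rw [h5] at this
      exact this
    · exact mem_of_lim (congrFun e4 ε) s.1) hu hv
  obtain ⟨γ, σ, hγ, hσ, h4⟩ := exists_conj (ι := Fin n × Fin 2) Fs S
    (fun a => x a.1 a.2) (fun a => y a.1 a.2)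
    (fun a => by
      have := (hxy (Sum.inl (a, ⟨(x a.1 a.2).1.2.support.card,
        Nat.lt_succ_of_le (x a.1 a.2).2⟩))).1 rfl
      exact this.symm)
    (fun p f hf => hxy (Sum.inr (Sum.inl (p, ⟨f, hf⟩))))
    (fun p q => hxy (Sum.inr (Sum.inr (Sum.inl (p, q)))))
    (fun ε s hs => hxy (Sum.inr (Sum.inr (Sum.inr (ε, ⟨s, hs⟩)))))
  have hg : ∀ w ∈ (B : Set W), mk γ σ • w = w := by
    intro w hw
    ext i : 1
    apply Subtype.ext
    rw [smul_W, mk_apply]
    apply Prod.ext
    · apply hγ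
      apply Submodule.subset_span
      simp only [Vs, Finset.coe_biUnion, Set.mem_iUnion, Finset.coe_image]
      exact ⟨w, hw, i, by simp, rfl⟩
    · show Finsupp.equivMapDomain σ (w i).1.2 = (w i).1.2
      have hfix : ∀ k ∈ (w i).1.2.support, σ k = k := by
        intro k hk
        apply hσ
        simp only [Fs, Finset.mem_biUnion]
        exact ⟨w, hw, i, Finset.mem_univ i, hk⟩
      exact emd_fix σ _ hfix
  have := (definable_inv hX (mk γ σ) hg x).2 hx
  apply hy
  convert this using 1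
  ext i b : 2
  exact (h4 (i, b)).symm

end Pool.Agent.Helper97.Maz
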