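import Mathlib
import Pool.Agent.Helper97.MazStr

/-!
# The strongly minimal type
-/

open FirstOrder FirstOrder.Language Cardinal Set

namespace Pool.Agent.Helper97.MT

open Pool.Agent.Helper97.Canon

section

variable {L : FirstOrder.Language.{0, 0}} {M N : Type} [L.Structure M] [L.Structure N]

theorem definable_preimage (j : M ↪ₑ[L] N) {A : Set N} (hA : A ⊆ Set.range j) {X : Set N}
    (hX : A.Definable₁ L X) : (j ⁻¹' A).Definable₁ L (j ⁻¹' X) := by
  rw [definable₁_iff] at hX ⊢
  obtain ⟨φ, rfl⟩ := hX
  have hpre : ∀ a : A, ∃ b : (j ⁻¹' A : Set M), j b.1 = a.1 := by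
    rintro ⟨a, ha⟩
    obtain ⟨b, rfl⟩ := hA ha
    exact ⟨⟨b, ha⟩, rfl⟩
  choose f hf using hpre
  refine ⟨φ.relabel (Sum.map f id), ?_⟩
  ext c
  simp only [Set.mem_preimage, Set.mem_ofPred_eq]
  rw [Formula.realize_relabel, ← j.map_formula]
  have : (j ∘ Sum.elim Subtype.val (fun _ : Fin 1 => c) ∘ (Sum.map f id)) =
      Sum.elim Subtype.val (fun _ => j c) := by
    ext a
    rcases a with a | a
    · simp [hf]
    · rfl
  rw [this]

theorem solutions_preimage (j : M ↪ₑ[L] N) (φ : L.Formula (Fin 1)) :
    j ⁻¹' (solutions N φ) = solutions M φ := by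
  ext c
  simp only [Set.mem_preimage, solutions, Set.mem_ofPred_eq]
  have := j.map_formula φ (fun _ => c)
  rw [← this]
  rfl

end

variable {G : Type} {W : Type} [Group G] [MulAction G W]

theorem stronglyMinimal_of [Countable W] [Infinite W]
    (hfin : ∀ n, Finite ((canLang G W).Relations n))
    (φ : (canLang G W).Formula (Fin 1)) (hinf : (solutions W φ).Infinite)
    (hmin : ∀ (B : Set W) (X : Set W), B.Finite → B.Definable₁ (canLang G W) X →
      (solutions W φ ∩ X).Finite ∨ (solutions W φ \ X).Finite) :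
    StronglyMinimalFormula ((canLang G W).completeTheory W) φ := by
  intro M
  constructor
  · obtain ⟨j, -⟩ := exists_embed hfin M ∅ Set.countable_empty
    have h1 : (j '' (solutions W φ)).Infinite := hinf.image j.injective.injOn
    refine h1.mono ?_
    rintro _ ⟨c, hc, rfl⟩
    rw [← solutions_preimage j] at hc
    exact hc
  · intro X hX
    unfold Definable₁ at hX
    rw [definable_iff_finitely_definable] at hX
    obtain ⟨B0, -, hB0⟩ := hX
    by_contra hcon
    push Not at hcon
    obtain ⟨h1, h2⟩ := hcon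
    have h1' : (solutions M φ ∩ X).Infinite := h1
    have h2' : (solutions M φ \ X).Infinite := h2
    let f1 := h1'.natEmbedding
    let f2 := h2'.natEmbedding
    let P1 : Set M := Set.range (fun n => (f1 n : M))
    let P2 : Set M := Set.range (fun n => (f2 n : M))
    have hP1 : P1.Infinite := Set.infinite_range_of_injective
      (Subtype.val_injective.comp f1.injective)
    have hP2 : P2.Infinite := Set.infinite_range_of_injective
      (Subtype.val_injective.comp f2.injective)
    obtain ⟨j, hj⟩ := exists_embed hfin M (P1 ∪ P2 ∪ (B0 : Set M))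
      (((Set.countable_range _).union (Set.countable_range _)).union B0.countable_toSet)
    have hB : (B0 : Set M) ⊆ Set.range j := Set.subset_union_right.trans hj
    have h3 := definable_preimage j hB hB0
    rcases hmin _ _ (B0.finite_toSet.preimage (j.injective.injOn)) h3 with h4 | h4
    · have h5 : (j ⁻¹' P1).Infinite := hP1.preimage
        ((Set.subset_union_left.trans Set.subset_union_left).trans hj)
      apply h5
      refine h4.subset ?_
      intro c hc
      obtain ⟨n, hn⟩ := hc
      have h6 := (f1 n).2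
      rw [show ((f1 n : M)) = j c from hn] at h6
      refine ⟨?_, h6.2⟩
      rw [← solutions_preimage j]
      exact h6.1
    · have h5 : (j ⁻¹' P2).Infinite := hP2.preimage
        ((Set.subset_union_right.trans Set.subset_union_left).trans hj)
      apply h5
      refine h4.subset ?_
      intro c hc
      obtain ⟨n, hn⟩ := hc
      have h6 := (f2 n).2
      rw [show ((f2 n : M)) = j c from hn] at h6
      refine ⟨?_, h6.2⟩
      rw [← solutions_preimage j]
      exact h6.1

end Pool.Agent.Helper97.MT

namespace Pool.Agent.Helper97.Maz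

open Pool.Agent.Helper97.Canon Pool.Agent.Helper97.MT

/-- The element `((v, 0), 0)` of `W`. -/
noncomputable def cW (v : V) : W := ![uV v, uV 0]

theorem cW_inj : Function.Injective cW := by
  intro v w h
  have := congrFun h 0
  exact uV_inj this

noncomputable def v₁ : V := Finsupp.single 0 1

theorem v₁_ne : v₁ ≠ 0 := by
  unfold v₁
  simp

/-- The isolating formula. -/
noncomputable def φ₁ : (canLang Gr W).Formula (Fin 1) :=
  (orb (G := Gr) (fun _ : Fin 1 => cW v₁)).formula (fun i => Term.var i)

theorem smul_cW (g : Gr) (v : V) : ∃ v' : V, g • cW v = cW v' ∧ g.1 (v, 0) = (v', 0) := by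
  have h1 : (g.1 (v, 0)).2 = 0 := by
    have := g.2 ((v, 0) : E)
    unfold wt at this
    simpa using this
  refine ⟨(g.1 (v, 0)).1, ?_, ?_⟩
  · ext i : 1
    apply Subtype.ext
    rw [smul_W]
    fin_cases i
    · exact Prod.ext rfl h1
    · show g.1 (0, 0) = (0, 0)
      exact map_zero g.1
  · exact Prod.ext rfl h1

theorem sol_W : solutions W φ₁ = {c | ∃ v : V, v ≠ 0 ∧ c = cW v} := by
  ext c
  have h0 : c ∈ solutions W φ₁ ↔ ∃ g : Gr, g • cW v₁ = c := by
    unfold solutions φ₁
    simp only [Set.mem_ofPred_eq]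
    rw [Formula.realize_rel, relMap_iff, orb_eq_iff]
    simp only [Term.realize_var]
    constructor
    · rintro ⟨g, hg⟩
      exact ⟨g, congrFun hg 0⟩
    · rintro ⟨g, hg⟩
      exact ⟨g, by ext i : 1; exact hg⟩
  rw [h0]
  constructor
  · rintro ⟨g, rfl⟩
    obtain ⟨v', h1, h2⟩ := smul_cW g v₁
    refine ⟨v', ?_, h1⟩
    rintro rfl
    have : (v₁, (0 : H)) = 0 := g.1.injective (by rw [h2]; exact (map_zero g.1).symm)
    exact v₁_ne (congrArg Prod.fst this)
  · rintro ⟨v, hv, rfl⟩
    obtain ⟨τ, -, hτ⟩ := exists_transvection (⊥ : Submodule (ZMod 2) V) (x := v₁) (y := v)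
      (by simpa using v₁_ne) (by simpa using hv)
    refine ⟨mk τ 1, ?_⟩
    ext i : 1
    apply Subtype.ext
    rw [smul_W, mk_apply]
    fin_cases i
    · apply Prod.ext
      · exact hτ
      · exact emd_fix 1 0 (by simp)
    · apply Prod.ext
      · exact map_zero τ
      · exact emd_fix 1 0 (by simp)

theorem sol_W_infinite : (solutions W φ₁).Infinite := by
  rw [sol_W]
  have : (cW '' {v : V | v ≠ 0}).Infinite := by
    apply Set.Infinite.image cW_inj.injOn
    have : ({0}ᶜ : Set V).Infinite := (Set.finite_singleton 0).infinite_compl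
    exact this
  refine this.mono ?_
  rintro _ ⟨v, hv, rfl⟩
  exact ⟨v, hv, rfl⟩

/-- The span of all coordinates of elements of `B`. -/
noncomputable def spanW (B : Set W) : Submodule (ZMod 2) E :=
  Submodule.span (ZMod 2) {e | ∃ w ∈ B, ∃ i, e = (w i).1}

theorem mem_spanW {B : Set W} {w : W} (hw : w ∈ B) (i : Fin 2) : (w i).1 ∈ spanW B :=
  Submodule.subset_span ⟨w, hw, i, rfl⟩

theorem finite_spanW {B : Set W} (hB : B.Finite) : Finite (spanW B) := by
  have h1 : {e : E | ∃ w ∈ B, ∃ i, e = (w i).1}.Finite := by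
    have : {e : E | ∃ w ∈ B, ∃ i, e = (w i).1} = ⋃ w ∈ B, Set.range (fun i => (w i).1) := by
      ext e
      simp only [Set.mem_ofPred_eq, Set.mem_iUnion, Set.mem_range, exists_prop, eq_comm]
    rw [this]
    exact hB.biUnion fun w _ => Set.finite_range _
  have : Module.Finite (ZMod 2) (spanW B) := Module.Finite.span_of_finite _ h1
  exact Module.finite_of_finite (ZMod 2)

theorem fix_of_spanW {B : Set W} {g : Gr} (hg : ∀ s ∈ spanW B, g.1 s = s) :
    ∀ w ∈ B, g • w = w := by
  intro w hw
  ext i : 1
  apply Subtype.ext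
  rw [smul_W]
  exact hg _ (mem_spanW hw i)

theorem spanW_fixed {B : Set W} {g : Gr} (hg : ∀ w ∈ B, g • w = w) :
    ∀ s ∈ spanW B, g.1 s = s := by
  intro s hs
  unfold spanW at hs
  induction hs using Submodule.span_induction with
  | mem x hx =>
    obtain ⟨w, hw, i, rfl⟩ := hx
    have := hg w hw
    rw [← smul_W, this]
  | zero => exact map_zero _
  | add x y _ _ hx hy => rw [map_add, hx, hy]
  | smul a x _ hx => rw [map_smul, hx]

theorem min_W (B : Set W) (X : Set W) (hB : B.Finite) (hX : B.Definable₁ (canLang Gr W) X) :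
    (solutions W φ₁ ∩ X).Finite ∨ (solutions W φ₁ \ X).Finite := by
  have hS := finite_spanW hB
  have hfin : (cW '' {v : V | ((v, 0) : E) ∈ spanW B}).Finite := by
    apply Set.Finite.image
    have : (fun v : V => ((v, 0) : E)) ⁻¹' (spanW B : Set E) = {v : V | ((v, 0) : E) ∈ spanW B} :=
      rfl
    rw [← this]
    apply Set.Finite.preimage
    · intro v _ w _ h
      exact congrArg Prod.fst h
    · exact hS
  have key : ∀ v v' : V, ((v, 0) : E) ∉ spanW B → ((v', 0) : E) ∉ spanW B →
      cW v ∈ X → cW v' ∈ X := by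
    intro v v' hv hv' hX'
    obtain ⟨f, hf, hfv, hfv'⟩ := exists_functional₂ (spanW B) hv hv'
    have h0 : f ((v + v', 0) : E) = 0 := by
      have : ((v + v', 0) : E) = (v, 0) + (v', 0) := by simp
      rw [this, map_add, hfv, hfv']
      rfl
    have hfix : ∀ s ∈ spanW B, (tv f (v + v') h0).1 s = s := by
      intro s hs
      rw [tv_apply, hf s hs, zero_smul, add_zero]
    have h1 := (definable₁_inv hX (tv f (v + v') h0) (fix_of_spanW hfix) (cW v)).2 hX'
    have h2 : tv f (v + v') h0 • cW v = cW v' := by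
      obtain ⟨v'', h3, h4⟩ := smul_cW (tv f (v + v') h0) v
      rw [h3]
      congr 1
      rw [tv_apply, hfv, one_smul] at h4
      have := congrArg Prod.fst h4
      simp only [Prod.fst_add] at this
      rw [← this, ← add_assoc, add_self_eq_zero', zero_add]
    rw [h2] at h1
    exact h1
  by_cases h : ∃ v : V, ((v, 0) : E) ∉ spanW B ∧ cW v ∈ X
  · right
    obtain ⟨v, hv, hvX⟩ := h
    refine hfin.subset ?_
    rintro c ⟨hc, hcX⟩
    rw [sol_W] at hc
    obtain ⟨v', -, rfl⟩ := hc
    refine ⟨v', ?_, rfl⟩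
    by_contra h'
    exact hcX (key v v' hv h' hvX)
  · left
    push Not at h
    refine hfin.subset ?_
    rintro c ⟨hc, hcX⟩
    rw [sol_W] at hc
    obtain ⟨v', -, rfl⟩ := hc
    refine ⟨v', ?_, rfl⟩
    by_contra h'
    exact h v' h' hcX

theorem sm_φ₁ : StronglyMinimalFormula ((canLang Gr W).completeTheory W) φ₁ :=
  stronglyMinimal_of finite_rel φ₁ sol_W_infinite min_W

/-- The strongly minimal type: the type of a nonzero element of `V`. -/
noncomputable def p₁ : ((canLang Gr W).completeTheory W).CompleteType (Fin 1) :=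
  Theory.typeOf _ (fun _ : Fin 1 => cW v₁)

theorem mem_p₁ (φ : (canLang Gr W).Formula (Fin 1)) :
    Formula.equivSentence φ ∈ p₁ ↔ cW v₁ ∈ solutions W φ :=
  Theory.CompleteType.formula_mem_typeOf

theorem smt_p₁ : StronglyMinimalType ((canLang Gr W).completeTheory W) p₁ := by
  refine ⟨⟨φ₁, ?_, sm_φ₁⟩, ?_⟩
  · rw [mem_p₁, sol_W]
    exact ⟨v₁, v₁_ne, rfl⟩
  · intro φ hφ M
    rw [mem_p₁] at hφ
    obtain ⟨j, -⟩ := exists_embed finite_rel M ∅ Set.countable_empty
    have h1 : (solutions W φ₁) ⊆ solutions W φ := by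
      intro c hc
      unfold solutions φ₁ at hc
      simp only [Set.mem_ofPred_eq] at hc
      rw [Formula.realize_rel, relMap_iff, orb_eq_iff] at hc
      obtain ⟨g, hg⟩ := hc
      have h2 : g • cW v₁ = c := congrFun hg 0
      have h3 := (aut (G := Gr) (W := W) g).toElementaryEmbedding.map_formula φ
        (fun _ => cW v₁)
      have h4 := h3.2 hφ
      show φ.Realize _
      rw [← h2]
      exact h4
    have h5 : (j '' (solutions W φ)).Infinite := (sol_W_infinite.mono h1).image j.injective.injOn
    refine h5.mono ?_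
    rintro _ ⟨c, hc, rfl⟩
    rw [← solutions_preimage j] at hc
    exact hc

end Pool.Agent.Helper97.Maz
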