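import Mathlib
import Pool.Agent.Helper97.MazMin

/-!
# The ladder configuration
-/

open Module

namespace Pool.Agent.Helper97.Maz

/-- The star of the vertex `(j, r)` of the ladder. -/
noncomputable def star (p : ℕ × Fin 2) : H :=
  Finsupp.single (p.1, p.2.castSucc) 1 + Finsupp.single (p.1 + 1, p.2.castSucc) 1 +
    Finsupp.single (p.1, Fin.last 2) 1

/-- Linear combinations of stars. -/
noncomputable def D : ((ℕ × Fin 2) →₀ ZMod 2) →ₗ[ZMod 2] H :=
  Finsupp.linearCombination (ZMod 2) star

theorem D_single (p : ℕ × Fin 2) : D (Finsupp.single p 1) = star p := by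
  unfold D
  rw [Finsupp.linearCombination_single, one_smul]

theorem D_zero_row (x : (ℕ × Fin 2) →₀ ZMod 2) (r : Fin 2) :
    D x (0, r.castSucc) = x (0, r) := by
  induction x using Finsupp.induction_linear with
  | zero => simp
  | add f g hf hg => rw [map_add, Finsupp.add_apply, Finsupp.add_apply, hf, hg]
  | single p a =>
    obtain ⟨j, s⟩ := p
    unfold D
    rw [Finsupp.linearCombination_single]
    unfold star
    simp only [Finsupp.smul_apply, Finsupp.add_apply, Finsupp.single_apply, Prod.mk.injEq,
      Fin.castSucc_inj, smul_eq_mul]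
    have h1 : Fin.last 2 ≠ r.castSucc := (Fin.castSucc_lt_last r).ne'
    have h2 : ∀ j : ℕ, ¬ (j + 1 = 0) := fun j => Nat.succ_ne_zero j
    simp only [h1, h2, and_false, false_and, if_false, add_zero]
    split_ifs <;> simp

theorem D_succ_row (x : (ℕ × Fin 2) →₀ ZMod 2) (j : ℕ) (r : Fin 2) :
    D x (j + 1, r.castSucc) = x (j + 1, r) + x (j, r) := by
  induction x using Finsupp.induction_linear with
  | zero => simp
  | add f g hf hg => rw [map_add, Finsupp.add_apply, Finsupp.add_apply, Finsupp.add_apply, hf, hg]
                     ring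
  | single p a =>
    obtain ⟨k, s⟩ := p
    unfold D
    rw [Finsupp.linearCombination_single]
    unfold star
    simp only [Finsupp.smul_apply, Finsupp.add_apply, Finsupp.single_apply, Prod.mk.injEq,
      Fin.castSucc_inj, smul_eq_mul]
    have h1 : Fin.last 2 ≠ r.castSucc := (Fin.castSucc_lt_last r).ne'
    simp only [h1, and_false, if_false, add_zero, Nat.add_right_cancel_iff]
    rw [mul_add]
    congr 1 <;> split_ifs <;> simp

theorem D_rung (x : (ℕ × Fin 2) →₀ ZMod 2) (j : ℕ) :
    D x (j, Fin.last 2) = x (j, 0) + x (j, 1) := by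
  induction x using Finsupp.induction_linear with
  | zero => simp
  | add f g hf hg => rw [map_add, Finsupp.add_apply, Finsupp.add_apply, Finsupp.add_apply, hf, hg]
                     ring
  | single p a =>
    obtain ⟨k, s⟩ := p
    unfold D
    rw [Finsupp.linearCombination_single]
    unfold star
    simp only [Finsupp.smul_apply, Finsupp.add_apply, Finsupp.single_apply, Prod.mk.injEq,
      smul_eq_mul]
    have h1 : s.castSucc ≠ Fin.last 2 := (Fin.castSucc_lt_last s).ne
    simp only [h1, and_false, if_false, zero_add, and_true]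
    fin_cases s <;> simp

/-- A nonempty row contributes two horizontal edges. -/
theorem row_two (x : (ℕ × Fin 2) →₀ ZMod 2) (r : Fin 2) (h : ∃ j, x (j, r) ≠ 0) :
    ∃ a b : ℕ, a < b ∧ D x (a, r.castSucc) ≠ 0 ∧ D x (b, r.castSucc) ≠ 0 := by
  classical
  let s : Finset ℕ := x.support.image Prod.fst |>.filter (fun j => x (j, r) ≠ 0)
  have hs : ∀ j, j ∈ s ↔ x (j, r) ≠ 0 := by
    intro j
    simp only [s, Finset.mem_filter, Finset.mem_image, Finsupp.mem_support_iff]
    constructor
    · exact fun h => h.2
    · exact fun h => ⟨⟨(j, r), h, rfl⟩, h⟩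
  have hne : s.Nonempty := by
    obtain ⟨j, hj⟩ := h
    exact ⟨j, (hs j).2 hj⟩
  refine ⟨s.min' hne, s.max' hne + 1, ?_, ?_, ?_⟩
  · exact Nat.lt_succ_of_le (s.min'_le _ (s.max'_mem hne))
  · have h1 := (hs _).1 (s.min'_mem hne)
    rcases Nat.eq_zero_or_pos (s.min' hne) with h0 | h0
    · rw [h0] at h1 ⊢
      rw [D_zero_row]
      exact h1
    · obtain ⟨k, hk⟩ : ∃ k, s.min' hne = k + 1 := ⟨s.min' hne - 1, by omega⟩
      rw [hk, D_succ_row]
      have h2 : x (k, r) = 0 := by
        by_contra h3
        have := s.min'_le k ((hs k).2 h3)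
        omega
      rw [h2, add_zero, ← hk]
      exact h1
  · rw [D_succ_row]
    have h1 := (hs _).1 (s.max'_mem hne)
    have h2 : x (s.max' hne + 1, r) = 0 := by
      by_contra h3
      have := s.le_max' _ ((hs _).2 h3)
      omega
    rw [h2, zero_add]
    exact h1

/-- Both rows nonempty: weight at least four. -/
theorem four_le (x : (ℕ × Fin 2) →₀ ZMod 2) (h0 : ∃ j, x (j, 0) ≠ 0) (h1 : ∃ j, x (j, 1) ≠ 0) :
    4 ≤ (D x).support.card := by
  classical
  obtain ⟨a, b, hab, ha, hb⟩ := row_two x 0 h0
  obtain ⟨c, d, hcd, hc, hd⟩ := row_two x 1 h1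
  have : ({(a, (0 : Fin 2).castSucc), (b, (0 : Fin 2).castSucc), (c, (1 : Fin 2).castSucc),
      (d, (1 : Fin 2).castSucc)} : Finset I) ⊆ (D x).support := by
    intro i hi
    simp only [Finset.mem_insert, Finset.mem_singleton] at hi
    rcases hi with rfl | rfl | rfl | rfl <;> rw [Finsupp.mem_support_iff] <;> assumption
  refine le_trans (le_of_eq ?_) (Finset.card_le_card this)
  rw [Finset.card_insert_of_notMem, Finset.card_insert_of_notMem, Finset.card_insert_of_notMem,
    Finset.card_singleton]
  · simp [hcd.ne]
  · simp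
  · simp [hab.ne]

/-- One row empty: weight at least two plus the number of vertices. -/
theorem two_add_le (x : (ℕ × Fin 2) →₀ ZMod 2) (r r' : Fin 2) (hrr : r ≠ r')
    (h0 : ∃ j, x (j, r) ≠ 0) (h1 : ∀ j, x (j, r') = 0) :
    2 + x.support.card ≤ (D x).support.card := by
  classical
  obtain ⟨a, b, hab, ha, hb⟩ := row_two x r h0
  have hsub : ({(a, r.castSucc), (b, r.castSucc)} : Finset I) ∪
      x.support.image (fun p => (p.1, Fin.last 2)) ⊆ (D x).support := by
    intro i hi
    rw [Finset.mem_union] at hi
    rcases hi with hi | hi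
    · simp only [Finset.mem_insert, Finset.mem_singleton] at hi
      rcases hi with rfl | rfl <;> rw [Finsupp.mem_support_iff] <;> assumption
    · obtain ⟨⟨j, s⟩, hp, rfl⟩ := Finset.mem_image.1 hi
      rw [Finsupp.mem_support_iff] at hp ⊢
      rw [D_rung]
      have hs : s = r := by
        by_contra hs
        have : s = r' := by omega
        rw [this] at hp
        exact hp (h1 j)
      subst hs
      have hsum : x (j, 0) + x (j, 1) = x (j, s) + x (j, r') := by
        fin_cases s <;> fin_cases r' <;> simp_all [add_comm]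
      rw [hsum, h1 j, add_zero]
      exact hp
  refine le_trans (le_of_eq ?_) (Finset.card_le_card hsub)
  rw [Finset.card_union_of_disjoint]
  · congr 1
    · rw [Finset.card_insert_of_notMem, Finset.card_singleton]
      simp [hab.ne]
    · rw [Finset.card_image_of_injOn]
      rintro ⟨j, s⟩ hs ⟨k, t⟩ ht hst
      have hs' : s = r := by
        by_contra h
        have : s = r' := by omega
        rw [this] at hs
        rw [Finset.mem_coe, Finsupp.mem_support_iff] at hs
        exact hs (h1 j)
      have ht' : t = r := by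
        by_contra h
        have : t = r' := by omega
        rw [this] at ht
        rw [Finset.mem_coe, Finsupp.mem_support_iff] at ht
        exact ht (h1 k)
      simp only [Prod.mk.injEq, and_true] at hst
      rw [hst, hs', ht']
  · rw [Finset.disjoint_left]
    intro i hi hi'
    obtain ⟨p, hp, rfl⟩ := Finset.mem_image.1 hi'
    simp only [Finset.mem_insert, Finset.mem_singleton, Prod.mk.injEq] at hi
    have h2 : Fin.last 2 ≠ r.castSucc := (Fin.castSucc_lt_last r).ne'
    rcases hi with hi | hi <;> exact h2 hi.2

theorem D_card (x : (ℕ × Fin 2) →₀ ZMod 2) (hx : x ≠ 0) :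
    3 ≤ (D x).support.card ∧ ((D x).support.card ≤ 3 → ∃ p, x = Finsupp.single p 1) := by
  classical
  have hc : ∀ n, 2 + x.support.card ≤ n → 3 ≤ n ∧ (n ≤ 3 → ∃ p, x = Finsupp.single p 1) := by
    intro n hn
    have h1 : 0 < x.support.card := Finset.card_pos.2 (Finsupp.support_nonempty_iff.2 hx)
    refine ⟨by omega, fun h => ?_⟩
    have h2 : x.support.card = 1 := by omega
    rw [Finsupp.card_support_eq_one'] at h2
    obtain ⟨p, b, hb, rfl⟩ := h2
    refine ⟨p, ?_⟩
    rcases zmod2_cases b with h3 | h3
    · exact absurd h3 hb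
    · rw [h3]
  by_cases h0 : ∃ j, x (j, 0) ≠ 0
  · by_cases h1 : ∃ j, x (j, 1) ≠ 0
    · have := four_le x h0 h1
      exact ⟨by omega, fun h => by omega⟩
    · push Not at h1
      exact hc _ (two_add_le x 0 1 (by decide) h0 h1)
  · push Not at h0
    by_cases h1 : ∃ j, x (j, 1) ≠ 0
    · exact hc _ (two_add_le x 1 0 (by decide) h1 h0)
    · push Not at h1
      exfalso
      apply hx
      ext ⟨j, s⟩
      fin_cases s
      · exact h0 j
      · exact h1 j

theorem D_injective : Function.Injective D := by
  rw [← LinearMap.ker_eq_bot, LinearMap.ker_eq_bot']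
  intro x hx
  by_contra h
  have := (D_card x h).1
  rw [hx] at this
  simp at this

/-- All vertices of the first `m` columns. -/
noncomputable def xall (m : ℕ) : (ℕ × Fin 2) →₀ ZMod 2 :=
  Finsupp.onFinset (Finset.range m ×ˢ Finset.univ) (fun p => if p.1 < m then 1 else 0) (by
    intro p hp
    simp only [ne_eq, ite_eq_right_iff, one_ne_zero, imp_false, not_not] at hp
    simp [hp])

theorem xall_apply (m : ℕ) (p : ℕ × Fin 2) : xall m p = if p.1 < m then 1 else 0 := rfl

/-- The half-edges at the two ends of row `r`. -/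
noncomputable def he (m : ℕ) (r : Fin 2) : H :=
  Finsupp.single (0, r.castSucc) 1 + Finsupp.single (m, r.castSucc) 1

theorem D_xall (m : ℕ) (hm : 0 < m) : D (xall m) = he m 0 + he m 1 := by
  ext ⟨j, t⟩
  refine Fin.lastCases ?_ (fun r => ?_) t
  · rw [D_rung, xall_apply, xall_apply]
    unfold he
    have h1 : ∀ r : Fin 2, r.castSucc ≠ Fin.last 2 := fun r => (Fin.castSucc_lt_last r).ne
    simp only [Finsupp.add_apply, Finsupp.single_apply, Prod.mk.injEq, h1, and_false, if_false,
      add_zero]
    split_ifs
    · rfl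
    · rfl
  · rcases Nat.eq_zero_or_pos j with hj | hj
    · subst hj
      rw [D_zero_row, xall_apply]
      unfold he
      simp only [Finsupp.add_apply, Finsupp.single_apply, Prod.mk.injEq, Fin.castSucc_inj,
        hm.ne', false_and, if_false, add_zero, true_and]
      fin_cases r <;> simp [hm]
    · obtain ⟨k, rfl⟩ : ∃ k, j = k + 1 := ⟨j - 1, by omega⟩
      rw [D_succ_row, xall_apply, xall_apply]
      unfold he
      simp only [Finsupp.add_apply, Finsupp.single_apply, Prod.mk.injEq, Fin.castSucc_inj]
      have h2 : ¬ (0 = k + 1) := by omega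
      simp only [h2, false_and, if_false, zero_add]
      have h3 : (if m = k + 1 ∧ (0 : Fin 2) = r then (1 : ZMod 2) else 0) +
          (if m = k + 1 ∧ (1 : Fin 2) = r then 1 else 0) = if m = k + 1 then 1 else 0 := by
        fin_cases r <;> simp
      rw [h3]
      by_cases h4 : k + 1 < m
      · have h5 : k < m := by omega
        have h6 : ¬ (m = k + 1) := by omega
        simp only [h4, h5, h6, if_true, if_false]
        rfl
      · by_cases h5 : k < m
        · have h6 : m = k + 1 := by omega
          rw [if_neg h4, if_pos h5, if_pos h6, zero_add]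
        · have h6 : ¬ (m = k + 1) := by omega
          rw [if_neg h4, if_neg h5, if_neg h6, zero_add]

theorem he_card (m : ℕ) (hm : 0 < m) (r : Fin 2) : (he m r).support.card = 2 := by
  unfold he
  rw [Finsupp.support_add_eq]
  · rw [Finsupp.support_single _ one_ne_zero, Finsupp.support_single _ one_ne_zero]
    rw [Finset.card_union_of_disjoint]
    · simp
    · simp [hm.ne]
  · rw [Finsupp.support_single _ one_ne_zero, Finsupp.support_single _ one_ne_zero]
    simp [hm.ne]

end Pool.Agent.Helper97.Maz
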