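import Mathlib
import Pool.Agent.Helper97.MazLadder

/-!
# The counterexample
-/

open FirstOrder FirstOrder.Language Cardinal Set

namespace Pool.Agent.Helper97.Maz

open Pool.Agent.Helper97.Canon Pool.Agent.Helper97.MT

theorem infinite_ker (f : E →ₗ[ZMod 2] ZMod 2) : {d : V | f (d, 0) = 0}.Infinite := by
  intro hfin
  by_cases h : ∀ d : V, f (d, 0) = 0
  · have : {d : V | f (d, 0) = 0} = Set.univ := Set.eq_univ_of_forall h
    rw [this] at hfin
    exact Set.infinite_univ hfin
  · push Not at h
    obtain ⟨d₀, hd₀⟩ := h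
    have h1 : f (d₀, 0) = 1 := by
      rcases zmod2_cases (f (d₀, 0)) with h2 | h2
      · exact absurd h2 hd₀
      · exact h2
    have h2 : (Set.univ : Set V) ⊆ {d : V | f (d, 0) = 0} ∪
        (fun d => d + d₀) '' {d : V | f (d, 0) = 0} := by
      intro d _
      rcases zmod2_cases (f (d, 0)) with h3 | h3
      · left; exact h3
      · right
        refine ⟨d + d₀, ?_, ?_⟩
        · show f (d + d₀, 0) = 0
          have : ((d + d₀, 0) : E) = (d, 0) + (d₀, 0) := by simp
          rw [this, map_add, h3, h1]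
          rfl
        · show d + d₀ + d₀ = d
          rw [add_assoc, add_self_eq_zero', add_zero]
    exact Set.infinite_univ ((hfin.union (hfin.image _)).subset h2)

/-- Algebraic elements have coordinates in the span. -/
theorem acl_W {B : Set W} {c : W} (h : c ∈ acl (canLang Gr W) B) (i : Fin 2) :
    (c i).1 ∈ spanW B := by
  by_contra hx
  obtain ⟨f, hf, hfx⟩ := exists_functional (spanW B) hx
  have h1 := finite_of_mem_acl h
  have h2 : {y : W | ∃ g : Gr, (∀ a ∈ B, g • a = a) ∧ g • c = y}.Infinite := by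
    have h3 : Infinite {d : V | f (d, 0) = 0} := (infinite_ker f).to_subtype
    let F : {d : V | f (d, 0) = 0} → W := fun d => tv f d.1 d.2 • c
    have hF : Function.Injective F := by
      intro d d' hdd
      have h4 := congrArg (fun w : W => (w i).1) hdd
      simp only [F] at h4
      rw [smul_W, smul_W, tv_apply, tv_apply, hfx, one_smul, one_smul] at h4
      have h5 := add_left_cancel h4
      exact Subtype.ext (congrArg Prod.fst h5)
    refine (Set.infinite_range_of_injective hF).mono ?_
    rintro _ ⟨d, rfl⟩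
    refine ⟨tv f d.1 d.2, ?_, rfl⟩
    apply fix_of_spanW
    intro s hs
    rw [tv_apply, hf s hs, zero_smul, add_zero]
  exact h2 h1

/-- The subspace spanned by the stars of the first `m` columns. -/
noncomputable def EA (m : ℕ) : Submodule (ZMod 2) E :=
  Submodule.map ((LinearMap.inr (ZMod 2) V H).comp D)
    (Finsupp.supported (ZMod 2) (ZMod 2) {p : ℕ × Fin 2 | p.1 < m})

theorem mem_EA (m : ℕ) (e : E) : e ∈ EA m ↔
    ∃ x : (ℕ × Fin 2) →₀ ZMod 2, (∀ p, x p ≠ 0 → p.1 < m) ∧ e = (0, D x) := by
  unfold EA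
  rw [Submodule.mem_map]
  constructor
  · rintro ⟨x, hx, rfl⟩
    refine ⟨x, ?_, rfl⟩
    intro p hp
    exact hx (Finsupp.mem_support_iff.2 hp)
  · rintro ⟨x, hx, rfl⟩
    refine ⟨x, ?_, rfl⟩
    intro p hp
    exact hx p (Finsupp.mem_support_iff.1 hp)

/-- The algebraically closed set. -/
def AW (m : ℕ) : Set W := {w | ∀ i, (w i).1 ∈ EA m}

theorem spanW_AW_le (m : ℕ) : spanW (AW m) ≤ EA m := by
  unfold spanW
  rw [Submodule.span_le]
  rintro _ ⟨w, hw, i, rfl⟩
  exact hw i

theorem subset_acl (A : Set W) : A ⊆ acl (canLang Gr W) A := by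
  intro a ha
  exact ⟨{a}, Definable.singleton_of_mem _ ha, Set.finite_singleton a, rfl⟩

theorem acl_AW (m : ℕ) : acl (canLang Gr W) (AW m) = AW m := by
  apply Set.Subset.antisymm
  · intro c hc i
    exact spanW_AW_le m (acl_W hc i)
  · exact subset_acl _

/-- Low weight elements of `EA m` are zero or a star. -/
theorem EA_low (m : ℕ) (e : E) (he : e ∈ EA m) (hw : wt e ≤ 3) :
    e = 0 ∨ ∃ p : ℕ × Fin 2, p.1 < m ∧ e = (0, star p) := by
  rw [mem_EA] at he
  obtain ⟨x, hx, rfl⟩ := he
  by_cases h0 : x = 0
  · left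
    rw [h0, map_zero]
    rfl
  · right
    obtain ⟨p, rfl⟩ := (D_card x h0).2 hw
    refine ⟨p, hx p (by simp), ?_⟩
    rw [D_single]

theorem finite_AW (m : ℕ) : (AW m).Finite := by
  have h1 : {e : U | e.1 ∈ EA m}.Finite := by
    have h2 : ({0} ∪ (fun p => ((0, star p) : E)) '' {p : ℕ × Fin 2 | p.1 < m}).Finite := by
      apply (Set.finite_singleton _).union
      apply Set.Finite.image
      have : {p : ℕ × Fin 2 | p.1 < m} = (Set.Iio m) ×ˢ (Set.univ : Set (Fin 2)) := by
        ext p; simp
      rw [this]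
      exact (Set.finite_Iio m).prod Set.finite_univ
    refine Set.Finite.of_finite_image (f := Subtype.val) (h2.subset ?_) Subtype.val_injective.injOn
    rintro _ ⟨e, he, rfl⟩
    rcases EA_low m e.1 he e.2 with h | ⟨p, hp, h⟩
    · left; exact h
    · right; exact ⟨p, hp, h.symm⟩
  exact Set.Finite.pi' (t := fun _ : Fin 2 => {e : U | e.1 ∈ EA m}) (fun _ => h1)

theorem wt_star (p : ℕ × Fin 2) : wt ((0, star p) : E) ≤ 3 := by
  unfold wt star
  simp only
  refine (Finset.card_le_card Finsupp.support_add).trans ?_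
  refine (Finset.card_union_le _ _).trans ?_
  have h1 := Finset.card_le_card (Finsupp.support_add
    (g₁ := (Finsupp.single (p.1, p.2.castSucc) (1 : ZMod 2) : H))
    (g₂ := Finsupp.single (p.1 + 1, p.2.castSucc) 1))
  have h2 := Finset.card_union_le
    (Finsupp.single (p.1, p.2.castSucc) (1 : ZMod 2) : H).support
    (Finsupp.single (p.1 + 1, p.2.castSucc) (1 : ZMod 2) : H).support
  have h3 : ∀ i : I, (Finsupp.single i (1 : ZMod 2) : H).support.card = 1 := by
    intro i
    rw [Finsupp.support_single _ one_ne_zero, Finset.card_singleton]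
  have h4 := h3 (p.1, p.2.castSucc)
  have h5 := h3 (p.1 + 1, p.2.castSucc)
  have h6 := h3 (p.1, Fin.last 2)
  omega

/-- The element `b`. -/
noncomputable def bW (m : ℕ) (hm : 0 < m) : W :=
  ![⟨(v₁, he m 0), by unfold wt; simp only; rw [he_card m hm]; norm_num⟩,
    ⟨(0, he m 1), by unfold wt; simp only; rw [he_card m hm]; norm_num⟩]

theorem cW_mem (m : ℕ) (hm : 0 < m) : cW v₁ ∈ acl (canLang Gr W) (AW m ∪ {bW m hm}) := by
  apply mem_acl_of_fixed ((finite_AW m).union (Set.finite_singleton _))
  intro g hg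
  have h1 := spanW_fixed hg
  have h2 : ((v₁, 0) : E) ∈ spanW (AW m ∪ {bW m hm}) := by
    have e1 : ((v₁, 0) : E) = (v₁, he m 0) + (0, he m 1) + (0, D (xall m)) := by
      rw [D_xall m hm]
      apply Prod.ext
      · simp
      · simp only [Prod.snd_add]
        rw [add_self_eq_zero']
    rw [e1]
    apply Submodule.add_mem
    · apply Submodule.add_mem
      · exact mem_spanW (w := bW m hm) (Or.inr rfl) 0
      · exact mem_spanW (w := bW m hm) (Or.inr rfl) 1
    · -- sum of stars
      have e2 : xall m = ∑ p ∈ (Finset.range m ×ˢ (Finset.univ : Finset (Fin 2))),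
          Finsupp.single p 1 := by
        ext q
        rw [xall_apply, Finsupp.finsetSum_apply]
        simp only [Finsupp.single_apply]
        rw [Finset.sum_ite_eq']
        simp
      rw [e2, map_sum]
      have e3 : ((0, ∑ p ∈ (Finset.range m ×ˢ (Finset.univ : Finset (Fin 2))),
          D (Finsupp.single p 1)) : E) =
          ∑ p ∈ (Finset.range m ×ˢ (Finset.univ : Finset (Fin 2))), ((0, star p) : E) := by
        show LinearMap.inr (ZMod 2) V H (∑ p ∈ (Finset.range m ×ˢ (Finset.univ : Finset (Fin 2))),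
          D (Finsupp.single p 1)) = _
        rw [map_sum]
        refine Finset.sum_congr rfl fun p _ => ?_
        rw [D_single]
        rfl
      rw [e3]
      apply Submodule.sum_mem
      intro p hp
      have hp' : p.1 < m := by simpa using hp
      have h3 : (![⟨(0, star p), wt_star p⟩, uV 0] : W) ∈ AW m := by
        intro i
        fin_cases i
        · show ((0, star p) : E) ∈ EA m
          rw [mem_EA]
          refine ⟨Finsupp.single p 1, ?_, by rw [D_single]⟩
          intro q hq
          rw [Finsupp.single_apply] at hq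
          split_ifs at hq with h4
          · rw [← h4]; exact hp'
          · exact absurd rfl hq
        · show ((0, 0) : E) ∈ EA m
          exact Submodule.zero_mem _
      exact mem_spanW (B := AW m ∪ {bW m hm}) (w := (![⟨(0, star p), wt_star p⟩, uV 0] : W))
        (Or.inl h3) 0
  have h3 := h1 _ h2
  obtain ⟨v', h4, h5⟩ := smul_cW g v₁
  rw [h4]
  rw [h5] at h3
  rw [show v' = v₁ from congrArg Prod.fst h3]

theorem cW_notMem (n : ℕ) (A' : Set W) (hA' : A' ⊆ AW (n + 1)) (hc : A'.encard ≤ n) :
    cW v₁ ∉ acl (canLang Gr W) (A' ∪ {bW (n + 1) (Nat.succ_pos n)}) := by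
  classical
  intro h
  set m := n + 1 with hm
  have hm0 : 0 < m := Nat.succ_pos n
  have hfin : A'.Finite := Set.finite_of_encard_le_coe hc
  -- the set of vertices used
  let P : Set (ℕ × Fin 2) := {p | ∃ w ∈ A', ∃ i, (w i).1 = ((0, star p) : E)}
  have star_inj : ∀ p q : ℕ × Fin 2, star p = star q → p = q := by
    intro p q hpq
    rw [← D_single, ← D_single] at hpq
    have := D_injective hpq
    exact (Finsupp.single_left_inj one_ne_zero).1 this
  -- some vertex is not used
  have hex : ∃ q : ℕ × Fin 2, q.1 < m ∧ q ∉ P := by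
    by_contra hcon
    push Not at hcon
    have hcard : ((Set.Iio m ×ˢ (Set.univ : Set (Fin 2)))).encard ≤ (A' ×ˢ (Set.univ : Set (Fin 2))).encard := by
      have hsub : ∀ q : ℕ × Fin 2, q ∈ (Set.Iio m ×ˢ (Set.univ : Set (Fin 2))) → ∃ z : W × Fin 2,
          z ∈ A' ×ˢ (Set.univ : Set (Fin 2)) ∧ (z.1 z.2).1 = ((0, star q) : E) := by
        intro q hq
        obtain ⟨w, hw, i, hi⟩ := hcon q hq.1
        exact ⟨(w, i), ⟨hw, trivial⟩, hi⟩
      choose! F hF1 hF2 using hsub
      have hinj : Set.InjOn F (Set.Iio m ×ˢ (Set.univ : Set (Fin 2))) := by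
        intro q hq q' hq' hqq
        have e1 := hF2 q hq
        have e2 := hF2 q' hq'
        rw [hqq, e2] at e1
        exact (star_inj _ _ (congrArg Prod.snd e1)).symm
      rw [← hinj.encard_image]
      apply Set.encard_le_encard
      rintro _ ⟨q, hq, rfl⟩
      exact hF1 q hq
    have h1 : ((Set.Iio m ×ˢ (Set.univ : Set (Fin 2)))).encard = ((2 * m : ℕ) : ℕ∞) := by
      have : (Set.Iio m ×ˢ (Set.univ : Set (Fin 2))) =
          ((Finset.range m ×ˢ (Finset.univ : Finset (Fin 2)) : Finset (ℕ × Fin 2)) :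
            Set (ℕ × Fin 2)) := by
        ext; simp
      rw [this, Set.encard_coe_eq_coe_finsetCard, Finset.card_product]
      simp [mul_comm]
    have h2 : (A' ×ˢ (Set.univ : Set (Fin 2))).encard ≤ ((2 * n : ℕ) : ℕ∞) := by
      obtain ⟨t, rfl⟩ := hfin.exists_finset_coe
      have : ((t : Set W) ×ˢ (Set.univ : Set (Fin 2))) =
          ((t ×ˢ (Finset.univ : Finset (Fin 2)) : Finset (W × Fin 2)) : Set (W × Fin 2)) := by
        ext; simp
      rw [this, Set.encard_coe_eq_coe_finsetCard, Finset.card_product]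
      rw [Set.encard_coe_eq_coe_finsetCard] at hc
      have h3 : t.card ≤ n := by exact_mod_cast hc
      have h4 : t.card * (Finset.univ : Finset (Fin 2)).card ≤ 2 * n := by
        simp only [Finset.card_univ, Fintype.card_fin]
        omega
      exact_mod_cast h4
    rw [h1] at hcard
    have h3 := hcard.trans h2
    have h4 : 2 * m ≤ 2 * n := by exact_mod_cast h3
    omega
  obtain ⟨q, hqm, hqP⟩ := hex
  -- the submodule containing all coordinates
  let S0 : Submodule (ZMod 2) E := Submodule.map ((LinearMap.inr (ZMod 2) V H).comp D)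
    (LinearMap.ker (Finsupp.lapply q : ((ℕ × Fin 2) →₀ ZMod 2) →ₗ[ZMod 2] ZMod 2))
  let S1 : Submodule (ZMod 2) E := Submodule.span (ZMod 2) {((v₁, he m 0) : E), (0, he m 1)}
  have hle : spanW (A' ∪ {bW m hm0}) ≤ S0 ⊔ S1 := by
    unfold spanW
    rw [Submodule.span_le]
    rintro _ ⟨w, hw, i, rfl⟩
    rcases hw with hw | hw
    · apply Submodule.mem_sup_left
      have h1 := hA' hw i
      rcases EA_low m _ h1 (w i).2 with h2 | ⟨p, hp, h2⟩
      · rw [h2]; exact Submodule.zero_mem _
      · rw [h2]
        have hpq : p ≠ q := by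
          rintro rfl
          exact hqP ⟨w, hw, i, h2⟩
        refine ⟨Finsupp.single p 1, ?_, ?_⟩
        · show (Finsupp.single p 1 : (ℕ × Fin 2) →₀ ZMod 2) ∈ LinearMap.ker _
          rw [LinearMap.mem_ker, Finsupp.lapply_apply, Finsupp.single_apply, if_neg hpq]
        · show ((0, D (Finsupp.single p 1)) : E) = (0, star p)
          rw [D_single]
    · apply Submodule.mem_sup_right
      rw [Set.mem_singleton_iff] at hw
      subst hw
      apply Submodule.subset_span
      fin_cases i
      · left; rfl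
      · right; rfl
  have h1 := hle (acl_W h 0)
  have h2 : ((cW v₁ 0).1 : E) = (v₁, 0) := rfl
  rw [h2] at h1
  obtain ⟨y, hy, z, hz, hyz⟩ := Submodule.mem_sup.1 h1
  obtain ⟨x, hx, rfl⟩ := hy
  have hx' : x q = 0 := hx
  rw [Submodule.mem_span_pair] at hz
  obtain ⟨ε, δ, rfl⟩ := hz
  have e1 : ε • v₁ = v₁ := by
    have := congrArg Prod.fst hyz
    simpa using this
  have e2 : D x + (ε • he m 0 + δ • he m 1) = 0 := by
    have := congrArg Prod.snd hyz
    simpa using this
  have hε : ε = 1 := by
    rcases zmod2_cases ε with h3 | h3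
    · rw [h3, zero_smul] at e1
      exact absurd e1.symm v₁_ne
    · exact h3
  rw [hε, one_smul] at e2
  rcases zmod2_cases δ with hδ | hδ
  · rw [hδ, zero_smul, add_zero] at e2
    have h3 : D x = he m 0 := by
      have := eq_add_of_add_eq e2
      rw [zero_add] at this
      exact this
    have h4 := he_card m hm0 0
    by_cases h0 : x = 0
    · rw [h0, map_zero] at h3
      rw [← h3] at h4
      simp at h4
    · have := (D_card x h0).1
      rw [h3, h4] at this
      omega
  · rw [hδ, one_smul, ← D_xall m hm0, ← map_add] at e2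
    have h3 : x + xall m = 0 := D_injective (by rw [e2, map_zero])
    have h4 : x = xall m := by
      have := eq_add_of_add_eq h3
      rw [zero_add] at this
      exact this
    rw [h4, xall_apply, if_pos hqm] at hx'
    exact one_ne_zero hx'

end Pool.Agent.Helper97.Maz
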